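import Pool.Agent.Helper77.Gal.Hit

/-!
# Metric geometry of a network
-/

open Set MeasureTheory Filter Topology
open scoped ENNReal NNReal

namespace Pool.Agent.Gal

/-- `c : [0, L] → Q` is the chart of an arc: it is `1`-Lipschitz, isometric on short pieces,
its interior is open in `Q` and met only once. -/
structure IsChart {Q : Type*} [MetricSpace Q] (c : ℝ → Q) (L : ℝ) : Prop where
  pos : 0 < L
  lip : ∀ x ∈ Icc 0 L, ∀ y ∈ Icc 0 L, dist (c x) (c y) ≤ |x - y|
  iso : ∀ x ∈ Icc 0 L, ∀ y ∈ Icc 0 L, |x - y| ≤ L / 2 → dist (c x) (c y) = |x - y|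
  opn : ∀ x ∈ Ioo 0 L, ∀ q, dist (c x) q < min x (L - x) →
    ∃ y ∈ Ioo 0 L, c y = q ∧ |x - y| = dist (c x) q
  inj : ∀ x ∈ Ioo 0 L, ∀ y ∈ Icc 0 L, c x = c y → x = y

namespace IsChart

variable {Q : Type*} [MetricSpace Q] {c : ℝ → Q} {L : ℝ}

/-- the reversed chart -/
theorem reverse (h : IsChart c L) : IsChart (fun x => c (L - x)) L where
  pos := h.pos
  lip := fun x hx y hy => by
    have := h.lip (L - x) ⟨by linarith [hx.2], by linarith [hx.1]⟩ (L - y)
      ⟨by linarith [hy.2], by linarith [hy.1]⟩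
    rwa [show L - x - (L - y) = -(x - y) by ring, abs_neg] at this
  iso := fun x hx y hy hxy => by
    have := h.iso (L - x) ⟨by linarith [hx.2], by linarith [hx.1]⟩ (L - y)
      ⟨by linarith [hy.2], by linarith [hy.1]⟩
    rw [show L - x - (L - y) = -(x - y) by ring, abs_neg] at this
    exact this hxy
  opn := fun x hx q hq => by
    obtain ⟨y, hy, rfl, hy2⟩ := h.opn (L - x) ⟨by linarith [hx.2], by linarith [hx.1]⟩ q (by
      rw [min_comm]; simpa using hq)
    refine ⟨L - y, ⟨by linarith [hy.2], by linarith [hy.1]⟩, by simp, ?_⟩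
    rw [← hy2, show x - (L - y) = -(L - x - y) by ring, abs_neg]
  inj := fun x hx y hy hxy => by
    have := h.inj (L - x) ⟨by linarith [hx.2], by linarith [hx.1]⟩ (L - y)
      ⟨by linarith [hy.2], by linarith [hy.1]⟩ hxy
    linarith

theorem isOpen_image (h : IsChart c L) {a b : ℝ} (ha : 0 ≤ a) (hb : b ≤ L) :
    IsOpen (c '' Ioo a b) := by
  rw [Metric.isOpen_iff]
  rintro _ ⟨x, hx, rfl⟩
  have hx0 : x ∈ Ioo 0 L := ⟨ha.trans_lt hx.1, hx.2.trans_le hb⟩
  refine ⟨min (min x (L - x)) (min (x - a) (b - x)), ?_, ?_⟩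
  · exact lt_min (lt_min hx0.1 (by linarith [hx0.2])) (lt_min (by linarith [hx.1])
      (by linarith [hx.2]))
  · intro q hq
    rw [Metric.mem_ball, dist_comm] at hq
    obtain ⟨h1, h2⟩ := lt_min_iff.1 hq
    obtain ⟨h2, h3⟩ := lt_min_iff.1 h2
    obtain ⟨y, hy, rfl, hd⟩ := h.opn x hx0 q h1
    rw [← hd] at h2 h3
    exact ⟨y, ⟨by linarith [(abs_lt.1 h2).2], by linarith [(abs_lt.1 h3).1]⟩, rfl⟩

theorem continuousOn (h : IsChart c L) : ContinuousOn c (Icc 0 L) := by
  have : LipschitzOnWith 1 c (Icc 0 L) := LipschitzOnWith.of_dist_le_mul fun x hx y hy => by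
    simpa [Real.dist_eq] using h.lip x hx y hy
  exact this.continuousOn

theorem isClosed_image (h : IsChart c L) {a b : ℝ} (ha : 0 ≤ a) (hb : b ≤ L) :
    IsClosed (c '' Icc a b) :=
  (isCompact_Icc.image_of_continuousOn (h.continuousOn.mono (Icc_subset_Icc ha hb))).isClosed

end IsChart

namespace Network

variable {N : Network}

/-- A function on raw points which is `K`-Lipschitz along the arcs and well defined at the nodes is
`K`-Lipschitz for the shortest-path distance. -/
theorem pot_le {f : N.Pt → ℝ} {K : ℝ} (hK : 0 ≤ K)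
    (h1 : ∀ e x y hx hy, |f ⟨e, x, hx⟩ - f ⟨e, y, hy⟩| ≤ K * |x - y|)
    (h2 : ∀ p q v, N.IsNode p v → N.IsNode q v → f p = f q) (p q : N.Pt) :
    |f p - f q| ≤ K * dist p q := by
  have key : ∀ p q r, N.Route p q r → |f p - f q| ≤ K * r := by
    intro p q r h
    induction h with
    | along e x y hx hy => exact h1 e x y hx hy
    | glue p q v hp hq => simp [h2 p q v hp hq]
    | trans p q w r s _ _ ih1 ih2 =>
      calc |f p - f w| = |(f p - f q) + (f q - f w)| := by ring_nf
        _ ≤ |f p - f q| + |f q - f w| := abs_add_le _ _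
        _ ≤ K * (r + s) := by linarith
  rcases hK.eq_or_lt with rfl | hK
  · obtain ⟨r, hr⟩ := exists_route p q
    simpa using key p q r hr
  · rw [← div_le_iff₀' hK]
    refine le_csInf (exists_route p q) fun r hr => ?_
    rw [div_le_iff₀' hK]
    exact key p q r hr

/-- collapse of everything but the arc `e`, on raw points -/
noncomputable def circPt (e : N.E) (p : N.Pt) : AddCircle (N.len e) :=
  if p.arc = e then (p.pos : AddCircle (N.len e)) else 0

theorem circPt_node (e : N.E) {p : N.Pt} {v : N.V} (h : N.IsNode p v) : circPt e p = 0 := by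
  unfold circPt
  split_ifs with he
  · subst he
    rcases h with h | h
    · rw [h.1]; simp
    · rw [h.1]; exact AddCircle.coe_period _
  · rfl

theorem circPt_dist (e : N.E) (p q : N.Pt) : dist (circPt e p) (circPt e q) ≤ dist p q := by
  have := pot_le (N := N) (f := fun w => ‖circPt e w - circPt e q‖) (K := 1) zero_le_one ?_ ?_ p q
  · rw [dist_eq_norm]
    simpa using this
  · intro f x y hx hy
    rw [one_mul]
    refine (abs_norm_sub_norm_le _ _).trans ?_
    rw [sub_sub_sub_cancel_right]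
    by_cases hf : f = e
    · subst hf
      simp only [circPt, if_true]
      rw [← AddCircle.coe_sub]
      exact QuotientAddGroup.norm_mk_le_norm
    · simp [circPt, hf]
  · intro p' q' v hp hq
    rw [circPt_node e hp, circPt_node e hq]

variable (N) in
/-- class of a raw point -/
noncomputable def cls (p : N.Pt) : N.Q := SeparationQuotient.mk p

theorem mk_surj (q : N.Q) : ∃ p : N.Pt, N.cls p = q := SeparationQuotient.surjective_mk q

theorem dist_mk (p q : N.Pt) : dist (N.cls p) (N.cls q) = dist p q := rfl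

variable (N) in
/-- The map of the network onto a circle which collapses everything but the arc `e`. -/
noncomputable def circ (e : N.E) : N.Q → AddCircle (N.len e) :=
  SeparationQuotient.lift (circPt e) (fun p q h => by
    rw [Metric.inseparable_iff] at h
    exact dist_le_zero.1 ((circPt_dist e p q).trans h.le))

theorem circ_mk (e : N.E) (p : N.Pt) : N.circ e (N.cls p) = circPt e p := rfl

theorem circ_lip (e : N.E) : LipschitzWith 1 (N.circ e) := by
  refine LipschitzWith.of_dist_le_mul fun p q => ?_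
  obtain ⟨p, rfl⟩ := mk_surj p
  obtain ⟨q, rfl⟩ := mk_surj q
  simpa [circ_mk, dist_mk] using circPt_dist e p q

theorem pt_eq (e : N.E) {x : ℝ} (hx : x ∈ Icc 0 (N.len e)) :
    N.pt e x = N.cls ⟨e, x, hx⟩ := by
  unfold pt cls
  congr 2
  simp [projIcc_of_mem _ hx]

theorem circ_pt (e : N.E) {x : ℝ} (hx : x ∈ Icc 0 (N.len e)) : N.circ e (N.pt e x) = x := by
  rw [pt_eq e hx, circ_mk]
  simp [circPt]

theorem circ_pt_ne {e f : N.E} (h : f ≠ e) (x : ℝ) : N.circ e (N.pt f x) = 0 := by
  change circPt e _ = _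
  simp [circPt, h]

theorem exists_pt (q : N.Q) : ∃ e, ∃ x ∈ Icc 0 (N.len e), N.pt e x = q := by
  obtain ⟨q, rfl⟩ := mk_surj q
  exact ⟨q.arc, q.pos, q.mem, pt_eq _ q.mem⟩

theorem dist_pt_le (e : N.E) {x y : ℝ} (hx : x ∈ Icc 0 (N.len e)) (hy : y ∈ Icc 0 (N.len e)) :
    dist (N.pt e x) (N.pt e y) ≤ |x - y| := by
  rw [pt_eq e hx, pt_eq e hy, dist_mk]
  exact rdist_le (Route.along e x y hx hy)

theorem norm_coe_of {L x : ℝ} (hL : 0 < L) (hx : |x| ≤ L / 2) : ‖(x : AddCircle L)‖ = |x| := by
  rw [AddCircle.norm_coe_eq_abs_iff _ hL.ne', abs_of_pos hL]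
  exact hx

theorem norm_coe_of' {L x : ℝ} (hL : 0 < L) (h1 : L / 2 ≤ x) (h2 : x ≤ L) :
    ‖(x : AddCircle L)‖ = L - x := by
  have : ((x : ℝ) : AddCircle L) = ((x - L : ℝ) : AddCircle L) := by
    rw [AddCircle.coe_sub, AddCircle.coe_period, sub_zero]
  rw [this, norm_coe_of hL, abs_of_nonpos (by linarith)]
  · ring
  · rw [abs_of_nonpos (by linarith)]; linarith

theorem dist_pt_ge (e : N.E) {x y : ℝ} (hx : x ∈ Icc 0 (N.len e)) (hy : y ∈ Icc 0 (N.len e)) :
    min |x - y| (N.len e - |x - y|) ≤ dist (N.pt e x) (N.pt e y) := by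
  have h := (circ_lip e).dist_le_mul (N.pt e x) (N.pt e y)
  rw [circ_pt e hx, circ_pt e hy, dist_eq_norm, ← AddCircle.coe_sub] at h
  simp only [NNReal.coe_one, one_mul] at h
  refine le_trans ?_ h
  have hL := N.len_pos e
  rcases le_total |x - y| (N.len e / 2) with h1 | h1
  · rw [norm_coe_of hL h1]; exact min_le_left _ _
  · rcases le_total y x with hxy | hxy
    · rw [abs_of_nonneg (by linarith)] at h1 ⊢
      rw [norm_coe_of' hL h1 (by linarith [hx.2, hy.1])]
      exact min_le_right _ _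
    · rw [abs_of_nonpos (by linarith)] at h1 ⊢
      rw [← norm_neg, ← AddCircle.coe_neg, norm_coe_of' hL (by linarith) (by linarith [hx.1, hy.2])]
      refine (min_le_right _ _).trans ?_
      linarith

/-- distance from an interior point of an arc to a point outside the arc -/
theorem dist_pt_out (e : N.E) {x : ℝ} (hx : x ∈ Icc 0 (N.len e)) {q : N.Q} (hq : N.circ e q = 0) :
    min x (N.len e - x) ≤ dist (N.pt e x) q := by
  have h := (circ_lip e).dist_le_mul (N.pt e x) q
  rw [circ_pt e hx, hq, dist_zero_right] at h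
  simp only [NNReal.coe_one, one_mul] at h
  refine le_trans ?_ h
  have hL := N.len_pos e
  rcases le_total x (N.len e / 2) with h1 | h1
  · rw [norm_coe_of hL (by rw [abs_of_nonneg hx.1]; exact h1), abs_of_nonneg hx.1]
    exact min_le_left _ _
  · rw [norm_coe_of' hL h1 hx.2]; exact min_le_right _ _

theorem circ_eq_zero_of {e f : N.E} {y : ℝ} (hy : y ∈ Icc 0 (N.len f))
    (h : f ≠ e ∨ y = 0 ∨ y = N.len f) : N.circ e (N.pt f y) = 0 := by
  by_cases hf : f = e
  · subst hf
    rcases h with h | h | h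
    · exact absurd rfl h
    · rw [circ_pt f hy, h]; simp
    · rw [circ_pt f hy, h]; exact AddCircle.coe_period _
  · exact circ_pt_ne hf y

theorem circ_ne_zero {e : N.E} {x : ℝ} (hx : x ∈ Ioo 0 (N.len e)) : N.circ e (N.pt e x) ≠ 0 := by
  intro h
  have h1 := dist_pt_out e ⟨hx.1.le, hx.2.le⟩ h
  rw [dist_self] at h1
  rcases min_le_iff.1 h1 with h2 | h2
  · exact absurd hx.1 (not_lt.2 h2)
  · linarith [hx.2]

/-- an interior point of an arc determines the arc and the position -/
theorem pt_inj {e f : N.E} {x y : ℝ} (hx : x ∈ Ioo 0 (N.len e)) (hy : y ∈ Icc 0 (N.len f))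
    (h : N.pt e x = N.pt f y) : e = f ∧ x = y := by
  by_cases hf : f = e
  · subst hf
    refine ⟨rfl, ?_⟩
    have h1 := dist_pt_ge f ⟨hx.1.le, hx.2.le⟩ hy
    rw [h, dist_self] at h1
    rcases min_le_iff.1 h1 with h2 | h2
    · linarith [abs_nonpos_iff.1 h2]
    · exfalso
      rcases le_total x y with hxy | hxy
      · rw [abs_of_nonpos (by linarith)] at h2; linarith [hx.1, hy.2]
      · rw [abs_of_nonneg (by linarith)] at h2; linarith [hx.2, hy.1]
  · exact absurd (h ▸ circ_pt_ne hf y) (circ_ne_zero hx)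

variable (N) in
/-- the arcs are charts -/
theorem isChart (e : N.E) : IsChart (N.pt e) (N.len e) where
  pos := N.len_pos e
  lip := fun x hx y hy => dist_pt_le e hx hy
  iso := fun x hx y hy hxy => by
    refine le_antisymm (dist_pt_le e hx hy) (le_trans ?_ (dist_pt_ge e hx hy))
    exact le_min le_rfl (by linarith)
  opn := fun x hx q hq => by
    obtain ⟨f, y, hy, rfl⟩ := exists_pt q
    have hx' : x ∈ Icc 0 (N.len e) := ⟨hx.1.le, hx.2.le⟩
    have hne : ¬ (f ≠ e ∨ y = 0 ∨ y = N.len f) := fun h =>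
      absurd (dist_pt_out e hx' (circ_eq_zero_of hy h)) (not_le.2 hq)
    push Not at hne
    obtain ⟨rfl, hy0, hyL⟩ := hne
    refine ⟨y, ⟨lt_of_le_of_ne hy.1 (Ne.symm hy0), lt_of_le_of_ne hy.2 hyL⟩, rfl, ?_⟩
    refine le_antisymm ?_ (dist_pt_le f hx' hy)
    rcases min_le_iff.1 (dist_pt_ge f hx' hy) with h2 | h2
    · exact h2
    · exfalso
      have h3 := hq.trans_le (min_le_left _ _)
      have h4 := hq.trans_le (min_le_right _ _)
      rcases le_total x y with hxy | hxy
      · rw [abs_of_nonpos (by linarith)] at h2; linarith [hy.2]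
      · rw [abs_of_nonneg (by linarith)] at h2; linarith [hy.1]
  inj := fun x hx y hy h => (pt_inj hx hy h).2

variable (N) in
/-- the node `v` as a point of the network -/
noncomputable def node (v : N.V) : N.Q := N.cls (exists_isNode v).choose

theorem mk_eq_node {p : N.Pt} {v : N.V} (h : N.IsNode p v) : N.cls p = N.node v := by
  refine dist_le_zero.1 ?_
  rw [node, dist_mk]
  exact rdist_le (Route.glue _ _ v h (exists_isNode v).choose_spec)

theorem pt_zero (e : N.E) : N.pt e 0 = N.node (N.src e) := by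
  rw [pt_eq e ⟨le_rfl, (N.len_pos e).le⟩]
  exact mk_eq_node (Or.inl ⟨rfl, rfl⟩)

theorem pt_len (e : N.E) : N.pt e (N.len e) = N.node (N.tgt e) := by
  rw [pt_eq e ⟨(N.len_pos e).le, le_rfl⟩]
  exact mk_eq_node (Or.inr ⟨rfl, rfl⟩)

theorem circ_node (e : N.E) (v : N.V) : N.circ e (N.node v) = 0 :=
  circPt_node e (exists_isNode v).choose_spec

theorem node_ne_pt {e : N.E} {x : ℝ} (hx : x ∈ Ioo 0 (N.len e)) (v : N.V) :
    N.pt e x ≠ N.node v := fun h => circ_ne_zero hx (h ▸ circ_node e v)

instance : CompactSpace N.Q := by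
  constructor
  have : (univ : Set N.Q) = ⋃ e : N.E, N.pt e '' Icc 0 (N.len e) := by
    ext q
    obtain ⟨e, x, hx, rfl⟩ := exists_pt q
    simp only [mem_univ, mem_iUnion, true_iff]
    exact ⟨e, x, hx, rfl⟩
  rw [this]
  exact isCompact_iUnion fun e => isCompact_Icc.image_of_continuousOn (N.isChart e).continuousOn

end Network

end Pool.Agent.Gal
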