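import Pool.Agent.Helper77.Gal.CoreDefs

/-!
# Combinatorial conclusion
-/

open Set MeasureTheory Filter Topology
open scoped ENNReal NNReal

namespace Pool.Agent.Gal

namespace Network

variable {N : Network}

theorem inc_pos_src (e : N.E) : N.inc (N.src e) e ≠ 0 := by simp [inc]

theorem inc_pos_tgt (e : N.E) : N.inc (N.tgt e) e ≠ 0 := by simp [inc]

theorem inc_zero {v : N.V} {e : N.E} (h : N.inc v e = 0) : N.src e ≠ v ∧ N.tgt e ≠ v := by
  unfold inc at h
  constructor
  · intro h'; simp [h'] at h
  · intro h'; simp [h'] at h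

/-- at a leaf there is only one arc -/
theorem leaf_inc {b : N.V} {e₀ : N.E} (hb : ∑ e, N.inc b e = 1) (he₀ : N.inc b e₀ ≠ 0) {e : N.E}
    (he : e ≠ e₀) : N.inc b e = 0 := by
  classical
  by_contra h
  have h1 : N.inc b e + N.inc b e₀ ≤ ∑ e, N.inc b e := by
    calc N.inc b e + N.inc b e₀ = ∑ f ∈ ({e, e₀} : Finset N.E), N.inc b f := by
          rw [Finset.sum_pair he]
      _ ≤ ∑ e, N.inc b e := Finset.sum_le_univ_sum_of_nonneg (fun _ => Nat.zero_le _)
  omega

/-- adjacency without the arc `e` -/
def AdjW (N : Network) (e : N.E) (a b : N.V) : Prop :=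
  ∃ f, f ≠ e ∧ ((N.src f = a ∧ N.tgt f = b) ∨ (N.src f = b ∧ N.tgt f = a))

theorem AdjW.symm {e : N.E} {a b : N.V} (h : N.AdjW e a b) : N.AdjW e b a := by
  obtain ⟨f, hf, h | h⟩ := h
  · exact ⟨f, hf, Or.inr h⟩
  · exact ⟨f, hf, Or.inl h⟩

theorem rtg_symm {α : Type*} {r : α → α → Prop} (hr : ∀ a b, r a b → r b a) {a b : α}
    (h : Relation.ReflTransGen r a b) : Relation.ReflTransGen r b a := by
  induction h with
  | refl => exact .refl
  | tail _ hbc ih => exact Relation.ReflTransGen.head (hr _ _ hbc) ih

/-- the pendant arc is a bridge -/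
theorem leaf_bridge {b : N.V} {e₀ : N.E} (hb : ∑ e, N.inc b e = 1) (he₀ : N.inc b e₀ ≠ 0)
    {a : N.V} (hab : a ≠ b) : N.IsBridge e₀ := by
  intro h
  have h1 := h b a
  rcases Relation.ReflTransGen.cases_head h1 with h2 | ⟨c, ⟨f, hf, hf'⟩, _⟩
  · exact hab h2.symm
  · have := inc_zero (leaf_inc hb he₀ hf)
    rcases hf' with h | h
    · exact this.1 h.1
    · exact this.2 h.2

/-- an even vector has an even value at every bridge -/
theorem even_of_bridge {n : N.E → ℕ} (hn : N.EvenVec n) {e : N.E} (he : N.IsBridge e) :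
    Even (n e) := by
  classical
  have hsep : ¬ Relation.ReflTransGen (N.AdjW e) (N.src e) (N.tgt e) := by
    intro h
    apply he
    intro u v
    have hstep : ∀ x y, (∃ f, (N.src f = x ∧ N.tgt f = y) ∨ (N.src f = y ∧ N.tgt f = x)) →
        Relation.ReflTransGen (N.AdjW e) x y := by
      rintro x y ⟨f, hf⟩
      by_cases hfe : f = e
      · subst hfe
        rcases hf with ⟨rfl, rfl⟩ | ⟨rfl, rfl⟩
        · exact h
        · exact rtg_symm (fun _ _ => AdjW.symm) h
      · exact .single ⟨f, hfe, hf⟩
    have := N.conn u v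
    induction this with
    | refl => exact .refl
    | tail _ h2 ih => exact ih.trans (hstep _ _ h2)
  let S : Finset N.V := Finset.univ.filter fun v => Relation.ReflTransGen (N.AdjW e) (N.src e) v
  have hS : ∀ f, f ≠ e → (N.src f ∈ S ↔ N.tgt f ∈ S) := by
    intro f hf
    simp only [S, Finset.mem_filter, Finset.mem_univ, true_and]
    constructor
    · intro h; exact h.tail ⟨f, hf, Or.inl ⟨rfl, rfl⟩⟩
    · intro h; exact h.tail ⟨f, hf, Or.inr ⟨rfl, rfl⟩⟩
  have hsum : Even (∑ v ∈ S, ∑ f, n f * N.inc v f) := Finset.even_sum _ fun v _ => hn v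
  rw [Finset.sum_comm] at hsum
  have hinc : ∀ f, ∑ v ∈ S, n f * N.inc v f =
      n f * ((if N.src f ∈ S then 1 else 0) + (if N.tgt f ∈ S then 1 else 0)) := by
    intro f
    rw [← Finset.mul_sum]
    congr 1
    simp only [inc, Finset.sum_add_distrib, Finset.sum_ite_eq]
  simp only [hinc] at hsum
  rw [← Finset.add_sum_erase _ _ (Finset.mem_univ e)] at hsum
  have hrest : Even (∑ f ∈ Finset.univ.erase e, n f * ((if N.src f ∈ S then 1 else 0) +
      (if N.tgt f ∈ S then 1 else 0))) := by
    refine Finset.even_sum _ fun f hf => ?_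
    have := hS f (Finset.ne_of_mem_erase hf)
    by_cases h1 : N.src f ∈ S
    · have h2 := this.1 h1
      simp [h1, h2]
    · have h2 : N.tgt f ∉ S := fun h => h1 (this.2 h)
      simp [h1, h2]
  have h1 : N.src e ∈ S := by simp [S, Relation.ReflTransGen.refl]
  have h2 : N.tgt e ∉ S := by simpa [S] using hsep
  have := (Nat.even_add.1 hsum).2 hrest
  simpa [h1, h2] using this

/-- the combinatorial conclusion -/
theorem weaklyEulerian_of {b : N.V} {e₀ : N.E} (hb : ∑ e, N.inc b e = 1) (he₀ : N.inc b e₀ ≠ 0)
    {a : N.V} (hab : a ≠ b) {n : N.E → ℕ} (hn : N.EvenVec n) (h2 : ∀ e, n e ≤ 2)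
    (h1 : ∀ e, e ≠ e₀ → n e ≠ 0) (hbr : ∀ e, e ≠ e₀ → n e = 2 → N.IsBridge e) :
    N.WeaklyEulerian := by
  classical
  intro v
  have hsplit : ∑ e, n e * N.inc v e =
      ∑ e with ¬ N.IsBridge e, n e * N.inc v e + ∑ e with ¬ ¬ N.IsBridge e, n e * N.inc v e :=
    (Finset.sum_filter_add_sum_filter_not _ _ _).symm
  have heven := hn v
  rw [hsplit] at heven
  have hb' : Even (∑ e with ¬ ¬ N.IsBridge e, n e * N.inc v e) := by
    refine Finset.even_sum _ fun e he => ?_
    have he' : N.IsBridge e := by simpa using he
    exact (even_of_bridge hn he').mul_right _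
  have h3 := (Nat.even_add.1 heven).2 hb'
  convert h3 using 1
  · refine Finset.sum_congr ?_ fun e he => ?_
    · ext e; simp
    · have he' : ¬ N.IsBridge e := by simpa using he
      have hne : e ≠ e₀ := fun h => he' (h ▸ leaf_bridge hb he₀ hab)
      have h4 : n e ≠ 2 := fun h => he' (hbr e hne h)
      have h5 := h1 e hne
      have h6 := h2 e
      have : n e = 1 := by omega
      rw [this, one_mul]

/-- connectivity of the support after removing a non-bridge -/
theorem suppConn_of_not_bridge {b : N.V} {e₀ : N.E} (hb : ∑ e, N.inc b e = 1)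
    (he₀ : N.inc b e₀ ≠ 0) {a : N.V} (hab : a ≠ b) (ha : N.inc a e₀ ≠ 0) {n : N.E → ℕ} {f : N.E}
    (hn : ∀ e, e ≠ e₀ → e ≠ f → n e ≠ 0) (hf : ¬ N.IsBridge f) {u : N.V} (hu : u ≠ b) :
    N.SuppConn n a u := by
  classical
  unfold IsBridge at hf
  push Not at hf
  have h := hf a u
  have key : ∀ w, Relation.ReflTransGen (fun a b => ∃ g, g ≠ f ∧ ((N.src g = a ∧ N.tgt g = b) ∨
      (N.src g = b ∧ N.tgt g = a))) a w → w = b ∨ N.SuppConn n a w := by
    intro w hw
    induction hw with
    | refl => exact Or.inr .refl
    | @tail x y _ hxy ih =>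
      obtain ⟨g, hg, hg'⟩ := hxy
      by_cases hge : g = e₀
      · subst hge
        -- the arc `e₀` joins `a` and `b`
        have hends : ∀ z, N.inc z g ≠ 0 → z = a ∨ z = b := by
          intro z hz
          unfold inc at hz ha he₀
          by_cases hs : N.src g = b
          · by_cases ht : N.tgt g = b
            · exfalso
              have : N.inc b g ≤ ∑ e, N.inc b e :=
                Finset.single_le_sum (f := fun e => N.inc b e) (fun _ _ => Nat.zero_le _)
                  (Finset.mem_univ g)
              rw [hb] at this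
              simp [inc, hs, ht] at this
            · have hta : N.tgt g = a := by
                by_contra hta
                apply ha
                simp [hs, Ne.symm hab, hta]
              by_contra hcon
              push Not at hcon
              apply hz
              simp [hs, hta, Ne.symm hcon.1, Ne.symm hcon.2]
          · have ht : N.tgt g = b := by
              by_contra ht
              apply he₀
              simp [hs, ht]
            have hsa : N.src g = a := by
              by_contra hsa
              apply ha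
              simp [ht, Ne.symm hab, hsa]
            by_contra hcon
            push Not at hcon
            apply hz
            simp [ht, hsa, Ne.symm hcon.1, Ne.symm hcon.2]
        have hy : N.inc y g ≠ 0 := by
          rcases hg' with h | h
          · rw [← h.2]; exact inc_pos_tgt g
          · rw [← h.1]; exact inc_pos_src g
        rcases hends y hy with h | h
        · exact Or.inr (h ▸ .refl)
        · exact Or.inl h
      · rcases ih with hx | hx
        · exfalso
          have h0 := inc_zero (leaf_inc hb he₀ hge)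
          rcases hg' with h | h
          · exact h0.1 (h.1.trans hx)
          · exact h0.2 (h.2.trans hx)
        · exact Or.inr (hx.tail ⟨g, hn g hge hg, hg'⟩)
  rcases key u h with h | h
  · exact absurd h hu
  · exact h

end Network

end Pool.Agent.Gal
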