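import Pool.Agent.Helper77.Gal.Base

/-!
# Internal definitions: pendant arcs, the reduced game, families of random paths
-/

open Set MeasureTheory Filter Topology
open scoped ENNReal NNReal

namespace Pool.Agent.Gal

/-- A pendant arc `c : [0, l] → Q` attached to the closed set `R` at the point `c 0`; the leaf is
`c l`. -/
structure Pend (Q : Type) [MetricSpace Q] where
  R : Set Q
  c : ℝ → Q
  l : ℝ
  l_pos : 0 < l
  closed : IsClosed R
  zero_mem : c 0 ∈ R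
  dist_c : ∀ t ∈ Icc 0 l, ∀ t' ∈ Icc 0 l, dist (c t) (c t') = |t - t'|
  dist_R : ∀ t ∈ Icc 0 l, ∀ q ∈ R, dist (c t) q = t + dist (c 0) q
  cover : ∀ q, q ∈ R ∨ ∃ t ∈ Icc 0 l, c t = q

/-- The situation after the reduction.  `P₀`, `P₁` are random paths starting at `A`; the random
path `P₁ ω` is back at `A` at time `s ω`; `h m` are `ε m`-optimal strategies of the hider on `R`
for the game starting at `A`, whose value is `v`. -/
structure Core (Q : Type) [MetricSpace Q] [MeasurableSpace Q] where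
  A : Q
  R : Set Q
  v : ℝ≥0
  l : ℝ≥0
  C : ℝ≥0
  Ω : Type
  [mΩ : MeasurableSpace Ω]
  μ₀ : Measure Ω
  μ₁ : Measure Ω
  P₀ : Ω → ℝ≥0 → Q
  P₁ : Ω → ℝ≥0 → Q
  s : Ω → ℝ≥0
  h : ℕ → Measure Q
  ε : ℕ → ℝ≥0∞
  l_pos : 0 < l
  C_pos : 0 < C
  closedR : IsClosed R
  A_mem : A ∈ R
  prob₀ : IsProbabilityMeasure μ₀
  prob₁ : IsProbabilityMeasure μ₁
  meas₀ : ∀ t, Measurable fun ω => P₀ ω t
  meas₁ : ∀ t, Measurable fun ω => P₁ ω t
  meas_s : Measurable s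
  lip₀ : ∀ ω, LipschitzWith 1 (P₀ ω)
  lip₁ : ∀ ω, LipschitzWith 1 (P₁ ω)
  start₀ : ∀ ω, P₀ ω 0 = A
  start₁ : ∀ ω, P₁ ω 0 = A
  back : ∀ ω, P₁ ω (s ω) = A
  inR : ∀ ω t, P₁ ω t ∈ R
  F1 : ∫⁻ ω, (s ω : ℝ≥0∞) ∂μ₁ ≤ 2 * v
  F2 : ∀ H ∈ R, ∫⁻ ω, hit (P₀ ω) H ∂μ₀ +
    ∫⁻ ω, (hit (P₁ ω) H + if (s ω : ℝ≥0∞) < hit (P₁ ω) H then 2 * (l : ℝ≥0∞) else 0) ∂μ₁ ≤ 2 * v
  hprob : ∀ m, IsProbabilityMeasure (h m)
  hsupp : ∀ m, h m Rᶜ = 0
  ε_sum : ∑' m, ε m ≠ ∞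
  F3 : ∀ m, ∀ p : ℝ≥0 → Q, LipschitzWith 1 p → p 0 = A →
    (v : ℝ≥0∞) ≤ ∫⁻ H, hit p H ∂(h m) + ε m
  cover : ∀ q, ∃ p : ℝ≥0 → Q, LipschitzWith 1 p ∧ p 0 = q ∧ ∀ H, hit p H ≤ C

attribute [instance] Core.mΩ Core.prob₀ Core.prob₁ Core.hprob

namespace Core

variable {Q : Type} [MetricSpace Q] [MeasurableSpace Q]

/-- the set of points of the network which the path `p` has not visited until time `s` -/
def unc (p : ℝ≥0 → Q) (s : ℝ≥0) : Set Q := {H | (s : ℝ≥0∞) < hit p H}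

/-- Good closed curves: closed curves of duration `2 v` whose uncovered set has asymptotically
no mass under the strategies of the hider. -/
def Good (D : Core Q) (ω : D.Ω) : Prop :=
  D.s ω = 2 * D.v ∧ Tendsto (fun m => D.h m (unc (D.P₁ ω) (2 * D.v))) atTop (𝓝 0)

/-- A family of random paths which is optimal against every `h m` up to `ε m`. -/
structure Fam (D : Core Q) (μ : Measure D.Ω) (P : D.Ω → ℝ≥0 → Q) : Prop where
  prob : IsProbabilityMeasure μ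
  meas : ∀ t, Measurable fun ω => P ω t
  lip : ∀ ω, LipschitzWith 1 (P ω)
  start : ∀ ω, P ω 0 = D.A
  int : ∀ m, ∫⁻ ω, ∫⁻ H, hit (P ω) H ∂(D.h m) ∂μ ≤ D.v + D.ε m

/-- the left-hand side of `F2` -/
noncomputable def Phi (D : Core Q) (H : Q) : ℝ≥0∞ :=
  ∫⁻ ω, hit (D.P₀ ω) H ∂D.μ₀ +
    ∫⁻ ω, (hit (D.P₁ ω) H + if (D.s ω : ℝ≥0∞) < hit (D.P₁ ω) H then 2 * (D.l : ℝ≥0∞) else 0) ∂D.μ₁

/-- An arc of the network, lying in `R` and not containing the base point in its interior. -/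
structure Arc (D : Core Q) (c : ℝ → Q) (L : ℝ) : Prop where
  chart : IsChart c L
  inR : ∀ x ∈ Icc 0 L, c x ∈ D.R
  A_out : D.A ∉ c '' Ioo 0 L

/-- `y` is a left tip with gap `κ` of the path `P₁ ω`: the point `c y` is covered until time `2 v`,
the points `c z`, `y < z < y + κ`, are not. -/
def Tip (D : Core Q) (c : ℝ → Q) (y κ : ℝ) (ω : D.Ω) : Prop :=
  hit (D.P₁ ω) (c y) ≤ 2 * D.v ∧ ∀ z ∈ Ioo y (y + κ), 2 * (D.v : ℝ≥0∞) < hit (D.P₁ ω) (c z)

end Core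

namespace Network

variable (N : Network)

/-- `n` is even at every node -/
def EvenVec (n : N.E → ℕ) : Prop := ∀ v, Even (∑ e, n e * N.inc v e)

/-- nodes `u`, `v` are joined by arcs with `n e ≠ 0` -/
def SuppConn (n : N.E → ℕ) (u v : N.V) : Prop := Relation.ReflTransGen
  (fun a b => ∃ e, n e ≠ 0 ∧ ((N.src e = a ∧ N.tgt e = b) ∨ (N.src e = b ∧ N.tgt e = a))) u v

/-- total length of `n` -/
noncomputable def total (n : N.E → ℕ) : ℝ := ∑ e, n e * N.len e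

/-- walks with their multiplicity vectors -/
inductive Walk : N.V → N.V → (N.E → ℕ) → Prop
  | nil (u : N.V) : Walk u u 0
  | fwd (u : N.V) (e : N.E) (n : N.E → ℕ) : Walk u (N.src e) n →
      Walk u (N.tgt e) (n + Pi.single e 1)
  | bwd (u : N.V) (e : N.E) (n : N.E → ℕ) : Walk u (N.tgt e) n →
      Walk u (N.src e) (n + Pi.single e 1)

/-- the rest of the network: the union of the arcs different from `e₀`, and the point `A` -/
def rest (e₀ : N.E) (A : N.Q) : Set N.Q :=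
  insert A (⋃ e ∈ {e | e ≠ e₀}, N.pt e '' Icc 0 (N.len e))

end Network

end Pool.Agent.Gal
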