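import Pool.Agent.Helper77.Gal.Meas

/-!
# D1: consequences of F2 and F3 by integration
-/

open Set MeasureTheory Filter Topology
open scoped ENNReal NNReal

namespace Pool.Agent.Gal

namespace Core

variable {Q : Type} [MetricSpace Q] [CompactSpace Q] [MeasurableSpace Q] [BorelSpace Q]
  (D : Core Q)

theorem measurable_hit₀ : Measurable fun z : D.Ω × Q => hit (D.P₀ z.1) z.2 :=
  measurable_hit_prod D.meas₀ fun ω => (D.lip₀ ω).continuous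

theorem measurable_hit₁ : Measurable fun z : D.Ω × Q => hit (D.P₁ z.1) z.2 :=
  measurable_hit_prod D.meas₁ fun ω => (D.lip₁ ω).continuous

theorem measurable_ind₁ : Measurable fun z : D.Ω × Q =>
    if (D.s z.1 : ℝ≥0∞) < hit (D.P₁ z.1) z.2 then 2 * (D.l : ℝ≥0∞) else 0 := by
  have h2 : Measurable fun z : D.Ω × Q => (D.s z.1 : ℝ≥0∞) :=
    (D.meas_s.comp measurable_fst).coe_nnreal_ennreal
  exact Measurable.ite (measurableSet_lt h2 D.measurable_hit₁) measurable_const measurable_const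

theorem measurable_Phi : Measurable D.Phi := by
  refine Measurable.add ?_ ?_
  · exact Measurable.lintegral_prod_left' D.measurable_hit₀
  · exact Measurable.lintegral_prod_left' (D.measurable_hit₁.add D.measurable_ind₁)

theorem lintegral_Phi (m : ℕ) : ∫⁻ H, D.Phi H ∂(D.h m) =
    ∫⁻ ω, ∫⁻ H, hit (D.P₀ ω) H ∂(D.h m) ∂D.μ₀ + (∫⁻ ω, ∫⁻ H, hit (D.P₁ ω) H ∂(D.h m) ∂D.μ₁ +
      2 * D.l * ∫⁻ ω, D.h m (unc (D.P₁ ω) (D.s ω)) ∂D.μ₁) := by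
  unfold Phi
  rw [lintegral_add_left (Measurable.lintegral_prod_left' D.measurable_hit₀)]
  congr 1
  · exact lintegral_lintegral_swap (f := fun H ω => hit (D.P₀ ω) H)
      (D.measurable_hit₀.comp measurable_swap).aemeasurable
  · rw [lintegral_lintegral_swap (f := fun H ω => hit (D.P₁ ω) H +
      if (D.s ω : ℝ≥0∞) < hit (D.P₁ ω) H then 2 * (D.l : ℝ≥0∞) else 0)
      ((D.measurable_hit₁.add D.measurable_ind₁).comp measurable_swap).aemeasurable]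
    have h1 : ∀ ω, ∫⁻ H, (hit (D.P₁ ω) H +
        if (D.s ω : ℝ≥0∞) < hit (D.P₁ ω) H then 2 * (D.l : ℝ≥0∞) else 0) ∂(D.h m) =
        ∫⁻ H, hit (D.P₁ ω) H ∂(D.h m) + 2 * D.l * D.h m (unc (D.P₁ ω) (D.s ω)) := by
      intro ω
      rw [lintegral_add_left (measurable_hit (D.lip₁ ω).continuous)]
      congr 1
      have hms : MeasurableSet (unc (D.P₁ ω) (D.s ω)) :=
        measurableSet_lt measurable_const (measurable_hit (D.lip₁ ω).continuous)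
      have : (fun H => if (D.s ω : ℝ≥0∞) < hit (D.P₁ ω) H then 2 * (D.l : ℝ≥0∞) else 0) =
          (unc (D.P₁ ω) (D.s ω)).indicator fun _ => 2 * (D.l : ℝ≥0∞) := by
        ext H
        simp only [indicator_apply, unc, mem_ofPred_eq]
      rw [this, lintegral_indicator hms, lintegral_const, Measure.restrict_apply MeasurableSet.univ,
        univ_inter]
    simp_rw [h1]
    have hm : Measurable fun ω => ∫⁻ H, hit (D.P₁ ω) H ∂(D.h m) :=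
      Measurable.lintegral_prod_right' D.measurable_hit₁
    rw [lintegral_add_left hm, lintegral_const_mul']
    finiteness

theorem lintegral_Phi_le (m : ℕ) : ∫⁻ H, D.Phi H ∂(D.h m) ≤ 2 * D.v := by
  have h1 : ∀ᵐ H ∂(D.h m), H ∈ D.R := by
    rw [ae_iff]
    exact D.hsupp m
  have h2 : ∀ᵐ H ∂(D.h m), D.Phi H ≤ 2 * D.v := by
    filter_upwards [h1] with H hH
    exact D.F2 H hH
  refine (lintegral_mono_ae h2).trans ?_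
  rw [lintegral_const, measure_univ, mul_one]

theorem le_int₀ (m : ℕ) : (D.v : ℝ≥0∞) ≤
    ∫⁻ ω, ∫⁻ H, hit (D.P₀ ω) H ∂(D.h m) ∂D.μ₀ + D.ε m := by
  have h1 : ∫⁻ _ω, (D.v : ℝ≥0∞) ∂D.μ₀ ≤
      ∫⁻ ω, (∫⁻ H, hit (D.P₀ ω) H ∂(D.h m) + D.ε m) ∂D.μ₀ :=
    lintegral_mono fun ω => D.F3 m _ (D.lip₀ ω) (D.start₀ ω)
  rwa [lintegral_const, measure_univ, mul_one, lintegral_add_right _ measurable_const,
    lintegral_const, measure_univ, mul_one] at h1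

theorem le_int₁ (m : ℕ) : (D.v : ℝ≥0∞) ≤
    ∫⁻ ω, ∫⁻ H, hit (D.P₁ ω) H ∂(D.h m) ∂D.μ₁ + D.ε m := by
  have h1 : ∫⁻ _ω, (D.v : ℝ≥0∞) ∂D.μ₁ ≤
      ∫⁻ ω, (∫⁻ H, hit (D.P₁ ω) H ∂(D.h m) + D.ε m) ∂D.μ₁ :=
    lintegral_mono fun ω => D.F3 m _ (D.lip₁ ω) (D.start₁ ω)
  rwa [lintegral_const, measure_univ, mul_one, lintegral_add_right _ measurable_const,
    lintegral_const, measure_univ, mul_one] at h1

theorem main_le (m : ℕ) : ∫⁻ ω, ∫⁻ H, hit (D.P₀ ω) H ∂(D.h m) ∂D.μ₀ +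
    (∫⁻ ω, ∫⁻ H, hit (D.P₁ ω) H ∂(D.h m) ∂D.μ₁ +
      2 * D.l * ∫⁻ ω, D.h m (unc (D.P₁ ω) (D.s ω)) ∂D.μ₁) ≤ 2 * D.v := by
  rw [← D.lintegral_Phi m]
  exact D.lintegral_Phi_le m

/-- D1 -/
theorem fam₀ : D.Fam D.μ₀ D.P₀ where
  prob := D.prob₀
  meas := D.meas₀
  lip := D.lip₀
  start := D.start₀
  int := fun m => by
    have h1 := D.main_le m
    have h2 := D.le_int₁ m
    refine (ENNReal.add_le_add_iff_right (ENNReal.coe_ne_top (r := D.v))).1 ?_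
    calc ∫⁻ ω, ∫⁻ H, hit (D.P₀ ω) H ∂(D.h m) ∂D.μ₀ + D.v
        ≤ ∫⁻ ω, ∫⁻ H, hit (D.P₀ ω) H ∂(D.h m) ∂D.μ₀ +
          (∫⁻ ω, ∫⁻ H, hit (D.P₁ ω) H ∂(D.h m) ∂D.μ₁ + D.ε m) := by gcongr
      _ = (∫⁻ ω, ∫⁻ H, hit (D.P₀ ω) H ∂(D.h m) ∂D.μ₀ +
          (∫⁻ ω, ∫⁻ H, hit (D.P₁ ω) H ∂(D.h m) ∂D.μ₁ + 0)) + D.ε m := by ring
      _ ≤ (∫⁻ ω, ∫⁻ H, hit (D.P₀ ω) H ∂(D.h m) ∂D.μ₀ +
          (∫⁻ ω, ∫⁻ H, hit (D.P₁ ω) H ∂(D.h m) ∂D.μ₁ +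
            2 * D.l * ∫⁻ ω, D.h m (unc (D.P₁ ω) (D.s ω)) ∂D.μ₁)) + D.ε m := by
          gcongr
          exact zero_le
      _ ≤ 2 * D.v + D.ε m := by gcongr
      _ = D.v + D.ε m + D.v := by ring

/-- D1 -/
theorem fam₁ : D.Fam D.μ₁ D.P₁ where
  prob := D.prob₁
  meas := D.meas₁
  lip := D.lip₁
  start := D.start₁
  int := fun m => by
    have h1 := D.main_le m
    have h2 := D.le_int₀ m
    refine (ENNReal.add_le_add_iff_right (ENNReal.coe_ne_top (r := D.v))).1 ?_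
    calc ∫⁻ ω, ∫⁻ H, hit (D.P₁ ω) H ∂(D.h m) ∂D.μ₁ + D.v
        ≤ ∫⁻ ω, ∫⁻ H, hit (D.P₁ ω) H ∂(D.h m) ∂D.μ₁ +
          (∫⁻ ω, ∫⁻ H, hit (D.P₀ ω) H ∂(D.h m) ∂D.μ₀ + D.ε m) := by gcongr
      _ = (∫⁻ ω, ∫⁻ H, hit (D.P₀ ω) H ∂(D.h m) ∂D.μ₀ +
          (∫⁻ ω, ∫⁻ H, hit (D.P₁ ω) H ∂(D.h m) ∂D.μ₁ + 0)) + D.ε m := by ring
      _ ≤ (∫⁻ ω, ∫⁻ H, hit (D.P₀ ω) H ∂(D.h m) ∂D.μ₀ +
          (∫⁻ ω, ∫⁻ H, hit (D.P₁ ω) H ∂(D.h m) ∂D.μ₁ +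
            2 * D.l * ∫⁻ ω, D.h m (unc (D.P₁ ω) (D.s ω)) ∂D.μ₁)) + D.ε m := by
          gcongr
          exact zero_le
      _ ≤ 2 * D.v + D.ε m := by gcongr
      _ = D.v + D.ε m + D.v := by ring

/-- D1 -/
theorem unc_le (m : ℕ) : (D.l : ℝ≥0∞) * ∫⁻ ω, D.h m (unc (D.P₁ ω) (D.s ω)) ∂D.μ₁ ≤ D.ε m := by
  have h1 := D.main_le m
  have h2 := D.le_int₀ m
  have h3 := D.le_int₁ m
  set U := ∫⁻ ω, D.h m (unc (D.P₁ ω) (D.s ω)) ∂D.μ₁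
  set X := ∫⁻ ω, ∫⁻ H, hit (D.P₀ ω) H ∂(D.h m) ∂D.μ₀
  set Y := ∫⁻ ω, ∫⁻ H, hit (D.P₁ ω) H ∂(D.h m) ∂D.μ₁
  have h4 : 2 * (D.l * U) + 2 * (D.v : ℝ≥0∞) ≤ 2 * D.ε m + 2 * D.v := by
    calc 2 * (D.l * U) + 2 * (D.v : ℝ≥0∞) = 2 * (D.l * U) + (D.v + D.v) := by ring
      _ ≤ 2 * (D.l * U) + ((X + D.ε m) + (Y + D.ε m)) := by gcongr
      _ = (X + (Y + 2 * D.l * U)) + 2 * D.ε m := by ring
      _ ≤ 2 * D.v + 2 * D.ε m := by gcongr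
      _ = 2 * D.ε m + 2 * D.v := by ring
  have h5 : 2 * (D.l * U) ≤ 2 * D.ε m :=
    (ENNReal.add_le_add_iff_right (by finiteness)).1 h4
  exact (ENNReal.mul_le_mul_iff_right (by norm_num) (by norm_num)).1 h5

/-- D1: `∫ Φ dh` is almost `2 v` -/
theorem phi_int (m : ℕ) : 2 * (D.v : ℝ≥0∞) ≤ ∫⁻ H, D.Phi H ∂(D.h m) + 2 * D.ε m := by
  have h2 := D.le_int₀ m
  have h3 := D.le_int₁ m
  rw [D.lintegral_Phi m]
  set U := ∫⁻ ω, D.h m (unc (D.P₁ ω) (D.s ω)) ∂D.μ₁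
  set X := ∫⁻ ω, ∫⁻ H, hit (D.P₀ ω) H ∂(D.h m) ∂D.μ₀
  set Y := ∫⁻ ω, ∫⁻ H, hit (D.P₁ ω) H ∂(D.h m) ∂D.μ₁
  calc 2 * (D.v : ℝ≥0∞) = D.v + D.v := by ring
    _ ≤ (X + D.ε m) + (Y + D.ε m) := by gcongr
    _ = (X + (Y + 0)) + 2 * D.ε m := by ring
    _ ≤ (X + (Y + 2 * D.l * U)) + 2 * D.ε m := by
      gcongr
      exact zero_le

end Core

end Pool.Agent.Gal
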