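import Pool.Agent.Helper77.Gal.D1

/-!
# D2: closed curves
-/

open Set MeasureTheory Filter Topology
open scoped ENNReal NNReal

namespace Pool.Agent.Gal

namespace Core

variable {Q : Type} [MetricSpace Q] [CompactSpace Q] [MeasurableSpace Q] [BorelSpace Q]
  (D : Core Q)

omit [CompactSpace Q] in
theorem measurableSet_unc {p : ℝ≥0 → Q} (hp : Continuous p) (s : ℝ≥0) :
    MeasurableSet (unc p s) := measurableSet_lt measurable_const (measurable_hit hp)

/-- D2: the inequality for closed curves -/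
theorem closed_ineq (m : ℕ) {p : ℝ≥0 → Q} (hp : LipschitzWith 1 p) (h0 : p 0 = D.A) {s : ℝ≥0}
    (hs : p s = D.A) :
    2 * (D.v : ℝ≥0∞) ≤ s * (1 + D.h m (unc p s)) + 2 * D.C * D.h m (unc p s) + 2 * D.ε m := by
  obtain ⟨c, hc, hc0, hcC⟩ := D.cover D.A
  have hg1 : p s = c 0 := by rw [hs, hc0]
  have hg2 : rev p s s = c 0 := by rw [rev_self, h0, hc0]
  have hr := rev_lip hp s
  have l1 := glue_lip hp hc hg1
  have l2 := glue_lip hr hc hg2
  have b1 := D.F3 m _ l1 (by rw [glue_zero, h0])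
  have b2 := D.F3 m _ l2 (by rw [glue_zero, rev_zero', hs])
  have hmu := measurableSet_unc hp.continuous s
  have hpt : ∀ H, hit (glue p s c) H + hit (glue (rev p s) s c) H ≤
      s + (unc p s).indicator (fun _ => (s : ℝ≥0∞) + 2 * D.C) H := by
    intro H
    by_cases hH : H ∈ unc p s
    · rw [indicator_of_mem hH]
      have a1 := hit_glue_le hg1 H
      have a2 := hit_glue_le hg2 H
      calc _ ≤ ((s : ℝ≥0∞) + hit c H) + (s + hit c H) := add_le_add a1 a2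
        _ ≤ (s + D.C) + (s + D.C) := by gcongr <;> exact hcC H
        _ = _ := by ring
    · rw [indicator_of_notMem hH, add_zero]
      have hle : hit p H ≤ s := not_lt.1 hH
      obtain ⟨t, ht, ht'⟩ := exists_hit hp.continuous (ne_top_of_le_ne_top ENNReal.coe_ne_top hle)
      have hts : t ≤ s := ENNReal.coe_le_coe.1 (ht ▸ hle)
      have a1 := hit_glue_le_left (q := c) hp.continuous hle
      have a2 : hit (rev p s) H ≤ ((s - t : ℝ≥0) : ℝ≥0∞) := by
        rw [← ht']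
        exact hit_rev_le hts
      have a3 : hit (rev p s) H ≤ s := a2.trans (ENNReal.coe_le_coe.2 tsub_le_self)
      have a4 := hit_glue_le_left (q := c) hr.continuous a3
      calc _ ≤ hit p H + hit (rev p s) H := add_le_add a1 a4
        _ ≤ (t : ℝ≥0∞) + ((s - t : ℝ≥0) : ℝ≥0∞) := by rw [ht]; gcongr
        _ = s := by rw [← ENNReal.coe_add, add_tsub_cancel_of_le hts]
  have hint : ∫⁻ H, hit (glue p s c) H ∂(D.h m) + ∫⁻ H, hit (glue (rev p s) s c) H ∂(D.h m) ≤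
      s + (s + 2 * D.C) * D.h m (unc p s) := by
    rw [← lintegral_add_left (measurable_hit l1.continuous)]
    refine (lintegral_mono hpt).trans ?_
    rw [lintegral_add_left measurable_const, lintegral_const, measure_univ, mul_one,
      lintegral_indicator hmu, lintegral_const, Measure.restrict_apply MeasurableSet.univ,
      univ_inter]
  calc 2 * (D.v : ℝ≥0∞) = D.v + D.v := two_mul _
    _ ≤ (∫⁻ H, hit (glue p s c) H ∂(D.h m) + D.ε m) +
        (∫⁻ H, hit (glue (rev p s) s c) H ∂(D.h m) + D.ε m) := add_le_add b1 b2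
    _ = (∫⁻ H, hit (glue p s c) H ∂(D.h m) + ∫⁻ H, hit (glue (rev p s) s c) H ∂(D.h m)) +
        2 * D.ε m := by ring
    _ ≤ (s + (s + 2 * D.C) * D.h m (unc p s)) + 2 * D.ε m := by gcongr
    _ = _ := by ring

theorem eps_tendsto : Tendsto D.ε atTop (𝓝 0) := ENNReal.tendsto_atTop_zero_of_tsum_ne_top D.ε_sum

/-- D3 -/
theorem tight {p : ℝ≥0 → Q} (hp : LipschitzWith 1 p) (h0 : p 0 = D.A) {s : ℝ≥0}
    (hs : p s = D.A) (hu : Tendsto (fun m => D.h m (unc p s)) atTop (𝓝 0)) :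
    2 * D.v ≤ s := by
  have h1 : Tendsto (fun m => (s : ℝ≥0∞) * (1 + D.h m (unc p s)) + 2 * D.C * D.h m (unc p s) +
      2 * D.ε m) atTop (𝓝 (s * (1 + 0) + 2 * D.C * 0 + 2 * 0)) := by
    refine Tendsto.add (Tendsto.add ?_ ?_) ?_
    · exact ENNReal.Tendsto.const_mul (tendsto_const_nhds.add hu) (Or.inr ENNReal.coe_ne_top)
    · exact ENNReal.Tendsto.const_mul hu (Or.inr (by finiteness))
    · exact ENNReal.Tendsto.const_mul D.eps_tendsto (Or.inr (by finiteness))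
  have h2 : 2 * (D.v : ℝ≥0∞) ≤ s * (1 + 0) + 2 * D.C * 0 + 2 * 0 :=
    ge_of_tendsto' h1 fun m => D.closed_ineq m hp h0 hs
  rw [add_zero, mul_one, mul_zero, mul_zero, add_zero, add_zero] at h2
  exact_mod_cast h2

theorem measurable_unc (m : ℕ) : Measurable fun ω => D.h m (unc (D.P₁ ω) (D.s ω)) := by
  have h1 : Measurable fun z : D.Ω × Q => hit (D.P₁ z.1) z.2 :=
    measurable_hit_prod D.meas₁ fun ω => (D.lip₁ ω).continuous
  have h2 : Measurable fun z : D.Ω × Q => (D.s z.1 : ℝ≥0∞) :=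
    (D.meas_s.comp measurable_fst).coe_nnreal_ennreal
  have h3 : MeasurableSet {z : D.Ω × Q | (D.s z.1 : ℝ≥0∞) < hit (D.P₁ z.1) z.2} :=
    measurableSet_lt h2 h1
  exact measurable_measure_prodMk_left h3

/-- D4: almost every curve is good -/
theorem good : ∀ᵐ ω ∂D.μ₁, D.Good ω := by
  have hl0 : (D.l : ℝ≥0∞) ≠ 0 := by exact_mod_cast D.l_pos.ne'
  have hsum : ∫⁻ ω, ∑' m, D.h m (unc (D.P₁ ω) (D.s ω)) ∂D.μ₁ ≠ ∞ := by
    rw [lintegral_tsum fun m => (D.measurable_unc m).aemeasurable]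
    have h1 : ∀ m, ∫⁻ ω, D.h m (unc (D.P₁ ω) (D.s ω)) ∂D.μ₁ ≤ (D.l : ℝ≥0∞)⁻¹ * D.ε m := by
      intro m
      rw [mul_comm, ← div_eq_mul_inv, ENNReal.le_div_iff_mul_le (Or.inl hl0)
        (Or.inl ENNReal.coe_ne_top), mul_comm]
      exact D.unc_le m
    refine ne_top_of_le_ne_top ?_ (ENNReal.tsum_le_tsum h1)
    rw [ENNReal.tsum_mul_left]
    exact ENNReal.mul_ne_top (ENNReal.inv_ne_top.2 hl0) D.ε_sum
  have hae : ∀ᵐ ω ∂D.μ₁, ∑' m, D.h m (unc (D.P₁ ω) (D.s ω)) < ∞ :=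
    ae_lt_top (Measurable.tsum D.measurable_unc) hsum
  have h2 : ∀ᵐ ω ∂D.μ₁, Tendsto (fun m => D.h m (unc (D.P₁ ω) (D.s ω))) atTop (𝓝 0) := by
    filter_upwards [hae] with ω hω
    exact ENNReal.tendsto_atTop_zero_of_tsum_ne_top hω.ne
  have h3 : ∀ᵐ ω ∂D.μ₁, 2 * (D.v : ℝ≥0∞) ≤ D.s ω := by
    filter_upwards [h2] with ω hω
    exact_mod_cast D.tight (D.lip₁ ω) (D.start₁ ω) (D.back ω) hω
  have h4 : (fun _ => 2 * (D.v : ℝ≥0∞)) =ᵐ[D.μ₁] fun ω => (D.s ω : ℝ≥0∞) := by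
    refine ae_eq_of_ae_le_of_lintegral_le h3 ?_ D.meas_s.coe_nnreal_ennreal.aemeasurable ?_
    · rw [lintegral_const, measure_univ, mul_one]
      finiteness
    · rw [lintegral_const, measure_univ, mul_one]
      exact D.F1
  filter_upwards [h2, h4] with ω hω hs
  have hs' : D.s ω = 2 * D.v := by
    have : ((2 * D.v : ℝ≥0) : ℝ≥0∞) = (D.s ω : ℝ≥0∞) := by
      push_cast
      exact hs
    exact (ENNReal.coe_injective this).symm
  exact ⟨hs', by rw [← hs']; exact hω⟩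

/-- D5 -/
theorem cut_mass {p : ℝ≥0 → Q} (hp : LipschitzWith 1 p) (h0 : p 0 = D.A) {s : ℝ≥0}
    (hs : p s = D.A) {δ : ℝ≥0} (hδ : 0 < δ) (h : s + 2 * δ ≤ 2 * D.v) :
    ∀ᶠ m in atTop, (δ : ℝ≥0∞) ≤ (2 * D.v + 2 * D.C) * D.h m (unc p s) := by
  have hδ' : (0 : ℝ≥0∞) < δ := by exact_mod_cast hδ
  have hε : Tendsto (fun m => 2 * D.ε m) atTop (𝓝 (2 * 0)) :=
    ENNReal.Tendsto.const_mul D.eps_tendsto (Or.inr (by finiteness))
  rw [mul_zero] at hε
  filter_upwards [hε.eventually_le_const hδ'] with m hm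
  have h1 := D.closed_ineq m hp h0 hs
  have hsv : (s : ℝ≥0∞) + 2 * δ ≤ 2 * D.v := by exact_mod_cast h
  have hsv' : (s : ℝ≥0∞) ≤ 2 * D.v := le_trans le_self_add hsv
  have h2 : (s : ℝ≥0∞) + 2 * δ ≤ s + ((s + 2 * D.C) * D.h m (unc p s) + 2 * D.ε m) := by
    refine (hsv.trans h1).trans (le_of_eq ?_)
    ring
  have h3 : 2 * (δ : ℝ≥0∞) ≤ (s + 2 * D.C) * D.h m (unc p s) + 2 * D.ε m :=
    (ENNReal.add_le_add_iff_left ENNReal.coe_ne_top).1 h2
  have h4 : (δ : ℝ≥0∞) + δ ≤ (2 * D.v + 2 * D.C) * D.h m (unc p s) + δ := by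
    calc (δ : ℝ≥0∞) + δ = 2 * δ := (two_mul _).symm
      _ ≤ (s + 2 * D.C) * D.h m (unc p s) + 2 * D.ε m := h3
      _ ≤ (2 * D.v + 2 * D.C) * D.h m (unc p s) + δ := by gcongr
  exact (ENNReal.add_le_add_iff_right ENNReal.coe_ne_top).1 h4

end Core

end Pool.Agent.Gal
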