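import Mathlib

/-!
# Search games on networks: definitions

A network is a finite connected multigraph (loops and multiple arcs allowed) with positive arc
lengths.  Its points form a metric space under the shortest-path distance.  The searcher starts at
a point `O` and moves with speed at most `1`; the hider is immobile; the payoff to the hider is the
capture time.  Both players may use mixed strategies.
-/

open Set MeasureTheory
open scoped ENNReal NNReal

namespace Pool.Agent.Gal

/-- A network: finite connected multigraph with positive arc lengths. `src e` and `tgt e` are the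
two ends of the arc `e` (the orientation is only a convention); loops and multiple arcs are
allowed. -/
structure Network where
  V : Type
  E : Type
  [fintypeV : Fintype V]
  [fintypeE : Fintype E]
  [decV : DecidableEq V]
  [decE : DecidableEq E]
  [neE : Nonempty E]
  src : E → V
  tgt : E → V
  len : E → ℝ
  len_pos : ∀ e, 0 < len e
  conn : ∀ u v : V, Relation.ReflTransGen
    (fun a b => ∃ e, (src e = a ∧ tgt e = b) ∨ (src e = b ∧ tgt e = a)) u v

attribute [instance] Network.fintypeV Network.fintypeE Network.decV Network.decE Network.neE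

namespace Network

variable (N : Network)

/-- Raw points: the point of the arc `arc` at distance `pos` (along the arc) from its source. -/
structure Pt where
  arc : N.E
  pos : ℝ
  mem : pos ∈ Icc (0 : ℝ) (N.len arc)

/-- The raw point `p` represents the node `v`. -/
def IsNode (p : N.Pt) (v : N.V) : Prop :=
  (p.pos = 0 ∧ N.src p.arc = v) ∨ (p.pos = N.len p.arc ∧ N.tgt p.arc = v)

/-- `Route p q r`: there is a route of length `r` from `p` to `q`.  A route is composed of moves
along arcs; raw points which represent the same node are the same point of the network. -/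
inductive Route : N.Pt → N.Pt → ℝ → Prop
  | along (e : N.E) (x y : ℝ) (hx : x ∈ Icc (0 : ℝ) (N.len e)) (hy : y ∈ Icc (0 : ℝ) (N.len e)) :
      Route ⟨e, x, hx⟩ ⟨e, y, hy⟩ |x - y|
  | glue (p q : N.Pt) (v : N.V) : N.IsNode p v → N.IsNode q v → Route p q 0
  | trans (p q w : N.Pt) (r s : ℝ) : Route p q r → Route q w s → Route p w (r + s)

/-- Shortest-path distance between raw points. -/
noncomputable def rdist (p q : N.Pt) : ℝ := sInf {r | N.Route p q r}

variable {N}

theorem Route.nonneg {p q : N.Pt} {r : ℝ} (h : N.Route p q r) : 0 ≤ r := by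
  induction h with
  | along e x y _ _ => exact abs_nonneg _
  | glue p q v _ _ => exact le_rfl
  | trans p q w r s _ _ h1 h2 => exact add_nonneg h1 h2

theorem Route.symm {p q : N.Pt} {r : ℝ} (h : N.Route p q r) : N.Route q p r := by
  induction h with
  | along e x y hx hy => rw [abs_sub_comm]; exact Route.along e y x hy hx
  | glue p q v h1 h2 => exact Route.glue q p v h2 h1
  | trans p q w r s _ _ h1 h2 => rw [add_comm]; exact Route.trans w q p s r h2 h1

/-- the end of the arc `e` at `src e` -/
def endS (e : N.E) : N.Pt := ⟨e, 0, le_rfl, (N.len_pos e).le⟩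

/-- the end of the arc `e` at `tgt e` -/
def endT (e : N.E) : N.Pt := ⟨e, N.len e, (N.len_pos e).le, le_rfl⟩

theorem isNode_endS (e : N.E) : N.IsNode (endS e) (N.src e) := Or.inl ⟨rfl, rfl⟩

theorem isNode_endT (e : N.E) : N.IsNode (endT e) (N.tgt e) := Or.inr ⟨rfl, rfl⟩

theorem exists_isNode (v : N.V) : ∃ p : N.Pt, N.IsNode p v := by
  classical
  obtain ⟨e⟩ := N.neE
  have h := N.conn (N.src e) v
  rcases Relation.ReflTransGen.cases_tail h with h | ⟨w, _, f, hf | hf⟩
  · exact ⟨endS e, h ▸ isNode_endS e⟩
  · exact ⟨endT f, hf.2 ▸ isNode_endT f⟩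
  · exact ⟨endS f, hf.1 ▸ isNode_endS f⟩

theorem exists_route_node {u v : N.V} (h : Relation.ReflTransGen
    (fun a b => ∃ e, (N.src e = a ∧ N.tgt e = b) ∨ (N.src e = b ∧ N.tgt e = a)) u v) :
    ∀ p q : N.Pt, N.IsNode p u → N.IsNode q v → ∃ r, N.Route p q r := by
  induction h with
  | refl => intro p q hp hq; exact ⟨0, Route.glue p q u hp hq⟩
  | tail _ hs ih =>
    intro p q hp hq
    obtain ⟨f, hf | hf⟩ := hs
    · obtain ⟨r, hr⟩ := ih p (endS f) hp (hf.1 ▸ isNode_endS f)
      exact ⟨_, Route.trans _ _ _ _ _ hr (Route.trans _ _ _ _ _ (Route.along f _ _ _ _)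
        (Route.glue (endT f) q _ (isNode_endT f) (hf.2 ▸ hq)))⟩
    · obtain ⟨r, hr⟩ := ih p (endT f) hp (hf.2 ▸ isNode_endT f)
      exact ⟨_, Route.trans _ _ _ _ _ hr (Route.trans _ _ _ _ _ (Route.along f _ _ _ _)
        (Route.glue (endS f) q _ (isNode_endS f) (hf.1 ▸ hq)))⟩

theorem exists_route (p q : N.Pt) : ∃ r, N.Route p q r := by
  obtain ⟨e, x, hx⟩ := p
  obtain ⟨f, y, hy⟩ := q
  obtain ⟨r, hr⟩ := exists_route_node (N.conn (N.src e) (N.src f)) (endS e) (endS f)
    (isNode_endS e) (isNode_endS f)
  exact ⟨_, Route.trans _ _ _ _ _ (Route.along e x _ _ _) (Route.trans _ _ _ _ _ hr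
    (Route.along f _ y _ _))⟩

theorem bddBelow_route (p q : N.Pt) : BddBelow {r | N.Route p q r} :=
  ⟨0, fun _ h => h.nonneg⟩

theorem rdist_le {p q : N.Pt} {r : ℝ} (h : N.Route p q r) : N.rdist p q ≤ r :=
  csInf_le (bddBelow_route p q) h

theorem rdist_nonneg (p q : N.Pt) : 0 ≤ N.rdist p q :=
  le_csInf (exists_route p q) fun _ h => h.nonneg

theorem rdist_comm (p q : N.Pt) : N.rdist p q = N.rdist q p := by
  unfold rdist
  congr 1
  ext r
  exact ⟨Route.symm, Route.symm⟩

theorem rdist_self (p : N.Pt) : N.rdist p p = 0 := by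
  apply le_antisymm _ (rdist_nonneg p p)
  obtain ⟨e, x, hx⟩ := p
  simpa using rdist_le (Route.along e x x hx hx)

theorem rdist_triangle (p q w : N.Pt) : N.rdist p w ≤ N.rdist p q + N.rdist q w := by
  apply le_of_forall_pos_le_add
  intro ε hε
  obtain ⟨r, hr, hr'⟩ := exists_lt_of_csInf_lt (exists_route p q)
    (show sInf {r | N.Route p q r} < N.rdist p q + ε / 2 by
      have : N.rdist p q < N.rdist p q + ε / 2 := by linarith
      exact this)
  obtain ⟨s, hs, hs'⟩ := exists_lt_of_csInf_lt (exists_route q w)
    (show sInf {r | N.Route q w r} < N.rdist q w + ε / 2 by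
      have : N.rdist q w < N.rdist q w + ε / 2 := by linarith
      exact this)
  have := rdist_le (Route.trans _ _ _ _ _ hr hs)
  linarith

noncomputable instance : PseudoMetricSpace N.Pt where
  dist := N.rdist
  dist_self := rdist_self
  dist_comm := rdist_comm
  dist_triangle := rdist_triangle

variable (N)

/-- The points of the network, a metric space under the shortest-path distance: raw points at
distance zero (that is, raw points representing the same node) are identified. -/
def Q : Type := SeparationQuotient N.Pt

noncomputable instance : MetricSpace N.Q := @SeparationQuotient.instMetricSpace N.Pt _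

noncomputable instance : MeasurableSpace N.Q := borel N.Q

instance : BorelSpace N.Q := ⟨rfl⟩

/-- The point of the arc `e` at distance `x` from `src e` (`x` is clamped to `[0, len e]`). -/
noncomputable def pt (e : N.E) (x : ℝ) : N.Q :=
  SeparationQuotient.mk
    (⟨e, projIcc 0 (N.len e) (N.len_pos e).le x, (projIcc 0 (N.len e) (N.len_pos e).le x).2⟩ : N.Pt)

/-- Number of ends of the arc `e` at the node `v` (a loop at `v` counts twice). -/
def inc (v : N.V) (e : N.E) : ℕ :=
  (if N.src e = v then 1 else 0) + (if N.tgt e = v then 1 else 0)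

/-- The arc `e` is a bridge: deleting its interior disconnects the network. -/
def IsBridge (e : N.E) : Prop :=
  ¬ ∀ u v : N.V, Relation.ReflTransGen
    (fun a b => ∃ f, f ≠ e ∧ ((N.src f = a ∧ N.tgt f = b) ∨ (N.src f = b ∧ N.tgt f = a))) u v

open Classical in
/-- Weakly Eulerian: deleting the interiors of all bridges leaves a network in which every node
has even degree. -/
def WeaklyEulerian : Prop :=
  ∀ v : N.V, Even (∑ e with ¬ N.IsBridge e, N.inc v e)

end Network

section Game

variable {Q : Type*} [MetricSpace Q]

/-- Pure strategies of the searcher: paths with speed at most `1` starting at `O`. -/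
def PathFrom (O : Q) : Type _ := {S : ℝ≥0 → Q // S 0 = O ∧ LipschitzWith 1 S}

/-- The σ-algebra on the space of paths generated by the evaluations `S ↦ S t`. -/
instance [MeasurableSpace Q] (O : Q) : MeasurableSpace (PathFrom O) :=
  MeasurableSpace.comap (fun S : PathFrom O => S.1) MeasurableSpace.pi

/-- The first time at which the path `p` is at the point `H` (`∞` if it never is). -/
noncomputable def hit (p : ℝ≥0 → Q) (H : Q) : ℝ≥0∞ := ⨅ (t : ℝ≥0) (_ : p t = H), (t : ℝ≥0∞)

/-- The search game with starting point `O` has value `v`: for every `ε > 0` the searcher has a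
mixed strategy whose expected capture time is at most `v + ε` against every point, and the hider
has a mixed strategy whose expected capture time is at least `v - ε` against every path. -/
def HasValue [MeasurableSpace Q] (O : Q) (v : ℝ) : Prop :=
  (∀ ε : ℝ, 0 < ε → ∃ σ : Measure (PathFrom O), IsProbabilityMeasure σ ∧
    ∀ H : Q, ∫⁻ S, hit S.1 H ∂σ ≤ ENNReal.ofReal (v + ε)) ∧
  (∀ ε : ℝ, 0 < ε → ∃ h : Measure Q, IsProbabilityMeasure h ∧
    ∀ S : PathFrom O, ENNReal.ofReal (v - ε) ≤ ∫⁻ H, hit S.1 H ∂h)

end Game

end Pool.Agent.Gal
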