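import Pool.Agent.Helper77.Gal.CoreDefs

/-!
# Inserting round trips into a path
-/

open Set MeasureTheory Filter Topology
open scoped ENNReal NNReal

namespace Pool.Agent.Gal

variable {Q : Type*} [MetricSpace Q]

/-- insert the round trip `r` of duration `d` into the path `q` at time `t` -/
noncomputable def insert' (q : ℝ≥0 → Q) (t : ℝ≥0) (r : ℝ≥0 → Q) (d : ℝ≥0) : ℝ≥0 → Q :=
  glue q t (glue r d (shift q t))

variable {q r : ℝ≥0 → Q} {t d : ℝ≥0}

theorem insert_lip (hq : LipschitzWith 1 q) (hr : LipschitzWith 1 r) (h0 : q t = r 0)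
    (h1 : q t = r d) : LipschitzWith 1 (insert' q t r d) := by
  refine glue_lip hq (glue_lip hr (shift_lip hq t) (by simp [← h1])) ?_
  rw [glue_zero, h0]

theorem insert_zero : insert' q t r d 0 = q 0 := glue_zero _ _ _

theorem insert_of_le {u : ℝ≥0} (h : u ≤ t) : insert' q t r d u = q u := glue_of_le h

theorem insert_mid (h0 : q t = r 0) {u : ℝ≥0} (h : u ≤ d) :
    insert' q t r d (t + u) = r u := by
  unfold insert'
  rw [glue_add (by rw [glue_zero, h0]), glue_of_le h]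

theorem insert_after (h0 : q t = r 0) (h1 : q t = r d) (u : ℝ≥0) :
    insert' q t r d (t + d + u) = q (t + u) := by
  unfold insert'
  rw [add_assoc, glue_add (by rw [glue_zero, h0]), glue_add (by simp [← h1])]
  rfl

theorem insert_end (h0 : q t = r 0) (h1 : q t = r d) {s : ℝ≥0} (hs : t ≤ s) :
    insert' q t r d (s + d) = q s := by
  obtain ⟨u, rfl⟩ := exists_add_of_le hs
  rw [show t + u + d = t + d + u by ring, insert_after h0 h1]

theorem hit_insert_le (hq : Continuous q) (h0 : q t = r 0) (h1 : q t = r d) {s : ℝ≥0} {H : Q}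
    (h : hit q H ≤ s) : hit (insert' q t r d) H ≤ (s + d : ℝ≥0) := by
  obtain ⟨u, hu, hu'⟩ := exists_hit hq (ne_top_of_le_ne_top ENNReal.coe_ne_top h)
  rw [hu] at h
  have h' : u ≤ s := ENNReal.coe_le_coe.1 h
  rcases le_total u t with hut | hut
  · refine (hit_le (t := u) (by rw [insert_of_le hut, hu'])).trans ?_
    exact ENNReal.coe_le_coe.2 (h'.trans (le_add_of_nonneg_right zero_le))
  · refine (hit_le (t := u + d) (by rw [insert_end h0 h1 hut, hu'])).trans ?_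
    exact ENNReal.coe_le_coe.2 (by gcongr)

namespace Network

variable {N : Network}

theorem pt_lip (e : N.E) : LipschitzWith 1 (N.pt e) := by
  refine LipschitzWith.of_dist_le_mul fun x y => ?_
  have hx := (projIcc 0 (N.len e) (N.len_pos e).le x).2
  have hy := (projIcc 0 (N.len e) (N.len_pos e).le y).2
  have h1 : ∀ z, N.pt e z = N.pt e (projIcc 0 (N.len e) (N.len_pos e).le z) := by
    intro z
    simp only [pt, projIcc_val]
  rw [h1 x, h1 y]
  refine (dist_pt_le e hx hy).trans ?_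
  simpa [Real.dist_eq] using abs_projIcc_sub_projIcc (h := (N.len_pos e).le) (c := x) (d := y)

/-- round trip on the arc `e` from position `x₀` by `ζ` (`σ = 1` forwards, `σ = -1` backwards) -/
noncomputable def trip (N : Network) (e : N.E) (x₀ σ : ℝ) (ζ : ℝ≥0) : ℝ≥0 → N.Q :=
  fun t => N.pt e (x₀ + σ * (ζ - |(ζ : ℝ) - t|))

theorem trip_lip (e : N.E) (x₀ : ℝ) {σ : ℝ} (hσ : |σ| = 1) (ζ : ℝ≥0) :
    LipschitzWith 1 (N.trip e x₀ σ ζ) := by
  refine LipschitzWith.of_dist_le_mul fun a b => ?_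
  unfold trip
  refine ((pt_lip e).dist_le_mul _ _).trans ?_
  simp only [NNReal.coe_one, one_mul]
  rw [Real.dist_eq, show x₀ + σ * (ζ - |(ζ : ℝ) - a|) - (x₀ + σ * (ζ - |(ζ : ℝ) - b|)) =
    σ * (|(ζ : ℝ) - b| - |(ζ : ℝ) - a|) by ring, abs_mul, hσ, one_mul]
  refine (abs_abs_sub_abs_le_abs_sub _ _).trans ?_
  rw [NNReal.dist_eq]
  apply le_of_eq
  congr 1
  ring

theorem trip_zero (e : N.E) (x₀ σ : ℝ) (ζ : ℝ≥0) : N.trip e x₀ σ ζ 0 = N.pt e x₀ := by
  unfold trip
  congr 1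
  rw [NNReal.coe_zero, sub_zero, abs_of_nonneg ζ.coe_nonneg]
  ring

theorem trip_end (e : N.E) (x₀ σ : ℝ) (ζ : ℝ≥0) : N.trip e x₀ σ ζ (2 * ζ) = N.pt e x₀ := by
  unfold trip
  congr 1
  push_cast
  rw [show (ζ : ℝ) - 2 * ζ = -ζ by ring, abs_neg, abs_of_nonneg ζ.coe_nonneg]
  ring

theorem trip_out (e : N.E) (x₀ σ : ℝ) {ζ t : ℝ≥0} (h : t ≤ ζ) :
    N.trip e x₀ σ ζ t = N.pt e (x₀ + σ * t) := by
  unfold trip
  have : (t : ℝ) ≤ ζ := by exact_mod_cast h
  rw [abs_of_nonneg (by linarith)]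
  congr 1
  ring

theorem trip_back (e : N.E) (x₀ σ : ℝ) {ζ t : ℝ≥0} (h : t ≤ ζ) :
    N.trip e x₀ σ ζ (2 * ζ - t) = N.pt e (x₀ + σ * t) := by
  unfold trip
  have h1 : (t : ℝ) ≤ ζ := by exact_mod_cast h
  have h2 : t ≤ 2 * ζ := h.trans (by rw [two_mul]; exact le_add_of_nonneg_left zero_le)
  rw [NNReal.coe_sub h2]
  push_cast
  rw [show (ζ : ℝ) - (2 * ζ - t) = -(ζ - t) by ring, abs_neg, abs_of_nonneg (by linarith)]
  congr 1
  ring

end Network

end Pool.Agent.Gal
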