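import Pool.Agent.Helper77.Gal.CoreDefs

/-!
# Euler's theorem for multigraphs with multiplicities (module GAL-E1)
-/

open Set MeasureTheory Filter Topology
open scoped ENNReal NNReal

namespace Pool.Agent.Gal

namespace Network

variable {N : Network}

theorem Walk.concat {u v w : N.V} {m n : N.E → ℕ} (h : Walk N u v m) (h' : Walk N v w n) :
    Walk N u w (m + n) := by
  induction h' with
  | nil => simpa using h
  | fwd e n _ ih => rw [← add_assoc]; exact Walk.fwd _ e _ ih
  | bwd e n _ ih => rw [← add_assoc]; exact Walk.bwd _ e _ ih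

theorem Walk.one_fwd (e : N.E) : Walk N (N.src e) (N.tgt e) (Pi.single e 1) := by
  simpa using Walk.fwd (N.src e) e 0 (Walk.nil _)

theorem Walk.one_bwd (e : N.E) : Walk N (N.tgt e) (N.src e) (Pi.single e 1) := by
  simpa using Walk.bwd (N.tgt e) e 0 (Walk.nil _)

/-- a walk which contains the arc `e` visits both ends of `e` -/
theorem Walk.split {u v : N.V} {m : N.E → ℕ} (h : Walk N u v m) {e : N.E} (he : m e ≠ 0)
    {x : N.V} (hx : x = N.src e ∨ x = N.tgt e) :
    ∃ m₁ m₂, m = m₁ + m₂ ∧ Walk N u x m₁ ∧ Walk N x v m₂ := by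
  induction h with
  | nil => simp at he
  | fwd f n hn ih =>
    by_cases hf : f = e
    · subst hf
      rcases hx with rfl | rfl
      · exact ⟨n, Pi.single f 1, rfl, hn, Walk.one_fwd f⟩
      · exact ⟨n + Pi.single f 1, 0, by simp, Walk.fwd _ f _ hn, Walk.nil _⟩
    · have hne : n e ≠ 0 := by
        have : (Pi.single f 1 : N.E → ℕ) e = 0 := Pi.single_eq_of_ne (Ne.symm hf) 1
        simpa [this] using he
      obtain ⟨m₁, m₂, rfl, h1, h2⟩ := ih hne
      exact ⟨m₁, m₂ + Pi.single f 1, by rw [add_assoc], h1, Walk.fwd _ f _ h2⟩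
  | bwd f n hn ih =>
    by_cases hf : f = e
    · subst hf
      rcases hx with rfl | rfl
      · exact ⟨n + Pi.single f 1, 0, by simp, Walk.bwd _ f _ hn, Walk.nil _⟩
      · exact ⟨n, Pi.single f 1, rfl, hn, Walk.one_bwd f⟩
    · have hne : n e ≠ 0 := by
        have : (Pi.single f 1 : N.E → ℕ) e = 0 := Pi.single_eq_of_ne (Ne.symm hf) 1
        simpa [this] using he
      obtain ⟨m₁, m₂, rfl, h1, h2⟩ := ih hne
      exact ⟨m₁, m₂ + Pi.single f 1, by rw [add_assoc], h1, Walk.bwd _ f _ h2⟩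

theorem sum_single_inc (w : N.V) (e : N.E) :
    ∑ f, (Pi.single e 1 : N.E → ℕ) f * N.inc w f = N.inc w e := by
  rw [Finset.sum_eq_single e]
  · simp
  · intro f _ hf
    rw [Pi.single_eq_of_ne hf]; simp
  · simp

theorem sum_add_inc (m n : N.E → ℕ) (w : N.V) :
    ∑ f, (m + n) f * N.inc w f = ∑ f, m f * N.inc w f + ∑ f, n f * N.inc w f := by
  rw [← Finset.sum_add_distrib]
  exact Finset.sum_congr rfl fun f _ => by rw [Pi.add_apply, add_mul]

/-- parity of the degrees in a walk -/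
theorem Walk.parity {u v : N.V} {m : N.E → ℕ} (h : Walk N u v m) (w : N.V) :
    Even (∑ f, m f * N.inc w f + (if u = w then 1 else 0) + (if v = w then 1 else 0)) := by
  induction h with
  | nil => simp
  | fwd e n _ ih =>
    rw [sum_add_inc, sum_single_inc]
    have : ∑ f, n f * N.inc w f + N.inc w e + (if u = w then 1 else 0) +
        (if N.tgt e = w then 1 else 0) = (∑ f, n f * N.inc w f + (if u = w then 1 else 0) +
        (if N.src e = w then 1 else 0)) + 2 * (if N.tgt e = w then 1 else 0) := by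
      unfold inc; ring
    rw [this]
    exact ih.add (even_two_mul _)
  | bwd e n _ ih =>
    rw [sum_add_inc, sum_single_inc]
    have : ∑ f, n f * N.inc w f + N.inc w e + (if u = w then 1 else 0) +
        (if N.src e = w then 1 else 0) = (∑ f, n f * N.inc w f + (if u = w then 1 else 0) +
        (if N.tgt e = w then 1 else 0)) + 2 * (if N.src e = w then 1 else 0) := by
      unfold inc; ring
    rw [this]
    exact ih.add (even_two_mul _)

theorem Walk.even {u : N.V} {m : N.E → ℕ} (h : Walk N u u m) : N.EvenVec m := by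
  intro w
  have := h.parity w
  rw [add_assoc, Nat.even_add] at this
  refine this.2 ?_
  split_ifs <;> simp

theorem EvenVec.sub {n m : N.E → ℕ} (hn : N.EvenVec n) (hm : N.EvenVec m) (h : m ≤ n) :
    N.EvenVec (n - m) := by
  intro w
  have h1 : ∑ f, n f * N.inc w f = ∑ f, m f * N.inc w f + ∑ f, (n - m) f * N.inc w f := by
    rw [← sum_add_inc]
    exact Finset.sum_congr rfl fun f _ => by rw [add_tsub_cancel_of_le h]
  have := hn w
  rw [h1, Nat.even_add] at this
  exact this.1 (hm w)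

theorem exists_maximal {P : (N.E → ℕ) → Prop} {n : N.E → ℕ} (h0 : ∃ m, P m ∧ m ≤ n) :
    ∃ m, P m ∧ m ≤ n ∧ ∀ m', P m' → m' ≤ n → ∑ e, m' e ≤ ∑ e, m e := by
  classical
  obtain ⟨m₀, hm₀, hm₀'⟩ := h0
  have hbd : ∀ m : N.E → ℕ, m ≤ n → ∑ e, m e ≤ ∑ e, n e :=
    fun m hm => Finset.sum_le_sum fun e _ => hm e
  let Q : ℕ → Prop := fun k => ∃ m, P m ∧ m ≤ n ∧ ∑ e, m e = k
  have hQ : Q (Nat.findGreatest Q (∑ e, n e)) :=
    Nat.findGreatest_spec (P := Q) (m := ∑ e, m₀ e) (hbd m₀ hm₀') ⟨m₀, hm₀, hm₀', rfl⟩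
  obtain ⟨m, hm, hm', hk⟩ := hQ
  refine ⟨m, hm, hm', fun m' h1 h2 => ?_⟩
  rw [hk]
  exact Nat.le_findGreatest (hbd m' h2) ⟨m', h1, h2, rfl⟩

theorem single_le {n : N.E → ℕ} {e : N.E} (he : n e ≠ 0) : (Pi.single e 1 : N.E → ℕ) ≤ n := by
  intro f
  by_cases hf : f = e
  · subst hf
    simpa using Nat.one_le_iff_ne_zero.2 he
  · rw [Pi.single_eq_of_ne hf]
    exact Nat.zero_le _

theorem sum_single_one (e : N.E) : ∑ f, (Pi.single e 1 : N.E → ℕ) f = 1 := by
  simp

/-- a nonempty closed walk through a given end of a given arc -/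
theorem exists_closed {n : N.E → ℕ} (hn : N.EvenVec n) {e : N.E} (he : n e ≠ 0) {x : N.V}
    (hx : x = N.src e ∨ x = N.tgt e) : ∃ m, Walk N x x m ∧ m ≤ n ∧ 0 < ∑ f, m f := by
  obtain ⟨m, ⟨v, hv⟩, hmn, hmax⟩ := exists_maximal (N := N) (P := fun m => ∃ v, Walk N x v m)
    (n := n) ⟨0, ⟨x, Walk.nil x⟩, fun _ => Nat.zero_le _⟩
  have hpos : 0 < ∑ f, m f := by
    have : ∑ f, (Pi.single e 1 : N.E → ℕ) f ≤ ∑ f, m f := by
      refine hmax _ ?_ (single_le he)
      rcases hx with rfl | rfl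
      · exact ⟨_, Walk.one_fwd e⟩
      · exact ⟨_, Walk.one_bwd e⟩
    rw [sum_single_one] at this
    omega
  by_cases hxv : x = v
  · subst hxv
    exact ⟨m, hv, hmn, hpos⟩
  exfalso
  have hpar := hv.parity v
  rw [if_neg hxv, if_pos rfl, add_zero, Nat.even_add_one] at hpar
  have hsum : ∑ f, n f * N.inc v f = ∑ f, m f * N.inc v f + ∑ f, (n - m) f * N.inc v f := by
    rw [← sum_add_inc]
    exact Finset.sum_congr rfl fun f _ => by rw [add_tsub_cancel_of_le hmn]
  have hne : ∑ f, (n - m) f * N.inc v f ≠ 0 := by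
    intro h0
    rw [h0, add_zero] at hsum
    exact hpar (hsum ▸ hn v)
  obtain ⟨f, -, hf⟩ := Finset.exists_ne_zero_of_sum_ne_zero hne
  have hf1 : (n - m) f ≠ 0 := left_ne_zero_of_mul hf
  have hf2 : N.inc v f ≠ 0 := right_ne_zero_of_mul hf
  have hle : m + Pi.single f 1 ≤ n := by
    have := add_le_add_right (single_le hf1) m
    rwa [add_tsub_cancel_of_le hmn] at this
  have hw : ∃ v', Walk N x v' (m + Pi.single f 1) := by
    have : N.src f = v ∨ N.tgt f = v := by
      by_contra hcon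
      push Not at hcon
      exact hf2 (by simp [inc, hcon.1, hcon.2])
    rcases this with h | h
    · exact ⟨_, Walk.fwd _ f _ (h ▸ hv)⟩
    · exact ⟨_, Walk.bwd _ f _ (h ▸ hv)⟩
  have := hmax _ hw hle
  have h2 : ∑ e, (m + Pi.single f 1 : N.E → ℕ) e = ∑ e, m e + 1 := by
    simp only [Pi.add_apply, Finset.sum_add_distrib, sum_single_one]
  omega

/-- E1: Euler's theorem for multigraphs -/
theorem exists_euler {n : N.E → ℕ} (hn : N.EvenVec n) {a : N.V}
    (hconn : ∀ e, n e ≠ 0 → N.SuppConn n a (N.src e)) : Walk N a a n := by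
  obtain ⟨m, hm, hmn, hmax⟩ := exists_maximal (N := N) (P := fun m => Walk N a a m)
    (n := n) ⟨0, Walk.nil a, fun _ => Nat.zero_le _⟩
  by_cases hmn' : m = n
  · exact hmn' ▸ hm
  exfalso
  have hlt : ∃ e, (n - m) e ≠ 0 := by
    by_contra hcon
    push Not at hcon
    apply hmn'
    refine le_antisymm hmn fun e => ?_
    have := hcon e
    rw [Pi.sub_apply] at this
    exact Nat.sub_eq_zero_iff_le.1 this
  -- a visited node with a remaining arc
  have hvis : ∃ x f, (x = N.src f ∨ x = N.tgt f) ∧ (n - m) f ≠ 0 ∧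
      ∃ m₁ m₂, m = m₁ + m₂ ∧ Walk N a x m₁ ∧ Walk N x a m₂ := by
    obtain ⟨e, he⟩ := hlt
    have hne : n e ≠ 0 := by
      rw [Pi.sub_apply] at he
      omega
    by_contra hcon
    push Not at hcon
    have key : ∀ x, N.SuppConn n a x → ∃ m₁ m₂, m = m₁ + m₂ ∧ Walk N a x m₁ ∧ Walk N x a m₂ := by
      intro x hx
      induction hx with
      | refl => exact ⟨0, m, by simp, Walk.nil a, hm⟩
      | tail _ hs ih =>
        rename_i b c _
        obtain ⟨m₁, m₂, h1, h2, h3⟩ := ih
        obtain ⟨f, hf, hf'⟩ := hs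
        have hb : b = N.src f ∨ b = N.tgt f := by
          rcases hf' with h | h
          · exact Or.inl h.1.symm
          · exact Or.inr h.2.symm
        have hc : c = N.src f ∨ c = N.tgt f := by
          rcases hf' with h | h
          · exact Or.inr h.2.symm
          · exact Or.inl h.1.symm
        have hmf : m f ≠ 0 := by
          intro h0
          refine hcon b f hb ?_ m₁ m₂ h1 h2 h3
          rw [Pi.sub_apply, h0, Nat.sub_zero]
          exact hf
        exact hm.split hmf hc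
    obtain ⟨m₁, m₂, h1, h2, h3⟩ := key _ (hconn e hne)
    exact hcon (N.src e) e (Or.inl rfl) he m₁ m₂ h1 h2 h3
  obtain ⟨x, f, hxf, hf, m₁, m₂, h1, h2, h3⟩ := hvis
  obtain ⟨m', hm', hle, hpos⟩ := exists_closed (EvenVec.sub hn hm.even hmn) hf hxf
  have hw : Walk N a a (m₁ + m' + m₂) := (h2.concat hm').concat h3
  have heq : m₁ + m' + m₂ = m + m' := by rw [h1]; abel
  rw [heq] at hw
  have hle' : m + m' ≤ n := by
    have := add_le_add_right hle m
    rwa [add_tsub_cancel_of_le hmn] at this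
  have := hmax _ hw hle'
  have h2 : ∑ e, (m + m') e = ∑ e, m e + ∑ e, m' e := by
    simp only [Pi.add_apply, Finset.sum_add_distrib]
  omega

end Network

end Pool.Agent.Gal
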