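import Pool.Agent.Helper77.Gal.CoreDefs
import Pool.Agent.Helper77.Gal.Euler1

/-!
# Realization of walks by paths (module GAL-E2)
-/

open Set MeasureTheory Filter Topology
open scoped ENNReal NNReal

namespace Pool.Agent.Gal

namespace Network

variable {N : Network}

theorem total_nonneg (n : N.E → ℕ) : 0 ≤ N.total n :=
  Finset.sum_nonneg fun e _ => mul_nonneg (Nat.cast_nonneg _) (N.len_pos e).le

theorem total_zero' : N.total (0 : N.E → ℕ) = 0 := by simp [total]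

theorem total_add_single (n : N.E → ℕ) (e : N.E) :
    N.total (n + Pi.single e 1) = N.total n + N.len e := by
  unfold total
  have h1 : ∀ f : N.E, (((n + Pi.single e 1 : N.E → ℕ) f : ℕ) : ℝ) * N.len f =
      (n f : ℝ) * N.len f + if f = e then N.len f else 0 := by
    intro f
    by_cases hf : f = e
    · subst hf
      simp [add_mul]
    · simp [hf]
  rw [Finset.sum_congr rfl fun f _ => h1 f, Finset.sum_add_distrib]
  simp

/-- the path along an arc -/
theorem arc_path (e : N.E) : ∃ q : ℝ≥0 → N.Q, LipschitzWith 1 q ∧ q 0 = N.node (N.src e) ∧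
    q (N.len e).toNNReal = N.node (N.tgt e) ∧
    ∀ x ∈ Icc 0 (N.len e), ∃ t : ℝ≥0, t ≤ (N.len e).toNNReal ∧ q t = N.pt e x ∧ (t : ℝ) = x := by
  have hL := N.len_pos e
  refine ⟨fun t => N.pt e (min (t : ℝ) (N.len e)), ?_, ?_, ?_, ?_⟩
  · apply lip_of_dist
    intro s t hst
    have hst' : (s : ℝ) ≤ t := by exact_mod_cast hst
    have hs : (0 : ℝ) ≤ s := s.2
    have ht : (0 : ℝ) ≤ t := t.2
    refine (dist_pt_le e ⟨le_min hs hL.le, min_le_right _ _⟩
      ⟨le_min ht hL.le, min_le_right _ _⟩).trans ?_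
    rw [abs_of_nonpos (by linarith [min_le_min_right (N.len e) hst'])]
    rcases le_total (s : ℝ) (N.len e) with h1 | h1
    · rw [min_eq_left h1]
      linarith [min_le_left (t : ℝ) (N.len e)]
    · rw [min_eq_right h1, min_eq_right (h1.trans hst')]
      linarith
  · change N.pt e (min ((0 : ℝ≥0) : ℝ) (N.len e)) = _
    rw [NNReal.coe_zero, min_eq_left hL.le, pt_zero]
  · change N.pt e (min (((N.len e).toNNReal : ℝ≥0) : ℝ) (N.len e)) = _
    rw [Real.coe_toNNReal _ hL.le, min_self, pt_len]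
  · intro x hx
    refine ⟨x.toNNReal, Real.toNNReal_le_toNNReal hx.2, ?_, Real.coe_toNNReal _ hx.1⟩
    change N.pt e (min ((x.toNNReal : ℝ≥0) : ℝ) (N.len e)) = _
    rw [Real.coe_toNNReal _ hx.1, min_eq_left hx.2]

theorem arc_fwd (e : N.E) : ∃ q : ℝ≥0 → N.Q, LipschitzWith 1 q ∧ q 0 = N.node (N.src e) ∧
    q (N.len e).toNNReal = N.node (N.tgt e) ∧
    ∀ x ∈ Icc 0 (N.len e), hit q (N.pt e x) ≤ ENNReal.ofReal (N.len e) := by
  obtain ⟨q, h1, h2, h3, h4⟩ := arc_path e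
  refine ⟨q, h1, h2, h3, fun x hx => ?_⟩
  obtain ⟨t, ht, hq, -⟩ := h4 x hx
  exact (hit_le hq).trans (ENNReal.coe_le_coe.2 ht)

theorem arc_bwd (e : N.E) : ∃ q : ℝ≥0 → N.Q, LipschitzWith 1 q ∧ q 0 = N.node (N.tgt e) ∧
    q (N.len e).toNNReal = N.node (N.src e) ∧
    ∀ x ∈ Icc 0 (N.len e), hit q (N.pt e x) ≤ ENNReal.ofReal (N.len e) := by
  obtain ⟨q, h1, h2, h3, h4⟩ := arc_path e
  refine ⟨rev q (N.len e).toNNReal, rev_lip h1 _, by simp [h3], by simp [h2], fun x hx => ?_⟩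
  obtain ⟨t, ht, hq, -⟩ := h4 x hx
  rw [← hq]
  exact (hit_rev_le ht).trans (ENNReal.coe_le_coe.2 tsub_le_self)

/-- extension of a path which realizes a walk -/
theorem realize_step {u v w : N.V} {n : N.E → ℕ} (e : N.E)
    (ih : ∃ p : ℝ≥0 → N.Q, LipschitzWith 1 p ∧ p 0 = N.node u ∧
      p (N.total n).toNNReal = N.node v ∧
      ∀ e, n e ≠ 0 → ∀ x ∈ Icc 0 (N.len e), hit p (N.pt e x) ≤ ENNReal.ofReal (N.total n))
    (hq : ∃ q : ℝ≥0 → N.Q, LipschitzWith 1 q ∧ q 0 = N.node v ∧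
      q (N.len e).toNNReal = N.node w ∧
      ∀ x ∈ Icc 0 (N.len e), hit q (N.pt e x) ≤ ENNReal.ofReal (N.len e)) :
    ∃ p : ℝ≥0 → N.Q, LipschitzWith 1 p ∧ p 0 = N.node u ∧
      p (N.total (n + Pi.single e 1)).toNNReal = N.node w ∧
      ∀ f, (n + Pi.single e 1 : N.E → ℕ) f ≠ 0 → ∀ x ∈ Icc 0 (N.len f),
        hit p (N.pt f x) ≤ ENNReal.ofReal (N.total (n + Pi.single e 1)) := by
  obtain ⟨p, p1, p2, p3, p4⟩ := ih
  obtain ⟨q, q1, q2, q3, q4⟩ := hq
  have hjoin : p (N.total n).toNNReal = q 0 := by rw [p3, q2]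
  have hL := N.len_pos e
  have hT := total_nonneg n
  refine ⟨glue p (N.total n).toNNReal q, glue_lip p1 q1 hjoin, by rw [glue_zero, p2], ?_, ?_⟩
  · rw [total_add_single, Real.toNNReal_add hT hL.le, glue_add hjoin, q3]
  · intro f hf x hx
    rw [total_add_single, ENNReal.ofReal_add hT hL.le]
    by_cases hfe : f = e
    · subst hfe
      refine (hit_glue_le hjoin _).trans ?_
      exact add_le_add le_rfl (q4 x hx)
    · have hnf : n f ≠ 0 := by
        intro h0
        apply hf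
        simp [h0, hfe]
      have h5 := p4 f hnf x hx
      exact (hit_glue_le_left p1.continuous h5).trans (h5.trans le_self_add)

/-- E2: realization of a walk by a path -/
theorem Walk.realize {u v : N.V} {n : N.E → ℕ} (h : Walk N u v n) :
    ∃ p : ℝ≥0 → N.Q, LipschitzWith 1 p ∧ p 0 = N.node u ∧ p (N.total n).toNNReal = N.node v ∧
      ∀ e, n e ≠ 0 → ∀ x ∈ Icc 0 (N.len e), hit p (N.pt e x) ≤ ENNReal.ofReal (N.total n) := by
  induction h with
  | nil =>
    refine ⟨fun _ => N.node u, LipschitzWith.const' _, rfl, rfl, fun e he => absurd rfl he⟩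
  | fwd e n _ ih => exact realize_step e ih (arc_fwd e)
  | bwd e n _ ih => exact realize_step e ih (arc_bwd e)

/-- E3: closed curve from an even connected vector -/
theorem exists_tour {n : N.E → ℕ} (hn : N.EvenVec n) {a : N.V}
    (hconn : ∀ e, n e ≠ 0 → N.SuppConn n a (N.src e)) :
    ∃ p : ℝ≥0 → N.Q, LipschitzWith 1 p ∧ p 0 = N.node a ∧ p (N.total n).toNNReal = N.node a ∧
      ∀ e, n e ≠ 0 → ∀ x ∈ Icc 0 (N.len e), hit p (N.pt e x) ≤ ENNReal.ofReal (N.total n) :=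
  (exists_euler hn hconn).realize

/-- a closed curve from the node `a` which covers the network -/
theorem exists_cover_node (a : N.V) : ∃ p : ℝ≥0 → N.Q, LipschitzWith 1 p ∧ p 0 = N.node a ∧
    ∀ H, hit p H ≤ ENNReal.ofReal (N.total fun _ => 2) := by
  have hn : N.EvenVec fun _ => 2 := fun v => by
    rw [← Finset.mul_sum]
    exact even_two_mul _
  have hconn : ∀ e, (fun _ : N.E => 2) e ≠ 0 → N.SuppConn (fun _ => 2) a (N.src e) := by
    intro e _
    have hle : (fun a b => ∃ e, (N.src e = a ∧ N.tgt e = b) ∨ (N.src e = b ∧ N.tgt e = a)) ≤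
        (fun a b => ∃ e, (fun _ : N.E => 2) e ≠ 0 ∧
          ((N.src e = a ∧ N.tgt e = b) ∨ (N.src e = b ∧ N.tgt e = a))) := by
      rintro b c ⟨f, hf⟩
      exact ⟨f, two_ne_zero, hf⟩
    exact Relation.ReflTransGen.mono hle _ _ (N.conn a (N.src e))
  obtain ⟨p, p1, p2, -, p4⟩ := exists_tour hn hconn
  refine ⟨p, p1, p2, fun H => ?_⟩
  obtain ⟨e, x, hx, rfl⟩ := exists_pt H
  exact p4 e two_ne_zero x hx

/-- E4: every point is the start of a path which covers the network in bounded time -/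
theorem exists_cover (N : Network) : ∃ C : ℝ≥0, 0 < C ∧ ∀ q : N.Q, ∃ p : ℝ≥0 → N.Q,
    LipschitzWith 1 p ∧ p 0 = q ∧ ∀ H, hit p H ≤ C := by
  set T : ℝ := N.total fun _ => 2 with hT
  have hT0 : 0 ≤ T := total_nonneg _
  set M : ℝ := ∑ e, N.len e with hM
  have hlen : ∀ e, N.len e ≤ M := fun e =>
    Finset.single_le_sum (f := N.len) (fun f _ => (N.len_pos f).le) (Finset.mem_univ e)
  have hM0 : 0 < M := by
    obtain ⟨e⟩ := N.neE
    exact (N.len_pos e).trans_le (hlen e)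
  refine ⟨(M + T).toNNReal, Real.toNNReal_pos.2 (by linarith), fun q => ?_⟩
  obtain ⟨e, x, hx, rfl⟩ := exists_pt q
  obtain ⟨r, r1, r2, r3, r4⟩ := arc_path e
  obtain ⟨t, ht, hrt, htx⟩ := r4 x hx
  obtain ⟨p, p1, p2, p3⟩ := exists_cover_node (N.src e)
  have hjoin : rev r t t = p 0 := by rw [rev_self, r2, p2]
  refine ⟨glue (rev r t) t p, glue_lip (rev_lip r1 t) p1 hjoin, ?_, fun H => ?_⟩
  · rw [glue_zero, rev_zero', hrt]
  · refine (hit_glue_le hjoin H).trans ?_
    have h1 : (t : ℝ≥0∞) ≤ ENNReal.ofReal M :=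
      ENNReal.coe_le_coe.2 (ht.trans (Real.toNNReal_le_toNNReal (hlen e)))
    calc (t : ℝ≥0∞) + hit p H ≤ ENNReal.ofReal M + ENNReal.ofReal T := add_le_add h1 (p3 H)
      _ = ENNReal.ofReal (M + T) := (ENNReal.ofReal_add hM0.le hT0).symm
      _ = ((M + T).toNNReal : ℝ≥0∞) := rfl

end Network

end Pool.Agent.Gal
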