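import Mathlib

/-!
# L2, L3: time spent by a lift outside the base point of the circle
-/

open Set MeasureTheory Filter Topology
open scoped ENNReal NNReal

namespace Pool.Agent.Gal

private theorem l2_image_le {g : ℝ → ℝ} (hg : LipschitzWith 1 g) (U : Set ℝ) :
    volume (g '' U) ≤ volume U := by
  have h := (hg.lipschitzOnWith (s := U)).hausdorffMeasure_image_le (d := 1) zero_le_one
  rw [hausdorffMeasure_real] at h
  simpa using h

/-- L2 -/
theorem lift_var {L : ℝ} (hL : 0 < L) {g : ℝ → ℝ} (hg : LipschitzWith 1 g) {a b : ℝ}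
    (hab : a ≤ b) :
    ENNReal.ofReal |g b - g a| ≤ volume {t | t ∈ Icc a b ∧ (g t : AddCircle L) ≠ 0} := by
  set U : Set ℝ := {t | t ∈ Icc a b ∧ (g t : AddCircle L) ≠ 0} with hU
  have h1 : uIcc (g a) (g b) ⊆ g '' U ∪ range (fun n : ℤ => n • L) := by
    intro y hy
    have h2 := intermediate_value_uIcc (a := a) (b := b) (f := g)
      hg.continuous.continuousOn hy
    rw [uIcc_of_le hab] at h2
    obtain ⟨t, ht, rfl⟩ := h2
    by_cases h3 : (g t : AddCircle L) = 0
    · right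
      obtain ⟨n, hn⟩ := (AddCircle.coe_eq_zero_iff _).1 h3
      exact ⟨n, hn⟩
    · left
      exact ⟨t, ⟨ht, h3⟩, rfl⟩
  calc ENNReal.ofReal |g b - g a| = volume (uIcc (g a) (g b)) := by
        rw [Real.volume_interval]
    _ ≤ volume (g '' U ∪ range (fun n : ℤ => n • L)) := measure_mono h1
    _ ≤ volume (g '' U) + volume (range (fun n : ℤ => n • L)) := measure_union_le _ _
    _ = volume (g '' U) := by
        rw [(countable_range _).measure_zero, add_zero]
    _ ≤ volume U := l2_image_le hg U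

private theorem l2_add {L : ℝ} [Fact (0 < L)] {g : ℝ → ℝ} (hg : Continuous g) {a b c : ℝ}
    (hab : a ≤ b) (hbc : b ≤ c) :
    volume {t | t ∈ Icc a b ∧ (g t : AddCircle L) ≠ 0} +
      volume {t | t ∈ Icc b c ∧ (g t : AddCircle L) ≠ 0} ≤
      volume {t | t ∈ Icc a c ∧ (g t : AddCircle L) ≠ 0} := by
  have hm : MeasurableSet {t | t ∈ Icc b c ∧ (g t : AddCircle L) ≠ 0} := by
    have h1 : IsOpen {t | (g t : AddCircle L) ≠ 0} :=
      isOpen_ne_fun ((AddCircle.continuous_mk' L).comp hg) continuous_const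
    exact measurableSet_Icc.inter h1.measurableSet
  have hd : AEDisjoint volume {t | t ∈ Icc a b ∧ (g t : AddCircle L) ≠ 0}
      {t | t ∈ Icc b c ∧ (g t : AddCircle L) ≠ 0} := by
    refine measure_mono_null (t := {b}) ?_ (measure_singleton b)
    rintro t ⟨⟨h1, -⟩, ⟨h2, -⟩⟩
    exact le_antisymm h1.2 h2.1
  rw [← measure_union₀ hm.nullMeasurableSet hd]
  refine measure_mono ?_
  rintro t (⟨h1, h2⟩ | ⟨h1, h2⟩)
  · exact ⟨⟨h1.1, h1.2.trans hbc⟩, h2⟩
  · exact ⟨⟨hab.trans h1.1, h1.2⟩, h2⟩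

/-- L3 -/
theorem lift_time_zero {L : ℝ} (hL : 0 < L) {g : ℝ → ℝ} (hg : LipschitzWith 1 g) {s : ℝ}
    (hs : 0 ≤ s) (h0 : (g 0 : AddCircle L) = 0) (hW : g s = g 0)
    (hcov : ∀ x ∈ Ioo 0 L, ∃ t ∈ Icc 0 s, (g t : AddCircle L) = (x : AddCircle L)) :
    ENNReal.ofReal (2 * L) ≤ volume {t | t ∈ Icc 0 s ∧ (g t : AddCircle L) ≠ 0} := by
  have : Fact (0 < L) := ⟨hL⟩
  have hne : (Icc 0 s).Nonempty := nonempty_Icc.2 hs
  obtain ⟨t₁, ht₁, hmin⟩ := isCompact_Icc.exists_isMinOn hne hg.continuous.continuousOn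
  obtain ⟨t₂, ht₂, hmax⟩ := isCompact_Icc.exists_isMaxOn hne hg.continuous.continuousOn
  have hmin' : ∀ t ∈ Icc 0 s, g t₁ ≤ g t := fun t ht => hmin ht
  have hmax' : ∀ t ∈ Icc 0 s, g t ≤ g t₂ := fun t ht => hmax ht
  have h0s : (0 : ℝ) ∈ Icc 0 s := ⟨le_rfl, hs⟩
  have hm0 := hmin' 0 h0s
  have hM0 := hmax' 0 h0s
  obtain ⟨k, hk⟩ := (AddCircle.coe_eq_zero_iff _).1 h0
  have hkey : L ≤ g t₂ - g t₁ := by
    by_contra hlt
    push Not at hlt
    obtain ⟨y, hy1, hy2⟩ := exists_between (show g t₂ < g t₁ + L by linarith)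
    have hx : y - g 0 ∈ Ioo 0 L := ⟨by linarith, by linarith⟩
    obtain ⟨t, ht, hgt⟩ := hcov _ hx
    have h3 : ((g t - y : ℝ) : AddCircle L) = 0 := by
      rw [AddCircle.coe_sub, hgt, AddCircle.coe_sub, h0, sub_zero, sub_self]
    obtain ⟨n, hn⟩ := (AddCircle.coe_eq_zero_iff _).1 h3
    rw [zsmul_eq_mul] at hn
    have h4 := hmin' t ht
    have h5 := hmax' t ht
    have h6 : (n : ℝ) < 0 := by
      by_contra h
      push Not at h
      have := mul_nonneg h hL.le
      linarith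
    have h7 : n ≤ -1 := by
      have : n < 0 := by exact_mod_cast h6
      omega
    have h8 : (n : ℝ) ≤ -1 := by exact_mod_cast h7
    have h9 : (n : ℝ) * L ≤ -1 * L := mul_le_mul_of_nonneg_right h8 hL.le
    linarith
  have hfin : ∀ x y z : ℝ, 0 ≤ x → 0 ≤ y → 0 ≤ z → 2 * L ≤ x + y + z →
      ENNReal.ofReal (2 * L) ≤ ENNReal.ofReal x + ENNReal.ofReal y + ENNReal.ofReal z := by
    intro x y z hx hy hz h
    rw [← ENNReal.ofReal_add hx hy, ← ENNReal.ofReal_add (by positivity) hz]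
    exact ENNReal.ofReal_le_ofReal h
  rcases le_total t₁ t₂ with h12 | h12
  · have e1 := lift_var hL hg ht₁.1
    have e2 := lift_var hL hg h12
    have e3 := lift_var hL hg ht₂.2
    have a1 := l2_add (L := L) hg.continuous ht₁.1 h12
    have a2 := l2_add (L := L) hg.continuous ht₂.1 ht₂.2
    refine le_trans ?_ a2
    refine le_trans ?_ (add_le_add a1 le_rfl)
    refine le_trans ?_ (add_le_add (add_le_add e1 e2) e3)
    refine hfin _ _ _ (abs_nonneg _) (abs_nonneg _) (abs_nonneg _) ?_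
    rw [hW, abs_of_nonpos (by linarith : g t₁ - g 0 ≤ 0), abs_of_nonneg (by linarith),
      abs_of_nonpos (by linarith : g 0 - g t₂ ≤ 0)]
    linarith
  · have e1 := lift_var hL hg ht₂.1
    have e2 := lift_var hL hg h12
    have e3 := lift_var hL hg ht₁.2
    have a1 := l2_add (L := L) hg.continuous ht₂.1 h12
    have a2 := l2_add (L := L) hg.continuous ht₁.1 ht₁.2
    refine le_trans ?_ a2
    refine le_trans ?_ (add_le_add a1 le_rfl)
    refine le_trans ?_ (add_le_add (add_le_add e1 e2) e3)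
    refine hfin _ _ _ (abs_nonneg _) (abs_nonneg _) (abs_nonneg _) ?_
    rw [hW, abs_of_nonneg (by linarith : 0 ≤ g t₂ - g 0), abs_of_nonpos (by linarith : g t₁ - g t₂ ≤ 0),
      abs_of_nonneg (by linarith : 0 ≤ g 0 - g t₁)]
    linarith

end Pool.Agent.Gal
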