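import Pool.Agent.Helper77.Gal.CoreDefs

/-!
# L4, L5: winding numbers at the nodes, times in different arcs
-/

open Set MeasureTheory Filter Topology
open scoped ENNReal NNReal

namespace Pool.Agent.Gal

namespace Network

variable {N : Network}

/-- the potential of the node `v` on raw points: `0` at `v`, `1` at the other nodes -/
noncomputable def psiPt (v : N.V) (p : N.Pt) : ℝ :=
  if N.src p.arc = v then (if N.tgt p.arc = v then 0 else p.pos / N.len p.arc)
  else (if N.tgt p.arc = v then 1 - p.pos / N.len p.arc else 1)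

theorem psiPt_node (v : N.V) {p : N.Pt} {w : N.V} (h : N.IsNode p w) :
    psiPt v p = if w = v then 0 else 1 := by
  have hl : N.len p.arc ≠ 0 := (N.len_pos p.arc).ne'
  rcases h with ⟨h1, h2⟩ | ⟨h1, h2⟩
  · subst h2
    unfold psiPt
    rw [h1]
    split_ifs <;> simp
  · subst h2
    unfold psiPt
    rw [h1, div_self hl]
    split_ifs <;> simp

theorem psiPt_le (v : N.V) (p q : N.Pt) :
    |psiPt v p - psiPt v q| ≤ (∑ e, 1 / N.len e) * dist p q := by
  have hK : 0 ≤ ∑ e, 1 / N.len e :=
    Finset.sum_nonneg fun e _ => (one_div_pos.2 (N.len_pos e)).le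
  refine pot_le hK ?_ ?_ p q
  · intro e x y hx hy
    have h1 : 1 / N.len e ≤ ∑ e, 1 / N.len e :=
      Finset.single_le_sum (f := fun e => 1 / N.len e)
        (fun e _ => (one_div_pos.2 (N.len_pos e)).le) (Finset.mem_univ e)
    have h2 : |psiPt v ⟨e, x, hx⟩ - psiPt v ⟨e, y, hy⟩| ≤ 1 / N.len e * |x - y| := by
      have h0 : (0 : ℝ) ≤ 1 / N.len e * |x - y| :=
        mul_nonneg (one_div_pos.2 (N.len_pos e)).le (abs_nonneg _)
      have h3 : |x / N.len e - y / N.len e| = 1 / N.len e * |x - y| := by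
        rw [← sub_div, abs_div, abs_of_pos (N.len_pos e)]
        ring
      unfold psiPt
      simp only
      split_ifs
      · simpa using h0
      · exact h3.le
      · rw [sub_sub_sub_cancel_left, abs_sub_comm]
        exact h3.le
      · simpa using h0
    exact h2.trans (mul_le_mul_of_nonneg_right h1 (abs_nonneg _))
  · intro p q w hp hq
    rw [psiPt_node v hp, psiPt_node v hq]

/-- the potential of the node `v` -/
noncomputable def psi (v : N.V) : N.Q → ℝ :=
  SeparationQuotient.lift (psiPt v) (fun p q h => by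
    rw [Metric.inseparable_iff] at h
    have := psiPt_le v p q
    rw [h, mul_zero] at this
    exact sub_eq_zero.1 (abs_nonpos_iff.1 this))

theorem psi_cls (v : N.V) (p : N.Pt) : psi v (N.cls p) = psiPt v p := rfl

theorem psi_continuous (v : N.V) : Continuous (psi (N := N) v) := by
  have h : LipschitzWith (Real.toNNReal (∑ e, 1 / N.len e)) (psi (N := N) v) := by
    refine LipschitzWith.of_dist_le_mul fun p q => ?_
    obtain ⟨p, rfl⟩ := mk_surj p
    obtain ⟨q, rfl⟩ := mk_surj q
    rw [psi_cls, psi_cls, dist_mk, Real.dist_eq, Real.coe_toNNReal _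
      (Finset.sum_nonneg fun e _ => (one_div_pos.2 (N.len_pos e)).le)]
    exact psiPt_le v p q
  exact h.continuous

theorem psi_pt (v : N.V) (e : N.E) {x : ℝ} (hx : x ∈ Icc 0 (N.len e)) :
    ∃ k : ℤ, ((if N.src e = v then (1 : ℤ) else 0) - (if N.tgt e = v then 1 else 0) : ℤ) *
      (x / N.len e) - psi v (N.pt e x) = k := by
  rw [pt_eq e hx, psi_cls]
  unfold psiPt
  simp only
  split_ifs
  · exact ⟨0, by simp⟩
  · exact ⟨0, by simp⟩
  · exact ⟨-1, by push_cast; ring⟩
  · exact ⟨-1, by push_cast; ring⟩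

/-- L4: conservation of the winding numbers at the nodes -/
theorem winding_conservation {f : ℝ → N.Q} (hf : LipschitzWith 1 f) {a : N.V} {s : ℝ}
    (hs : 0 ≤ s) (h0 : f 0 = N.node a) (h1 : f s = N.node a) {g : N.E → ℝ → ℝ}
    (hg : ∀ e, LipschitzWith 1 (g e)) (hg' : ∀ e t, (g e t : AddCircle (N.len e)) = N.circ e (f t))
    {W : N.E → ℤ} (hW : ∀ e, g e s - g e 0 = W e * N.len e) (v : N.V) :
    ∑ e, ((if N.src e = v then (1 : ℤ) else 0) - (if N.tgt e = v then 1 else 0)) * W e = 0 := by
  set σ : N.E → ℤ := fun e => (if N.src e = v then (1 : ℤ) else 0) - (if N.tgt e = v then 1 else 0)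
    with hσ
  -- the integer-valued continuous function
  set F : ℝ → ℝ := fun t => ∑ e, (σ e : ℝ) * (g e t / N.len e) - psi v (f t) with hF
  have hFc : Continuous F := by
    refine Continuous.sub ?_ ((psi_continuous v).comp hf.continuous)
    exact continuous_finsetSum _ fun e _ =>
      continuous_const.mul ((hg e).continuous.div_const _)
  have hint : ∀ t, ∃ k : ℤ, F t = k := by
    intro t
    obtain ⟨e₀, x, hx, hq⟩ := exists_pt (f t)
    have h2 : ∀ e, ∃ m : ℤ, g e t / N.len e = (if e = e₀ then x / N.len e₀ else 0) + m := by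
      intro e
      have hl : N.len e ≠ 0 := (N.len_pos e).ne'
      by_cases he : e = e₀
      · subst he
        have h3 : ((g e t - x : ℝ) : AddCircle (N.len e)) = 0 := by
          rw [AddCircle.coe_sub, hg' e t, ← hq, circ_pt e hx, sub_self]
        obtain ⟨m, hm⟩ := (AddCircle.coe_eq_zero_iff _).1 h3
        refine ⟨m, ?_⟩
        rw [zsmul_eq_mul] at hm
        rw [if_pos rfl, div_add' _ _ _ hl]
        congr 1
        linarith
      · have h3 : ((g e t : ℝ) : AddCircle (N.len e)) = 0 := by
          rw [hg' e t, ← hq, circ_pt_ne (Ne.symm he)]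
        obtain ⟨m, hm⟩ := (AddCircle.coe_eq_zero_iff _).1 h3
        refine ⟨m, ?_⟩
        rw [if_neg he, zero_add, ← hm, zsmul_eq_mul, mul_div_cancel_right₀ _ hl]
    choose m hm using h2
    obtain ⟨k, hk⟩ := psi_pt v e₀ hx
    rw [hq] at hk
    refine ⟨k + ∑ e, σ e * m e, ?_⟩
    have h4 : ∑ e, (σ e : ℝ) * (g e t / N.len e) = (σ e₀ : ℝ) * (x / N.len e₀) +
        ∑ e, (σ e : ℝ) * m e := by
      have : ∀ e, (σ e : ℝ) * (g e t / N.len e) =
          (if e = e₀ then (σ e₀ : ℝ) * (x / N.len e₀) else 0) + (σ e : ℝ) * m e := by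
        intro e
        rw [hm e]
        split_ifs with h
        · subst h; ring
        · ring
      simp only [this]
      rw [Finset.sum_add_distrib]
      simp
    simp only [hF]
    rw [h4]
    push_cast
    rw [← hk]
    ring
  choose K hK using hint
  have hKc : Continuous K := by
    rw [Int.isClosedEmbedding_coe_real.isEmbedding.isInducing.continuous_iff]
    have : (Int.cast : ℤ → ℝ) ∘ K = F := by
      funext t
      exact (hK t).symm
    rw [this]
    exact hFc
  have hK0 : K s = K 0 := PreconnectedSpace.constant inferInstance hKc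
  have hFs : F s = F 0 := by rw [hK s, hK 0, hK0]
  simp only [hF, h0, h1] at hFs
  have h5 : ∑ e, (σ e : ℝ) * (g e s / N.len e) = ∑ e, (σ e : ℝ) * (g e 0 / N.len e) := by
    linarith
  have h6 : ∑ e, (σ e : ℝ) * (W e : ℝ) = 0 := by
    have h7 : ∀ e, (σ e : ℝ) * (W e : ℝ) =
        (σ e : ℝ) * (g e s / N.len e) - (σ e : ℝ) * (g e 0 / N.len e) := by
      intro e
      have hl : N.len e ≠ 0 := (N.len_pos e).ne'
      rw [← mul_sub, ← sub_div, hW e, mul_div_cancel_right₀ _ hl]
    simp only [h7]
    rw [Finset.sum_sub_distrib, h5, sub_self]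
  have h8 : ((∑ e, σ e * W e : ℤ) : ℝ) = 0 := by
    push_cast
    exact h6
  exact Int.cast_eq_zero.1 h8

/-- L5: the times spent in different arcs are disjoint -/
theorem sum_time_le {f : ℝ → N.Q} (hf : Continuous f) {s : ℝ} (hs : 0 ≤ s) :
    ∑ e, volume {t | t ∈ Icc 0 s ∧ N.circ e (f t) ≠ 0} ≤ ENNReal.ofReal s := by
  have hmeas : ∀ e, MeasurableSet {t | t ∈ Icc 0 s ∧ N.circ e (f t) ≠ 0} := by
    intro e
    have h1 : IsOpen {t | N.circ e (f t) ≠ 0} :=
      isOpen_ne_fun ((circ_lip e).continuous.comp hf) continuous_const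
    exact measurableSet_Icc.inter h1.measurableSet
  have hdisj : Pairwise (Function.onFun Disjoint
      (fun e => {t | t ∈ Icc 0 s ∧ N.circ e (f t) ≠ 0})) := by
    intro e e' he
    rw [Function.onFun, Set.disjoint_left]
    rintro t ⟨-, h1⟩ ⟨-, h2⟩
    obtain ⟨e₀, x, hx, hq⟩ := exists_pt (f t)
    rw [← hq] at h1 h2
    have h3 : e₀ = e := by
      by_contra h
      exact h1 (circ_pt_ne h x)
    have h4 : e₀ = e' := by
      by_contra h
      exact h2 (circ_pt_ne h x)
    exact he (h3.symm.trans h4)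
  have h1 := measure_iUnion hdisj hmeas (μ := volume)
  rw [tsum_fintype] at h1
  rw [← h1]
  have h2 : (⋃ e, {t | t ∈ Icc 0 s ∧ N.circ e (f t) ≠ 0}) ⊆ Icc 0 s :=
    iUnion_subset fun e t ht => ht.1
  refine (measure_mono h2).trans ?_
  rw [Real.volume_Icc, sub_zero]

end Network

end Pool.Agent.Gal
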