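import Pool.Agent.Helper77.Gal.Lift4

/-!
# L6: connectivity of the set of arcs covered by a path
-/

open Set MeasureTheory Filter Topology
open scoped ENNReal NNReal

namespace Pool.Agent.Gal

namespace Network

variable {N : Network}

private theorem psi_node (v w : N.V) : psi v (N.node w) = if w = v then 0 else 1 :=
  psiPt_node v (exists_isNode w).choose_spec

private theorem node_inj {u v : N.V} (h : N.node u = N.node v) : u = v := by
  have h1 := psi_node v u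
  rw [h, psi_node v v, if_pos rfl] at h1
  by_contra hne
  rw [if_neg hne] at h1
  exact zero_ne_one h1

variable (N) in
/-- the union of the nodes in `S` and of the arcs with `n e ≠ 0` which start in `S` -/
def zset (n : N.E → ℕ) (S : Set N.V) : Set N.Q :=
  (N.node '' S) ∪ ⋃ e ∈ {e | n e ≠ 0 ∧ N.src e ∈ S}, N.pt e '' Icc 0 (N.len e)

private theorem zset_closed (n : N.E → ℕ) (S : Set N.V) : IsClosed (N.zset n S) := by
  refine IsClosed.union ((S.toFinite.image _).isClosed) ?_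
  refine (toFinite _).isClosed_biUnion fun e _ => ?_
  exact (N.isChart e).isClosed_image le_rfl le_rfl

private theorem pt_end {e : N.E} {x : ℝ} (hx : x ∈ Icc 0 (N.len e)) (hx' : x ∉ Ioo 0 (N.len e)) :
    N.pt e x = N.node (N.src e) ∧ x = 0 ∨ N.pt e x = N.node (N.tgt e) ∧ x = N.len e := by
  by_cases h0 : x = 0
  · left
    subst h0
    exact ⟨pt_zero e, rfl⟩
  · right
    have h1 : x = N.len e := by
      by_contra h1
      exact hx' ⟨lt_of_le_of_ne hx.1 (Ne.symm h0), lt_of_le_of_ne hx.2 h1⟩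
    subst h1
    exact ⟨pt_len e, rfl⟩

private theorem node_mem_zset {n : N.E → ℕ} {S : Set N.V}
    (hS : ∀ e, n e ≠ 0 → (N.src e ∈ S ↔ N.tgt e ∈ S)) {w : N.V} (h : N.node w ∈ N.zset n S) :
    w ∈ S := by
  rcases h with ⟨v, hv, hvw⟩ | h
  · rwa [← node_inj hvw]
  · obtain ⟨e, ⟨he, heS⟩, x, hx, hxw⟩ := by simpa only [mem_iUnion, exists_prop] using h
    have hx' : x ∉ Ioo 0 (N.len e) := fun hx' => node_ne_pt hx' w hxw
    rcases pt_end hx hx' with ⟨h1, -⟩ | ⟨h1, -⟩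
    · rw [h1] at hxw
      rwa [← node_inj hxw]
    · rw [h1] at hxw
      rw [← node_inj hxw]
      exact (hS e he).1 heS

private theorem pt_mem_zset {n : N.E → ℕ} {S : Set N.V} {e : N.E} {x : ℝ} (hx : x ∈ Ioo 0 (N.len e))
    (h : N.pt e x ∈ N.zset n S) : N.src e ∈ S := by
  rcases h with ⟨v, hv, hvw⟩ | h
  · exact absurd hvw.symm (node_ne_pt hx v)
  · obtain ⟨f, ⟨hf, hfS⟩, y, hy, hxy⟩ := by simpa only [mem_iUnion, exists_prop] using h
    obtain ⟨rfl, -⟩ := pt_inj hx hy hxy.symm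
    exact hfS

/-- L6: connectivity of the set of arcs covered by a path -/
theorem supp_conn {p : ℝ≥0 → N.Q} (hp : LipschitzWith 1 p) {a : N.V} (h0 : p 0 = N.node a)
    {s : ℝ≥0} {n : N.E → ℕ}
    (hn : ∀ e, n e = 0 → ∀ x ∈ Ioo 0 (N.len e), (s : ℝ≥0∞) < hit p (N.pt e x))
    (hn' : ∀ e, n e ≠ 0 → ∀ x ∈ Icc 0 (N.len e), hit p (N.pt e x) ≤ s) (u : N.V)
    (hu : hit p (N.node u) ≤ s) : N.SuppConn n a u := by
  by_contra hcon
  set S : Set N.V := {w | N.SuppConn n a w} with hS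
  have haS : a ∈ S := Relation.ReflTransGen.refl
  have hSe : ∀ e, n e ≠ 0 → (N.src e ∈ S ↔ N.tgt e ∈ S) := by
    intro e he
    constructor
    · intro h
      exact Relation.ReflTransGen.tail h ⟨e, he, Or.inl ⟨rfl, rfl⟩⟩
    · intro h
      exact Relation.ReflTransGen.tail h ⟨e, he, Or.inr ⟨rfl, rfl⟩⟩
  have hSe' : ∀ e, n e ≠ 0 → (N.src e ∈ Sᶜ ↔ N.tgt e ∈ Sᶜ) := fun e he =>
    not_congr (hSe e he)
  have hcov : p '' Icc 0 s ⊆ N.zset n S ∪ N.zset n Sᶜ := by
    rintro _ ⟨t, ht, rfl⟩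
    obtain ⟨e, x, hx, hq⟩ := exists_pt (p t)
    rw [← hq]
    by_cases hx' : x ∈ Ioo 0 (N.len e)
    · have he : n e ≠ 0 := by
        intro he
        exact (lt_hit_iff hp.continuous).1 (hn e he x hx') t ht.2 hq.symm
      by_cases h : N.src e ∈ S
      · left; right
        simp only [mem_iUnion, exists_prop]
        exact ⟨e, ⟨he, h⟩, x, hx, rfl⟩
      · right; right
        simp only [mem_iUnion, exists_prop]
        exact ⟨e, ⟨he, h⟩, x, hx, rfl⟩
    · have hnode : ∀ w, N.node w ∈ N.zset n S ∪ N.zset n Sᶜ := by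
        intro w
        by_cases h : w ∈ S
        · left; left; exact ⟨w, h, rfl⟩
        · right; left; exact ⟨w, h, rfl⟩
      rcases pt_end hx hx' with ⟨h1, -⟩ | ⟨h1, -⟩
      · rw [h1]; exact hnode _
      · rw [h1]; exact hnode _
  have hpre : IsPreconnected (p '' Icc 0 s) := isPreconnected_Icc.image _ hp.continuous.continuousOn
  obtain ⟨t, ht, htu⟩ := (hit_le_iff hp.continuous).1 hu
  have hA : (p '' Icc 0 s ∩ N.zset n S).Nonempty :=
    ⟨N.node a, ⟨0, ⟨le_rfl, zero_le⟩, h0⟩, Or.inl ⟨a, haS, rfl⟩⟩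
  have hB : (p '' Icc 0 s ∩ N.zset n Sᶜ).Nonempty :=
    ⟨N.node u, ⟨t, ⟨zero_le, ht⟩, htu⟩, Or.inl ⟨u, hcon, rfl⟩⟩
  obtain ⟨q, -, hq1, hq2⟩ := isPreconnected_closed_iff.1 hpre _ _ (zset_closed n S)
    (zset_closed n Sᶜ) hcov hA hB
  obtain ⟨e, x, hx, hq⟩ := exists_pt q
  rw [← hq] at hq1 hq2
  by_cases hx' : x ∈ Ioo 0 (N.len e)
  · exact pt_mem_zset hx' hq2 (pt_mem_zset hx' hq1)
  · rcases pt_end hx hx' with ⟨h1, -⟩ | ⟨h1, -⟩
    · rw [h1] at hq1 hq2
      exact node_mem_zset hSe' hq2 (node_mem_zset hSe hq1)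
    · rw [h1] at hq1 hq2
      exact node_mem_zset hSe' hq2 (node_mem_zset hSe hq1)

end Network

end Pool.Agent.Gal
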