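import Pool.Agent.Helper77.Gal.Lift1
import Pool.Agent.Helper77.Gal.Lift2
import Pool.Agent.Helper77.Gal.Lift4
import Pool.Agent.Helper77.Gal.Lift6

/-!
# L7: Lemma K
-/

open Set MeasureTheory Filter Topology
open scoped ENNReal NNReal

namespace Pool.Agent.Gal

namespace Network

variable {N : Network}

/-- L7: Lemma K -/
theorem lemmaK {p : ℝ≥0 → N.Q} (hp : LipschitzWith 1 p) {a : N.V} (h0 : p 0 = N.node a)
    {s : ℝ≥0} (hs : p s = N.node a)
    (hfull : ∀ e, (∀ x ∈ Icc 0 (N.len e), hit p (N.pt e x) ≤ s) ∨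
      (∀ x ∈ Ioo 0 (N.len e), (s : ℝ≥0∞) < hit p (N.pt e x))) :
    ∃ n : N.E → ℕ, (∀ e, n e ≤ 2) ∧
      (∀ e, n e = 0 → ∀ x ∈ Ioo 0 (N.len e), (s : ℝ≥0∞) < hit p (N.pt e x)) ∧
      (∀ e, n e ≠ 0 → ∀ x ∈ Icc 0 (N.len e), hit p (N.pt e x) ≤ s) ∧
      N.EvenVec n ∧ (∀ u, hit p (N.node u) ≤ s → N.SuppConn n a u) ∧ N.total n ≤ s := by
  classical
  -- the path with real time
  set f : ℝ → N.Q := fun t => p t.toNNReal with hf
  have hfl : LipschitzWith 1 f := by
    have h := hp.comp (LipschitzWith.of_dist_le_mul (K := 1) (f := Real.toNNReal)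
      (fun x y => by
        rw [NNReal.coe_one, one_mul, NNReal.dist_eq, Real.coe_toNNReal', Real.coe_toNNReal',
          Real.dist_eq]
        exact abs_max_sub_max_le_abs x y 0))
    rw [one_mul] at h
    exact h
  have hf0 : f 0 = N.node a := by simp [hf, h0]
  have hfs : f s = N.node a := by simp [hf, hs]
  have hs0 : (0 : ℝ) ≤ s := s.2
  have hvis : ∀ q : N.Q, hit p q ≤ s → ∃ t ∈ Icc (0 : ℝ) s, f t = q := by
    intro q hq
    obtain ⟨t, ht, htq⟩ := (hit_le_iff hp.continuous).1 hq
    exact ⟨t, ⟨t.2, by exact_mod_cast ht⟩, by simp [hf, htq]⟩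
  have hnvis : ∀ q : N.Q, (s : ℝ≥0∞) < hit p q → ∀ t ∈ Icc (0 : ℝ) s, f t ≠ q := by
    intro q hq t ht
    exact (lt_hit_iff hp.continuous).1 hq _ (Real.toNNReal_le_iff_le_coe.2 ht.2)
  -- lifts
  have hL : ∀ e, ∃ g : ℝ → ℝ, LipschitzWith 1 g ∧
      ∀ t, (g t : AddCircle (N.len e)) = N.circ e (f t) := fun e =>
    exists_lift (N.len_pos e) (by
      have h := (circ_lip e).comp hfl
      rw [one_mul] at h
      exact h)
  choose g hg hg' using hL
  have hW0 : ∀ e, ∃ W : ℤ, g e s - g e 0 = W * N.len e := by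
    intro e
    have h1 : ((g e s - g e 0 : ℝ) : AddCircle (N.len e)) = 0 := by
      rw [AddCircle.coe_sub, hg', hg', hf0, hfs, sub_self]
    obtain ⟨m, hm⟩ := (AddCircle.coe_eq_zero_iff _).1 h1
    exact ⟨m, by rw [← hm, zsmul_eq_mul]⟩
  choose W hW using hW0
  set T : N.E → ℝ≥0∞ := fun e => volume {t | t ∈ Icc 0 (s : ℝ) ∧ N.circ e (f t) ≠ 0} with hT
  have hTW : ∀ e, ENNReal.ofReal (|(W e : ℝ)| * N.len e) ≤ T e := by
    intro e
    have h1 := lift_var (N.len_pos e) (hg e) hs0
    rw [hW e, abs_mul, abs_of_pos (N.len_pos e)] at h1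
    simpa only [hg', hT] using h1
  -- multiplicities
  set n : N.E → ℕ := fun e =>
    if ∀ x ∈ Ioo 0 (N.len e), (s : ℝ≥0∞) < hit p (N.pt e x) then 0
    else if Odd (W e) then 1 else 2 with hn
  have hn2 : ∀ e, n e ≤ 2 := by
    intro e
    simp only [hn]
    split_ifs <;> omega
  have hn0 : ∀ e, n e = 0 → ∀ x ∈ Ioo 0 (N.len e), (s : ℝ≥0∞) < hit p (N.pt e x) := by
    intro e he
    by_contra hcon
    simp only [hn, if_neg hcon] at he
    split_ifs at he
  have hn1 : ∀ e, n e ≠ 0 → ∀ x ∈ Icc 0 (N.len e), hit p (N.pt e x) ≤ s := by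
    intro e he
    rcases hfull e with h | h
    · exact h
    · exact absurd (by simp only [hn, if_pos h]) he
  -- untouched arcs
  have hWz : ∀ e, n e = 0 → W e = 0 := by
    intro e he
    have h1 := hn0 e he
    have h2 : T e = 0 := by
      have : {t | t ∈ Icc 0 (s : ℝ) ∧ N.circ e (f t) ≠ 0} = ∅ := by
        rw [eq_empty_iff_forall_notMem]
        rintro t ⟨ht, hne⟩
        obtain ⟨e₀, x, hx, hq⟩ := exists_pt (f t)
        have he₀ : e₀ = e := by
          by_contra h
          exact hne (hq ▸ circ_pt_ne h x)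
        subst he₀
        have hx' : x ∈ Ioo 0 (N.len e₀) := by
          refine ⟨lt_of_le_of_ne hx.1 ?_, lt_of_le_of_ne hx.2 ?_⟩
          · rintro rfl
            exact hne (hq ▸ circ_eq_zero_of hx (Or.inr (Or.inl rfl)))
          · intro h
            exact hne (hq ▸ circ_eq_zero_of hx (Or.inr (Or.inr h)))
        exact hnvis _ (h1 x hx') t ht hq.symm
      rw [hT]
      simp only [this, measure_empty]
    have h3 := hTW e
    rw [h2, nonpos_iff_eq_zero, ENNReal.ofReal_eq_zero] at h3
    have h4 : |(W e : ℝ)| * N.len e = 0 :=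
      le_antisymm h3 (mul_nonneg (abs_nonneg _) (N.len_pos e).le)
    rcases mul_eq_zero.1 h4 with h | h
    · exact_mod_cast abs_eq_zero.1 h
    · exact absurd h (N.len_pos e).ne'
  -- time in the arcs
  have htime : ∀ e, ENNReal.ofReal (n e * N.len e) ≤ T e := by
    intro e
    by_cases h0' : n e = 0
    · rw [h0']; simp
    by_cases hodd : Odd (W e)
    · have h1 : n e = 1 := by
        simp only [hn]
        rw [if_neg (fun h => h0' (by simp only [hn, if_pos h])), if_pos hodd]
      refine le_trans (ENNReal.ofReal_le_ofReal ?_) (hTW e)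
      refine mul_le_mul_of_nonneg_right ?_ (N.len_pos e).le
      rw [h1]
      have h2 : W e ≠ 0 := by
        intro h
        rw [h] at hodd
        exact absurd hodd (by decide)
      have h3 : 1 ≤ |W e| := Int.one_le_abs h2
      have h4 : ((1 : ℤ) : ℝ) ≤ ((|W e| : ℤ) : ℝ) := by exact_mod_cast h3
      simpa using h4
    · have h1 : n e = 2 := by
        simp only [hn]
        rw [if_neg (fun h => h0' (by simp only [hn, if_pos h])), if_neg hodd]
      by_cases hWe : W e = 0
      · have h2 := lift_time_zero (N.len_pos e) (hg e) hs0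
          (by rw [hg', hf0, circ_node]) (by
            have := hW e
            rw [hWe] at this
            simp only [Int.cast_zero, zero_mul] at this
            linarith) (by
            intro x hx
            obtain ⟨t, ht, htx⟩ := hvis _ (hn1 e h0' x ⟨hx.1.le, hx.2.le⟩)
            exact ⟨t, ht, by rw [hg', htx, circ_pt e ⟨hx.1.le, hx.2.le⟩]⟩)
        rw [h1]
        push_cast
        simpa only [hg', hT] using h2
      · refine le_trans (ENNReal.ofReal_le_ofReal ?_) (hTW e)
        refine mul_le_mul_of_nonneg_right ?_ (N.len_pos e).le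
        rw [h1]
        have h2 : Even (W e) := Int.not_odd_iff_even.1 hodd
        have h3 : 2 ≤ |W e| := by
          obtain ⟨r, hr⟩ := h2
          rw [hr, ← two_mul, abs_mul]
          have : 1 ≤ |r| := Int.one_le_abs (by
            rintro rfl
            exact hWe (by simpa using hr))
          simp only [abs_two]
          linarith
        have h4 : ((2 : ℤ) : ℝ) ≤ ((|W e| : ℤ) : ℝ) := by exact_mod_cast h3
        simpa using h4
  refine ⟨n, hn2, hn0, hn1, ?_, fun u hu => supp_conn hp h0 hn0 hn1 u hu, ?_⟩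
  · -- parity
    intro v
    have hc := winding_conservation hfl hs0 hf0 hfs hg hg' hW v
    have h1 : ∀ e, ((n e : ℤ) * (N.inc v e : ℤ) : ZMod 2) =
        ((((if N.src e = v then (1 : ℤ) else 0) - (if N.tgt e = v then 1 else 0)) * W e : ℤ) :
          ZMod 2) := by
      intro e
      have hne : ((n e : ℤ) : ZMod 2) = (W e : ZMod 2) := by
        by_cases h0' : n e = 0
        · rw [h0', hWz e h0']
          simp
        by_cases hodd : Odd (W e)
        · have h1 : n e = 1 := by
            simp only [hn]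
            rw [if_neg (fun h => h0' (by simp only [hn, if_pos h])), if_pos hodd]
          rw [h1]
          obtain ⟨r, hr⟩ := hodd
          rw [hr]
          push_cast
          have : (2 : ZMod 2) = 0 := rfl
          rw [this]
          ring
        · have h1 : n e = 2 := by
            simp only [hn]
            rw [if_neg (fun h => h0' (by simp only [hn, if_pos h])), if_neg hodd]
          rw [h1]
          obtain ⟨r, hr⟩ := Int.not_odd_iff_even.1 hodd
          rw [hr, ← two_mul]
          push_cast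
          have : (2 : ZMod 2) = 0 := rfl
          rw [this]
          ring
      have hinc : ((N.inc v e : ℤ) : ZMod 2) =
          (((if N.src e = v then (1 : ℤ) else 0) - (if N.tgt e = v then 1 else 0) : ℤ) :
            ZMod 2) := by
        unfold inc
        split_ifs <;> simp <;> rfl
      push_cast at hne hinc ⊢
      rw [hne, hinc]
      ring
    have h2 : ((∑ e, n e * N.inc v e : ℕ) : ZMod 2) = 0 := by
      have h3 : ((∑ e, n e * N.inc v e : ℕ) : ZMod 2) =
          ∑ e, ((n e : ℤ) * (N.inc v e : ℤ) : ZMod 2) := by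
        push_cast
        rfl
      rw [h3, Finset.sum_congr rfl fun e _ => h1 e, ← Int.cast_sum, hc]
      simp
    have h3 := (ZMod.natCast_eq_zero_iff _ _).1 h2
    exact even_iff_two_dvd.2 h3
  · -- total
    have h1 := sum_time_le hfl.continuous hs0
    have h2 : ∑ e, ENNReal.ofReal (n e * N.len e) ≤ ENNReal.ofReal s :=
      (Finset.sum_le_sum fun e _ => htime e).trans h1
    rw [← ENNReal.ofReal_sum_of_nonneg
      (fun e _ => mul_nonneg (Nat.cast_nonneg _) (N.len_pos e).le)] at h2
    exact (ENNReal.ofReal_le_ofReal_iff hs0).1 h2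

end Network

end Pool.Agent.Gal
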