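import Pool.Agent.Helper77.Gal.CoreDefs

/-!
# The pendant arc of a leaf
-/

open Set MeasureTheory Filter Topology
open scoped ENNReal NNReal

namespace Pool.Agent.Gal

namespace Network

/-- potential of the pendant arc: minus the distance to `a` along `e₀`, the distance to `node a`
elsewhere; `ψ` is the distance to the end `a` along `e₀` -/
noncomputable def pendPot (N : Network) (e₀ : N.E) (a : N.V) (ψ : ℝ → ℝ) (p : N.Pt) : ℝ :=
  if p.arc = e₀ then -ψ p.pos else dist (N.node a) (N.cls p)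

variable {N : Network}

theorem pendPot_le {e₀ : N.E} {a b : N.V} {ψ : ℝ → ℝ} (hψ : ∀ x y, |ψ x - ψ y| = |x - y|)
    (hb : ∀ e, e ≠ e₀ → N.src e ≠ b ∧ N.tgt e ≠ b)
    (hnode : ∀ p : N.Pt, ∀ v, p.arc = e₀ → N.IsNode p v → (v = a ∧ ψ p.pos = 0) ∨ v = b)
    (hbpos : ∀ p q : N.Pt, p.arc = e₀ → q.arc = e₀ → N.IsNode p b → N.IsNode q b →
      ψ p.pos = ψ q.pos) (hab : a ≠ b) (p q : N.Pt) :
    |N.pendPot e₀ a ψ p - N.pendPot e₀ a ψ q| ≤ dist p q := by
  have key := pot_le (N := N) (f := N.pendPot e₀ a ψ) (K := 1) zero_le_one ?_ ?_ p q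
  · simpa using key
  · intro e x y hx hy
    rw [one_mul]
    by_cases he : e = e₀
    · simp only [pendPot, he, if_true]
      rw [show -ψ x - -ψ y = -(ψ x - ψ y) by ring, abs_neg, hψ]
    · simp only [pendPot, he, if_false]
      rw [dist_comm (N.node a), dist_comm (N.node a)]
      refine (abs_dist_sub_le _ _ _).trans ?_
      rw [dist_mk]
      exact rdist_le (Route.along e x y hx hy)
  · intro p q v hp hq
    have hnb : ∀ w : N.Pt, w.arc ≠ e₀ → ∀ u, N.IsNode w u → u ≠ b := by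
      intro w hw u hu
      rcases hu with h | h
      · rw [← h.2]; exact (hb w.arc hw).1
      · rw [← h.2]; exact (hb w.arc hw).2
    by_cases hpe : p.arc = e₀ <;> by_cases hqe : q.arc = e₀
    · simp only [pendPot, hpe, hqe, if_true]
      rcases hnode p v hpe hp with h1 | h1
      · rcases hnode q v hqe hq with h2 | h2
        · rw [h1.2, h2.2]
        · exact absurd (h1.1.symm.trans h2) hab
      · subst h1
        rw [hbpos p q hpe hqe hp hq]
    · simp only [pendPot, hpe, hqe, if_true, if_false]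
      rcases hnode p v hpe hp with h1 | h1
      · rw [h1.2, mk_eq_node hq, h1.1, dist_self, neg_zero]
      · exact absurd h1 (hnb q hqe v hq)
    · simp only [pendPot, hpe, hqe, if_true, if_false]
      rcases hnode q v hqe hq with h1 | h1
      · rw [h1.2, mk_eq_node hp, h1.1, dist_self, neg_zero]
      · exact absurd h1 (hnb p hpe v hp)
    · simp only [pendPot, hpe, hqe, if_false]
      rw [mk_eq_node hp, mk_eq_node hq]

/-- general construction: `φ` is the position on `e₀` as a function of the distance to the end `a`,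
`ψ` its inverse -/
theorem exists_pend_aux {e₀ : N.E} {a b : N.V} {ψ φ : ℝ → ℝ} (hψ : ∀ x y, |ψ x - ψ y| = |x - y|)
    (hφ : ∀ x y, |φ x - φ y| = |x - y|) (hψφ : ∀ x, ψ (φ x) = x) (hφψ : ∀ x, φ (ψ x) = x)
    (hφI : ∀ x ∈ Icc 0 (N.len e₀), φ x ∈ Icc 0 (N.len e₀))
    (hψI : ∀ x ∈ Icc 0 (N.len e₀), ψ x ∈ Icc 0 (N.len e₀))
    (hb : ∀ e, e ≠ e₀ → N.src e ≠ b ∧ N.tgt e ≠ b)
    (hnode : ∀ p : N.Pt, ∀ v, p.arc = e₀ → N.IsNode p v → (v = a ∧ ψ p.pos = 0) ∨ v = b)
    (hbpos : ∀ p q : N.Pt, p.arc = e₀ → q.arc = e₀ → N.IsNode p b → N.IsNode q b →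
      ψ p.pos = ψ q.pos) (hab : a ≠ b) (ha : N.pt e₀ (φ 0) = N.node a) :
    ∃ K : Pend N.Q, K.l = N.len e₀ ∧ K.R = N.rest e₀ (N.node a) ∧ K.c = fun x => N.pt e₀ (φ x) := by
  have hpot := pendPot_le hψ hb hnode hbpos hab
  have hcpt : ∀ t ∈ Icc 0 (N.len e₀), ∃ p : N.Pt, N.pt e₀ (φ t) = N.cls p ∧
      N.pendPot e₀ a ψ p = -t := by
    intro t ht
    refine ⟨⟨e₀, φ t, hφI t ht⟩, pt_eq _ _, ?_⟩
    simp [pendPot, hψφ]
  have hdc : ∀ t ∈ Icc 0 (N.len e₀), ∀ t' ∈ Icc 0 (N.len e₀),
      dist (N.pt e₀ (φ t)) (N.pt e₀ (φ t')) = |t - t'| := by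
    intro t ht t' ht'
    refine le_antisymm ?_ ?_
    · rw [← hφ]
      exact dist_pt_le e₀ (hφI t ht) (hφI t' ht')
    · obtain ⟨p, hp, hp'⟩ := hcpt t ht
      obtain ⟨q, hq, hq'⟩ := hcpt t' ht'
      have := hpot p q
      rw [hp', hq', show -t - -t' = -(t - t') by ring, abs_neg] at this
      rw [hp, hq, dist_mk]
      exact this
  have h0 : (0 : ℝ) ∈ Icc 0 (N.len e₀) := ⟨le_rfl, (N.len_pos e₀).le⟩
  refine ⟨{ R := N.rest e₀ (N.node a), c := fun x => N.pt e₀ (φ x), l := N.len e₀,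
            l_pos := N.len_pos e₀, closed := ?_, zero_mem := ?_, dist_c := hdc, dist_R := ?_,
            cover := ?_ }, rfl, rfl, rfl⟩
  · have h1 : IsClosed (⋃ e ∈ {e | e ≠ e₀}, N.pt e '' Icc 0 (N.len e)) :=
      (Set.toFinite _).isClosed_biUnion fun e _ => (N.isChart e).isClosed_image le_rfl le_rfl
    exact isClosed_singleton.union h1
  · rw [ha]; exact mem_insert _ _
  · intro t ht q hq
    rcases hq with rfl | hq
    · rw [ha, dist_self, add_zero, ← ha, hdc t ht 0 h0, sub_zero, abs_of_nonneg ht.1]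
    · simp only [mem_iUnion] at hq
      obtain ⟨e, he, x, hx, rfl⟩ := hq
      refine le_antisymm ?_ ?_
      · have := dist_triangle (N.pt e₀ (φ t)) (N.pt e₀ (φ 0)) (N.pt e x)
        rw [hdc t ht 0 h0, sub_zero, abs_of_nonneg ht.1] at this
        exact this
      · obtain ⟨p, hp, hp'⟩ := hcpt t ht
        have := hpot ⟨e, x, hx⟩ p
        rw [hp'] at this
        have he' : (⟨e, x, hx⟩ : N.Pt).arc ≠ e₀ := he
        simp only [pendPot, he', if_false] at this
        rw [ha, hp, pt_eq e hx, dist_comm, dist_mk]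
        have h2 := le_abs_self (dist (N.node a) (N.cls ⟨e, x, hx⟩) - -t)
        rw [dist_comm ⟨e, x, hx⟩ p] at this
        rw [dist_comm]
        linarith
  · intro q
    obtain ⟨e, x, hx, rfl⟩ := exists_pt q
    by_cases he : e = e₀
    · subst he
      exact Or.inr ⟨ψ x, hψI x hx, by simp only [hφψ]⟩
    · refine Or.inl (mem_insert_of_mem _ ?_)
      simp only [mem_iUnion]
      exact ⟨e, he, x, hx, rfl⟩

theorem exists_pend (N : Network) (b : N.V) (e₀ : N.E) (hb : ∑ e, N.inc b e = 1)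
    (he₀ : N.inc b e₀ ≠ 0) :
    ∃ K : Pend N.Q, ∃ a : N.V, a ≠ b ∧ N.inc a e₀ = 1 ∧ K.l = N.len e₀ ∧ K.c 0 = N.node a ∧
      K.R = N.rest e₀ (N.node a) ∧
      ((∀ x, K.c x = N.pt e₀ x) ∨ (∀ x, K.c x = N.pt e₀ (N.len e₀ - x))) := by
  classical
  have hlen := N.len_pos e₀
  have hone : ∀ e, e ≠ e₀ → N.src e ≠ b ∧ N.tgt e ≠ b := by
    intro e he
    have h0 : N.inc b e = 0 := by
      by_contra h
      have h1 : N.inc b e + N.inc b e₀ ≤ ∑ e, N.inc b e := by
        calc N.inc b e + N.inc b e₀ = ∑ f ∈ ({e, e₀} : Finset N.E), N.inc b f := by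
              rw [Finset.sum_pair he]
          _ ≤ ∑ e, N.inc b e := Finset.sum_le_univ_sum_of_nonneg (fun _ => Nat.zero_le _)
      omega
    unfold inc at h0
    constructor
    · intro h; simp [h] at h0
    · intro h; simp [h] at h0
  have hle : N.inc b e₀ ≤ 1 := by
    rw [← hb]
    exact Finset.single_le_sum (f := fun e => N.inc b e) (fun _ _ => Nat.zero_le _)
      (Finset.mem_univ e₀)
  by_cases ht : N.tgt e₀ = b
  · have hs : N.src e₀ ≠ b := by
      intro hs
      simp [inc, hs, ht] at hle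
    obtain ⟨K, hK1, hK2, hK3⟩ := exists_pend_aux (N := N) (e₀ := e₀) (a := N.src e₀) (b := b)
      (ψ := fun x => x) (φ := fun x => x) (fun _ _ => rfl) (fun _ _ => rfl) (fun _ => rfl)
      (fun _ => rfl) (fun _ h => h) (fun _ h => h) hone (by
        rintro p v hp (h | h)
        · left
          exact ⟨by rw [← h.2, hp], h.1⟩
        · right
          rw [← h.2, hp, ht]) (by
        rintro p q hp hq (h | h) (h' | h')
        · exact absurd (by rw [← hp]; exact h.2) hs
        · exact absurd (by rw [← hp]; exact h.2) hs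
        · exact absurd (by rw [← hq]; exact h'.2) hs
        · show p.pos = q.pos
          rw [h.1, h'.1, hp, hq]) hs (pt_zero e₀)
    refine ⟨K, N.src e₀, hs, ?_, hK1, ?_, hK2, Or.inl fun x => by rw [hK3]⟩
    · simp [inc, ht, Ne.symm hs]
    · rw [hK3]; exact pt_zero e₀
  · have hs : N.src e₀ = b := by
      by_contra hs
      apply he₀
      simp [inc, hs, ht]
    obtain ⟨K, hK1, hK2, hK3⟩ := exists_pend_aux (N := N) (e₀ := e₀) (a := N.tgt e₀) (b := b)
      (ψ := fun x => N.len e₀ - x) (φ := fun x => N.len e₀ - x)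
      (fun x y => by rw [sub_sub_sub_cancel_left, abs_sub_comm])
      (fun x y => by rw [sub_sub_sub_cancel_left, abs_sub_comm]) (fun x => by ring)
      (fun x => by ring) (fun x h => ⟨by linarith [h.2], by linarith [h.1]⟩)
      (fun x h => ⟨by linarith [h.2], by linarith [h.1]⟩) hone (by
        rintro p v hp (h | h)
        · right
          rw [← h.2, hp, hs]
        · left
          refine ⟨by rw [← h.2, hp], ?_⟩
          rw [h.1, hp, sub_self]) (by
        rintro p q hp hq (h | h) (h' | h')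
        · show N.len e₀ - p.pos = N.len e₀ - q.pos
          rw [h.1, h'.1]
        · exact absurd (by rw [← hq]; exact h'.2) ht
        · exact absurd (by rw [← hp]; exact h.2) ht
        · exact absurd (by rw [← hp]; exact h.2) ht) ht (by
          rw [sub_zero]; exact pt_len e₀)
    refine ⟨K, N.tgt e₀, ht, ?_, hK1, ?_, hK2, Or.inr fun x => by rw [hK3]⟩
    · simp [inc, hs, Ne.symm ht]
    · rw [hK3]; simp only [sub_zero]; exact pt_len e₀

end Network

end Pool.Agent.Gal
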