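import Pool.Agent.Helper77.Gal.CoreDefs

/-!
# Joint measurability of evaluations and hitting times
-/

open Set MeasureTheory Filter Topology
open scoped ENNReal NNReal

namespace Pool.Agent.Gal

section Meas

variable {Q : Type} [MetricSpace Q] [CompactSpace Q] [MeasurableSpace Q] [BorelSpace Q]
  {Ω : Type} [MeasurableSpace Ω]

/-- MEAS1 -/
theorem measurable_eval {P : Ω → ℝ≥0 → Q} (hm : ∀ t, Measurable fun ω => P ω t)
    (hc : ∀ ω, Continuous (P ω)) : Measurable fun z : Ω × ℝ≥0 => P z.1 z.2 :=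
  (measurable_uncurry_of_continuous_of_measurable (u := fun t ω => P ω t) hc hm).comp
    measurable_swap

/-- MEAS2 -/
theorem measurable_hit_prod {P : Ω → ℝ≥0 → Q} (hm : ∀ t, Measurable fun ω => P ω t)
    (hc : ∀ ω, Continuous (P ω)) : Measurable fun z : Ω × Q => hit (P z.1) z.2 := by
  refine measurable_of_Ioi fun x => ?_
  rcases eq_or_ne x ∞ with rfl | hx
  · simp
  lift x to ℝ≥0 using hx
  have hne : Nonempty (Icc (0 : ℝ≥0) x) := ⟨⟨0, le_rfl, zero_le⟩⟩
  let e : ℕ → Icc (0 : ℝ≥0) x := TopologicalSpace.denseSeq _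
  have he : DenseRange e := TopologicalSpace.denseRange_denseSeq _
  have key : (fun z : Ω × Q => hit (P z.1) z.2) ⁻¹' Ioi (x : ℝ≥0∞) =
      ⋃ n : ℕ, ⋂ k : ℕ, {z : Ω × Q | 1 / ((n : ℝ) + 1) ≤ dist (P z.1 (e k)) z.2} := by
    ext ⟨ω, H⟩
    simp only [mem_preimage, mem_Ioi, mem_iUnion, mem_iInter, mem_ofPred_eq]
    rw [lt_hit_iff (hc ω)]
    constructor
    · intro h
      have hcont : Continuous fun u : Icc (0 : ℝ≥0) x => dist (P ω u) H :=
        ((hc ω).comp continuous_subtype_val).dist continuous_const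
      obtain ⟨u, -, hu⟩ := isCompact_univ.exists_isMinOn (univ_nonempty) hcont.continuousOn
      have hpos : 0 < dist (P ω u) H := dist_pos.2 (h u u.2.2)
      obtain ⟨n, hn⟩ := exists_nat_one_div_lt hpos
      exact ⟨n, fun k => hn.le.trans (hu (mem_univ _))⟩
    · rintro ⟨n, hn⟩ u hu heq
      have hcl : IsClosed {u : Icc (0 : ℝ≥0) x | 1 / ((n : ℝ) + 1) ≤ dist (P ω u) H} :=
        isClosed_le continuous_const
          (((hc ω).comp continuous_subtype_val).dist continuous_const)
      have := he.induction_on (p := fun u : Icc (0 : ℝ≥0) x => 1 / ((n : ℝ) + 1) ≤ dist (P ω u) H)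
        ⟨u, zero_le, hu⟩ hcl hn
      simp only [heq, dist_self] at this
      have h0 : (0 : ℝ) < 1 / ((n : ℝ) + 1) := by positivity
      linarith
  rw [key]
  refine MeasurableSet.iUnion fun n => MeasurableSet.iInter fun k => ?_
  exact measurableSet_le measurable_const
    (((hm (e k)).comp measurable_fst).dist measurable_snd)

end Meas

end Pool.Agent.Gal
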