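import Pool.Agent.Helper77.Gal.Red1

/-!
# Strategies of the hider for the ends of the pendant arc
-/

open Set MeasureTheory Filter Topology
open scoped ENNReal NNReal

namespace Pool.Agent.Gal

namespace Pend

variable {Q : Type} [MetricSpace Q] (K : Pend Q)

theorem l_mem : K.l ∈ Icc 0 K.l := ⟨K.l_pos.le, le_rfl⟩

theorem z_mem : (0 : ℝ) ∈ Icc 0 K.l := ⟨le_rfl, K.l_pos.le⟩

/-- distance to the leaf -/
theorem dist_leaf_c {t : ℝ} (ht : t ∈ Icc 0 K.l) : dist (K.c t) (K.c K.l) = K.l - t := by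
  rw [K.dist_c t ht K.l K.l_mem, abs_of_nonpos (by linarith [ht.2])]
  ring

theorem dist_leaf_R {q : Q} (hq : q ∈ K.R) : dist q (K.c K.l) = K.l + dist (K.c 0) q := by
  rw [dist_comm, K.dist_R K.l K.l_mem q hq]

/-- the sphere of radius `l - t` around the leaf is the point `c t` -/
theorem eq_c_of_dist {t : ℝ} (ht : t ∈ Icc 0 K.l) {q : Q} (h : dist q (K.c K.l) = K.l - t) :
    q = K.c t := by
  rcases K.cover q with hq | ⟨t', ht', rfl⟩
  · rw [K.dist_leaf_R hq] at h
    have h1 : (0 : ℝ) ≤ dist (K.c 0) q := dist_nonneg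
    have h2 : dist (K.c 0) q = 0 := by linarith [ht.1]
    have h3 : t = 0 := by linarith [ht.1]
    subst h3
    exact (dist_eq_zero.1 h2).symm
  · rw [K.dist_leaf_c ht'] at h
    rw [show t' = t by linarith]

/-- a path which goes from a point at distance at most `l - t` of the leaf to a point at distance at
least `l - t` (or conversely) passes through `c t` -/
theorem pass_through {t : ℝ} (ht : t ∈ Icc 0 K.l) {S : ℝ≥0 → Q} (hS : Continuous S) {a b : ℝ≥0}
    (hab : a ≤ b) (ha : dist (S a) (K.c K.l) ≤ K.l - t) (hb : K.l - t ≤ dist (S b) (K.c K.l)) :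
    ∃ u ∈ Icc a b, S u = K.c t := by
  have hcont : ContinuousOn (fun u => dist (S u) (K.c K.l)) (Icc a b) :=
    (hS.dist continuous_const).continuousOn
  obtain ⟨u, hu, hu'⟩ := intermediate_value_Icc hab hcont ⟨ha, hb⟩
  exact ⟨u, hu, K.eq_c_of_dist ht hu'⟩

theorem pass_through' {t : ℝ} (ht : t ∈ Icc 0 K.l) {S : ℝ≥0 → Q} (hS : Continuous S) {a b : ℝ≥0}
    (hab : a ≤ b) (ha : K.l - t ≤ dist (S a) (K.c K.l)) (hb : dist (S b) (K.c K.l) ≤ K.l - t) :
    ∃ u ∈ Icc a b, S u = K.c t := by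
  have hcont : ContinuousOn (fun u => dist (S u) (K.c K.l)) (Icc a b) :=
    (hS.dist continuous_const).continuousOn
  obtain ⟨u, hu, hu'⟩ := intermediate_value_Icc' hab hcont ⟨hb, ha⟩
  exact ⟨u, hu, K.eq_c_of_dist ht hu'⟩

/-- the walk along the pendant arc starting at `c x` with direction `σ`, stopped at the ends -/
noncomputable def walk (x σ : ℝ) : ℝ≥0 → Q := fun t => K.c (max 0 (min K.l (x + σ * t)))

theorem clamp_mem (y : ℝ) : max 0 (min K.l y) ∈ Icc 0 K.l :=
  ⟨le_max_left _ _, max_le K.l_pos.le (min_le_left _ _)⟩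

theorem clamp_eq {y : ℝ} (hy : y ∈ Icc 0 K.l) : max 0 (min K.l y) = y := by
  rw [min_eq_right hy.2, max_eq_right hy.1]

theorem clamp_lip (y z : ℝ) : |max 0 (min K.l y) - max 0 (min K.l z)| ≤ |y - z| := by
  refine (abs_max_sub_max_le_max _ _ _ _).trans (max_le (by simp) ?_)
  exact (abs_min_sub_min_le_max _ _ _ _).trans (max_le (by simp) le_rfl)

theorem walk_lip {x σ : ℝ} (hσ : |σ| = 1) : LipschitzWith 1 (K.walk x σ) := by
  refine LipschitzWith.of_dist_le_mul fun s t => ?_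
  unfold walk
  rw [K.dist_c _ (K.clamp_mem _) _ (K.clamp_mem _)]
  refine (K.clamp_lip _ _).trans ?_
  rw [show x + σ * s - (x + σ * t) = σ * ((s : ℝ) - t) by ring, abs_mul, hσ, NNReal.dist_eq]
  simp

theorem walk_eq {x σ : ℝ} {t : ℝ≥0} (h : x + σ * t ∈ Icc 0 K.l) :
    K.walk x σ t = K.c (x + σ * t) := by
  unfold walk
  rw [K.clamp_eq h]

theorem walk_zero {x σ : ℝ} (hx : x ∈ Icc 0 K.l) : K.walk x σ 0 = K.c x := by
  rw [K.walk_eq (by simpa using hx)]
  simp

variable [MeasurableSpace Q] [BorelSpace Q] [CompactSpace Q]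

/-- a path from the interior of the pendant arc reaches `R` only through `c 0` -/
theorem hit_R_ge {x : ℝ} (hx : x ∈ Icc 0 K.l) {S : ℝ≥0 → Q} (hS : LipschitzWith 1 S)
    (h0 : S 0 = K.c x) {q : Q} (hq : q ∈ K.R) : hit S (K.c 0) ≤ hit S q := by
  rcases eq_or_ne (hit S q) ∞ with h | h
  · rw [h]; exact le_top
  · obtain ⟨u, hu, hu'⟩ := exists_hit hS.continuous h
    rw [hu]
    obtain ⟨w, hw, hw'⟩ := K.pass_through K.z_mem hS.continuous (a := 0) (b := u) zero_le
      (by rw [h0, K.dist_leaf_c hx]; linarith [hx.1])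
      (by rw [hu', K.dist_leaf_R hq]; linarith [dist_nonneg (x := K.c 0) (y := q)])
    exact (hit_le hw').trans (ENNReal.coe_le_coe.2 hw.2)

theorem hider_leaf {V : ℝ} {k : Measure Q} [IsProbabilityMeasure k] {ε : ℝ}
    (hk : ∀ S : PathFrom (K.c K.l), ENNReal.ofReal (V - ε) ≤ ∫⁻ H, hit S.1 H ∂k) :
    ∃ h : Measure Q, IsProbabilityMeasure h ∧ h K.Rᶜ = 0 ∧
      ∀ p : ℝ≥0 → Q, LipschitzWith 1 p → p 0 = K.c 0 →
        ENNReal.ofReal (V - ε) ≤ ∫⁻ H, hit p H ∂h + ENNReal.ofReal K.l := by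
  obtain ⟨ρ, hρ, hρR, hρc, hρm⟩ := K.exists_retract
  have hρmeas : Measurable ρ := hρ.continuous.measurable
  obtain ⟨l', hl'⟩ : ∃ l' : ℝ≥0, (l' : ℝ) = K.l := ⟨⟨K.l, K.l_pos.le⟩, rfl⟩
  refine ⟨k.map ρ, Measure.isProbabilityMeasure_map hρmeas.aemeasurable, ?_, ?_⟩
  · rw [Measure.map_apply hρmeas K.closed.measurableSet.compl]
    convert measure_empty (μ := k)
    ext q
    simp [hρm q]
  · intro p hp hp0
    have hw0 : K.walk K.l (-1) l' = K.c 0 := by
      rw [K.walk_eq (by rw [hl']; simpa using K.z_mem), hl']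
      simp
    set S := glue (K.walk K.l (-1)) l' p with hS
    have hSlip : LipschitzWith 1 S := glue_lip (K.walk_lip (by simp)) hp (by rw [hw0, hp0])
    have hS0 : S 0 = K.c K.l := by rw [hS, glue_zero, K.walk_zero K.l_mem]
    have hle : ∀ q, hit S q ≤ l' + hit p (ρ q) := by
      intro q
      rcases K.cover q with hq | ⟨t, ht, rfl⟩
      · rw [hρR q hq]
        exact hit_glue_le (by rw [hw0, hp0]) q
      · obtain ⟨u, hu⟩ : ∃ u : ℝ≥0, (u : ℝ) = K.l - t := ⟨⟨K.l - t, by linarith [ht.2]⟩, rfl⟩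
        have hul : u ≤ l' := by
          apply NNReal.coe_le_coe.1
          rw [hu, hl']
          linarith [ht.1]
        have h1 : S u = K.c t := by
          rw [hS, glue_of_le hul, K.walk_eq (by rw [hu]; simpa using ht), hu]
          congr 1
          ring
        exact (hit_le h1).trans ((ENNReal.coe_le_coe.2 hul).trans le_self_add)
    calc ENNReal.ofReal (V - ε) ≤ ∫⁻ H, hit S H ∂k := hk ⟨S, hS0, hSlip⟩
      _ ≤ ∫⁻ H, (l' + hit p (ρ H)) ∂k := lintegral_mono hle
      _ = l' + ∫⁻ H, hit p (ρ H) ∂k := by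
          rw [lintegral_add_left measurable_const]
          simp
      _ = ∫⁻ H, hit p H ∂(k.map ρ) + ENNReal.ofReal K.l := by
          rw [lintegral_map (measurable_hit hp.continuous) hρmeas, ← hl',
            ENNReal.ofReal_coe_nnreal, add_comm]

theorem hider_att {V : ℝ} {k : Measure Q} [IsProbabilityMeasure k] {ε : ℝ}
    (hk : ∀ S : PathFrom (K.c 0), ENNReal.ofReal (V - ε) ≤ ∫⁻ H, hit S.1 H ∂k) :
    ∃ h : Measure Q, IsProbabilityMeasure h ∧ h (K.R ∪ {K.c K.l})ᶜ = 0 ∧
      ∀ p : ℝ≥0 → Q, LipschitzWith 1 p → p 0 = K.c 0 →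
        ENNReal.ofReal (V - ε) ≤ ∫⁻ H, hit p H ∂h := by
  classical
  set f : Q → Q := fun q => if q ∈ K.R then q else K.c K.l with hf
  have hfm : Measurable f := Measurable.ite K.closed.measurableSet measurable_id measurable_const
  refine ⟨k.map f, Measure.isProbabilityMeasure_map hfm.aemeasurable, ?_, ?_⟩
  · rw [Measure.map_apply hfm (K.closed.measurableSet.union (measurableSet_singleton _)).compl]
    convert measure_empty (μ := k)
    ext q
    by_cases hq : q ∈ K.R <;> simp [hf, hq]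
  · intro p hp hp0
    rw [lintegral_map (measurable_hit hp.continuous) hfm]
    refine (hk ⟨p, hp0, hp⟩).trans (lintegral_mono fun q => ?_)
    by_cases hq : q ∈ K.R
    · simp [hf, hq]
    · simp only [hf, hq, if_false]
      rcases K.cover q with h | ⟨t, ht, rfl⟩
      · exact absurd h hq
      · rcases eq_or_ne (hit p (K.c K.l)) ∞ with h | h
        · rw [h]; exact le_top
        · obtain ⟨u, hu, hu'⟩ := exists_hit hp.continuous h
          rw [hu]
          obtain ⟨w, hw, hw'⟩ := K.pass_through' ht hp.continuous (a := 0) (b := u) zero_le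
            (by rw [hp0, K.dist_leaf_c K.z_mem]; linarith [ht.1])
            (by rw [hu', dist_self]; linarith [ht.2])
          exact (hit_le hw').trans (ENNReal.coe_le_coe.2 hw.2)

theorem att_lower {V : ℝ} {h : Measure Q} [IsProbabilityMeasure h] {ε : ℝ}
    (hh : h (K.R ∪ {K.c K.l})ᶜ = 0)
    (hk : ∀ p : ℝ≥0 → Q, LipschitzWith 1 p → p 0 = K.c 0 →
        ENNReal.ofReal (V - ε) ≤ ∫⁻ H, hit p H ∂h) {x : ℝ} (hx : x ∈ Ioo 0 K.l)
    {S : ℝ≥0 → Q} (hS : LipschitzWith 1 S) (h0 : S 0 = K.c x) :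
    (hit S (K.c K.l) < hit S (K.c 0) →
      ENNReal.ofReal (V - ε) ≤ ∫⁻ H, hit S H ∂h + ENNReal.ofReal x) ∧
    (hit S (K.c 0) < hit S (K.c K.l) →
      ENNReal.ofReal (V - ε) + ENNReal.ofReal x ≤ ∫⁻ H, hit S H ∂h) := by
  have hae : ∀ᵐ H ∂h, H ∈ K.R ∪ {K.c K.l} := by rw [ae_iff]; exact hh
  have hx' : x ∈ Icc 0 K.l := ⟨hx.1.le, hx.2.le⟩
  obtain ⟨l', hl'⟩ : ∃ l' : ℝ≥0, (l' : ℝ) = K.l := ⟨⟨K.l, K.l_pos.le⟩, rfl⟩
  obtain ⟨x', hxx⟩ : ∃ x' : ℝ≥0, (x' : ℝ) = x := ⟨⟨x, hx.1.le⟩, rfl⟩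
  have hxe : ENNReal.ofReal x = x' := by rw [← hxx, ENNReal.ofReal_coe_nnreal]
  constructor
  · intro hlt
    obtain ⟨tb, htb, hSb⟩ := exists_hit hS.continuous (ne_top_of_lt hlt)
    have htbx : l' ≤ tb + x' := by
      have h1 := dist_le_sub hS (zero_le (a := tb))
      rw [h0, hSb, K.dist_leaf_c hx'] at h1
      apply NNReal.coe_le_coe.1
      push_cast
      rw [hl', hxx]
      simp only [NNReal.coe_zero, sub_zero] at h1
      linarith
    have hwl : K.walk 0 1 l' = K.c K.l := by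
      rw [K.walk_eq (by rw [hl']; simpa using K.l_mem), hl']
      simp
    set p := glue (K.walk 0 1) l' (shift S tb) with hp
    have hplip : LipschitzWith 1 p :=
      glue_lip (K.walk_lip (by simp)) (shift_lip hS tb) (by rw [hwl, shift_zero', hSb])
    have hp0 : p 0 = K.c 0 := by rw [hp, glue_zero, K.walk_zero K.z_mem]
    have hle : ∀ᵐ H ∂h, hit p H ≤ hit S H + x' := by
      filter_upwards [hae] with H hH
      have hge : (tb : ℝ≥0∞) ≤ hit S H := by
        rcases hH with hH | hH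
        · rw [← htb]
          exact hlt.le.trans (K.hit_R_ge hx' hS h0 hH)
        · rw [mem_singleton_iff] at hH
          rw [hH, htb]
      calc hit p H ≤ l' + hit (shift S tb) H := hit_glue_le (by rw [hwl, shift_zero', hSb]) H
        _ ≤ (tb + x' : ℝ≥0) + hit (shift S tb) H := by
            gcongr
        _ = (tb + hit (shift S tb) H) + x' := by push_cast; ring
        _ = hit S H + x' := by rw [← hit_shift hge]
    calc ENNReal.ofReal (V - ε) ≤ ∫⁻ H, hit p H ∂h := hk p hplip hp0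
      _ ≤ ∫⁻ H, (hit S H + x') ∂h := lintegral_mono_ae hle
      _ = ∫⁻ H, hit S H ∂h + ENNReal.ofReal x := by
          rw [lintegral_add_right _ measurable_const, hxe]
          simp
  · intro hlt
    obtain ⟨ta, hta, hSa⟩ := exists_hit hS.continuous (ne_top_of_lt hlt)
    have hxa : x' ≤ ta := by
      have h1 := dist_le_sub hS (zero_le (a := ta))
      rw [h0, hSa, K.dist_c x hx' 0 K.z_mem, sub_zero, abs_of_nonneg hx.1.le] at h1
      apply NNReal.coe_le_coe.1
      rw [hxx]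
      simpa using h1
    have hp0 : shift S ta 0 = K.c 0 := by rw [shift_zero', hSa]
    have hle : ∀ᵐ H ∂h, x' + hit (shift S ta) H ≤ hit S H := by
      filter_upwards [hae] with H hH
      have hge : (ta : ℝ≥0∞) ≤ hit S H := by
        rcases hH with hH | hH
        · rw [← hta]
          exact K.hit_R_ge hx' hS h0 hH
        · rw [mem_singleton_iff] at hH
          rw [hH, ← hta]
          exact hlt.le
      rw [hit_shift hge]
      gcongr
    calc ENNReal.ofReal (V - ε) + ENNReal.ofReal x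
        ≤ ∫⁻ H, hit (shift S ta) H ∂h + x' := by
          rw [hxe]
          gcongr
          exact hk _ (shift_lip hS ta) hp0
      _ = ∫⁻ H, (x' + hit (shift S ta) H) ∂h := by
          rw [lintegral_add_left measurable_const]
          simp [add_comm]
      _ ≤ ∫⁻ H, hit S H ∂h := lintegral_mono_ae hle

end Pend

end Pool.Agent.Gal
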