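import Pool.Agent.Helper77.Gal.Opt
import Pool.Agent.Helper77.Gal.Meas
import Pool.Agent.Helper77.Gal.Red2

/-!
# The reduction to the game which starts at the attachment point of the pendant arc
-/

open Set MeasureTheory Filter Topology
open scoped ENNReal NNReal

namespace Pool.Agent.Gal

set_option linter.unusedSectionVars false

namespace Pend

namespace R7

variable {Q : Type} [MetricSpace Q] (K : Pend Q) (x : ℝ)

/-- visiting time of the attachment point -/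
noncomputable def TA (S : PathFrom (K.c x)) : ℝ≥0∞ := hit S.1 (K.c 0)

/-- visiting time of the leaf -/
noncomputable def TB (S : PathFrom (K.c x)) : ℝ≥0∞ := hit S.1 (K.c K.l)

/-- the leaf is visited first -/
def E0 : Set (PathFrom (K.c x)) := {S | TB K x S < TA K x S ∧ TA K x S < ∞}

/-- the attachment point is visited first -/
def E1 : Set (PathFrom (K.c x)) := {S | TA K x S < TB K x S ∧ TB K x S < ∞}

open Classical in
/-- the extra time -/
noncomputable def sT (S : PathFrom (K.c x)) : ℝ≥0 :=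
  if S ∈ E1 K x then (TB K x S).toNNReal - (TA K x S).toNNReal - K.l.toNNReal else 0

open Classical in
/-- the random path of the first type -/
noncomputable def P0 (ρ : Q → Q) (S : PathFrom (K.c x)) : ℝ≥0 → Q :=
  if S ∈ E0 K x then fun t => ρ (S.1 ((TA K x S).toNNReal + t)) else fun _ => K.c 0

/-- the path of the second type -/
noncomputable def P1' (ρ : Q → Q) (S : PathFrom (K.c x)) : ℝ≥0 → Q := fun t =>
  if t ≤ sT K x S then ρ (S.1 ((TA K x S).toNNReal + t)) else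
    ρ (S.1 ((TA K x S).toNNReal + t + 2 * K.l.toNNReal))

open Classical in
/-- the random path of the second type -/
noncomputable def P1 (ρ : Q → Q) (S : PathFrom (K.c x)) : ℝ≥0 → Q :=
  if S ∈ E1 K x then P1' K x ρ S else fun _ => K.c 0

theorem dist_AB : dist (K.c 0) (K.c K.l) = K.l := by
  rw [K.dist_c 0 ⟨le_rfl, K.l_pos.le⟩ K.l ⟨K.l_pos.le, le_rfl⟩]
  rw [zero_sub, abs_neg, abs_of_pos K.l_pos]

theorem ne_AB : K.c 0 ≠ K.c K.l := by
  intro h
  have := dist_AB K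
  rw [← h, dist_self] at this
  exact K.l_pos.ne this

theorem mem_of_finite {S : PathFrom (K.c x)} (hA : TA K x S ≠ ∞) (hB : TB K x S ≠ ∞) :
    S ∈ E0 K x ∪ E1 K x := by
  obtain ⟨a, ha, ha'⟩ := exists_hit S.2.2.continuous hA
  obtain ⟨b, hb, hb'⟩ := exists_hit S.2.2.continuous hB
  rcases lt_trichotomy (TA K x S) (TB K x S) with h | h | h
  · exact Or.inr ⟨h, lt_top_iff_ne_top.2 hB⟩
  · exfalso
    have hab : (a : ℝ≥0∞) = b := by rw [← ha, ← hb]; exact h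
    rw [ENNReal.coe_inj] at hab
    subst hab
    exact ne_AB K (ha'.symm.trans hb')
  · exact Or.inl ⟨h, lt_top_iff_ne_top.2 hA⟩

theorem disj : Disjoint (E0 K x) (E1 K x) := by
  rw [Set.disjoint_left]
  exact fun S h h' => lt_asymm h.1 h'.1

section facts

variable {ρ : Q → Q} (hρ : LipschitzWith 1 ρ) (hρR : ∀ q ∈ K.R, ρ q = q)
  (hρc : ∀ t ∈ Icc 0 K.l, ρ (K.c t) = K.c 0) (hρm : ∀ q, ρ q ∈ K.R) {x : ℝ}
  (hx : x ∈ Ioo 0 K.l)

include hρ hρR hρc hx in
theorem fact0 {S : PathFrom (K.c x)} (hS : S ∈ E0 K x) :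
    ENNReal.ofReal (K.l - x) ≤ TB K x S ∧ ENNReal.ofReal (2 * K.l - x) ≤ TA K x S ∧
      LipschitzWith 1 (P0 K x ρ S) ∧ P0 K x ρ S 0 = K.c 0 ∧
      ∀ q ∈ K.R, TA K x S + hit (P0 K x ρ S) q ≤ hit S.1 q := by
  have hA : TA K x S ≠ ∞ := hS.2.ne
  have hB : TB K x S ≠ ∞ := (hS.1.trans hS.2).ne
  have hA' : TA K x S = ((TA K x S).toNNReal : ℝ≥0∞) := (ENNReal.coe_toNNReal hA).symm
  have hB' : TB K x S = ((TB K x S).toNNReal : ℝ≥0∞) := (ENNReal.coe_toNNReal hB).symm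
  have hlt : (TB K x S).toNNReal < (TA K x S).toNNReal := by
    rw [← ENNReal.coe_lt_coe, ← hA', ← hB']
    exact hS.1
  obtain ⟨h1, h2, h3, h4, h5⟩ := K.type0 hρ hρR hρc hx S.2.2 S.2.1 hA' hB' hlt
  have hP : P0 K x ρ S = fun t => ρ (S.1 ((TA K x S).toNNReal + t)) := by
    rw [P0, if_pos hS]
  rw [hP]
  refine ⟨?_, ?_, h3, h4, ?_⟩
  · rw [hB']
    exact ENNReal.ofReal_le_coe.2 h1
  · rw [hA']
    exact ENNReal.ofReal_le_coe.2 h2
  · intro q hq
    rw [hA']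
    simpa using h5 q hq

include hρ hρR hρc hρm hx in
theorem fact1 {S : PathFrom (K.c x)} (hS : S ∈ E1 K x) :
    ENNReal.ofReal x ≤ TA K x S ∧ TB K x S = TA K x S + sT K x S + ENNReal.ofReal K.l ∧
      LipschitzWith 1 (P1 K x ρ S) ∧ P1 K x ρ S 0 = K.c 0 ∧ P1 K x ρ S (sT K x S) = K.c 0 ∧
      ∀ q ∈ K.R, TA K x S + (hit (P1 K x ρ S) q +
        if (sT K x S : ℝ≥0∞) < hit (P1 K x ρ S) q then 2 * (K.l.toNNReal : ℝ≥0∞) else 0) ≤
        hit S.1 q := by
  have hA : TA K x S ≠ ∞ := (hS.1.trans hS.2).ne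
  have hB : TB K x S ≠ ∞ := hS.2.ne
  have hA' : TA K x S = ((TA K x S).toNNReal : ℝ≥0∞) := (ENNReal.coe_toNNReal hA).symm
  have hB' : TB K x S = ((TB K x S).toNNReal : ℝ≥0∞) := (ENNReal.coe_toNNReal hB).symm
  have hlt : (TA K x S).toNNReal < (TB K x S).toNNReal := by
    rw [← ENNReal.coe_lt_coe, ← hA', ← hB']
    exact hS.1
  have hl : ((K.l.toNNReal : ℝ≥0) : ℝ) = K.l := Real.coe_toNNReal _ K.l_pos.le
  have ht := K.type1_time hx S.2.2 S.2.1 hA' hB' hlt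
  have hs : (TB K x S).toNNReal = (TA K x S).toNNReal + sT K x S + K.l.toNNReal := by
    have h1 : (TA K x S).toNNReal + K.l.toNNReal ≤ (TB K x S).toNNReal := by
      rw [← NNReal.coe_le_coe, NNReal.coe_add, hl]
      exact ht
    rw [sT, if_pos hS, ← NNReal.coe_inj]
    have h2 : K.l.toNNReal ≤ (TB K x S).toNNReal - (TA K x S).toNNReal :=
      le_tsub_of_add_le_left h1
    rw [NNReal.coe_add, NNReal.coe_add, NNReal.coe_sub h2, NNReal.coe_sub hlt.le]
    ring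
  obtain ⟨h1, h3, h4, h5⟩ := K.type1 hρ hρR hρc hρm hx S.2.2 S.2.1 hA' hB' hlt hl hs
  have hP : P1 K x ρ S = fun t => if t ≤ sT K x S then ρ (S.1 ((TA K x S).toNNReal + t)) else
      ρ (S.1 ((TA K x S).toNNReal + t + 2 * K.l.toNNReal)) := by
    rw [P1, if_pos hS]
    rfl
  rw [hP]
  refine ⟨?_, ?_, h3, ?_, ?_, ?_⟩
  · rw [hA']
    exact ENNReal.ofReal_le_coe.2 h1
  · rw [hB', hs]
    rw [ENNReal.coe_add, ENNReal.coe_add, ← hA']
    rfl
  · simp only [zero_le, if_true, add_zero]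
    obtain ⟨a, ha, ha'⟩ := exists_hit S.2.2.continuous hA
    have : (TA K x S).toNNReal = a := by
      rw [show TA K x S = (a : ℝ≥0∞) from ha, ENNReal.toNNReal_coe]
    rw [this, ha']
    exact hρR _ K.zero_mem
  · simp only [le_refl, if_true]
    exact h4
  · intro q hq
    rw [hA']
    simp only [ENNReal.toNNReal_coe]
    exact h5 q hq

end facts

section meas

variable [MeasurableSpace Q] [BorelSpace Q] [CompactSpace Q]

theorem meas_apply {O : Q} (t : ℝ≥0) : Measurable fun S : PathFrom O => S.1 t :=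
  (measurable_pi_apply t).comp measurable_subtype_coe

theorem meas_hit_prod {O : Q} : Measurable fun z : PathFrom O × Q => hit z.1.1 z.2 :=
  measurable_hit_prod (P := fun S : PathFrom O => S.1) meas_apply fun S => S.2.2.continuous

theorem meas_hit {O : Q} (H : Q) : Measurable fun S : PathFrom O => hit S.1 H :=
  meas_hit_prod.comp (measurable_id.prodMk measurable_const)

theorem meas_eval {O : Q} {g : PathFrom O → ℝ≥0} (hg : Measurable g) :
    Measurable fun S : PathFrom O => S.1 (g S) :=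
  (measurable_eval (P := fun S : PathFrom O => S.1) meas_apply
    fun S => S.2.2.continuous).comp (measurable_id.prodMk hg)

theorem meas_TA : Measurable (TA K x) := meas_hit _

theorem meas_TB : Measurable (TB K x) := meas_hit _

theorem meas_E0 : MeasurableSet (E0 K x) :=
  (measurableSet_lt (meas_TB K x) (meas_TA K x)).inter
    (measurableSet_lt (meas_TA K x) measurable_const)

theorem meas_E1 : MeasurableSet (E1 K x) :=
  (measurableSet_lt (meas_TA K x) (meas_TB K x)).inter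
    (measurableSet_lt (meas_TB K x) measurable_const)

theorem meas_sT : Measurable (sT K x) := by
  classical
  refine Measurable.ite (meas_E1 K x) ?_ measurable_const
  exact ((meas_TB K x).ennreal_toNNReal.sub (meas_TA K x).ennreal_toNNReal).sub measurable_const

theorem meas_P0 {ρ : Q → Q} (hρ : LipschitzWith 1 ρ) (t : ℝ≥0) :
    Measurable fun S => P0 K x ρ S t := by
  classical
  have h : (fun S => P0 K x ρ S t) = fun S => if S ∈ E0 K x then
      ρ (S.1 ((TA K x S).toNNReal + t)) else K.c 0 := by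
    funext S
    by_cases hS : S ∈ E0 K x <;> simp [P0, hS]
  rw [h]
  refine Measurable.ite (meas_E0 K x) ?_ measurable_const
  exact hρ.continuous.measurable.comp
    (meas_eval ((meas_TA K x).ennreal_toNNReal.add measurable_const))

theorem meas_P1 {ρ : Q → Q} (hρ : LipschitzWith 1 ρ) (t : ℝ≥0) :
    Measurable fun S => P1 K x ρ S t := by
  classical
  have h : (fun S => P1 K x ρ S t) = fun S => if S ∈ E1 K x then
      (if t ≤ sT K x S then ρ (S.1 ((TA K x S).toNNReal + t)) else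
        ρ (S.1 ((TA K x S).toNNReal + t + 2 * K.l.toNNReal))) else K.c 0 := by
    funext S
    by_cases hS : S ∈ E1 K x <;> simp [P1, P1', hS]
  rw [h]
  refine Measurable.ite (meas_E1 K x) ?_ measurable_const
  refine Measurable.ite (measurableSet_le measurable_const (meas_sT K x)) ?_ ?_
  · exact hρ.continuous.measurable.comp
      (meas_eval ((meas_TA K x).ennreal_toNNReal.add measurable_const))
  · exact hρ.continuous.measurable.comp
      (meas_eval (((meas_TA K x).ennreal_toNNReal.add measurable_const).add measurable_const))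

end meas

section int

variable [MeasurableSpace Q] [BorelSpace Q] [CompactSpace Q]

theorem tonelli {O : Q} {σ : Measure (PathFrom O)} [IsProbabilityMeasure σ] {h : Measure Q}
    [IsProbabilityMeasure h] {c : ℝ≥0∞} (hσ : ∀ H, ∫⁻ S, hit S.1 H ∂σ ≤ c) :
    ∫⁻ S, ∫⁻ H, hit S.1 H ∂h ∂σ ≤ c := by
  rw [lintegral_lintegral_swap (f := fun (S : PathFrom O) H => hit S.1 H)
    meas_hit_prod.aemeasurable]
  calc ∫⁻ H, ∫⁻ S, hit S.1 H ∂σ ∂h ≤ ∫⁻ _, c ∂h := lintegral_mono hσ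
    _ = c := by simp

variable {σ : Measure (PathFrom (K.c x))}

theorem mass [IsProbabilityMeasure σ] {c : ℝ≥0∞} (hc : c ≠ ∞)
    (hσ : ∀ H, ∫⁻ S, hit S.1 H ∂σ ≤ c) : σ (E0 K x) + σ (E1 K x) = 1 := by
  rw [← measure_union (disj K x) (meas_E1 K x)]
  have hA : ∀ᵐ S ∂σ, TA K x S < ∞ :=
    ae_lt_top (meas_TA K x) (ne_top_of_le_ne_top hc (hσ (K.c 0)))
  have hB : ∀ᵐ S ∂σ, TB K x S < ∞ :=
    ae_lt_top (meas_TB K x) (ne_top_of_le_ne_top hc (hσ (K.c K.l)))
  have h : E0 K x ∪ E1 K x ∈ ae σ := by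
    filter_upwards [hA, hB] with S h1 h2 using mem_of_finite K x h1.ne h2.ne
  exact (mem_ae_iff_prob_eq_one ((meas_E0 K x).union (meas_E1 K x))).1 h

theorem split_le (f : PathFrom (K.c x) → ℝ≥0∞) :
    ∫⁻ S in E0 K x, f S ∂σ + ∫⁻ S in E1 K x, f S ∂σ ≤ ∫⁻ S, f S ∂σ := by
  rw [← lintegral_union (meas_E1 K x) (disj K x)]
  exact setLIntegral_le_lintegral _ _

theorem le_setLIntegral {O : Q} {σ : Measure (PathFrom O)} {E : Set (PathFrom O)}
    (hE : MeasurableSet E) {f g : PathFrom O → ℝ≥0∞} {a : ℝ≥0∞}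
    (h : ∀ S ∈ E, a + g S ≤ f S) :
    a * σ E + ∫⁻ S in E, g S ∂σ ≤ ∫⁻ S in E, f S ∂σ := by
  calc a * σ E + ∫⁻ S in E, g S ∂σ = ∫⁻ S in E, (a + g S) ∂σ := by
        rw [lintegral_add_left measurable_const, setLIntegral_const]
    _ ≤ _ := setLIntegral_mono' hE h

theorem le_setLIntegral' {O : Q} {σ : Measure (PathFrom O)} {E : Set (PathFrom O)}
    (hE : MeasurableSet E) {f : PathFrom O → ℝ≥0∞} {a b : ℝ≥0∞}
    (h : ∀ S ∈ E, a ≤ f S + b) :
    a * σ E ≤ ∫⁻ S in E, f S ∂σ + b * σ E := by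
  calc a * σ E = ∫⁻ _ in E, a ∂σ := by rw [setLIntegral_const]
    _ ≤ ∫⁻ S in E, (f S + b) ∂σ := setLIntegral_mono' hE h
    _ = _ := by rw [lintegral_add_right _ measurable_const, setLIntegral_const]

theorem hider_le {h : Measure Q} [IsProbabilityMeasure h] (hh : h K.Rᶜ = 0) {S p : ℝ≥0 → Q}
    {a : ℝ≥0∞} (hp : ∀ q ∈ K.R, a + hit p q ≤ hit S q) :
    a + ∫⁻ H, hit p H ∂h ≤ ∫⁻ H, hit S H ∂h := by
  have h1 : ∀ᵐ H ∂h, H ∈ K.R := mem_ae_iff.2 hh
  calc a + ∫⁻ H, hit p H ∂h = ∫⁻ H, (a + hit p H) ∂h := by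
        rw [lintegral_add_left measurable_const]
        simp
    _ ≤ _ := lintegral_mono_ae (by filter_upwards [h1] with H hH using hp H hH)

/-- real form of an inequality -/
theorem real_of_le {a b c d : ℝ} (hc : 0 ≤ c) (hd : 0 ≤ d)
    (h : ENNReal.ofReal a + ENNReal.ofReal b ≤ ENNReal.ofReal c + ENNReal.ofReal d) :
    a + b ≤ c + d := by
  rw [← ENNReal.ofReal_add hc hd] at h
  exact (ENNReal.ofReal_le_ofReal_iff (add_nonneg hc hd)).1 (ENNReal.ofReal_add_le.trans h)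

variable {x} in
theorem bal1 (hx : x ∈ Ioo 0 K.l) {V : ℝ} (hV : 0 ≤ V) (hA : HasValue (K.c 0) V)
    [IsProbabilityMeasure σ] (hσ : ∀ H, ∫⁻ S, hit S.1 H ∂σ ≤ ENNReal.ofReal V) :
    (σ (E1 K x)).toReal ≤ (σ (E0 K x)).toReal := by
  have hm := mass K x ENNReal.ofReal_ne_top hσ
  set p0 := (σ (E0 K x)).toReal with hp0
  set p1 := (σ (E1 K x)).toReal with hp1
  have e0 : σ (E0 K x) = ENNReal.ofReal p0 := (ENNReal.ofReal_toReal (measure_ne_top _ _)).symm
  have e1 : σ (E1 K x) = ENNReal.ofReal p1 := (ENNReal.ofReal_toReal (measure_ne_top _ _)).symm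
  have h0 : 0 ≤ p0 := ENNReal.toReal_nonneg
  have h1 : 0 ≤ p1 := ENNReal.toReal_nonneg
  have key : ∀ ε : ℝ, 0 < ε → x * (p1 - p0) ≤ ε := by
    intro ε hε
    obtain ⟨k, hk, hk'⟩ := hA.2 ε hε
    obtain ⟨h, hh, hh', hh''⟩ := K.hider_att (V := V) (ε := ε) hk'
    have hat := fun S : PathFrom (K.c x) => K.att_lower hh' hh'' hx S.2.2 S.2.1
    have i0 := le_setLIntegral' (σ := σ) (meas_E0 K x) fun S hS => (hat S).1 hS.1
    have i1 : (ENNReal.ofReal (V - ε) + ENNReal.ofReal x) * σ (E1 K x) ≤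
        ∫⁻ S in E1 K x, ∫⁻ H, hit S.1 H ∂h ∂σ := by
      have := le_setLIntegral' (σ := σ) (b := 0) (meas_E1 K x)
        fun S hS => ((hat S).2 hS.1).trans (by rw [add_zero])
      simpa using this
    have i2 := split_le K x (σ := σ) fun S => ∫⁻ H, hit S.1 H ∂h
    have i3 := tonelli (h := h) hσ
    have i4 : ENNReal.ofReal (V - ε) + ENNReal.ofReal (x * p1) ≤
        ENNReal.ofReal V + ENNReal.ofReal (x * p0) := by
      rw [ENNReal.ofReal_mul hx.1.le, ENNReal.ofReal_mul hx.1.le, ← e0, ← e1]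
      calc ENNReal.ofReal (V - ε) + ENNReal.ofReal x * σ (E1 K x)
          = ENNReal.ofReal (V - ε) * (σ (E0 K x) + σ (E1 K x)) +
            ENNReal.ofReal x * σ (E1 K x) := by rw [hm, mul_one]
        _ = ENNReal.ofReal (V - ε) * σ (E0 K x) +
            (ENNReal.ofReal (V - ε) + ENNReal.ofReal x) * σ (E1 K x) := by ring
        _ ≤ (∫⁻ S in E0 K x, ∫⁻ H, hit S.1 H ∂h ∂σ + ENNReal.ofReal x * σ (E0 K x)) +
            ∫⁻ S in E1 K x, ∫⁻ H, hit S.1 H ∂h ∂σ := add_le_add i0 i1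
        _ = (∫⁻ S in E0 K x, ∫⁻ H, hit S.1 H ∂h ∂σ + ∫⁻ S in E1 K x, ∫⁻ H, hit S.1 H ∂h ∂σ) +
            ENNReal.ofReal x * σ (E0 K x) := by ring
        _ ≤ ENNReal.ofReal V + ENNReal.ofReal x * σ (E0 K x) := by
            gcongr
            exact i2.trans i3
    have := real_of_le hV (mul_nonneg hx.1.le h0) i4
    nlinarith
  by_contra hcon
  push Not at hcon
  have := key (x * (p1 - p0) / 2) (by
    have : 0 < x * (p1 - p0) := mul_pos hx.1 (by linarith)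
    linarith)
  have h2 : 0 < x * (p1 - p0) := mul_pos hx.1 (by linarith)
  linarith

variable {x} in
theorem bal2 {ρ : Q → Q} (hρ : LipschitzWith 1 ρ) (hρR : ∀ q ∈ K.R, ρ q = q)
    (hρc : ∀ t ∈ Icc 0 K.l, ρ (K.c t) = K.c 0) (hρm : ∀ q, ρ q ∈ K.R)
    (hx : x ∈ Ioo 0 K.l) {V : ℝ} (hV : 0 ≤ V) (hB : HasValue (K.c K.l) V)
    [IsProbabilityMeasure σ] (hσ : ∀ H, ∫⁻ S, hit S.1 H ∂σ ≤ ENNReal.ofReal V) :
    (σ (E0 K x)).toReal ≤ (σ (E1 K x)).toReal := by
  have hm := mass K x ENNReal.ofReal_ne_top hσ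
  set p0 := (σ (E0 K x)).toReal with hp0
  set p1 := (σ (E1 K x)).toReal with hp1
  have e0 : σ (E0 K x) = ENNReal.ofReal p0 := (ENNReal.ofReal_toReal (measure_ne_top _ _)).symm
  have e1 : σ (E1 K x) = ENNReal.ofReal p1 := (ENNReal.ofReal_toReal (measure_ne_top _ _)).symm
  have h0 : 0 ≤ p0 := ENNReal.toReal_nonneg
  have h1 : 0 ≤ p1 := ENNReal.toReal_nonneg
  have hsum : p0 + p1 = 1 := by
    have := congrArg ENNReal.toReal hm
    rw [ENNReal.toReal_add (measure_ne_top _ _) (measure_ne_top _ _)] at this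
    simpa using this
  have hx1 : 0 ≤ 2 * K.l - x := by linarith [hx.1, hx.2]
  have key : ∀ ε : ℝ, 0 < ε → (K.l - x) * (p0 - p1) ≤ ε := by
    intro ε hε
    obtain ⟨k, hk, hk'⟩ := hB.2 ε hε
    obtain ⟨h, hh, hh', hh''⟩ := K.hider_leaf (V := V) (ε := ε) hk'
    have i0 : (ENNReal.ofReal (2 * K.l - x) + ENNReal.ofReal (V - ε)) * σ (E0 K x) ≤
        ∫⁻ S in E0 K x, ∫⁻ H, hit S.1 H ∂h ∂σ + ENNReal.ofReal K.l * σ (E0 K x) := by
      refine le_setLIntegral' (meas_E0 K x) fun S hS => ?_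
      obtain ⟨_, f1, f2, f3, f4⟩ := fact0 K hρ hρR hρc hx hS
      have g1 := hider_le K (h := h) hh' f4
      have g2 := hh'' _ f2 f3
      calc ENNReal.ofReal (2 * K.l - x) + ENNReal.ofReal (V - ε)
          ≤ TA K x S + (∫⁻ H, hit (P0 K x ρ S) H ∂h + ENNReal.ofReal K.l) := add_le_add f1 g2
        _ = (TA K x S + ∫⁻ H, hit (P0 K x ρ S) H ∂h) + ENNReal.ofReal K.l := by ring
        _ ≤ _ := by gcongr
    have i1 : (ENNReal.ofReal x + ENNReal.ofReal (V - ε)) * σ (E1 K x) ≤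
        ∫⁻ S in E1 K x, ∫⁻ H, hit S.1 H ∂h ∂σ + ENNReal.ofReal K.l * σ (E1 K x) := by
      refine le_setLIntegral' (meas_E1 K x) fun S hS => ?_
      obtain ⟨f1, _, f2, f3, _, f4⟩ := fact1 K hρ hρR hρc hρm hx hS
      have f5 : ∀ q ∈ K.R, TA K x S + hit (P1 K x ρ S) q ≤ hit S.1 q := fun q hq =>
        le_trans (by gcongr; exact le_self_add) (f4 q hq)
      have g1 := hider_le K (h := h) hh' f5
      have g2 := hh'' _ f2 f3
      calc ENNReal.ofReal x + ENNReal.ofReal (V - ε)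
          ≤ TA K x S + (∫⁻ H, hit (P1 K x ρ S) H ∂h + ENNReal.ofReal K.l) := add_le_add f1 g2
        _ = (TA K x S + ∫⁻ H, hit (P1 K x ρ S) H ∂h) + ENNReal.ofReal K.l := by ring
        _ ≤ _ := by gcongr
    have i2 := split_le K x (σ := σ) fun S => ∫⁻ H, hit S.1 H ∂h
    have i3 := tonelli (h := h) hσ
    have i4 : ENNReal.ofReal ((2 * K.l - x) * p0 + x * p1) + ENNReal.ofReal (V - ε) ≤
        ENNReal.ofReal V + ENNReal.ofReal K.l := by
      rw [ENNReal.ofReal_add (mul_nonneg hx1 h0) (mul_nonneg hx.1.le h1),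
        ENNReal.ofReal_mul hx1, ENNReal.ofReal_mul hx.1.le, ← e0, ← e1]
      calc ENNReal.ofReal (2 * K.l - x) * σ (E0 K x) + ENNReal.ofReal x * σ (E1 K x) +
            ENNReal.ofReal (V - ε)
          = ENNReal.ofReal (2 * K.l - x) * σ (E0 K x) + ENNReal.ofReal x * σ (E1 K x) +
            ENNReal.ofReal (V - ε) * (σ (E0 K x) + σ (E1 K x)) := by rw [hm, mul_one]
        _ = (ENNReal.ofReal (2 * K.l - x) + ENNReal.ofReal (V - ε)) * σ (E0 K x) +
            (ENNReal.ofReal x + ENNReal.ofReal (V - ε)) * σ (E1 K x) := by ring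
        _ ≤ (∫⁻ S in E0 K x, ∫⁻ H, hit S.1 H ∂h ∂σ + ENNReal.ofReal K.l * σ (E0 K x)) +
            (∫⁻ S in E1 K x, ∫⁻ H, hit S.1 H ∂h ∂σ + ENNReal.ofReal K.l * σ (E1 K x)) :=
            add_le_add i0 i1
        _ = (∫⁻ S in E0 K x, ∫⁻ H, hit S.1 H ∂h ∂σ + ∫⁻ S in E1 K x, ∫⁻ H, hit S.1 H ∂h ∂σ) +
            ENNReal.ofReal K.l * (σ (E0 K x) + σ (E1 K x)) := by ring
        _ ≤ ENNReal.ofReal V + ENNReal.ofReal K.l := by
            rw [hm, mul_one]
            gcongr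
            exact i2.trans i3
    have := real_of_le hV K.l_pos.le i4
    have h3 : p1 = 1 - p0 := by linarith
    rw [h3] at this ⊢
    nlinarith
  by_contra hcon
  push Not at hcon
  have h2 : 0 < (K.l - x) * (p0 - p1) := mul_pos (by linarith [hx.2]) (by linarith)
  have := key ((K.l - x) * (p0 - p1) / 2) (by linarith)
  linarith

theorem l_le {V : ℝ} (hA : HasValue (K.c 0) V) : K.l ≤ V := by
  apply le_of_forall_pos_le_add
  intro ε hε
  obtain ⟨σ, hσ, h⟩ := hA.1 ε hε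
  have h1 : ENNReal.ofReal K.l ≤ ENNReal.ofReal (V + ε) := by
    refine le_trans ?_ (h (K.c K.l))
    calc ENNReal.ofReal K.l = ∫⁻ _, ENNReal.ofReal K.l ∂σ := by simp
      _ ≤ _ := by
        refine lintegral_mono fun S => ?_
        have := dist_le_hit S.2.2 (K.c K.l)
        rw [S.2.1, dist_AB] at this
        exact this
  by_contra hcon
  push Not at hcon
  exact absurd h1 (not_le.2 ((ENNReal.ofReal_lt_ofReal_iff K.l_pos).2 hcon))

variable {x} in
/-- both events have probability one half -/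
theorem half (hx : x ∈ Ioo 0 K.l) {V : ℝ} (hA : HasValue (K.c 0) V)
    (hB : HasValue (K.c K.l) V) [IsProbabilityMeasure σ]
    (hσ : ∀ H, ∫⁻ S, hit S.1 H ∂σ ≤ ENNReal.ofReal V) :
    2 * σ (E0 K x) = 1 ∧ 2 * σ (E1 K x) = 1 := by
  have hV : 0 ≤ V := K.l_pos.le.trans (l_le K hA)
  obtain ⟨ρ, hρ, hρR, hρc, hρm⟩ := K.exists_retract
  have h1 := bal1 K hx hV hA hσ
  have h2 := bal2 K hρ hρR hρc hρm hx hV hB hσ
  have h3 : σ (E0 K x) = σ (E1 K x) :=
    (ENNReal.toReal_eq_toReal_iff' (measure_ne_top _ _) (measure_ne_top _ _)).1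
      (le_antisymm h2 h1)
  have hm := mass K x ENNReal.ofReal_ne_top hσ
  constructor
  · rw [two_mul]
    nth_rw 2 [h3]
    exact hm
  · rw [two_mul]
    nth_rw 1 [← h3]
    exact hm

/-- conditional measure on an event of probability one half -/
theorem lintegral_cond {O : Q} {σ : Measure (PathFrom O)} {E : Set (PathFrom O)}
    (f : PathFrom O → ℝ≥0∞) :
    ∫⁻ S, f S ∂((2 : ℝ≥0∞) • σ.restrict E) = 2 * ∫⁻ S in E, f S ∂σ := by
  rw [lintegral_smul_measure, smul_eq_mul]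

theorem prob_cond {O : Q} {σ : Measure (PathFrom O)} {E : Set (PathFrom O)}
    (h : 2 * σ E = 1) : IsProbabilityMeasure ((2 : ℝ≥0∞) • σ.restrict E) :=
  ⟨by simpa using h⟩

variable {x} in
theorem F1 {ρ : Q → Q} (hρ : LipschitzWith 1 ρ) (hρR : ∀ q ∈ K.R, ρ q = q)
    (hρc : ∀ t ∈ Icc 0 K.l, ρ (K.c t) = K.c 0) (hρm : ∀ q, ρ q ∈ K.R)
    (hx : x ∈ Ioo 0 K.l) {V : ℝ} (hσ : ∀ H, ∫⁻ S, hit S.1 H ∂σ ≤ ENNReal.ofReal V)
    (h0 : 2 * σ (E0 K x) = 1) (h1 : 2 * σ (E1 K x) = 1) :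
    2 * ∫⁻ S in E1 K x, sT K x S ∂σ + 2 * ENNReal.ofReal K.l ≤ 2 * ENNReal.ofReal V := by
  have i0 : ENNReal.ofReal (K.l - x) * σ (E0 K x) ≤ ∫⁻ S in E0 K x, TB K x S ∂σ := by
    have := le_setLIntegral' (σ := σ) (b := 0) (f := TB K x) (meas_E0 K x)
      fun S hS => (fact0 K hρ hρR hρc hx hS).1.trans (by rw [add_zero])
    simpa using this
  have i1 : (ENNReal.ofReal x + ENNReal.ofReal K.l) * σ (E1 K x) +
      ∫⁻ S in E1 K x, sT K x S ∂σ ≤ ∫⁻ S in E1 K x, TB K x S ∂σ := by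
    refine le_setLIntegral (meas_E1 K x) fun S hS => ?_
    obtain ⟨f1, f2, _⟩ := fact1 K hρ hρR hρc hρm hx hS
    rw [f2]
    calc ENNReal.ofReal x + ENNReal.ofReal K.l + sT K x S
        ≤ TA K x S + ENNReal.ofReal K.l + sT K x S := by gcongr
      _ = _ := by ring
  have i2 := (split_le K x (σ := σ) (TB K x)).trans (hσ (K.c K.l))
  have i3 : ENNReal.ofReal (K.l - x) + ENNReal.ofReal x = ENNReal.ofReal K.l := by
    rw [← ENNReal.ofReal_add (by linarith [hx.2]) hx.1.le]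
    congr 1
    ring
  calc 2 * ∫⁻ S in E1 K x, sT K x S ∂σ + 2 * ENNReal.ofReal K.l
      = 2 * ∫⁻ S in E1 K x, sT K x S ∂σ + (ENNReal.ofReal (K.l - x) + ENNReal.ofReal x) +
        ENNReal.ofReal K.l := by rw [i3]; ring
    _ = 2 * ∫⁻ S in E1 K x, sT K x S ∂σ + (ENNReal.ofReal (K.l - x) * (2 * σ (E0 K x)) +
        ENNReal.ofReal x * (2 * σ (E1 K x))) + ENNReal.ofReal K.l * (2 * σ (E1 K x)) := by
        rw [h0, h1]; ring
    _ = 2 * (ENNReal.ofReal (K.l - x) * σ (E0 K x) +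
        ((ENNReal.ofReal x + ENNReal.ofReal K.l) * σ (E1 K x) +
          ∫⁻ S in E1 K x, sT K x S ∂σ)) := by ring
    _ ≤ 2 * (∫⁻ S in E0 K x, TB K x S ∂σ + ∫⁻ S in E1 K x, TB K x S ∂σ) := by
        gcongr
    _ ≤ 2 * ENNReal.ofReal V := by gcongr

variable {x} in
theorem F2 {ρ : Q → Q} (hρ : LipschitzWith 1 ρ) (hρR : ∀ q ∈ K.R, ρ q = q)
    (hρc : ∀ t ∈ Icc 0 K.l, ρ (K.c t) = K.c 0) (hρm : ∀ q, ρ q ∈ K.R)
    (hx : x ∈ Ioo 0 K.l) {V : ℝ} (hσ : ∀ H, ∫⁻ S, hit S.1 H ∂σ ≤ ENNReal.ofReal V)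
    (h0 : 2 * σ (E0 K x) = 1) (h1 : 2 * σ (E1 K x) = 1) (H : Q) (hH : H ∈ K.R) :
    2 * ∫⁻ S in E0 K x, hit (P0 K x ρ S) H ∂σ +
      2 * ∫⁻ S in E1 K x, (hit (P1 K x ρ S) H +
        if (sT K x S : ℝ≥0∞) < hit (P1 K x ρ S) H then 2 * (K.l.toNNReal : ℝ≥0∞) else 0) ∂σ +
      2 * ENNReal.ofReal K.l ≤ 2 * ENNReal.ofReal V := by
  have i0 : ENNReal.ofReal (2 * K.l - x) * σ (E0 K x) +
      ∫⁻ S in E0 K x, hit (P0 K x ρ S) H ∂σ ≤ ∫⁻ S in E0 K x, hit S.1 H ∂σ := by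
    refine le_setLIntegral (meas_E0 K x) fun S hS => ?_
    obtain ⟨_, f1, _, _, f2⟩ := fact0 K hρ hρR hρc hx hS
    exact le_trans (by gcongr) (f2 H hH)
  have i1 : ENNReal.ofReal x * σ (E1 K x) +
      ∫⁻ S in E1 K x, (hit (P1 K x ρ S) H +
        if (sT K x S : ℝ≥0∞) < hit (P1 K x ρ S) H then 2 * (K.l.toNNReal : ℝ≥0∞) else 0) ∂σ ≤
      ∫⁻ S in E1 K x, hit S.1 H ∂σ := by
    refine le_setLIntegral (meas_E1 K x) fun S hS => ?_
    obtain ⟨f1, _, _, _, _, f2⟩ := fact1 K hρ hρR hρc hρm hx hS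
    exact le_trans (by gcongr) (f2 H hH)
  have i2 := (split_le K x (σ := σ) fun S => hit S.1 H).trans (hσ H)
  have i3 : ENNReal.ofReal (2 * K.l - x) + ENNReal.ofReal x = 2 * ENNReal.ofReal K.l := by
    rw [← ENNReal.ofReal_add (by linarith [hx.2, K.l_pos]) hx.1.le, sub_add_cancel,
      ENNReal.ofReal_mul (by norm_num)]
    norm_num
  rw [← i3]
  calc 2 * ∫⁻ S in E0 K x, hit (P0 K x ρ S) H ∂σ +
      2 * ∫⁻ S in E1 K x, (hit (P1 K x ρ S) H +
        if (sT K x S : ℝ≥0∞) < hit (P1 K x ρ S) H then 2 * (K.l.toNNReal : ℝ≥0∞) else 0) ∂σ +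
      (ENNReal.ofReal (2 * K.l - x) + ENNReal.ofReal x)
      = 2 * ∫⁻ S in E0 K x, hit (P0 K x ρ S) H ∂σ +
      2 * ∫⁻ S in E1 K x, (hit (P1 K x ρ S) H +
        if (sT K x S : ℝ≥0∞) < hit (P1 K x ρ S) H then 2 * (K.l.toNNReal : ℝ≥0∞) else 0) ∂σ +
      (ENNReal.ofReal (2 * K.l - x) * (2 * σ (E0 K x)) +
        ENNReal.ofReal x * (2 * σ (E1 K x))) := by rw [h0, h1]; ring
    _ = 2 * ((ENNReal.ofReal (2 * K.l - x) * σ (E0 K x) +
        ∫⁻ S in E0 K x, hit (P0 K x ρ S) H ∂σ) +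
        (ENNReal.ofReal x * σ (E1 K x) + ∫⁻ S in E1 K x, (hit (P1 K x ρ S) H +
        if (sT K x S : ℝ≥0∞) < hit (P1 K x ρ S) H then 2 * (K.l.toNNReal : ℝ≥0∞) else 0)
        ∂σ)) := by ring
    _ ≤ 2 * (∫⁻ S in E0 K x, hit S.1 H ∂σ + ∫⁻ S in E1 K x, hit S.1 H ∂σ) := by
        gcongr
    _ ≤ 2 * ENNReal.ofReal V := by gcongr

end int

end R7

open R7 in
/-- R7: the reduction -/
theorem reduction {Q : Type} [MetricSpace Q] (K : Pend Q) [MeasurableSpace Q] [BorelSpace Q]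
    [CompactSpace Q] {x V : ℝ} (hx : x ∈ Ioo 0 K.l) (hA : HasValue (K.c 0) V)
    (hX : HasValue (K.c x) V) (hB : HasValue (K.c K.l) V) {C : ℝ≥0} (hC : 0 < C)
    (hcov : ∀ q, ∃ p : ℝ≥0 → Q, LipschitzWith 1 p ∧ p 0 = q ∧ ∀ H, hit p H ≤ C) :
    ∃ D : Core Q, D.A = K.c 0 ∧ D.R = K.R ∧ (D.l : ℝ) = K.l ∧ (D.v : ℝ) = V - K.l := by
  have hlV := l_le K hA
  obtain ⟨ρ, hρ, hρR, hρc, hρm⟩ := K.exists_retract
  obtain ⟨σ, hσp, hσ⟩ := exists_optimal (K.c x) V hX.1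
  obtain ⟨h0, h1⟩ := half K hx hA hB hσ
  choose k hk hk' using fun m : ℕ => hB.2 ((1 / 2 : ℝ) ^ m) (by positivity)
  choose h hh hh' hh'' using fun m : ℕ =>
    haveI := hk m
    K.hider_leaf (V := V) (ε := (1 / 2 : ℝ) ^ m) (hk' m)
  have hv : ENNReal.ofReal V = ((V - K.l).toNNReal : ℝ≥0∞) + ENNReal.ofReal K.l := by
    rw [show (((V - K.l).toNNReal : ℝ≥0) : ℝ≥0∞) = ENNReal.ofReal (V - K.l) from rfl,
      ← ENNReal.ofReal_add (by linarith) K.l_pos.le, sub_add_cancel]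
  have hcancel : ∀ a : ℝ≥0∞, a + 2 * ENNReal.ofReal K.l ≤ 2 * ENNReal.ofReal V →
      a ≤ 2 * ((V - K.l).toNNReal : ℝ≥0∞) := by
    intro a ha
    rw [hv, mul_add] at ha
    exact (ENNReal.add_le_add_iff_right
      (ENNReal.mul_ne_top ENNReal.ofNat_ne_top ENNReal.ofReal_ne_top)).1 ha
  have hs0 : ∀ S : PathFrom (K.c x), S ∉ E1 K x → sT K x S = 0 := fun S hS => by
    rw [sT, if_neg hS]
  have hP0 : ∀ S : PathFrom (K.c x), S ∉ E0 K x → P0 K x ρ S = fun _ => K.c 0 := fun S hS => by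
    rw [P0, if_neg hS]
  have hP1 : ∀ S : PathFrom (K.c x), S ∉ E1 K x → P1 K x ρ S = fun _ => K.c 0 := fun S hS => by
    rw [P1, if_neg hS]
  refine ⟨{ A := K.c 0, R := K.R, v := (V - K.l).toNNReal, l := K.l.toNNReal, C := C,
            Ω := PathFrom (K.c x), μ₀ := (2 : ℝ≥0∞) • σ.restrict (E0 K x),
            μ₁ := (2 : ℝ≥0∞) • σ.restrict (E1 K x), P₀ := P0 K x ρ, P₁ := P1 K x ρ,
            s := sT K x, h := h, ε := fun m => ENNReal.ofReal ((1 / 2 : ℝ) ^ m),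
            l_pos := Real.toNNReal_pos.2 K.l_pos, C_pos := hC, closedR := K.closed,
            A_mem := K.zero_mem, prob₀ := prob_cond h0, prob₁ := prob_cond h1,
            meas₀ := meas_P0 K x hρ, meas₁ := meas_P1 K x hρ, meas_s := meas_sT K x,
            lip₀ := ?_, lip₁ := ?_, start₀ := ?_, start₁ := ?_, back := ?_, inR := ?_,
            F1 := ?_, F2 := ?_, hprob := hh, hsupp := hh', ε_sum := ?_, F3 := ?_,
            cover := hcov }, rfl, rfl, Real.coe_toNNReal _ K.l_pos.le,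
            Real.coe_toNNReal _ (by linarith)⟩
  · intro S
    by_cases hS : S ∈ E0 K x
    · exact (fact0 K hρ hρR hρc hx hS).2.2.1
    · rw [hP0 S hS]
      exact LipschitzWith.const' _
  · intro S
    by_cases hS : S ∈ E1 K x
    · exact (fact1 K hρ hρR hρc hρm hx hS).2.2.1
    · rw [hP1 S hS]
      exact LipschitzWith.const' _
  · intro S
    by_cases hS : S ∈ E0 K x
    · exact (fact0 K hρ hρR hρc hx hS).2.2.2.1
    · rw [hP0 S hS]
  · intro S
    by_cases hS : S ∈ E1 K x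
    · exact (fact1 K hρ hρR hρc hρm hx hS).2.2.2.1
    · rw [hP1 S hS]
  · intro S
    by_cases hS : S ∈ E1 K x
    · exact (fact1 K hρ hρR hρc hρm hx hS).2.2.2.2.1
    · rw [hP1 S hS]
  · intro S t
    by_cases hS : S ∈ E1 K x
    · rw [P1, if_pos hS, P1']
      split_ifs
      · exact hρm _
      · exact hρm _
    · rw [hP1 S hS]
      exact K.zero_mem
  · rw [lintegral_cond]
    exact hcancel _ (F1 K hρ hρR hρc hρm hx hσ h0 h1)
  · intro H hH
    rw [lintegral_cond, lintegral_cond]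
    exact hcancel _ (F2 K hρ hρR hρc hρm hx hσ h0 h1 H hH)
  · exact summable_geometric_two.tsum_ofReal_ne_top
  · intro m p hp hp0
    have g1 := hh'' m p hp hp0
    have g2 : ENNReal.ofReal V ≤ ENNReal.ofReal (V - (1 / 2 : ℝ) ^ m) +
        ENNReal.ofReal ((1 / 2 : ℝ) ^ m) := by
      refine le_trans (le_of_eq ?_) ENNReal.ofReal_add_le
      congr 1
      ring
    rw [hv] at g2
    have g3 : ((V - K.l).toNNReal : ℝ≥0∞) + ENNReal.ofReal K.l ≤
        (∫⁻ H, hit p H ∂(h m) + ENNReal.ofReal ((1 / 2 : ℝ) ^ m)) + ENNReal.ofReal K.l := by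
      refine g2.trans ?_
      calc ENNReal.ofReal (V - (1 / 2 : ℝ) ^ m) + ENNReal.ofReal ((1 / 2 : ℝ) ^ m)
          ≤ (∫⁻ H, hit p H ∂(h m) + ENNReal.ofReal K.l) + ENNReal.ofReal ((1 / 2 : ℝ) ^ m) := by
            gcongr
        _ = _ := by ring
    exact (ENNReal.add_le_add_iff_right ENNReal.ofReal_ne_top).1 g3

end Pend

end Pool.Agent.Gal
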