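import Pool.Agent.Helper77.Gal.Tip1

/-!
# T4: existence of a tip of positive probability
-/

open Set MeasureTheory Filter Topology
open scoped ENNReal NNReal

namespace Pool.Agent.Gal

/-- between a covered point and an uncovered point of an arc there is a last covered point -/
theorem exists_tip_of_path {Q : Type} [MetricSpace Q] {c : ℝ → Q} {L : ℝ} (hc : IsChart c L)
    {p : ℝ≥0 → Q} (hp : Continuous p) {T : ℝ≥0} {w x : ℝ} (hw : w ∈ Ioo 0 L) (hx : x ∈ Icc 0 L)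
    (hwx : w < x) (hcov : hit p (c w) ≤ T) (hunc : (T : ℝ≥0∞) < hit p (c x)) :
    ∃ y ∈ Ioo 0 L, y < x ∧ hit p (c y) ≤ T ∧ ∀ z ∈ Ioo y x, (T : ℝ≥0∞) < hit p (c z) := by
  have hsub : Icc w x ⊆ Icc 0 L := Icc_subset_Icc hw.1.le hx.2
  have hK : IsCompact (p '' Icc 0 T) := isCompact_Icc.image hp
  have hcl : IsClosed (Icc w x ∩ c ⁻¹' (p '' Icc 0 T)) :=
    (hc.continuousOn.mono hsub).preimage_isClosed_of_isClosed isClosed_Icc hK.isClosed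
  have hcomp : IsCompact (Icc w x ∩ c ⁻¹' (p '' Icc 0 T)) :=
    isCompact_Icc.of_isClosed_subset hcl inter_subset_left
  have hmem : ∀ z, c z ∈ p '' Icc 0 T ↔ hit p (c z) ≤ T := by
    intro z
    rw [hit_le_iff hp]
    constructor
    · rintro ⟨u, hu, hu'⟩
      exact ⟨u, hu.2, hu'⟩
    · rintro ⟨u, hu, hu'⟩
      exact ⟨u, ⟨zero_le, hu⟩, hu'⟩
  have hne : (Icc w x ∩ c ⁻¹' (p '' Icc 0 T)).Nonempty :=
    ⟨w, ⟨le_rfl, hwx.le⟩, (hmem w).2 hcov⟩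
  obtain ⟨y, hy, hmax⟩ := hcomp.exists_isGreatest hne
  have hyx : y < x := by
    refine lt_of_le_of_ne hy.1.2 fun h => ?_
    have := (hmem y).1 hy.2
    rw [h] at this
    exact absurd this (not_le.2 hunc)
  refine ⟨y, ⟨hw.1.trans_le hy.1.1, hyx.trans_le hx.2⟩, hyx, (hmem y).1 hy.2, fun z hz => ?_⟩
  by_contra hcon
  have hz' : z ∈ Icc w x ∩ c ⁻¹' (p '' Icc 0 T) :=
    ⟨⟨hy.1.1.trans hz.1.le, hz.2.le⟩, (hmem z).2 (not_lt.1 hcon)⟩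
  exact absurd (hmax hz') (not_le.2 hz.1)

namespace Core

variable {Q : Type} [MetricSpace Q] [CompactSpace Q] [MeasurableSpace Q] [BorelSpace Q]
  {D : Core Q} {c : ℝ → Q} {L : ℝ}

theorem Arc.reverse (hA : D.Arc c L) : D.Arc (fun x => c (L - x)) L where
  chart := hA.chart.reverse
  inR := fun x hx => hA.inR (L - x) ⟨by linarith [hx.2], by linarith [hx.1]⟩
  A_out := by
    rintro ⟨x, hx, h⟩
    exact hA.A_out ⟨L - x, ⟨by linarith [hx.2], by linarith [hx.1]⟩, h⟩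

theorem Tip.mono {y κ κ' : ℝ} {ω : D.Ω} (h : D.Tip c y κ ω) (hκ : κ' ≤ κ) : D.Tip c y κ' ω :=
  ⟨h.1, fun z hz => h.2 z ⟨hz.1, hz.2.trans_le (by linarith)⟩⟩

theorem exists_tip_single (hA : D.Arc c L) {ω : D.Ω}
    (hfull : ¬ ∀ x ∈ Icc 0 L, hit (D.P₁ ω) (c x) ≤ 2 * D.v)
    (hempty : ¬ ∀ x ∈ Ioo 0 L, 2 * (D.v : ℝ≥0∞) < hit (D.P₁ ω) (c x)) :
    ∃ r : Bool, ∃ y ∈ Ioo 0 L, ∃ κ : ℝ, 0 < κ ∧ y + κ ≤ L ∧
      D.Tip (if r then c else fun x => c (L - x)) y κ ω := by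
  push Not at hfull hempty
  obtain ⟨x, hx, hxu⟩ := hfull
  obtain ⟨w, hw, hwc⟩ := hempty
  have hp := (D.lip₁ ω).continuous
  have e2 : ((2 * D.v : ℝ≥0) : ℝ≥0∞) = 2 * (D.v : ℝ≥0∞) := by push_cast; rfl
  rcases lt_trichotomy w x with hwx | hwx | hwx
  · obtain ⟨y, hy, hyx, h1, h2⟩ := exists_tip_of_path hA.chart hp (T := 2 * D.v) hw hx hwx
      (by rw [e2]; exact hwc) (by rw [e2]; exact hxu)
    rw [e2] at h1 h2
    refine ⟨true, y, hy, x - y, by linarith, by linarith [hx.2], h1, fun z hz => h2 z ⟨hz.1, ?_⟩⟩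
    linarith [hz.2]
  · subst hwx
    exact absurd hwc (not_le.2 hxu)
  · obtain ⟨y, hy, hyx, h1, h2⟩ := exists_tip_of_path hA.chart.reverse hp (T := 2 * D.v)
      (w := L - w) (x := L - x) ⟨by linarith [hw.2], by linarith [hw.1]⟩
      ⟨by linarith [hx.2], by linarith [hx.1]⟩ (by linarith)
      (by rw [e2]; simpa using hwc) (by rw [e2]; simpa using hxu)
    rw [e2] at h1 h2
    refine ⟨false, y, hy, L - x - y, by linarith, by linarith [hx.1], h1, fun z hz => h2 z ⟨hz.1, ?_⟩⟩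
    linarith [hz.2]

/-- the set of tips of good curves is countable -/
theorem countable_tips
    (tip_mem : ∀ {ω : D.Ω}, D.Good ω → ∀ {y κ : ℝ}, y ∈ Ioo 0 L → 0 < κ → y + κ ≤ L →
      D.Tip c y κ ω → ∀ {ω' : D.Ω}, D.Good ω' → hit (D.P₁ ω') (c y) ≤ 2 * D.v) :
    {y : ℝ | y ∈ Ioo 0 L ∧ ∃ ω, D.Good ω ∧ ∃ κ : ℝ, 0 < κ ∧ y + κ ≤ L ∧ D.Tip c y κ ω}.Countable := by
  classical
  set S : Set ℝ := {y : ℝ | y ∈ Ioo 0 L ∧ ∃ ω, D.Good ω ∧ ∃ κ : ℝ, 0 < κ ∧ y + κ ≤ L ∧ D.Tip c y κ ω}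
    with hS
  have hex : ∀ y ∈ S, ∃ y' : ℝ, y < y' ∧ ∀ z ∈ Ioo y y', z ∉ S := by
    rintro y ⟨hy, ω, hω, κ, hκ, hyκ, ht⟩
    refine ⟨y + κ, by linarith, fun z hz hzS => ?_⟩
    obtain ⟨hz0, ω', hω', κ', hκ', hzκ, ht'⟩ := hzS
    have h1 := tip_mem hω' hz0 hκ' hzκ ht' hω
    exact absurd h1 (not_le.2 (ht.2 z hz))
  choose! g hg hgS using hex
  refine Set.PairwiseDisjoint.countable_of_Ioo (y := g) ?_ hg
  intro a ha b hb hab
  wlog H : a < b generalizing a b with h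
  · exact (h hb ha hab.symm (lt_of_le_of_ne (not_lt.1 H) hab.symm)).symm
  have : g a ≤ b := by
    by_contra hcon
    exact hgS a ha b ⟨H, not_le.1 hcon⟩ hb
  rw [Function.onFun, disjoint_iff_forall_ne]
  exact fun u hu v hv => ((hu.2.trans_le this).trans hv.1).ne

theorem exists_tip_aux (hA : D.Arc c L) (hgood : ∀ᵐ ω ∂D.μ₁, D.Good ω)
    (tip_mem : ∀ {c' : ℝ → Q}, D.Arc c' L → ∀ {ω : D.Ω}, D.Good ω → ∀ {y κ : ℝ},
      y ∈ Ioo 0 L → 0 < κ → y + κ ≤ L →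
      D.Tip c' y κ ω → ∀ {ω' : D.Ω}, D.Good ω' → hit (D.P₁ ω') (c' y) ≤ 2 * D.v)
    (hnot : ¬ ∀ᵐ ω ∂D.μ₁, (∀ x ∈ Icc 0 L, hit (D.P₁ ω) (c x) ≤ 2 * D.v) ∨
      (∀ x ∈ Ioo 0 L, 2 * (D.v : ℝ≥0∞) < hit (D.P₁ ω) (c x))) :
    ∃ c' : ℝ → Q, (c' = c ∨ c' = fun x => c (L - x)) ∧ ∃ y ∈ Ioo 0 L, ∃ κ : ℝ, 0 < κ ∧ y + κ ≤ L ∧
      D.μ₁ {ω | D.Good ω ∧ D.Tip c' y κ ω} ≠ 0 := by
  classical
  by_contra hcon
  push Not at hcon
  apply hnot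
  -- the two charts
  set C : Bool → ℝ → Q := fun r => if r then c else fun x => c (L - x) with hC
  have hCA : ∀ r, D.Arc (C r) L := by
    intro r
    cases r
    · exact hA.reverse
    · exact hA
  have hCc : ∀ r, C r = c ∨ C r = fun x => c (L - x) := by
    intro r
    cases r
    · exact Or.inr rfl
    · exact Or.inl rfl
  set S : Bool → Set ℝ := fun r => {y : ℝ | y ∈ Ioo 0 L ∧ ∃ ω, D.Good ω ∧ ∃ κ : ℝ, 0 < κ ∧
    y + κ ≤ L ∧ D.Tip (C r) y κ ω} with hS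
  have hScount : ∀ r, (S r).Countable := fun r => countable_tips (tip_mem (hCA r))
  -- null set
  have hnull : ∀ᵐ ω ∂D.μ₁, ∀ r : Bool, ∀ y ∈ S r, ∀ k : ℕ,
      ¬ (D.Good ω ∧ y + 1 / ((k : ℝ) + 1) ≤ L ∧ D.Tip (C r) y (1 / ((k : ℝ) + 1)) ω) := by
    rw [ae_all_iff]
    intro r
    rw [ae_ball_iff (hScount r)]
    intro y hy
    rw [ae_all_iff]
    intro k
    by_cases hk : y + 1 / ((k : ℝ) + 1) ≤ L
    · have h0 := hcon (C r) (hCc r) y hy.1 (1 / ((k : ℝ) + 1)) (by positivity) hk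
      have h1 : ∀ᵐ ω ∂D.μ₁, ω ∉ {ω | D.Good ω ∧ D.Tip (C r) y (1 / ((k : ℝ) + 1)) ω} :=
        measure_eq_zero_iff_ae_notMem.1 h0
      filter_upwards [h1] with ω hω h
      exact hω ⟨h.1, h.2.2⟩
    · exact Eventually.of_forall fun ω h => hk h.2.1
  filter_upwards [hgood, hnull] with ω hω hω'
  by_contra hno
  rw [not_or] at hno
  obtain ⟨r, y, hy, κ, hκ, hyκ, ht⟩ := exists_tip_single hA hno.1 hno.2
  obtain ⟨k, hk⟩ := exists_nat_one_div_lt hκ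
  exact hω' r y ⟨hy, ω, hω, κ, hκ, hyκ, ht⟩ k ⟨hω, by linarith, Tip.mono ht hk.le⟩

/-- T4: if it is not true that almost every curve covers the arc or avoids its interior, then
there is a left tip or a right tip which has positive probability -/
theorem exists_tip (hA : D.Arc c L)
    (hnot : ¬ ∀ᵐ ω ∂D.μ₁, (∀ x ∈ Icc 0 L, hit (D.P₁ ω) (c x) ≤ 2 * D.v) ∨
      (∀ x ∈ Ioo 0 L, 2 * (D.v : ℝ≥0∞) < hit (D.P₁ ω) (c x))) :
    ∃ c' : ℝ → Q, (c' = c ∨ c' = fun x => c (L - x)) ∧ ∃ y ∈ Ioo 0 L, ∃ κ : ℝ, 0 < κ ∧ y + κ ≤ L ∧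
      D.μ₁ {ω | D.Good ω ∧ D.Tip c' y κ ω} ≠ 0 :=
  exists_tip_aux hA D.good
    (fun hA' _ hω _ _ hy hκ hyκ ht _ hω' => tip_mem hA' hω hy hκ hyκ ht hω') hnot

end Core

end Pool.Agent.Gal
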