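import Pool.Agent.Helper77.Gal.Tip1

/-!
# T5: at a tip of positive probability, `Φ < 2 v`
-/

open Set MeasureTheory Filter Topology
open scoped ENNReal NNReal

namespace Pool.Agent.Gal

theorem liminf_add_liminf_le (f g : ℕ → ℝ≥0∞) :
    liminf f atTop + liminf g atTop ≤ liminf (fun k => f k + g k) atTop := by
  rw [liminf_eq_iSup_iInf_of_nat, liminf_eq_iSup_iInf_of_nat, liminf_eq_iSup_iInf_of_nat,
    ENNReal.iSup_add_iSup_of_monotone]
  · refine iSup_mono fun n => le_iInf₂ fun i hi => ?_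
    exact add_le_add (iInf₂_le i hi) (iInf₂_le i hi)
  · intro m n hmn
    exact le_iInf₂ fun i hi => iInf₂_le i (le_trans hmn hi)
  · intro m n hmn
    exact le_iInf₂ fun i hi => iInf₂_le i (le_trans hmn hi)

theorem liminf_add_liminf_le_of {f g : ℕ → ℝ≥0∞} {M : ℝ≥0∞} (h : ∀ k, f k + g k ≤ M) :
    liminf f atTop + liminf g atTop ≤ M := by
  refine (liminf_add_liminf_le f g).trans ?_
  have h1 : liminf (fun k => f k + g k) atTop ≤ liminf (fun _ : ℕ => M) atTop :=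
    liminf_le_liminf (Eventually.of_forall h)
  rwa [liminf_const] at h1

theorem hit_le_liminf {Q : Type} [MetricSpace Q] {p : ℝ≥0 → Q} (hp : Continuous p) {H : Q}
    {u : ℕ → Q} (hu : Tendsto u atTop (𝓝 H)) :
    hit p H ≤ liminf (fun k => hit p (u k)) atTop := by
  have h1 := (lowerSemicontinuousAt_iff_le_liminf.1 (lowerSemicontinuous_hit hp H))
  refine h1.trans ?_
  have h2 : liminf (fun k => hit p (u k)) atTop = liminf (hit p) (map u atTop) := rfl
  rw [h2]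
  exact liminf_le_liminf_of_le hu

namespace Core

variable {Q : Type} [MetricSpace Q] [CompactSpace Q] [MeasurableSpace Q] [BorelSpace Q]
  {D : Core Q} {c : ℝ → Q} {L : ℝ}

/-- T5: at a tip of positive probability, `Φ < 2 v` -/
theorem phi_lt (hA : D.Arc c L) {y κ : ℝ} (hy : y ∈ Ioo 0 L)
    (hκ : 0 < κ) (hyκ : y + κ ≤ L) (hpos : D.μ₁ {ω | D.Good ω ∧ D.Tip c y κ ω} ≠ 0) :
    D.Phi (c y) < 2 * D.v := by
  have h2v : (2 * (D.v : ℝ≥0∞)) ≠ ∞ := ENNReal.mul_ne_top ENNReal.ofNat_ne_top ENNReal.coe_ne_top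
  -- one tip curve
  obtain ⟨ω₀, hω₀, ht₀⟩ : ({ω | D.Good ω ∧ D.Tip c y κ ω} : Set D.Ω).Nonempty := by
    by_contra hne
    rw [not_nonempty_iff_eq_empty] at hne
    exact hpos (by rw [hne, measure_empty])
  -- almost every curve covers `c y`
  have hcov : ∀ᵐ ω ∂D.μ₁, hit (D.P₁ ω) (c y) ≤ D.s ω := by
    filter_upwards [good D] with ω hω
    rw [hω.1]
    push_cast
    exact tip_mem hA hω₀ hy hκ hyκ ht₀ hω
  -- the sequence
  set z : ℕ → ℝ := fun k => y + κ / (k + 2) with hz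
  have hzmem : ∀ k, z k ∈ Ioo y (y + κ) := by
    intro k
    have h1 : (0 : ℝ) < k + 2 := by positivity
    refine ⟨?_, ?_⟩
    · rw [hz]
      have : 0 < κ / ((k : ℝ) + 2) := by positivity
      dsimp only
      linarith
    · rw [hz]
      have : κ / ((k : ℝ) + 2) < κ := by
        rw [div_lt_iff₀ h1]
        have : (0 : ℝ) ≤ k := Nat.cast_nonneg k
        nlinarith
      dsimp only
      linarith
  have hzlim : Tendsto z atTop (𝓝 y) := by
    have h1 : Tendsto (fun k : ℕ => (k : ℝ) + 2) atTop atTop :=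
      tendsto_atTop_add_const_right _ _ tendsto_natCast_atTop_atTop
    have h2 : Tendsto (fun k : ℕ => κ / ((k : ℝ) + 2)) atTop (𝓝 0) :=
      tendsto_const_nhds.div_atTop h1
    have h3 := h2.const_add y
    rw [add_zero] at h3
    exact h3
  have hzI : ∀ k, z k ∈ Icc 0 L := fun k =>
    ⟨(hy.1.trans (hzmem k).1).le, ((hzmem k).2.trans_le hyκ).le⟩
  have hyI : y ∈ Icc 0 L := ⟨hy.1.le, hy.2.le⟩
  have hclim : Tendsto (fun k => c (z k)) atTop (𝓝 (c y)) := by
    rw [tendsto_iff_dist_tendsto_zero]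
    have h1 : Tendsto (fun k => |z k - y|) atTop (𝓝 0) := by
      have h2 : Tendsto (fun k => z k - y) atTop (𝓝 (y - y)) := hzlim.sub_const y
      rw [sub_self] at h2
      have h3 := h2.abs
      rw [abs_zero] at h3
      exact h3
    exact squeeze_zero (fun _ => dist_nonneg) (fun k => hA.chart.lip _ (hzI k) _ hyI) h1
  -- measurability
  have hm₀ : ∀ H, Measurable fun ω => hit (D.P₀ ω) H := fun H =>
    (measurable_hit_prod D.meas₀ (fun ω => (D.lip₀ ω).continuous)).comp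
      (measurable_id.prodMk measurable_const)
  have hm₁ : ∀ H, Measurable fun ω => hit (D.P₁ ω) H := fun H =>
    (measurable_hit_prod D.meas₁ (fun ω => (D.lip₁ ω).continuous)).comp
      (measurable_id.prodMk measurable_const)
  have hms : Measurable fun ω => (D.s ω : ℝ≥0∞) := measurable_coe_nnreal_ennreal.comp D.meas_s
  have hmset : ∀ H, MeasurableSet {ω | (D.s ω : ℝ≥0∞) < hit (D.P₁ ω) H} := fun H =>
    measurableSet_lt hms (hm₁ H)
  have hmf : ∀ H, Measurable fun ω => hit (D.P₁ ω) H +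
      if (D.s ω : ℝ≥0∞) < hit (D.P₁ ω) H then 2 * (D.l : ℝ≥0∞) else 0 := fun H =>
    (hm₁ H).add (Measurable.ite (hmset H) measurable_const measurable_const)
  set G : Set D.Ω := ⋂ k, {ω | (D.s ω : ℝ≥0∞) < hit (D.P₁ ω) (c (z k))} with hG
  have hGm : MeasurableSet G := MeasurableSet.iInter fun k => hmset _
  have hGpos : D.μ₁ G ≠ 0 := by
    intro h0
    apply hpos
    refine measure_mono_null ?_ h0
    rintro ω ⟨h1, h2⟩
    rw [hG, mem_iInter]
    intro k
    show (D.s ω : ℝ≥0∞) < hit (D.P₁ ω) (c (z k))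
    rw [h1.1]
    push_cast
    exact h2.2 _ (hzmem k)
  -- Fatou
  have hF0 : ∫⁻ ω, hit (D.P₀ ω) (c y) ∂D.μ₀ ≤
      liminf (fun k => ∫⁻ ω, hit (D.P₀ ω) (c (z k)) ∂D.μ₀) atTop := by
    calc ∫⁻ ω, hit (D.P₀ ω) (c y) ∂D.μ₀ ≤
          ∫⁻ ω, liminf (fun k => hit (D.P₀ ω) (c (z k))) atTop ∂D.μ₀ :=
          lintegral_mono fun ω => hit_le_liminf (D.lip₀ ω).continuous hclim
      _ ≤ _ := lintegral_liminf_le fun k => hm₀ _
  have hF1 : ∫⁻ ω, (hit (D.P₁ ω) (c y) + G.indicator (fun _ => 2 * (D.l : ℝ≥0∞)) ω) ∂D.μ₁ ≤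
      liminf (fun k => ∫⁻ ω, (hit (D.P₁ ω) (c (z k)) +
        if (D.s ω : ℝ≥0∞) < hit (D.P₁ ω) (c (z k)) then 2 * (D.l : ℝ≥0∞) else 0) ∂D.μ₁)
        atTop := by
    calc ∫⁻ ω, (hit (D.P₁ ω) (c y) + G.indicator (fun _ => 2 * (D.l : ℝ≥0∞)) ω) ∂D.μ₁ ≤
          ∫⁻ ω, liminf (fun k => (hit (D.P₁ ω) (c (z k)) +
            if (D.s ω : ℝ≥0∞) < hit (D.P₁ ω) (c (z k)) then 2 * (D.l : ℝ≥0∞) else 0)) atTop
            ∂D.μ₁ := by
          refine lintegral_mono fun ω => ?_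
          have h1 := hit_le_liminf (D.lip₁ ω).continuous hclim
          dsimp only
          by_cases hω : ω ∈ G
          · rw [indicator_of_mem hω]
            have h2 : ∀ k, (D.s ω : ℝ≥0∞) < hit (D.P₁ ω) (c (z k)) := fun k =>
              mem_iInter.1 hω k
            simp only [h2, if_true]
            have h3 : liminf (fun k => hit (D.P₁ ω) (c (z k))) atTop + 2 * (D.l : ℝ≥0∞) ≤
                liminf (fun k => hit (D.P₁ ω) (c (z k)) + 2 * (D.l : ℝ≥0∞)) atTop := by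
              have h4 := liminf_add_liminf_le (fun k => hit (D.P₁ ω) (c (z k)))
                (fun _ => 2 * (D.l : ℝ≥0∞))
              rwa [liminf_const] at h4
            exact (add_le_add h1 le_rfl).trans h3
          · rw [indicator_of_notMem hω, add_zero]
            exact h1.trans (liminf_le_liminf (Eventually.of_forall fun k => le_self_add))
      _ ≤ _ := lintegral_liminf_le fun k => hmf _
  have hsum := liminf_add_liminf_le_of
    (f := fun k => ∫⁻ ω, hit (D.P₀ ω) (c (z k)) ∂D.μ₀)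
    (g := fun k => ∫⁻ ω, (hit (D.P₁ ω) (c (z k)) +
        if (D.s ω : ℝ≥0∞) < hit (D.P₁ ω) (c (z k)) then 2 * (D.l : ℝ≥0∞) else 0) ∂D.μ₁)
    (M := 2 * (D.v : ℝ≥0∞)) (fun k => D.F2 _ (hA.inR _ (hzI k)))
  have hphi : D.Phi (c y) = ∫⁻ ω, hit (D.P₀ ω) (c y) ∂D.μ₀ +
      ∫⁻ ω, hit (D.P₁ ω) (c y) ∂D.μ₁ := by
    unfold Phi
    congr 1
    refine lintegral_congr_ae ?_
    filter_upwards [hcov] with ω hω
    rw [if_neg (not_lt.2 hω), add_zero]
  have hle : D.Phi (c y) + 2 * (D.l : ℝ≥0∞) * D.μ₁ G ≤ 2 * D.v := by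
    calc D.Phi (c y) + 2 * (D.l : ℝ≥0∞) * D.μ₁ G = ∫⁻ ω, hit (D.P₀ ω) (c y) ∂D.μ₀ +
          ∫⁻ ω, (hit (D.P₁ ω) (c y) + G.indicator (fun _ => 2 * (D.l : ℝ≥0∞)) ω) ∂D.μ₁ := by
          rw [lintegral_add_left (hm₁ _), lintegral_indicator hGm, setLIntegral_const, hphi,
            add_assoc]
      _ ≤ _ := (add_le_add hF0 hF1).trans hsum
  have hphit : D.Phi (c y) ≠ ∞ := ((le_self_add.trans hle).trans_lt h2v.lt_top).ne
  have hl : 2 * (D.l : ℝ≥0∞) * D.μ₁ G ≠ 0 := by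
    have h1 : (D.l : ℝ≥0∞) ≠ 0 := by
      rw [Ne, ENNReal.coe_eq_zero]
      exact D.l_pos.ne'
    exact mul_ne_zero (mul_ne_zero two_ne_zero h1) hGpos
  exact (ENNReal.lt_add_right hphit hl).trans_le hle

end Core

end Pool.Agent.Gal
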