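import Pool.Agent.Helper77.Gal.D1
import Pool.Agent.Helper77.Gal.D2

/-!
# T6, T11: points with `Φ < 2 v`, points covered with positive probability
-/

open Set MeasureTheory Filter Topology
open scoped ENNReal NNReal

namespace Pool.Agent.Gal

namespace Core

variable {Q : Type} [MetricSpace Q] [CompactSpace Q] [MeasurableSpace Q] [BorelSpace Q]
  {D : Core Q}

theorem phi_le {H : Q} (hH : H ∈ D.R) : D.Phi H ≤ 2 * D.v := D.F2 H hH

/-- T6: points with `Φ < 2 v` have asymptotically no mass -/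
theorem point_mass {H : Q} (hH : H ∈ D.R) (h : D.Phi H < 2 * D.v) :
    Tendsto (fun m => D.h m {H}) atTop (𝓝 0) := by
  have h2v : (2 * (D.v : ℝ≥0∞)) ≠ ∞ := ENNReal.mul_ne_top ENNReal.ofNat_ne_top ENNReal.coe_ne_top
  have key : ∀ m, (2 * (D.v : ℝ≥0∞)) * D.h m {H} ≤ D.Phi H * D.h m {H} + 2 * D.ε m := by
    intro m
    have h1 := phi_int D m
    have h2 : ∫⁻ H', D.Phi H' ∂(D.h m) =
        ∫⁻ H' in {H}, D.Phi H' ∂(D.h m) + ∫⁻ H' in {H}ᶜ, D.Phi H' ∂(D.h m) :=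
      (lintegral_add_compl _ (measurableSet_singleton H)).symm
    have h3 : ∫⁻ H' in {H}, D.Phi H' ∂(D.h m) = D.Phi H * D.h m {H} := lintegral_singleton _ _
    have hae : ∀ᵐ H' ∂(D.h m), D.Phi H' ≤ 2 * D.v := by
      have : ∀ᵐ H' ∂(D.h m), H' ∈ D.R := by
        rw [ae_iff]
        exact D.hsupp m
      filter_upwards [this] with H' hH'
      exact phi_le hH'
    have h4 : ∫⁻ H' in {H}ᶜ, D.Phi H' ∂(D.h m) ≤ 2 * D.v * D.h m {H}ᶜ := by
      calc ∫⁻ H' in {H}ᶜ, D.Phi H' ∂(D.h m) ≤ ∫⁻ _ in {H}ᶜ, 2 * (D.v : ℝ≥0∞) ∂(D.h m) :=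
            lintegral_mono_ae (ae_restrict_of_ae hae)
        _ = 2 * D.v * D.h m {H}ᶜ := by rw [setLIntegral_const]
    have h5 : D.h m {H} + D.h m {H}ᶜ = 1 := prob_add_prob_compl (measurableSet_singleton H)
    have h6 : 2 * (D.v : ℝ≥0∞) * D.h m {H}ᶜ ≠ ∞ :=
      ENNReal.mul_ne_top h2v (measure_ne_top _ _)
    have h7 : 2 * (D.v : ℝ≥0∞) * D.h m {H} + 2 * D.v * D.h m {H}ᶜ ≤
        (D.Phi H * D.h m {H} + 2 * D.ε m) + 2 * D.v * D.h m {H}ᶜ := by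
      rw [← mul_add, h5, mul_one]
      calc 2 * (D.v : ℝ≥0∞) ≤ ∫⁻ H, D.Phi H ∂(D.h m) + 2 * D.ε m := h1
        _ ≤ (D.Phi H * D.h m {H} + 2 * D.v * D.h m {H}ᶜ) + 2 * D.ε m := by
            rw [h2, h3]
            gcongr
        _ = _ := by ring
    exact (ENNReal.add_le_add_iff_right h6).1 h7
  -- the gap
  have hφ : D.Phi H ≠ ∞ := (h.trans_le le_top).ne
  set g : ℝ≥0∞ := 2 * (D.v : ℝ≥0∞) - D.Phi H with hg
  have hg0 : g ≠ 0 := by
    rw [hg]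
    exact (tsub_pos_of_lt h).ne'
  have hgt : g ≠ ∞ := (tsub_le_self.trans_lt h2v.lt_top).ne
  have key2 : ∀ m, D.h m {H} ≤ 2 * D.ε m / g := by
    intro m
    rw [ENNReal.le_div_iff_mul_le (Or.inl hg0) (Or.inl hgt), mul_comm, hg,
      ENNReal.sub_mul (fun _ _ => measure_ne_top _ _)]
    exact tsub_le_iff_left.2 (key m)
  have hε : Tendsto D.ε atTop (𝓝 0) := ENNReal.tendsto_atTop_zero_of_tsum_ne_top D.ε_sum
  have hlim : Tendsto (fun m => 2 * D.ε m / g) atTop (𝓝 0) := by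
    have h1 : Tendsto (fun m => 2 * D.ε m) atTop (𝓝 (2 * 0)) :=
      ENNReal.Tendsto.const_mul hε (Or.inr ENNReal.ofNat_ne_top)
    have h2 := ENNReal.Tendsto.div_const h1 (b := g) (Or.inr hg0)
    simpa using h2
  exact tendsto_of_tendsto_of_tendsto_of_le_of_le tendsto_const_nhds hlim (fun _ => zero_le) key2

/-- T11: every point of `R` is covered with positive probability -/
theorem covered_pos {H : Q} (hH : H ∈ D.R) :
    D.μ₁ {ω | hit (D.P₁ ω) H ≤ 2 * D.v} ≠ 0 := by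
  intro h0
  have hae : ∀ᵐ ω ∂D.μ₁, 2 * (D.v : ℝ≥0∞) < hit (D.P₁ ω) H := by
    rw [ae_iff]
    simpa [not_lt] using h0
  have hl : (0 : ℝ≥0∞) < 2 * D.l := by
    have := D.l_pos
    simp [this]
  have h1 : 2 * (D.v : ℝ≥0∞) + 2 * D.l ≤ 2 * D.v := by
    calc 2 * (D.v : ℝ≥0∞) + 2 * D.l = ∫⁻ _, (2 * (D.v : ℝ≥0∞) + 2 * D.l) ∂D.μ₁ := by
          rw [lintegral_const, measure_univ, mul_one]
      _ ≤ ∫⁻ ω, (hit (D.P₁ ω) H +
            if (D.s ω : ℝ≥0∞) < hit (D.P₁ ω) H then 2 * (D.l : ℝ≥0∞) else 0) ∂D.μ₁ := by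
          refine lintegral_mono_ae ?_
          filter_upwards [hae, good D] with ω h2 h3
          rw [h3.1] at *
          rw [if_pos (by push_cast; exact h2)]
          gcongr
      _ ≤ D.Phi H := le_add_self
      _ ≤ 2 * D.v := phi_le hH
  have h2v : (2 * (D.v : ℝ≥0∞)) ≠ ∞ := ENNReal.mul_ne_top ENNReal.ofNat_ne_top ENNReal.coe_ne_top
  have h3 : 2 * (D.v : ℝ≥0∞) < 2 * D.v + 2 * D.l := ENNReal.lt_add_right h2v hl.ne'
  exact absurd h1 (not_le.2 h3)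

end Core

end Pool.Agent.Gal
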