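import Pool.Agent.Helper77.Gal.Geo2

/-!
# The cut for a path which turns (module GAL-G5)
-/

open Set MeasureTheory Filter Topology
open scoped ENNReal NNReal

namespace Pool.Agent.Gal

section Geo

variable {Q : Type} [MetricSpace Q] {c : ℝ → Q} {L : ℝ}

/-- G5: the cut for a path which turns (or waits) at `c y` coming from the right: if the left
neighbours `Ioo (y - δ₀) y` are visited only `η` after `c y`, then a time interval `[a, b]` of
length at least `g = min η (2 δ)` can be cut out, in which the path stays in `c '' Icc y (y + δ)`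
and which ends before any left neighbour is visited. -/
theorem turn_cut (hc : IsChart c L) {p : ℝ≥0 → Q} (hp : LipschitzWith 1 p)
    (h0 : p 0 ∉ c '' Ioo 0 L) {y : ℝ} (hy : y ∈ Ioo 0 L) {δ : ℝ≥0} (hδ : 0 < δ)
    (hyδ : y + δ < L) {τ : ℝ≥0} (hτ : hit p (c y) = τ) {δ₀ : ℝ} (hδ₀ : δ₀ ∈ Ioo 0 y) {η : ℝ≥0}
    (hη : 0 < η) (hJ : ∀ x ∈ Ioo (y - δ₀) y, (τ : ℝ≥0∞) + η ≤ hit p (c x)) :
    ∃ a b : ℝ≥0, a + min η (2 * δ) ≤ b ∧ p a = p b ∧ (∀ u ∈ Icc a b, p u ∈ c '' Icc y (y + δ)) ∧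
      ∀ x ∈ Ioo (y - δ₀) y, (b : ℝ≥0∞) ≤ hit p (c x) := by
  have hδ' : (0 : ℝ) < δ := by exact_mod_cast hδ
  have hyδ0 : (0 : ℝ) < y + δ := by linarith [hy.1]
  obtain ⟨τ', h1, hpτ⟩ := exists_hit hp.continuous (H := c y) (by rw [hτ]; exact ENNReal.coe_ne_top)
  obtain rfl : τ = τ' := by rw [hτ] at h1; exact_mod_cast h1
  have hxm : y - δ₀ / 2 ∈ Ioo (y - δ₀) y := ⟨by linarith [hδ₀.1], by linarith [hδ₀.1]⟩
  obtain ⟨t₀, ht₀, hpt₀, hall⟩ := approach_right hc hp h0 hy hδ' hyδ hτ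
    (x := y - δ₀ / 2) ⟨by linarith [hδ₀.2, hδ₀.1], by linarith [hδ₀.1]⟩
    ((le_add_right le_rfl).trans (hJ _ hxm))
  have hnot : ∀ u < τ + η, ∀ z ∈ Ioo (y - δ₀) y, p u ≠ c z := by
    intro u hu z hz hh
    have h2 := (hJ z hz).trans (hit_le hh)
    have h3 : τ + η ≤ u := by exact_mod_cast h2
    exact absurd h3 (not_le.2 hu)
  have hclosed : IsClosed (p ⁻¹' (c '' Icc y (y + δ))) :=
    (hc.isClosed_image hy.1.le hyδ.le).preimage hp.continuous
  by_cases hstay : ∀ u ∈ Icc τ (τ + η), p u ∈ c '' Ioo (y - δ₀) (y + δ)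
  · -- the path stays near `c y`
    have hin : ∀ u ∈ Ico τ (τ + η), p u ∈ c '' Icc y (y + δ) := by
      intro u hu
      obtain ⟨z, hz, hz'⟩ := hstay u ⟨hu.1, hu.2.le⟩
      refine ⟨z, ⟨?_, hz.2.le⟩, hz'⟩
      by_contra hcon
      push Not at hcon
      exact hnot u hu.2 z ⟨hz.1, hcon⟩ hz'.symm
    have hin' : ∀ u ∈ Icc τ (τ + η), p u ∈ c '' Icc y (y + δ) := by
      intro u hu
      have hne : τ ≠ τ + η := (lt_add_of_pos_right τ hη).ne
      have : u ∈ closure (Ico τ (τ + η)) := by rwa [closure_Ico hne]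
      exact (closure_minimal (fun w hw => hin w hw) hclosed) this
    obtain ⟨zb, hzb, hzb'⟩ := hin' (τ + η) ⟨le_self_add, le_rfl⟩
    obtain ⟨z, hz, hzl⟩ := exists_coord hc hp hy.1 hyδ hall
    have hsub : Icc y (y + δ) ⊆ Icc 0 L := Icc_subset_Icc hy.1.le hyδ.le
    have hz0 : z t₀ = y + δ :=
      chart_eq hc ⟨hyδ0, hyδ⟩ (hsub (hz t₀ ⟨le_rfl, ht₀⟩).1) (by rw [(hz t₀ ⟨le_rfl, ht₀⟩).2, hpt₀])
    have hzτ : z τ = y :=
      chart_eq hc hy (hsub (hz τ ⟨ht₀, le_rfl⟩).1) (by rw [(hz τ ⟨ht₀, le_rfl⟩).2, hpτ])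
    obtain ⟨a, ha, ha'⟩ := intermediate_value_Icc' ht₀ (coord_continuousOn hzl)
      (show zb ∈ Icc (z τ) (z t₀) by rw [hz0, hzτ]; exact hzb)
    refine ⟨a, τ + η, ?_, ?_, ?_, ?_⟩
    · exact add_le_add ha.2 (min_le_left _ _)
    · rw [← hzb', ← ha', (hz a ha).2]
    · intro u hu
      rcases le_total u τ with h | h
      · exact hall u ⟨ha.1.trans hu.1, h⟩
      · exact hin' u ⟨h, hu.2⟩
    · intro x hx
      have := hJ x hx
      exact_mod_cast this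
  · -- the path leaves through `c (y + δ)`
    push Not at hstay
    obtain ⟨u₀, hu₀, hu₀'⟩ := hstay
    have hmem : p τ ∈ c '' Ioo (y - δ₀) (y + δ) :=
      ⟨y, ⟨by linarith [hδ₀.1], by linarith⟩, hpτ.symm⟩
    obtain ⟨t₂, ht₂, hend, hall₂⟩ := exit_right hc hp (by linarith [hδ₀.2]) hyδ.le hu₀.1 hmem hu₀'
    have hin : ∀ u ∈ Ico τ t₂, p u ∈ c '' Icc y (y + δ) := by
      intro u hu
      obtain ⟨z, hz, hz'⟩ := hall₂ u hu
      refine ⟨z, ⟨?_, hz.2.le⟩, hz'⟩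
      by_contra hcon
      push Not at hcon
      exact hnot u (hu.2.trans_le (ht₂.2.trans hu₀.2)) z ⟨hz.1, hcon⟩ hz'.symm
    have hin' : ∀ u ∈ Icc τ t₂, p u ∈ c '' Icc y (y + δ) := by
      intro u hu
      have : u ∈ closure (Ico τ t₂) := by rwa [closure_Ico ht₂.1.ne]
      exact (closure_minimal (fun w hw => hin w hw) hclosed) this
    have hpt₂ : p t₂ = c (y + δ) := by
      refine hend.resolve_left fun hh => ?_
      obtain ⟨z, hz, hz'⟩ := hin' t₂ ⟨ht₂.1.le, le_rfl⟩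
      have := chart_eq hc (x := y - δ₀) ⟨by linarith [hδ₀.2], by linarith [hδ₀.1, hy.2]⟩
        (y := z) ⟨by linarith [hz.1, hy.1], by linarith [hz.2]⟩ (by rw [hz', hh])
      linarith [hz.1, hδ₀.1]
    have hm : y + δ ∈ Icc y (y + δ) := ⟨by linarith, le_rfl⟩
    have hm' : y ∈ Icc y (y + δ) := ⟨le_rfl, by linarith⟩
    have e1 := coord_time hc hp hy.1 hyδ ht₀ hall hm hm' hpt₀ hpτ
    have e2 := coord_time hc hp hy.1 hyδ ht₂.1.le hin' hm' hm hpτ hpt₂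
    rw [show y + δ - y = (δ : ℝ) by ring, abs_of_nonneg hδ'.le] at e1
    rw [show y - (y + δ) = -(δ : ℝ) by ring, abs_neg, abs_of_nonneg hδ'.le] at e2
    refine ⟨t₀, t₂, ?_, ?_, ?_, ?_⟩
    · refine (add_le_add_right (min_le_right _ _) _).trans ?_
      rw [← NNReal.coe_le_coe]
      push_cast
      linarith
    · rw [hpt₀, hpt₂]
    · intro u hu
      rcases le_total u τ with h | h
      · exact hall u ⟨hu.1, h⟩
      · exact hin' u ⟨h, hu.2⟩
    · intro x hx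
      refine le_trans ?_ (hJ x hx)
      exact_mod_cast ht₂.2.trans hu₀.2

end Geo

end Pool.Agent.Gal
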