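import Pool.Agent.Helper77.Gal.Meas
import Pool.Agent.Helper77.Gal.Geo5

/-!
# T7: almost no path turns at a tip
-/

open Set MeasureTheory Filter Topology
open scoped ENNReal NNReal

set_option linter.unusedSectionVars false

namespace Pool.Agent.Gal

namespace Core

variable {Q : Type} [MetricSpace Q] [CompactSpace Q] [MeasurableSpace Q] [BorelSpace Q]
  {D : Core Q} {c : ℝ → Q} {L : ℝ}

/-- pointwise inequality after the surgery at the point `c y` -/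
theorem turn_point (hA : D.Arc c L) {p : ℝ≥0 → Q} (hp : LipschitzWith 1 p) (h0 : p 0 = D.A)
    {y : ℝ} (hy : y ∈ Ioo 0 L) {δ : ℝ≥0} (hδ : 0 < δ) (hyδ : y + δ < L) {δ₀ : ℝ}
    (hδ₀ : δ₀ ∈ Ioo 0 y) {η : ℝ≥0} (hη : 0 < η) (hfin : hit p (c y) ≠ ∞)
    (hJ : ∀ x ∈ Ioo (y - δ₀) y, hit p (c y) + η ≤ hit p (c x)) {Θ : ℝ≥0} (hΘ : 0 < Θ) (m : ℕ) :
    (D.v : ℝ≥0∞) + (min η (2 * δ) : ℝ≥0) * D.h m (c '' Ioo (y - δ₀) y) ≤
      (1 + D.C / Θ) * (∫⁻ H, hit p H ∂(D.h m)) +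
        ((Θ + D.C) * D.h m (c '' Icc y (y + δ)) + D.ε m) := by
  obtain ⟨τ, hτ, -⟩ := exists_hit hp.continuous hfin
  rw [hτ] at hJ
  set g : ℝ≥0 := min η (2 * δ) with hg
  set I : Set Q := c '' Ioo (y - δ₀) y with hI
  set S : Set Q := c '' Icc y (y + δ) with hS
  obtain ⟨a, b, hab, hpab, hin, hbI⟩ := turn_cut hA.chart hp (by rw [h0]; exact hA.A_out) hy hδ hyδ
    hτ hδ₀ hη hJ
  rw [← hg] at hab
  have hab' : a ≤ b := le_trans le_self_add hab
  have habE : (a : ℝ≥0∞) + g ≤ b := by exact_mod_cast hab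
  have hq : LipschitzWith 1 (cut p a b) := cut_lip hp hpab
  obtain ⟨r, hr, hr0, hrC⟩ := D.cover (cut p a b Θ)
  set q' : ℝ≥0 → Q := glue (cut p a b) Θ r with hq'
  have hq'lip : LipschitzWith 1 q' := glue_lip hq hr hr0.symm
  have hq'0 : q' 0 = D.A := by
    rw [hq', glue_zero, cut, glue_zero, h0]
  have hF := D.F3 m q' hq'lip hq'0
  have hfar : ∀ H, hit q' H ≤ Θ + D.C := fun H =>
    (hit_glue_le hr0.symm H).trans (add_le_add le_rfl (hrC H))
  -- the basic comparison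
  have hbase : ∀ H, ∀ g' : ℝ≥0∞, hit (cut p a b) H + g' ≤ hit p H →
      hit q' H + g' ≤ hit p H + {H | (Θ : ℝ≥0∞) ≤ hit p H}.indicator (fun _ => (D.C : ℝ≥0∞)) H := by
    intro H g' h
    rcases le_or_gt (hit (cut p a b) H) Θ with h1 | h1
    · refine le_trans ?_ le_self_add
      refine le_trans ?_ h
      gcongr
      exact hit_glue_le_left hq.continuous h1
    · have h2 : (Θ : ℝ≥0∞) ≤ hit p H := h1.le.trans (le_trans le_self_add h)
      rw [indicator_of_mem (by exact h2)]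
      calc hit q' H + g' ≤ (Θ + D.C) + g' := by gcongr; exact hfar H
        _ = (Θ + g') + D.C := by ring
        _ ≤ (hit (cut p a b) H + g') + D.C := by gcongr
        _ ≤ hit p H + D.C := by gcongr
  have hpoint : ∀ H, hit q' H + I.indicator (fun _ => (g : ℝ≥0∞)) H ≤
      (hit p H + S.indicator (fun _ => ((Θ + D.C : ℝ≥0) : ℝ≥0∞)) H) +
        {H | (Θ : ℝ≥0∞) ≤ hit p H}.indicator (fun _ => (D.C : ℝ≥0∞)) H := by
    intro H
    by_cases hHI : H ∈ I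
    · rw [indicator_of_mem hHI]
      have hbH : (b : ℝ≥0∞) ≤ hit p H := by
        obtain ⟨x, hx, rfl⟩ := hHI
        exact hbI x hx
      have h1 := hit_cut_of_le hpab hbH
      have h2 : hit (cut p a b) H + g ≤ hit p H := by
        refine (ENNReal.add_le_add_iff_right (a := (a : ℝ≥0∞)) ENNReal.coe_ne_top).1 ?_
        calc hit (cut p a b) H + g + a = hit (cut p a b) H + (a + g) := by ring
          _ ≤ hit (cut p a b) H + b := by gcongr
          _ ≤ _ := h1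
      refine (hbase H g h2).trans ?_
      gcongr
      exact le_self_add
    · rw [indicator_of_notMem hHI, add_zero]
      by_cases hHS : H ∈ S
      · rw [indicator_of_mem hHS]
        refine (hfar H).trans ?_
        push_cast
        refine le_trans ?_ le_self_add
        exact le_add_self
      · rw [indicator_of_notMem hHS, add_zero]
        have h2 : hit (cut p a b) H + 0 ≤ hit p H := by
          rw [add_zero]
          rcases le_or_gt (hit p H) a with h3 | h3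
          · exact hit_cut_le hp.continuous h3
          · have hbH : (b : ℝ≥0∞) ≤ hit p H := by
              by_contra hcon
              push Not at hcon
              obtain ⟨u, hu, hu'⟩ := exists_hit hp.continuous (ne_top_of_lt hcon)
              rw [hu] at hcon h3
              refine hHS ?_
              rw [← hu']
              exact hin u ⟨ENNReal.coe_le_coe.1 h3.le, ENNReal.coe_le_coe.1 hcon.le⟩
            have h1 := hit_cut_of_le hpab hbH
            refine (ENNReal.add_le_add_iff_right (a := (a : ℝ≥0∞)) ENNReal.coe_ne_top).1 ?_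
            refine le_trans ?_ h1
            gcongr
        have := hbase H 0 h2
        rwa [add_zero] at this
  have hIm : MeasurableSet I := by
    refine (hA.chart.isOpen_image ?_ hy.2.le).measurableSet
    linarith [hδ₀.2]
  have hSm : MeasurableSet S := (hA.chart.isClosed_image hy.1.le hyδ.le).measurableSet
  have hpm : Measurable (hit p) := measurable_hit hp.continuous
  have hq'm : Measurable (hit q') := measurable_hit hq'lip.continuous
  have hTm : MeasurableSet {H | (Θ : ℝ≥0∞) ≤ hit p H} := measurableSet_le measurable_const hpm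
  have hint := lintegral_mono (μ := D.h m) hpoint
  have hmarkov := mul_meas_ge_le_lintegral (μ := D.h m) hpm (Θ : ℝ≥0∞)
  have hCT : (D.C : ℝ≥0∞) * D.h m {H | (Θ : ℝ≥0∞) ≤ hit p H} ≤
      D.C / Θ * ∫⁻ H, hit p H ∂(D.h m) := by
    calc (D.C : ℝ≥0∞) * D.h m {H | (Θ : ℝ≥0∞) ≤ hit p H} =
        D.C / Θ * (Θ * D.h m {H | (Θ : ℝ≥0∞) ≤ hit p H}) := by
          rw [← mul_assoc, ENNReal.div_mul_cancel (by simpa using hΘ.ne') ENNReal.coe_ne_top]
      _ ≤ _ := by gcongr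
  rw [lintegral_add_left hq'm, lintegral_indicator_const hIm,
    lintegral_add_right _ (measurable_const.indicator hTm), lintegral_add_left hpm,
    lintegral_indicator_const hSm, lintegral_indicator_const hTm] at hint
  calc (D.v : ℝ≥0∞) + g * D.h m I ≤ (∫⁻ H, hit q' H ∂(D.h m) + D.ε m) + g * D.h m I := by gcongr
    _ = (∫⁻ H, hit q' H ∂(D.h m) + g * D.h m I) + D.ε m := by ring
    _ ≤ (∫⁻ H, hit p H ∂(D.h m) + ((Θ + D.C : ℝ≥0) : ℝ≥0∞) * D.h m S +
        D.C * D.h m {H | (Θ : ℝ≥0∞) ≤ hit p H}) + D.ε m := by gcongr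
    _ ≤ (∫⁻ H, hit p H ∂(D.h m) + ((Θ + D.C : ℝ≥0) : ℝ≥0∞) * D.h m S +
        D.C / Θ * ∫⁻ H, hit p H ∂(D.h m)) + D.ε m := by gcongr
    _ = _ := by push_cast; ring

theorem turn_set (hA : D.Arc c L) {μ : Measure D.Ω} {P : D.Ω → ℝ≥0 → Q} (hF : D.Fam μ P)
    {y κ : ℝ} (hy : y ∈ Ioo 0 L) (hκ : 0 < κ) (hyκ : y + κ ≤ L)
    (hzero : Tendsto (fun m => D.h m (c '' Ico y (y + κ))) atTop (𝓝 0))
    (hmass : ∀ δ ∈ Ioo 0 y, ∃ a : ℝ≥0, 0 < a ∧ ∀ᶠ m in atTop,
      (a : ℝ≥0∞) ≤ D.h m (c '' Ioo (y - δ) y)) {δ₀ : ℝ}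
    (hδ₀ : δ₀ ∈ Ioo 0 y) {η : ℝ≥0} (hη : 0 < η) :
    μ {ω | hit (P ω) (c y) ≠ ∞ ∧
      ∀ x ∈ Ioo (y - δ₀) y, hit (P ω) (c y) + η ≤ hit (P ω) (c x)} = 0 := by
  have hprob := hF.prob
  set J : Set D.Ω := {ω | hit (P ω) (c y) ≠ ∞ ∧
      ∀ x ∈ Ioo (y - δ₀) y, hit (P ω) (c y) + η ≤ hit (P ω) (c x)} with hJ
  obtain ⟨a, ha, hma⟩ := hmass δ₀ hδ₀
  obtain ⟨δ, hδ, hδκ⟩ : ∃ δ : ℝ≥0, 0 < δ ∧ (δ : ℝ) < κ :=
    ⟨(κ / 2).toNNReal, by simpa using hκ, by rw [Real.coe_toNNReal _ (by linarith)]; linarith⟩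
  have hyδ : y + δ < L := by linarith
  set g : ℝ≥0 := min η (2 * δ) with hg
  have hgpos : 0 < g := lt_min hη (by positivity)
  set f : ℕ → D.Ω → ℝ≥0∞ := fun m ω => ∫⁻ H, hit (P ω) H ∂(D.h m) with hf
  have hfm : ∀ m, Measurable (f m) := fun m =>
    (measurable_hit_prod (P := P) hF.meas (fun ω => (hF.lip ω).continuous)).lintegral_prod_right'
  have hεt : Tendsto D.ε atTop (𝓝 0) := ENNReal.tendsto_atTop_zero_of_tsum_ne_top D.ε_sum
  have hSt : Tendsto (fun m => D.h m (c '' Icc y (y + δ))) atTop (𝓝 0) := by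
    refine tendsto_of_tendsto_of_tendsto_of_le_of_le tendsto_const_nhds hzero
      (fun m => zero_le) (fun m => measure_mono (image_mono ?_))
    intro z hz
    exact ⟨hz.1, hz.2.trans_lt (by linarith)⟩
  -- the main inequality for every `Θ`
  have hmain : ∀ Θ : ℝ≥0, 0 < Θ →
      (D.v : ℝ≥0∞) + g * a * μ J ≤ (1 + D.C / Θ) * D.v := by
    intro Θ hΘ
    have hΘ' : (Θ : ℝ≥0∞) ≠ 0 := by simpa using hΘ.ne'
    have hρ : (1 + D.C / Θ : ℝ≥0∞) ≠ ∞ :=
      ENNReal.add_ne_top.2 ⟨ENNReal.one_ne_top, ENNReal.div_ne_top ENNReal.coe_ne_top hΘ'⟩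
    have hlim : Tendsto (fun m => (1 + D.C / Θ : ℝ≥0∞) * (D.v + D.ε m) +
        ((Θ + D.C) * D.h m (c '' Icc y (y + δ)) + D.ε m)) atTop
        (𝓝 ((1 + D.C / Θ : ℝ≥0∞) * (D.v + 0) + ((Θ + D.C) * 0 + 0))) := by
      refine (ENNReal.Tendsto.const_mul (tendsto_const_nhds.add hεt) (Or.inr hρ)).add
        ((ENNReal.Tendsto.const_mul hSt (Or.inr ?_)).add hεt)
      exact ENNReal.add_ne_top.2 ⟨ENNReal.coe_ne_top, ENNReal.coe_ne_top⟩
    simp only [add_zero, mul_zero] at hlim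
    refine ge_of_tendsto hlim ?_
    filter_upwards [hma] with m hm
    have hle : (fun _ => (D.v : ℝ≥0∞)) ≤ᵐ[μ] fun ω => (1 + D.C / Θ) * f m ω +
        ((Θ + D.C) * D.h m (c '' Icc y (y + δ)) + D.ε m) := by
      refine ae_of_all _ fun ω => ?_
      refine (D.F3 m (P ω) (hF.lip ω) (hF.start ω)).trans ?_
      refine add_le_add ?_ le_add_self
      calc f m ω = 1 * f m ω := (one_mul _).symm
        _ ≤ _ := by gcongr; exact le_self_add
    have hmeas : Measurable fun ω => (1 + D.C / Θ) * f m ω +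
        ((Θ + D.C) * D.h m (c '' Icc y (y + δ)) + D.ε m) :=
      ((hfm m).const_mul _).add_const _
    have h1 := lintegral_add_mul_meas_add_le_le_lintegral hle hmeas.aemeasurable
      (g * D.h m (c '' Ioo (y - δ₀) y))
    rw [lintegral_const, measure_univ, mul_one, lintegral_add_right _ measurable_const,
      lintegral_const_mul _ (hfm m), lintegral_const, measure_univ, mul_one] at h1
    have h2 : μ J ≤ μ {ω | (D.v : ℝ≥0∞) + g * D.h m (c '' Ioo (y - δ₀) y) ≤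
        (1 + D.C / Θ) * f m ω + ((Θ + D.C) * D.h m (c '' Icc y (y + δ)) + D.ε m)} := by
      refine measure_mono fun ω hω => ?_
      exact turn_point hA (hF.lip ω) (hF.start ω) hy hδ hyδ hδ₀ hη hω.1 hω.2 hΘ m
    calc (D.v : ℝ≥0∞) + g * a * μ J ≤ D.v + g * D.h m (c '' Ioo (y - δ₀) y) *
        μ {ω | (D.v : ℝ≥0∞) + g * D.h m (c '' Ioo (y - δ₀) y) ≤
        (1 + D.C / Θ) * f m ω + ((Θ + D.C) * D.h m (c '' Icc y (y + δ)) + D.ε m)} := by gcongr
      _ ≤ _ := h1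
      _ ≤ _ := by
        gcongr
        exact hF.int m
  by_contra hne
  have hw : g * a * μ J ≠ ∞ := ENNReal.mul_ne_top
    (ENNReal.mul_ne_top ENNReal.coe_ne_top ENNReal.coe_ne_top) (measure_ne_top μ J)
  have hw0 : g * a * μ J ≠ 0 := mul_ne_zero (mul_ne_zero (by simpa using hgpos.ne')
    (by simpa using ha.ne')) hne
  obtain ⟨w, hw'⟩ : ∃ w : ℝ≥0, (w : ℝ≥0∞) = g * a * μ J := ⟨_, ENNReal.coe_toNNReal hw⟩
  rw [← hw'] at hw0
  have hwpos : 0 < w := pos_iff_ne_zero.2 (by simpa using hw0)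
  set Θ : ℝ≥0 := (D.C * D.v + 1) / w with hΘdef
  have hΘ : 0 < Θ := by positivity
  have h3 := hmain Θ hΘ
  rw [← hw', ← ENNReal.coe_div hΘ.ne'] at h3
  have h4 : D.v + w ≤ (1 + D.C / Θ) * D.v := by exact_mod_cast h3
  rw [add_mul, one_mul] at h4
  have h5 : w ≤ D.C / Θ * D.v := by
    exact (add_le_add_iff_left D.v).1 h4
  have h6 : w * Θ ≤ D.C * D.v := by
    calc w * Θ ≤ D.C / Θ * D.v * Θ := by gcongr
      _ = D.C * D.v := by field_simp
  rw [hΘdef, mul_div_cancel₀ _ hwpos.ne'] at h6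
  exact absurd h6 (not_le.2 (lt_add_one _))

/-- T7: almost no path turns at `c y` coming from the right -/
theorem turn_null (hA : D.Arc c L) {μ : Measure D.Ω} {P : D.Ω → ℝ≥0 → Q} (hF : D.Fam μ P)
    {y κ : ℝ} (hy : y ∈ Ioo 0 L) (hκ : 0 < κ) (hyκ : y + κ ≤ L)
    (hzero : Tendsto (fun m => D.h m (c '' Ico y (y + κ))) atTop (𝓝 0))
    (hmass : ∀ δ ∈ Ioo 0 y, ∃ a : ℝ≥0, 0 < a ∧ ∀ᶠ m in atTop,
      (a : ℝ≥0∞) ≤ D.h m (c '' Ioo (y - δ) y))
    (hfin : ∀ᵐ ω ∂μ, hit (P ω) (c y) ≠ ∞) :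
    ∀ᵐ ω ∂μ, ∀ δ ∈ Ioo 0 y, ∀ η : ℝ≥0, 0 < η →
      ∃ x ∈ Ioo (y - δ) y, hit (P ω) (c x) < hit (P ω) (c y) + η := by
  have h1 : ∀ n : ℕ, ∀ᵐ ω ∂μ, ¬ (hit (P ω) (c y) ≠ ∞ ∧
      ∀ x ∈ Ioo (y - y / (n + 2)) y, hit (P ω) (c y) + ((1 / (n + 1 : ℝ≥0) : ℝ≥0) : ℝ≥0∞) ≤
        hit (P ω) (c x)) := by
    intro n
    rw [ae_iff]
    simp only [not_not]
    refine turn_set hA hF hy hκ hyκ hzero hmass ⟨?_, ?_⟩ (by positivity)
    · have := hy.1; positivity
    · rw [div_lt_iff₀ (by positivity)]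
      nlinarith [hy.1, (Nat.cast_nonneg n : (0 : ℝ) ≤ n)]
  filter_upwards [ae_all_iff.2 h1, hfin] with ω hω hω'
  intro δ hδ η hη
  obtain ⟨n, hn⟩ : ∃ n : ℕ, y / (n + 2) ≤ δ ∧ 1 / (n + 1 : ℝ≥0) ≤ η := by
    obtain ⟨n₁, hn₁⟩ := exists_nat_gt (y / δ)
    obtain ⟨n₂, hn₂⟩ := exists_nat_gt (1 / η)
    refine ⟨n₁ + n₂, ?_, ?_⟩
    · rw [div_le_iff₀ (by positivity)]
      rw [div_lt_iff₀ hδ.1] at hn₁
      push_cast
      nlinarith [hδ.1, (Nat.cast_nonneg n₂ : (0 : ℝ) ≤ n₂)]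
    · rw [div_le_iff₀ (by positivity)]
      rw [div_lt_iff₀ hη] at hn₂
      push_cast
      calc (1 : ℝ≥0) ≤ n₂ * η := hn₂.le
        _ = η * n₂ := mul_comm _ _
        _ ≤ η * ((n₁ : ℝ≥0) + n₂ + 1) := by
          gcongr
          rw [add_right_comm]
          exact le_add_self
  have h2 := hω n
  push Not at h2
  obtain ⟨x, hx, hx'⟩ := h2 hω'
  refine ⟨x, ⟨by linarith [hx.1, hn.1], hx.2⟩, hx'.trans_le ?_⟩
  gcongr
  exact hn.2

end Core

end Pool.Agent.Gal
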