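import Pool.Agent.Helper77.Gal.CoreDefs

/-!
# T8: the detour inequality
-/

open Set MeasureTheory Filter Topology
open scoped ENNReal NNReal

namespace Pool.Agent.Gal

set_option linter.unusedSectionVars false

namespace Tip8

/-- height of the detour at time `t` -/
noncomputable def ht (δ : ℝ) (t : ℝ) : ℝ := max (δ - |δ - t|) 0

theorem ht_nonneg (δ t : ℝ) : 0 ≤ ht δ t := le_max_right _ _

theorem ht_le {δ : ℝ} (hδ : 0 ≤ δ) (t : ℝ) : ht δ t ≤ δ :=
  max_le (by linarith [abs_nonneg (δ - t)]) hδ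

theorem ht_sub_le (δ s t : ℝ) : |ht δ s - ht δ t| ≤ |s - t| := by
  unfold ht
  refine (abs_max_sub_max_le_abs _ _ _).trans ?_
  rw [show (δ - |δ - s|) - (δ - |δ - t|) = -(|δ - s| - |δ - t|) by ring, abs_neg]
  refine (abs_abs_sub_abs_le _ _).trans (le_of_eq ?_)
  rw [show δ - s - (δ - t) = -(s - t) by ring, abs_neg]

theorem ht_eq {δ t : ℝ} (h0 : 0 ≤ t) (h1 : t ≤ δ) : ht δ t = t := by
  unfold ht
  rw [abs_of_nonneg (by linarith), max_eq_left (by linarith)]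
  ring

theorem ht_two {δ : ℝ} (hδ : 0 ≤ δ) : ht δ (2 * δ) = 0 := by
  unfold ht
  rw [show δ - 2 * δ = -δ by ring, abs_neg, abs_of_nonneg hδ]
  simp

variable {Q : Type} [MetricSpace Q] {c : ℝ → Q} {L : ℝ}

/-- the detour path -/
noncomputable def det (c : ℝ → Q) (y δ : ℝ) : ℝ≥0 → Q := fun t => c (y - ht δ t)

theorem det_lip (hc : IsChart c L) {y δ : ℝ} (hy : y ∈ Ioo 0 L) (hδ : 0 < δ) (hδy : δ < y) :
    LipschitzWith 1 (det c y δ) := by
  refine LipschitzWith.of_dist_le_mul fun s t => ?_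
  have hmem : ∀ u : ℝ, y - ht δ u ∈ Icc 0 L := fun u =>
    ⟨by linarith [ht_le hδ.le u], by linarith [ht_nonneg δ u, hy.2]⟩
  have h1 := hc.lip _ (hmem s) _ (hmem t)
  rw [show y - ht δ s - (y - ht δ t) = -(ht δ s - ht δ t) by ring, abs_neg] at h1
  have h2 := ht_sub_le δ s t
  rw [NNReal.dist_eq, NNReal.coe_one, one_mul]
  exact h1.trans h2

omit [MetricSpace Q] in
theorem det_zero {y δ : ℝ} (hδ : 0 < δ) : det c y δ 0 = c y := by
  simp only [det, NNReal.coe_zero]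
  rw [ht_eq le_rfl hδ.le, sub_zero]

omit [MetricSpace Q] in
theorem det_two {y : ℝ} (δ : ℝ≥0) : det c y δ (2 * δ) = c y := by
  simp only [det, NNReal.coe_mul, NNReal.coe_ofNat]
  rw [ht_two δ.coe_nonneg, sub_zero]

/-- the path with the detour -/
noncomputable def pp (c : ℝ → Q) (y : ℝ) (δ : ℝ≥0) (p : ℝ≥0 → Q) (τ : ℝ≥0) : ℝ≥0 → Q :=
  glue p τ (glue (det c y δ) (2 * δ) (shift p τ))

variable {y : ℝ} {δ τ : ℝ≥0} {p : ℝ≥0 → Q}

theorem pp_lip (hc : IsChart c L) (hy : y ∈ Ioo 0 L) (hδ : 0 < δ) (hδy : (δ : ℝ) < y)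
    (hp : LipschitzWith 1 p) (hτ : p τ = c y) : LipschitzWith 1 (pp c y δ p τ) := by
  refine glue_lip hp (glue_lip (det_lip hc hy (NNReal.coe_pos.2 hδ) hδy) (shift_lip hp τ) ?_) ?_
  · rw [det_two, shift_zero', hτ]
  · rw [glue_zero, det_zero (NNReal.coe_pos.2 hδ), hτ]

theorem hit_pp_le (hδ : 0 < δ) (hp : LipschitzWith 1 p) (hτ : p τ = c y) (H : Q) :
    hit (pp c y δ p τ) H ≤ hit p H + 2 * δ := by
  rcases le_total (hit p H) τ with h | h
  · exact (hit_glue_le_left hp.continuous h).trans le_self_add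
  · have h1 : hit (pp c y δ p τ) H ≤ τ + hit (glue (det c y δ) (2 * δ) (shift p τ)) H :=
      hit_glue_le (by rw [glue_zero, det_zero (NNReal.coe_pos.2 hδ), hτ]) H
    have h2 : hit (glue (det c y δ) (2 * δ) (shift p τ)) H ≤ (2 * δ : ℝ≥0) + hit (shift p τ) H :=
      hit_glue_le (by rw [det_two, shift_zero', hτ]) H
    calc hit (pp c y δ p τ) H ≤ τ + ((2 * δ : ℝ≥0) + hit (shift p τ) H) := by
          refine h1.trans ?_
          gcongr
      _ = (τ + hit (shift p τ) H) + 2 * δ := by push_cast; ring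
      _ = hit p H + 2 * δ := by rw [← hit_shift h]

theorem hit_pp_add_le (hδ : 0 < δ) (hp : LipschitzWith 1 p) (hτ : p τ = c y) {H : Q}
    (hH : H ∈ c '' Ioo (y - δ) y) :
    hit (pp c y δ p τ) H + (hit p H - τ) ≤ hit p H + δ := by
  rcases le_total (hit p H) τ with h | h
  · rw [tsub_eq_zero_of_le h, add_zero]
    exact (hit_glue_le_left hp.continuous h).trans le_self_add
  · obtain ⟨x, hx, rfl⟩ := hH
    have h1 : hit (pp c y δ p τ) (c x) ≤
        τ + hit (glue (det c y δ) (2 * δ) (shift p τ)) (c x) :=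
      hit_glue_le (by rw [glue_zero, det_zero (NNReal.coe_pos.2 hδ), hτ]) _
    have hyx : 0 ≤ y - x := by linarith [hx.2]
    have hyx' : y - x ≤ δ := by linarith [hx.1]
    have h2 : hit (glue (det c y δ) (2 * δ) (shift p τ)) (c x) ≤ δ := by
      have h3 : glue (det c y δ) (2 * δ) (shift p τ) (y - x).toNNReal = c x := by
        rw [glue_of_le]
        · simp only [det, Real.coe_toNNReal _ hyx]
          rw [ht_eq hyx hyx', sub_sub_cancel]
        · rw [← NNReal.coe_le_coe, Real.coe_toNNReal _ hyx]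
          push_cast
          linarith
      refine (hit_le h3).trans ?_
      exact ENNReal.coe_le_coe.2 (by rw [← NNReal.coe_le_coe, Real.coe_toNNReal _ hyx]; exact hyx')
    calc hit (pp c y δ p τ) (c x) + (hit p (c x) - τ) ≤ (τ + δ) + (hit p (c x) - τ) := by
          gcongr
          refine h1.trans ?_
          gcongr
      _ = (τ + (hit p (c x) - τ)) + δ := by ring
      _ = hit p (c x) + δ := by rw [add_tsub_cancel_of_le h]

end Tip8

namespace Core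

variable {Q : Type} [MetricSpace Q] [CompactSpace Q] [MeasurableSpace Q] [BorelSpace Q]
  {D : Core Q} {c : ℝ → Q} {L : ℝ}

open Tip8

/-- pointwise version of the detour inequality -/
theorem detour_point (hA : D.Arc c L) {p : ℝ≥0 → Q} (hp : LipschitzWith 1 p) (h0 : p 0 = D.A)
    {y : ℝ} (hy : y ∈ Ioo 0 L) {δ : ℝ≥0} (hδ : 0 < δ) (hδy : (δ : ℝ) < y)
    (hfin : hit p (c y) ≠ ∞) (m : ℕ) :
    (∫⁻ H in c '' Ioo (y - δ) y, (hit p H - hit p (c y)) ∂(D.h m)) + D.v ≤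
      ∫⁻ H, hit p H ∂(D.h m) + (2 * δ + D.ε m) := by
  obtain ⟨τ, hτ, hτ'⟩ := exists_hit hp.continuous hfin
  have hI : MeasurableSet (c '' Ioo (y - δ) y) :=
    (hA.chart.isOpen_image (by linarith) hy.2.le).measurableSet
  have h1 := D.F3 m (pp c y δ p τ) (pp_lip hA.chart hy hδ hδy hp hτ') (by
    rw [pp, glue_zero, h0])
  have hmeas : Measurable (hit (pp c y δ p τ)) :=
    measurable_hit (pp_lip hA.chart hy hδ hδy hp hτ').continuous
  rw [hτ, ← lintegral_indicator hI]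
  calc (∫⁻ H, (c '' Ioo (y - δ) y).indicator (fun H => hit p H - (τ : ℝ≥0∞)) H ∂(D.h m)) + D.v
      ≤ (∫⁻ H, (c '' Ioo (y - δ) y).indicator (fun H => hit p H - (τ : ℝ≥0∞)) H ∂(D.h m)) +
        (∫⁻ H, hit (pp c y δ p τ) H ∂(D.h m) + D.ε m) := by gcongr
    _ = ∫⁻ H, (hit (pp c y δ p τ) H +
        (c '' Ioo (y - δ) y).indicator (fun H => hit p H - (τ : ℝ≥0∞)) H) ∂(D.h m) + D.ε m := by
        rw [lintegral_add_left hmeas]
        ring
    _ ≤ ∫⁻ H, (hit p H + 2 * δ) ∂(D.h m) + D.ε m := by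
        refine add_le_add (lintegral_mono fun H => ?_) le_rfl
        by_cases hH : H ∈ c '' Ioo (y - δ) y
        · rw [indicator_of_mem hH]
          refine (hit_pp_add_le hδ hp hτ' hH).trans ?_
          gcongr
          rw [two_mul]
          exact le_self_add
        · rw [indicator_of_notMem hH, add_zero]
          exact hit_pp_le hδ hp hτ' H
    _ = ∫⁻ H, hit p H ∂(D.h m) + (2 * δ + D.ε m) := by
        rw [lintegral_add_right _ measurable_const, lintegral_const, measure_univ, mul_one,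
          add_assoc]

/-- T8: the detour inequality -/
theorem detour (hA : D.Arc c L) {μ : Measure D.Ω} {P : D.Ω → ℝ≥0 → Q} (hF : D.Fam μ P)
    {y : ℝ} (hy : y ∈ Ioo 0 L) {δ : ℝ≥0} (hδ : 0 < δ) (hδy : (δ : ℝ) < y) {B : Set D.Ω}
    (hB : MeasurableSet B) (hfin : ∀ᵐ ω ∂μ, hit (P ω) (c y) ≠ ∞) (m : ℕ) :
    ∫⁻ ω in B, ∫⁻ H in c '' Ioo (y - δ) y, (hit (P ω) H - hit (P ω) (c y)) ∂(D.h m) ∂μ ≤
      δ * D.h m (c '' Ioo (y - δ) y) + 2 * δ * μ B + 3 * D.ε m := by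
  have hprob := hF.prob
  set g : D.Ω → ℝ≥0∞ := fun ω =>
    ∫⁻ H in c '' Ioo (y - δ) y, (hit (P ω) H - hit (P ω) (c y)) ∂(D.h m) with hg
  set f : D.Ω → ℝ≥0∞ := fun ω => ∫⁻ H, hit (P ω) H ∂(D.h m) with hf
  have h1 : (∫⁻ ω in B, g ω ∂μ) + D.v * μ B ≤ ∫⁻ ω in B, f ω ∂μ + (2 * δ + D.ε m) * μ B := by
    have e1 : (∫⁻ ω in B, g ω ∂μ) + D.v * μ B = ∫⁻ ω in B, (g ω + D.v) ∂μ := by
      rw [lintegral_add_right _ measurable_const, setLIntegral_const]
    have e2 : ∫⁻ ω in B, f ω ∂μ + (2 * δ + D.ε m) * μ B =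
        ∫⁻ ω in B, (f ω + (2 * δ + D.ε m)) ∂μ := by
      rw [lintegral_add_right _ measurable_const, setLIntegral_const]
    rw [e1, e2]
    refine lintegral_mono_ae (ae_restrict_of_ae ?_)
    filter_upwards [hfin] with ω hω
    exact detour_point hA (hF.lip ω) (hF.start ω) hy hδ hδy hω m
  have h2 : D.v * μ Bᶜ ≤ ∫⁻ ω in Bᶜ, f ω ∂μ + D.ε m * μ Bᶜ := by
    have e1 : D.v * μ Bᶜ = ∫⁻ ω in Bᶜ, (D.v : ℝ≥0∞) ∂μ := by rw [setLIntegral_const]
    have e2 : ∫⁻ ω in Bᶜ, f ω ∂μ + D.ε m * μ Bᶜ = ∫⁻ ω in Bᶜ, (f ω + D.ε m) ∂μ := by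
      rw [lintegral_add_right _ measurable_const, setLIntegral_const]
    rw [e1, e2]
    exact lintegral_mono fun ω => D.F3 m (P ω) (hF.lip ω) (hF.start ω)
  have h3 : (∫⁻ ω in B, f ω ∂μ) + ∫⁻ ω in Bᶜ, f ω ∂μ = ∫⁻ ω, f ω ∂μ := lintegral_add_compl f hB
  have h4 : ∫⁻ ω, f ω ∂μ ≤ D.v + D.ε m := hF.int m
  have h5 : μ B + μ Bᶜ = 1 := by rw [measure_add_measure_compl hB, measure_univ]
  have h6 : (∫⁻ ω in B, g ω ∂μ) + D.v ≤ (2 * δ * μ B + 2 * D.ε m) + D.v := by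
    calc (∫⁻ ω in B, g ω ∂μ) + D.v = ((∫⁻ ω in B, g ω ∂μ) + D.v * μ B) + D.v * μ Bᶜ := by
          rw [add_assoc, ← mul_add, h5, mul_one]
      _ ≤ (∫⁻ ω in B, f ω ∂μ + (2 * δ + D.ε m) * μ B) + (∫⁻ ω in Bᶜ, f ω ∂μ + D.ε m * μ Bᶜ) :=
          add_le_add h1 h2
      _ = ((∫⁻ ω in B, f ω ∂μ) + ∫⁻ ω in Bᶜ, f ω ∂μ) + 2 * δ * μ B + D.ε m * (μ B + μ Bᶜ) := by
          ring
      _ ≤ (D.v + D.ε m) + 2 * δ * μ B + D.ε m := by
          rw [h3, h5, mul_one]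
          gcongr
      _ = (2 * δ * μ B + 2 * D.ε m) + D.v := by ring
  have h7 : (∫⁻ ω in B, g ω ∂μ) ≤ 2 * δ * μ B + 2 * D.ε m :=
    (ENNReal.add_le_add_iff_right ENNReal.coe_ne_top).1 h6
  refine h7.trans ?_
  calc 2 * δ * μ B + 2 * D.ε m ≤ 0 + 2 * δ * μ B + 3 * D.ε m := by
        rw [zero_add]
        gcongr
        norm_num
    _ ≤ _ := by gcongr; exact zero_le

end Core

end Pool.Agent.Gal
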