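import Pool.Agent.Helper77.Gal.Geo4
import Pool.Agent.Helper77.Gal.Meas
import Pool.Agent.Helper77.Gal.Tip8

/-!
# T9: average of the capture time near a point (module GAL-T9)
-/

open Set MeasureTheory Filter Topology
open scoped ENNReal NNReal

namespace Pool.Agent.Gal

set_option linter.unusedSectionVars false

namespace Core

variable {Q : Type} [MetricSpace Q] [CompactSpace Q] [MeasurableSpace Q] [BorelSpace Q]
  {D : Core Q} {c : ℝ → Q} {L : ℝ}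

/-- the bad set: some point of the left neighbourhood is visited late -/
def Late (c : ℝ → Q) (P : D.Ω → ℝ≥0 → Q) (y : ℝ) (η : ℝ≥0) (δ : ℝ) : Set D.Ω :=
  ⋃ q : ℚ, {ω | (q : ℝ) ∈ Ioo (y - δ) y ∧ hit (P ω) (c y) + η < hit (P ω) (c q)}

theorem measurable_hit_pt {μ : Measure D.Ω} {P : D.Ω → ℝ≥0 → Q} (hF : D.Fam μ P) (H : Q) :
    Measurable fun ω => hit (P ω) H :=
  (measurable_hit_prod hF.meas fun ω => (hF.lip ω).continuous).comp
    (measurable_id.prodMk measurable_const)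

theorem measurableSet_late {μ : Measure D.Ω} {P : D.Ω → ℝ≥0 → Q} (hF : D.Fam μ P) (y : ℝ)
    (η : ℝ≥0) (δ : ℝ) : MeasurableSet (Late c P y η δ) := by
  refine MeasurableSet.iUnion fun q => ?_
  by_cases hq : (q : ℝ) ∈ Ioo (y - δ) y
  · simp only [hq, true_and]
    exact measurableSet_lt ((measurable_hit_pt hF _).add measurable_const) (measurable_hit_pt hF _)
  · simp only [hq, false_and]
    exact MeasurableSet.empty

theorem late_mono {P : D.Ω → ℝ≥0 → Q} {y : ℝ} {η : ℝ≥0} {δ δ' : ℝ} (h : δ ≤ δ') :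
    Late c P y η δ ⊆ Late c P y η δ' :=
  iUnion_mono fun _ _ hω => ⟨⟨by linarith [hω.1.1], hω.1.2⟩, hω.2⟩

/-- outside the bad set all points of the left neighbourhood are visited soon -/
theorem le_of_notMem_late (hA : D.Arc c L) {μ : Measure D.Ω} {P : D.Ω → ℝ≥0 → Q}
    (hF : D.Fam μ P) {y : ℝ} (hy : y ∈ Ioo 0 L) {η : ℝ≥0} {δ : ℝ} (hδy : δ < y) {ω : D.Ω}
    (hω : ω ∉ Late c P y η δ) {x : ℝ} (hx : x ∈ Ioo (y - δ) y) :
    hit (P ω) (c x) ≤ hit (P ω) (c y) + η := by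
  by_contra hcon
  push Not at hcon
  have hx0 : x ∈ Ioo 0 L := ⟨by linarith [hx.1], hx.2.trans hy.2⟩
  have hcont : ContinuousAt c x := hA.chart.continuousOn.continuousAt (Icc_mem_nhds hx0.1 hx0.2)
  have hlsc := lowerSemicontinuous_hit (hF.lip ω).continuous (c x) _ hcon
  have hev : ∀ᶠ x' in 𝓝 x, hit (P ω) (c y) + η < hit (P ω) (c x') := hcont.eventually hlsc
  have hev2 : ∀ᶠ x' in 𝓝 x, x' ∈ Ioo (y - δ) y := Ioo_mem_nhds hx.1 hx.2
  obtain ⟨U, hU, hUo, hxU⟩ := _root_.mem_nhds_iff.1 (hev.and hev2)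
  obtain ⟨q, hq⟩ := Rat.denseRange_cast.exists_mem_open hUo ⟨x, hxU⟩
  exact hω (mem_iUnion.2 ⟨q, (hU hq).2, (hU hq).1⟩)

/-- the bad sets have small measure -/
theorem exists_late_small (hA : D.Arc c L) {μ : Measure D.Ω} {P : D.Ω → ℝ≥0 → Q}
    (hF : D.Fam μ P) {y : ℝ} (hy : y ∈ Ioo 0 L) (hfin : ∀ᵐ ω ∂μ, hit (P ω) (c y) ≠ ∞)
    (hturn : ∀ᵐ ω ∂μ, ∀ δ ∈ Ioo 0 y, ∀ η : ℝ≥0, 0 < η →
      ∃ x ∈ Ioo (y - δ) y, hit (P ω) (c x) < hit (P ω) (c y) + η)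
    {η : ℝ≥0} (hη : 0 < η) {r : ℝ≥0∞} (hr : 0 < r) :
    ∃ δ₀ : ℝ, 0 < δ₀ ∧ μ (Late c P y η δ₀) < r := by
  have := hF.prob
  let d : ℕ → ℝ := fun k => y / ((k : ℝ) + 2)
  have hd0 : ∀ k, 0 < d k := fun k => div_pos hy.1 (by positivity)
  have hanti : Antitone d := by
    intro i j hij
    have : (i : ℝ) ≤ j := by exact_mod_cast hij
    exact div_le_div_of_nonneg_left hy.1.le (by positivity) (by linarith)
  have hlim : Tendsto d atTop (𝓝 0) := by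
    have h1 : Tendsto (fun k : ℕ => (k : ℝ) + 2) atTop atTop :=
      tendsto_atTop_add_const_right _ _ tendsto_natCast_atTop_atTop
    exact h1.const_div_atTop y
  have hnull : μ (⋂ k, Late c P y η (d k)) = 0 := by
    rw [← compl_compl (⋂ k, Late c P y η (d k))]
    change (⋂ k, Late c P y η (d k))ᶜ ∈ ae μ
    filter_upwards [hfin, hturn] with ω h1 h2
    obtain ⟨τ, hτ, -⟩ := exists_hit (hF.lip ω).continuous h1
    simp only [hτ] at h2
    obtain ⟨δ, hδ, hall⟩ := nearby hA.chart (hF.lip ω) hy hτ h2 η hη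
    intro hmem
    obtain ⟨k, hk⟩ := (hlim.eventually (gt_mem_nhds hδ.1)).exists
    obtain ⟨q, hq, hq'⟩ := mem_iUnion.1 (mem_iInter.1 hmem k)
    have h3 := hall q ⟨by linarith [hq.1], hq.2⟩
    rw [hτ] at hq'
    exact absurd h3 (not_le.2 hq')
  have ht := tendsto_measure_iInter_atTop (μ := μ) (s := fun k => Late c P y η (d k))
    (fun k => (measurableSet_late hF y η (d k)).nullMeasurableSet)
    (fun i j hij => late_mono (hanti hij)) ⟨0, measure_ne_top _ _⟩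
  rw [hnull] at ht
  obtain ⟨k, hk⟩ := (ht.eventually (gt_mem_nhds hr)).exists
  exact ⟨d k, hd0 k, hk⟩

/-- T9: the average of the capture time over the left neighbourhood of `c y` is at most the capture
time of `c y`, up to an error which is small compared with the mass -/
theorem average_le (hA : D.Arc c L) {μ : Measure D.Ω} {P : D.Ω → ℝ≥0 → Q} (hF : D.Fam μ P)
    {y : ℝ} (hy : y ∈ Ioo 0 L) (hfin : ∀ᵐ ω ∂μ, hit (P ω) (c y) ≠ ∞)
    (hturn : ∀ᵐ ω ∂μ, ∀ δ ∈ Ioo 0 y, ∀ η : ℝ≥0, 0 < η →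
      ∃ x ∈ Ioo (y - δ) y, hit (P ω) (c x) < hit (P ω) (c y) + η)
    {η : ℝ≥0} (hη : 0 < η) :
    ∃ δ₀ : ℝ≥0, 0 < δ₀ ∧ (δ₀ : ℝ) < y ∧ ∀ δ : ℝ≥0, 0 < δ → δ ≤ δ₀ → ∀ m,
      ∫⁻ H in c '' Ioo (y - δ) y, ∫⁻ ω, hit (P ω) H ∂μ ∂(D.h m) ≤
        (∫⁻ ω, hit (P ω) (c y) ∂μ + η) * D.h m (c '' Ioo (y - δ) y) + η * δ + 3 * D.ε m := by
  have := hF.prob
  have hη2 : 0 < η / 2 := half_pos hη
  obtain ⟨δ₁, hδ₁, hδ₁'⟩ := exists_late_small hA hF hy hfin hturn hη2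
    (r := ((η / 2 : ℝ≥0) : ℝ≥0∞)) (by exact_mod_cast hη2)
  obtain ⟨δ₀, hδ₀, hδ₀'⟩ : ∃ r : ℝ, 0 < r ∧ r < min (min δ₁ (η / 2)) y :=
    exists_between (lt_min (lt_min hδ₁ (by exact_mod_cast hη2)) hy.1)
  have h0 : δ₀ < δ₁ := (lt_min_iff.1 (lt_min_iff.1 hδ₀').1).1
  have h00 : δ₀ < η / 2 := (lt_min_iff.1 (lt_min_iff.1 hδ₀').1).2
  have h000 : δ₀ < y := (lt_min_iff.1 hδ₀').2
  refine ⟨δ₀.toNNReal, Real.toNNReal_pos.2 hδ₀, by rwa [Real.coe_toNNReal _ hδ₀.le], ?_⟩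
  intro δ hδ hδδ m
  have hδ' : (δ : ℝ) ≤ δ₀ := by
    have := NNReal.coe_le_coe.2 hδδ
    rwa [Real.coe_toNNReal _ hδ₀.le] at this
  have hδy : (δ : ℝ) < y := hδ'.trans_lt h000
  set I : Set Q := c '' Ioo (y - δ) y with hI
  have hIm : MeasurableSet I :=
    (hA.chart.isOpen_image (by linarith) hy.2.le).measurableSet
  set B : Set D.Ω := Late c P y (η / 2) δ with hB
  have hBm : MeasurableSet B := measurableSet_late hF y _ _
  have hBμ : μ B ≤ ((η / 2 : ℝ≥0) : ℝ≥0∞) :=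
    (measure_mono (late_mono (hδ'.trans h0.le))).trans hδ₁'.le
  have hprod := measurable_hit_prod hF.meas fun ω => (hF.lip ω).continuous
  rw [lintegral_lintegral_swap (f := fun H ω => hit (P ω) H)
    (hprod.comp measurable_swap).aemeasurable]
  rw [← lintegral_add_compl _ hBm]
  -- the part outside `B`
  have hout : ∫⁻ ω in Bᶜ, ∫⁻ H in I, hit (P ω) H ∂(D.h m) ∂μ ≤
      ∫⁻ ω in Bᶜ, (hit (P ω) (c y) + (η / 2 : ℝ≥0)) * D.h m I ∂μ := by
    refine setLIntegral_mono' hBm.compl fun ω hω => ?_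
    calc ∫⁻ H in I, hit (P ω) H ∂(D.h m)
        ≤ ∫⁻ _ in I, (hit (P ω) (c y) + (η / 2 : ℝ≥0)) ∂(D.h m) := by
          refine setLIntegral_mono' hIm fun H hH => ?_
          obtain ⟨x, hx, rfl⟩ := hH
          exact le_of_notMem_late hA hF hy hδy hω hx
      _ = _ := by rw [lintegral_const, Measure.restrict_apply MeasurableSet.univ, univ_inter]
  -- the part on `B`
  have hin : ∫⁻ ω in B, ∫⁻ H in I, hit (P ω) H ∂(D.h m) ∂μ ≤
      ∫⁻ ω in B, hit (P ω) (c y) * D.h m I ∂μ +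
        (δ * D.h m I + 2 * δ * μ B + 3 * D.ε m) := by
    have hdet := detour hA hF hy hδ hδy hBm hfin m
    calc ∫⁻ ω in B, ∫⁻ H in I, hit (P ω) H ∂(D.h m) ∂μ
        ≤ ∫⁻ ω in B, (hit (P ω) (c y) * D.h m I +
            ∫⁻ H in I, (hit (P ω) H - hit (P ω) (c y)) ∂(D.h m)) ∂μ := by
          refine lintegral_mono fun ω => ?_
          calc ∫⁻ H in I, hit (P ω) H ∂(D.h m)
              ≤ ∫⁻ H in I, (hit (P ω) (c y) + (hit (P ω) H - hit (P ω) (c y))) ∂(D.h m) :=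
                lintegral_mono fun H => le_add_tsub
            _ = _ := by
                rw [lintegral_add_left measurable_const, lintegral_const,
                  Measure.restrict_apply MeasurableSet.univ, univ_inter]
      _ = ∫⁻ ω in B, hit (P ω) (c y) * D.h m I ∂μ +
            ∫⁻ ω in B, ∫⁻ H in I, (hit (P ω) H - hit (P ω) (c y)) ∂(D.h m) ∂μ :=
          lintegral_add_left ((measurable_hit_pt hF _).mul_const _) _
      _ ≤ _ := by gcongr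
  have hsum : ∫⁻ ω in B, hit (P ω) (c y) * D.h m I ∂μ +
      ∫⁻ ω in Bᶜ, hit (P ω) (c y) * D.h m I ∂μ = (∫⁻ ω, hit (P ω) (c y) ∂μ) * D.h m I := by
    rw [lintegral_add_compl _ hBm, lintegral_mul_const _ (measurable_hit_pt hF _)]
  have hout2 : ∫⁻ ω in Bᶜ, (hit (P ω) (c y) + (η / 2 : ℝ≥0)) * D.h m I ∂μ ≤
      ∫⁻ ω in Bᶜ, hit (P ω) (c y) * D.h m I ∂μ + (η / 2 : ℝ≥0) * D.h m I := by
    simp_rw [add_mul]
    rw [lintegral_add_left ((measurable_hit_pt hF _).mul_const _), lintegral_const]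
    refine add_le_add le_rfl ?_
    calc ((η / 2 : ℝ≥0) : ℝ≥0∞) * D.h m I * (μ.restrict Bᶜ) univ
        ≤ ((η / 2 : ℝ≥0) : ℝ≥0∞) * D.h m I * 1 := by
          gcongr
          rw [Measure.restrict_apply MeasurableSet.univ, univ_inter]
          exact prob_le_one
      _ = _ := mul_one _
  have hδη : (δ : ℝ≥0∞) ≤ (η / 2 : ℝ≥0) := by
    have : δ ≤ η / 2 := by
      rw [← NNReal.coe_le_coe]
      push_cast
      linarith
    exact_mod_cast this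
  calc ∫⁻ ω in B, ∫⁻ H in I, hit (P ω) H ∂(D.h m) ∂μ +
        ∫⁻ ω in Bᶜ, ∫⁻ H in I, hit (P ω) H ∂(D.h m) ∂μ
      ≤ (∫⁻ ω in B, hit (P ω) (c y) * D.h m I ∂μ + (δ * D.h m I + 2 * δ * μ B + 3 * D.ε m)) +
        (∫⁻ ω in Bᶜ, hit (P ω) (c y) * D.h m I ∂μ + (η / 2 : ℝ≥0) * D.h m I) :=
        add_le_add hin (hout.trans hout2)
    _ = (∫⁻ ω in B, hit (P ω) (c y) * D.h m I ∂μ + ∫⁻ ω in Bᶜ, hit (P ω) (c y) * D.h m I ∂μ) +
        (δ + (η / 2 : ℝ≥0)) * D.h m I + 2 * μ B * δ + 3 * D.ε m := by ring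
    _ ≤ (∫⁻ ω, hit (P ω) (c y) ∂μ) * D.h m I +
        ((η / 2 : ℝ≥0) + (η / 2 : ℝ≥0)) * D.h m I + 2 * (η / 2 : ℝ≥0) * δ + 3 * D.ε m := by
        rw [hsum]
        gcongr
    _ = _ := by
        have h2 : (((η / 2 : ℝ≥0) : ℝ≥0∞) + (η / 2 : ℝ≥0)) = η := by
          rw [← ENNReal.coe_add, add_halves]
        rw [two_mul ((η / 2 : ℝ≥0) : ℝ≥0∞), h2, add_mul]

end Core

end Pool.Agent.Gal
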