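import Pool.Agent.Helper77.Gal.Tip1
import Pool.Agent.Helper77.Gal.Tip4
import Pool.Agent.Helper77.Gal.Tip5
import Pool.Agent.Helper77.Gal.Tip6
import Pool.Agent.Helper77.Gal.Tip7
import Pool.Agent.Helper77.Gal.Tip9

/-!
# T10: tip exclusion
-/

open Set MeasureTheory Filter Topology
open scoped ENNReal NNReal

namespace Pool.Agent.Gal

namespace Core

variable {Q : Type} [MetricSpace Q] [CompactSpace Q] [MeasurableSpace Q] [BorelSpace Q]
  {D : Core Q} {c : ℝ → Q} {L : ℝ}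

/-- the mass of a set against `Φ` -/
theorem phi_int_set (D : Core Q) (m : ℕ) {I : Set Q} (hI : MeasurableSet I) :
    (2 * (D.v : ℝ≥0∞)) * D.h m I ≤ ∫⁻ H in I, D.Phi H ∂(D.h m) + 2 * D.ε m := by
  have h2v : (2 * (D.v : ℝ≥0∞)) ≠ ∞ := ENNReal.mul_ne_top ENNReal.ofNat_ne_top ENNReal.coe_ne_top
  have h1 := phi_int D m
  have h2 : ∫⁻ H', D.Phi H' ∂(D.h m) =
      ∫⁻ H' in I, D.Phi H' ∂(D.h m) + ∫⁻ H' in Iᶜ, D.Phi H' ∂(D.h m) :=
    (lintegral_add_compl _ hI).symm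
  have hae : ∀ᵐ H' ∂(D.h m), D.Phi H' ≤ 2 * D.v := by
    have : ∀ᵐ H' ∂(D.h m), H' ∈ D.R := by
      rw [ae_iff]
      exact D.hsupp m
    filter_upwards [this] with H' hH'
    exact D.F2 H' hH'
  have h4 : ∫⁻ H' in Iᶜ, D.Phi H' ∂(D.h m) ≤ 2 * D.v * D.h m Iᶜ := by
    calc ∫⁻ H' in Iᶜ, D.Phi H' ∂(D.h m) ≤ ∫⁻ _ in Iᶜ, 2 * (D.v : ℝ≥0∞) ∂(D.h m) :=
          lintegral_mono_ae (ae_restrict_of_ae hae)
      _ = 2 * D.v * D.h m Iᶜ := by rw [setLIntegral_const]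
  have h5 : D.h m I + D.h m Iᶜ = 1 := prob_add_prob_compl hI
  have h6 : 2 * (D.v : ℝ≥0∞) * D.h m Iᶜ ≠ ∞ :=
    ENNReal.mul_ne_top h2v (measure_ne_top _ _)
  have h7 : 2 * (D.v : ℝ≥0∞) * D.h m I + 2 * D.v * D.h m Iᶜ ≤
      (∫⁻ H in I, D.Phi H ∂(D.h m) + 2 * D.ε m) + 2 * D.v * D.h m Iᶜ := by
    rw [← mul_add, h5, mul_one]
    calc 2 * (D.v : ℝ≥0∞) ≤ ∫⁻ H, D.Phi H ∂(D.h m) + 2 * D.ε m := h1
      _ ≤ (∫⁻ H in I, D.Phi H ∂(D.h m) + 2 * D.v * D.h m Iᶜ) + 2 * D.ε m := by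
          rw [h2]
          gcongr
      _ = _ := by ring
  exact (ENNReal.add_le_add_iff_right h6).1 h7

theorem eps_ne_top (D : Core Q) (m : ℕ) : D.ε m ≠ ∞ :=
  ENNReal.ne_top_of_tsum_ne_top D.ε_sum m

/-- the heart of the tip exclusion -/
theorem no_tip (hA : D.Arc c L) {y κ : ℝ} (hy : y ∈ Ioo 0 L) (hκ : 0 < κ) (hyκ : y + κ ≤ L)
    (hpos : D.μ₁ {ω | D.Good ω ∧ D.Tip c y κ ω} ≠ 0) : False := by
  have h2v : (2 * (D.v : ℝ≥0∞)) ≠ ∞ := ENNReal.mul_ne_top ENNReal.ofNat_ne_top ENNReal.coe_ne_top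
  obtain ⟨ω₀, hω₀, ht₀⟩ : ({ω | D.Good ω ∧ D.Tip c y κ ω} : Set D.Ω).Nonempty := by
    by_contra hne
    rw [not_nonempty_iff_eq_empty] at hne
    exact hpos (by rw [hne, measure_empty])
  have hyR : c y ∈ D.R := hA.inR y ⟨hy.1.le, hy.2.le⟩
  have hphi : D.Phi (c y) < 2 * D.v := phi_lt hA hy hκ hyκ hpos
  have hpt : Tendsto (fun m => D.h m {c y}) atTop (𝓝 0) := point_mass hyR hphi
  have hgap : Tendsto (fun m => D.h m (c '' Ioo y (y + κ))) atTop (𝓝 0) := gap_mass hA hω₀ ht₀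
  have hzero : Tendsto (fun m => D.h m (c '' Ico y (y + κ))) atTop (𝓝 0) := by
    have h1 : Tendsto (fun m => D.h m {c y} + D.h m (c '' Ioo y (y + κ))) atTop (𝓝 (0 + 0)) :=
      hpt.add hgap
    rw [add_zero] at h1
    refine tendsto_of_tendsto_of_tendsto_of_le_of_le tendsto_const_nhds h1 (fun _ => zero_le)
      fun m => ?_
    refine (measure_mono ?_).trans (measure_union_le _ _)
    rintro _ ⟨x, hx, rfl⟩
    rcases hx.1.eq_or_lt with h | h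
    · left
      rw [← h]
      rfl
    · right
      exact ⟨x, ⟨h, hx.2⟩, rfl⟩
  -- mass of the left neighbourhoods
  set K : ℝ≥0 := 4 * (2 * D.v + 2 * D.C) with hK
  have hK0 : 0 < K := by
    have := D.C_pos
    positivity
  have hmassE : ∀ δ : ℝ≥0, 0 < δ → (δ : ℝ) < y → ∀ᶠ m in atTop,
      (δ : ℝ≥0∞) ≤ K * D.h m (c '' Ioo (y - δ) y) := by
    intro δ hδ hδy
    have h1 := tip_mass hA hω₀ hy hκ hyκ ht₀ hδ hδy
    have h2 : Tendsto (fun m => (K : ℝ≥0∞) * D.h m {c y}) atTop (𝓝 (K * 0)) :=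
      ENNReal.Tendsto.const_mul hpt (Or.inr ENNReal.coe_ne_top)
    rw [mul_zero] at h2
    have h3 : ∀ᶠ m in atTop, (K : ℝ≥0∞) * D.h m {c y} < δ :=
      h2.eventually_lt_const (by exact_mod_cast hδ)
    filter_upwards [h1, h3] with m hm1 hm3
    have h4 : D.h m (c '' Ioc (y - δ) y) ≤ D.h m (c '' Ioo (y - δ) y) + D.h m {c y} := by
      refine (measure_mono ?_).trans (measure_union_le _ _)
      rintro _ ⟨x, hx, rfl⟩
      rcases hx.2.eq_or_lt with h | h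
      · right
        rw [h]
        rfl
      · left
        exact ⟨x, ⟨hx.1, h⟩, rfl⟩
    have h5 : (2 : ℝ≥0∞) * δ ≤ K * D.h m (c '' Ioo (y - δ) y) + K * D.h m {c y} := by
      calc (2 : ℝ≥0∞) * δ ≤ 2 * (2 * (2 * D.v + 2 * D.C) * D.h m (c '' Ioc (y - δ) y)) := by
            gcongr
        _ = K * D.h m (c '' Ioc (y - δ) y) := by
            rw [hK]
            push_cast
            ring
        _ ≤ K * (D.h m (c '' Ioo (y - δ) y) + D.h m {c y}) := by gcongr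
        _ = _ := mul_add _ _ _
    have h6 : (δ : ℝ≥0∞) + δ ≤ K * D.h m (c '' Ioo (y - δ) y) + δ := by
      calc (δ : ℝ≥0∞) + δ = 2 * δ := (two_mul _).symm
        _ ≤ K * D.h m (c '' Ioo (y - δ) y) + K * D.h m {c y} := h5
        _ ≤ _ := by gcongr
    exact (ENNReal.add_le_add_iff_right ENNReal.coe_ne_top).1 h6
  have hmass : ∀ δ ∈ Ioo 0 y, ∃ a : ℝ≥0, 0 < a ∧ ∀ᶠ m in atTop,
      (a : ℝ≥0∞) ≤ D.h m (c '' Ioo (y - δ) y) := by
    intro δ hδ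
    have hδ0 : 0 < δ.toNNReal := Real.toNNReal_pos.2 hδ.1
    have hδc : ((δ.toNNReal : ℝ≥0) : ℝ) = δ := Real.coe_toNNReal _ hδ.1.le
    refine ⟨δ.toNNReal / K, by positivity, ?_⟩
    have h1 := hmassE δ.toNNReal hδ0 (by rw [hδc]; exact hδ.2)
    filter_upwards [h1] with m hm
    rw [hδc] at hm
    rw [ENNReal.coe_div hK0.ne', ENNReal.div_le_iff_le_mul
      (Or.inl (by exact_mod_cast hK0.ne')) (Or.inl ENNReal.coe_ne_top), mul_comm]
    exact hm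
  -- finiteness
  have hm₀ : ∀ H, Measurable fun ω => hit (D.P₀ ω) H := fun H =>
    (measurable_hit_prod D.meas₀ (fun ω => (D.lip₀ ω).continuous)).comp
      (measurable_id.prodMk measurable_const)
  have hm₁ : ∀ H, Measurable fun ω => hit (D.P₁ ω) H := fun H =>
    (measurable_hit_prod D.meas₁ (fun ω => (D.lip₁ ω).continuous)).comp
      (measurable_id.prodMk measurable_const)
  set φ₀ : ℝ≥0∞ := ∫⁻ ω, hit (D.P₀ ω) (c y) ∂D.μ₀ with hφ₀
  set φ₁ : ℝ≥0∞ := ∫⁻ ω, hit (D.P₁ ω) (c y) ∂D.μ₁ with hφ₁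
  have hφ : φ₀ + φ₁ ≤ D.Phi (c y) := by
    unfold Phi
    exact add_le_add le_rfl (lintegral_mono fun ω => le_self_add)
  have hφt : φ₀ + φ₁ < 2 * D.v := hφ.trans_lt hphi
  have hφ₀t : φ₀ ≠ ∞ := ((le_self_add.trans hφt.le).trans_lt h2v.lt_top).ne
  have hφ₁t : φ₁ ≠ ∞ := ((le_add_self.trans hφt.le).trans_lt h2v.lt_top).ne
  have hfin₀ : ∀ᵐ ω ∂D.μ₀, hit (D.P₀ ω) (c y) ≠ ∞ := by
    filter_upwards [ae_lt_top (hm₀ _) hφ₀t] with ω hω
    exact hω.ne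
  have hfin₁ : ∀ᵐ ω ∂D.μ₁, hit (D.P₁ ω) (c y) ≠ ∞ := by
    filter_upwards [ae_lt_top (hm₁ _) hφ₁t] with ω hω
    exact hω.ne
  have ht₀' := turn_null hA D.fam₀ hy hκ hyκ hzero hmass hfin₀
  have ht₁' := turn_null hA D.fam₁ hy hκ hyκ hzero hmass hfin₁
  -- real numbers
  set g : ℝ := 2 * D.v - (φ₀ + φ₁).toReal with hg
  have hφsum : φ₀ + φ₁ ≠ ∞ := (hφt.trans_le le_top).ne
  have hg0 : 0 < g := by
    have h1 : (φ₀ + φ₁).toReal < (2 * (D.v : ℝ≥0∞)).toReal :=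
      (ENNReal.toReal_lt_toReal hφsum h2v).2 hφt
    rw [ENNReal.toReal_mul] at h1
    simp only [ENNReal.toReal_ofNat, ENNReal.coe_toReal] at h1
    rw [hg]
    linarith
  have hKr : (0 : ℝ) < K := by exact_mod_cast hK0
  set η : ℝ≥0 := (min (g / 4) (g / (8 * K))).toNNReal with hη
  have hηr0 : 0 < min (g / 4) (g / (8 * K)) := by positivity
  have hη0 : 0 < η := Real.toNNReal_pos.2 hηr0
  have hηc : (η : ℝ) = min (g / 4) (g / (8 * K)) := Real.coe_toNNReal _ hηr0.le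
  have hη1 : (η : ℝ) ≤ g / 4 := hηc ▸ min_le_left _ _
  have hη2 : (η : ℝ) ≤ g / (8 * K) := hηc ▸ min_le_right _ _
  obtain ⟨δ₀, hδ₀, hδ₀y, hav₀⟩ := average_le hA D.fam₀ hy hfin₀ ht₀' hη0
  obtain ⟨δ₁, hδ₁, hδ₁y, hav₁⟩ := average_le hA D.fam₁ hy hfin₁ ht₁' hη0
  set δ : ℝ≥0 := min δ₀ δ₁ with hδ
  have hδ0 : 0 < δ := lt_min hδ₀ hδ₁
  have hδy : (δ : ℝ) < y := lt_of_le_of_lt (by exact_mod_cast min_le_left _ _) hδ₀y
  set I : Set Q := c '' Ioo (y - δ) y with hI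
  have hIm : MeasurableSet I :=
    (hA.chart.isOpen_image (by linarith) hy.2.le).measurableSet
  -- the inequality for every m
  have hmain : ∀ m, (2 * (D.v : ℝ≥0∞)) * D.h m I ≤
      (φ₀ + φ₁ + 2 * η) * D.h m I + 2 * η * δ + 10 * D.ε m := by
    intro m
    have e1 := phi_int_set D m hIm
    have e2 := hav₀ δ hδ0 (min_le_left _ _) m
    have e3 := hav₁ δ hδ0 (min_le_right _ _) m
    have hms : Measurable fun ω => (D.s ω : ℝ≥0∞) := measurable_coe_nnreal_ennreal.comp D.meas_s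
    have hmeas₁ := measurable_hit_prod D.meas₁ (fun ω => (D.lip₁ ω).continuous)
    have hmeas₀ := measurable_hit_prod D.meas₀ (fun ω => (D.lip₀ ω).continuous)
    have hset : MeasurableSet {z : D.Ω × Q | (D.s z.1 : ℝ≥0∞) < hit (D.P₁ z.1) z.2} :=
      measurableSet_lt (hms.comp measurable_fst) hmeas₁
    have e4 : ∫⁻ H in I, D.Phi H ∂(D.h m) ≤
        ∫⁻ H in I, ∫⁻ ω, hit (D.P₀ ω) H ∂D.μ₀ ∂(D.h m) +
        (∫⁻ H in I, ∫⁻ ω, hit (D.P₁ ω) H ∂D.μ₁ ∂(D.h m) + 2 * D.ε m) := by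
      have hsplit : ∀ H, D.Phi H = ∫⁻ ω, hit (D.P₀ ω) H ∂D.μ₀ +
          (∫⁻ ω, hit (D.P₁ ω) H ∂D.μ₁ +
            2 * (D.l : ℝ≥0∞) * D.μ₁ {ω | (D.s ω : ℝ≥0∞) < hit (D.P₁ ω) H}) := by
        intro H
        unfold Phi
        rw [lintegral_add_left (hm₁ H)]
        congr 2
        have hms2 : MeasurableSet {ω | (D.s ω : ℝ≥0∞) < hit (D.P₁ ω) H} :=
          measurableSet_lt hms (hm₁ H)
        have : (fun ω => if (D.s ω : ℝ≥0∞) < hit (D.P₁ ω) H then 2 * (D.l : ℝ≥0∞) else 0) =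
            {ω | (D.s ω : ℝ≥0∞) < hit (D.P₁ ω) H}.indicator (fun _ => 2 * (D.l : ℝ≥0∞)) := by
          funext ω
          rw [indicator_apply]
          rfl
        rw [this, lintegral_indicator hms2, setLIntegral_const]
      have hM0 : Measurable fun H => ∫⁻ ω, hit (D.P₀ ω) H ∂D.μ₀ := hmeas₀.lintegral_prod_left'
      have hM1 : Measurable fun H => ∫⁻ ω, hit (D.P₁ ω) H ∂D.μ₁ := hmeas₁.lintegral_prod_left'
      calc ∫⁻ H in I, D.Phi H ∂(D.h m) = ∫⁻ H in I, (∫⁻ ω, hit (D.P₀ ω) H ∂D.μ₀ +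
          (∫⁻ ω, hit (D.P₁ ω) H ∂D.μ₁ +
            2 * (D.l : ℝ≥0∞) * D.μ₁ {ω | (D.s ω : ℝ≥0∞) < hit (D.P₁ ω) H})) ∂(D.h m) :=
            lintegral_congr fun H => hsplit H
        _ = ∫⁻ H in I, ∫⁻ ω, hit (D.P₀ ω) H ∂D.μ₀ ∂(D.h m) +
            (∫⁻ H in I, ∫⁻ ω, hit (D.P₁ ω) H ∂D.μ₁ ∂(D.h m) +
              ∫⁻ H in I, 2 * (D.l : ℝ≥0∞) *
                D.μ₁ {ω | (D.s ω : ℝ≥0∞) < hit (D.P₁ ω) H} ∂(D.h m)) := by
            rw [lintegral_add_left hM0, lintegral_add_left hM1]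
        _ ≤ _ := by
            gcongr
            calc ∫⁻ H in I, 2 * (D.l : ℝ≥0∞) *
                  D.μ₁ {ω | (D.s ω : ℝ≥0∞) < hit (D.P₁ ω) H} ∂(D.h m) ≤
                  ∫⁻ H, 2 * (D.l : ℝ≥0∞) *
                  D.μ₁ {ω | (D.s ω : ℝ≥0∞) < hit (D.P₁ ω) H} ∂(D.h m) :=
                  setLIntegral_le_lintegral _ _
              _ = 2 * (D.l : ℝ≥0∞) * ∫⁻ H,
                  D.μ₁ {ω | (D.s ω : ℝ≥0∞) < hit (D.P₁ ω) H} ∂(D.h m) := by
                  rw [lintegral_const_mul]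
                  exact measurable_measure_prodMk_right hset
              _ = 2 * (D.l * ∫⁻ ω, D.h m (unc (D.P₁ ω) (D.s ω)) ∂D.μ₁) := by
                  rw [mul_assoc]
                  congr 2
                  have h8 := Measure.prod_apply (μ := D.μ₁) (ν := D.h m) hset
                  have h9 := Measure.prod_apply_symm (μ := D.μ₁) (ν := D.h m) hset
                  rw [h8] at h9
                  exact h9.symm
              _ ≤ 2 * D.ε m := by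
                  gcongr
                  exact unc_le D m
    calc (2 * (D.v : ℝ≥0∞)) * D.h m I ≤ ∫⁻ H in I, D.Phi H ∂(D.h m) + 2 * D.ε m := e1
      _ ≤ (((φ₀ + η) * D.h m I + η * δ + 3 * D.ε m) +
          (((φ₁ + η) * D.h m I + η * δ + 3 * D.ε m) + 2 * D.ε m)) + 2 * D.ε m := by
          refine add_le_add (e4.trans ?_) le_rfl
          exact add_le_add e2 (add_le_add e3 le_rfl)
      _ = _ := by ring
  -- pass to real numbers
  have hreal : ∀ m, g * (D.h m I).toReal ≤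
      2 * η * (D.h m I).toReal + 2 * η * δ + 10 * (D.ε m).toReal := by
    intro m
    have hIt : D.h m I ≠ ∞ := measure_ne_top _ _
    have hεt := eps_ne_top D m
    have hR1 : (2 * (D.v : ℝ≥0∞)) * D.h m I ≠ ∞ := ENNReal.mul_ne_top h2v hIt
    have ht2 : (2 : ℝ≥0∞) * η ≠ ∞ := ENNReal.mul_ne_top ENNReal.ofNat_ne_top ENNReal.coe_ne_top
    have hR2 : (φ₀ + φ₁ + 2 * η) * D.h m I ≠ ∞ :=
      ENNReal.mul_ne_top (ENNReal.add_ne_top.2 ⟨hφsum, ht2⟩) hIt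
    have hR3 : (2 : ℝ≥0∞) * η * δ ≠ ∞ := ENNReal.mul_ne_top ht2 ENNReal.coe_ne_top
    have hR4 : (10 : ℝ≥0∞) * D.ε m ≠ ∞ := ENNReal.mul_ne_top ENNReal.ofNat_ne_top hεt
    have h1 := (ENNReal.toReal_le_toReal hR1
      (ENNReal.add_ne_top.2 ⟨ENNReal.add_ne_top.2 ⟨hR2, hR3⟩, hR4⟩)).2 (hmain m)
    rw [ENNReal.toReal_add (ENNReal.add_ne_top.2 ⟨hR2, hR3⟩) hR4, ENNReal.toReal_add hR2 hR3,
      ENNReal.toReal_mul, ENNReal.toReal_mul, ENNReal.toReal_mul, ENNReal.toReal_mul,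
      ENNReal.toReal_mul, ENNReal.toReal_mul, ENNReal.toReal_add hφsum ht2,
      ENNReal.toReal_mul] at h1
    simp only [ENNReal.toReal_ofNat, ENNReal.coe_toReal] at h1
    rw [hg]
    linarith
  have hmassr : ∀ᶠ m in atTop, (δ : ℝ) ≤ K * (D.h m I).toReal := by
    filter_upwards [hmassE δ hδ0 hδy] with m hm
    have h1 := (ENNReal.toReal_le_toReal ENNReal.coe_ne_top
      (ENNReal.mul_ne_top ENNReal.coe_ne_top (measure_ne_top _ _))).2 hm
    rw [ENNReal.toReal_mul] at h1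
    simpa using h1
  have hεr : Tendsto (fun m => (D.ε m).toReal) atTop (𝓝 0) := by
    have h1 : Tendsto D.ε atTop (𝓝 0) := ENNReal.tendsto_atTop_zero_of_tsum_ne_top D.ε_sum
    have h2 : Tendsto (fun m => (D.ε m).toReal) atTop (𝓝 (0 : ℝ≥0∞).toReal) :=
      (ENNReal.tendsto_toReal ENNReal.zero_ne_top).comp h1
    rwa [ENNReal.toReal_zero] at h2
  have hδr : (0 : ℝ) < δ := by exact_mod_cast hδ0
  have hsmall : ∀ᶠ m in atTop, (D.ε m).toReal < δ * g / (100 * K) :=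
    hεr.eventually_lt_const (by positivity)
  obtain ⟨m, hm1, hm2⟩ := (hmassr.and hsmall).exists
  have hm3 := hreal m
  set x : ℝ := (D.h m I).toReal with hx
  have hx0 : 0 ≤ x := ENNReal.toReal_nonneg
  -- (g/2) x ≤ 2 η δ + 10 ε ≤ g δ / (4 K) + g δ / (10 K), but x ≥ δ / K
  have h1 : g / 2 * x ≤ 2 * η * δ + 10 * (D.ε m).toReal := by nlinarith
  have h2 : 2 * (η : ℝ) * δ ≤ g * δ / (4 * K) := by
    have : (η : ℝ) * δ ≤ g / (8 * K) * δ := by gcongr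
    calc 2 * (η : ℝ) * δ = 2 * ((η : ℝ) * δ) := by ring
      _ ≤ 2 * (g / (8 * K) * δ) := by linarith
      _ = g * δ / (4 * K) := by
          field_simp
          ring
  have h3 : 10 * (D.ε m).toReal ≤ g * δ / (10 * K) := by
    calc 10 * (D.ε m).toReal ≤ 10 * (δ * g / (100 * K)) := by linarith
      _ = g * δ / (10 * K) := by
          field_simp
          ring
  have h4 : g / 2 * (δ / K) ≤ g / 2 * x := by
    have : (δ : ℝ) / K ≤ x := by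
      rw [div_le_iff₀ hKr, mul_comm]
      exact hm1
    have hg2 : 0 < g / 2 := by positivity
    exact mul_le_mul_of_nonneg_left this hg2.le
  have h5 : g / 2 * (δ / K) = g * δ / (2 * K) := by
    field_simp
  have h6 : g * δ / (2 * K) ≤ g * δ / (4 * K) + g * δ / (10 * K) := by linarith
  have h7 : (0 : ℝ) < g * δ / K := by positivity
  have h8 : g * δ / (2 * K) = (g * δ / K) / 2 := by field_simp
  have h9 : g * δ / (4 * K) = (g * δ / K) / 4 := by field_simp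
  have h10 : g * δ / (10 * K) = (g * δ / K) / 10 := by field_simp
  rw [h8, h9, h10] at h6
  linarith

/-- T10: tip exclusion -/
theorem full_or_empty (hA : D.Arc c L) :
    ∀ᵐ ω ∂D.μ₁, (∀ x ∈ Icc 0 L, hit (D.P₁ ω) (c x) ≤ 2 * D.v) ∨
      (∀ x ∈ Ioo 0 L, 2 * (D.v : ℝ≥0∞) < hit (D.P₁ ω) (c x)) := by
  by_contra hnot
  obtain ⟨c', hc', y, hy, κ, hκ, hyκ, hpos⟩ := exists_tip hA hnot
  rcases hc' with rfl | rfl
  · exact no_tip hA hy hκ hyκ hpos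
  · exact no_tip hA.reverse hy hκ hyκ hpos

end Core

end Pool.Agent.Gal
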