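import Pool.Agent.Helper77.Gal.Comb
import Pool.Agent.Helper77.Gal.Detour
import Pool.Agent.Helper77.Gal.Euler2
import Pool.Agent.Helper77.Gal.LemmaK
import Pool.Agent.Helper77.Gal.Pendant
import Pool.Agent.Helper77.Gal.Red3
import Pool.Agent.Helper77.Gal.Tip10

/-!
# Final assembly: from the reduced game to the combinatorial data
-/

open Set MeasureTheory Filter Topology
open scoped ENNReal NNReal

namespace Pool.Agent.Gal

open Core

/-- The reduced game lives on the network `N` with pendant arc `e₀` attached at `a`. -/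
structure OnNet (N : Network) (e₀ : N.E) (a b : N.V) (D : Core N.Q) : Prop where
  hb : ∑ e, N.inc b e = 1
  he₀ : N.inc b e₀ ≠ 0
  hab : a ≠ b
  ha : N.inc a e₀ ≠ 0
  hA : D.A = N.node a
  hR : D.R = N.rest e₀ (N.node a)

namespace OnNet

open Network

variable {N : Network} {e₀ : N.E} {a b : N.V} {D : Core N.Q}

theorem pt_mem_R (h : OnNet N e₀ a b D) {e : N.E} (he : e ≠ e₀) {x : ℝ}
    (hx : x ∈ Icc 0 (N.len e)) : N.pt e x ∈ D.R := by
  rw [h.hR]
  refine mem_insert_of_mem _ ?_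
  simp only [mem_iUnion]
  exact ⟨e, he, x, hx, rfl⟩

theorem mem_R_cases (h : OnNet N e₀ a b D) {H : N.Q} (hH : H ∈ D.R) :
    H = N.node a ∨ ∃ e, e ≠ e₀ ∧ ∃ x ∈ Icc 0 (N.len e), N.pt e x = H := by
  rw [h.hR] at hH
  rcases hH with hH | hH
  · exact Or.inl hH
  · simp only [mem_iUnion] at hH
    obtain ⟨e, he, x, hx, rfl⟩ := hH
    exact Or.inr ⟨e, he, x, hx, rfl⟩

theorem pt_not_mem_R (h : OnNet N e₀ a b D) {x : ℝ} (hx : x ∈ Ioo 0 (N.len e₀)) :
    N.pt e₀ x ∉ D.R := by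
  intro hH
  rcases h.mem_R_cases hH with h1 | ⟨e, he, y, hy, h1⟩
  · exact node_ne_pt hx a h1
  · exact he (pt_inj hx hy h1.symm).1.symm

theorem arc (h : OnNet N e₀ a b D) {e : N.E} (he : e ≠ e₀) : D.Arc (N.pt e) (N.len e) where
  chart := N.isChart e
  inR := fun _ hx => h.pt_mem_R he hx
  A_out := by
    rintro ⟨x, hx, hx'⟩
    rw [h.hA] at hx'
    exact node_ne_pt hx a hx'

/-- every curve is good and covers full arcs only, almost surely -/
def Fine (D : Core N.Q) (e₀ : N.E) (ω : D.Ω) : Prop :=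
  D.Good ω ∧ ∀ e, e ≠ e₀ → (∀ x ∈ Icc 0 (N.len e), hit (D.P₁ ω) (N.pt e x) ≤ 2 * D.v) ∨
    (∀ x ∈ Ioo 0 (N.len e), 2 * (D.v : ℝ≥0∞) < hit (D.P₁ ω) (N.pt e x))

theorem ae_fine (h : OnNet N e₀ a b D) : ∀ᵐ ω ∂D.μ₁, Fine D e₀ ω := by
  have h1 : ∀ e : {e // e ≠ e₀}, ∀ᵐ ω ∂D.μ₁,
      (∀ x ∈ Icc 0 (N.len e), hit (D.P₁ ω) (N.pt e x) ≤ 2 * D.v) ∨
      (∀ x ∈ Ioo 0 (N.len e), 2 * (D.v : ℝ≥0∞) < hit (D.P₁ ω) (N.pt e x)) :=
    fun e => full_or_empty (h.arc e.2)
  filter_upwards [D.good, ae_all_iff.2 h1] with ω hω hω'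
  exact ⟨hω, fun e he => hω' ⟨e, he⟩⟩

theorem coe_two_mul (v : ℝ≥0) : ((2 * v : ℝ≥0) : ℝ≥0∞) = 2 * (v : ℝ≥0∞) := by push_cast; rfl

/-- a closed curve which covers the same part of `R` as a good curve has duration at least `2 v` -/
theorem tight_of (h : OnNet N e₀ a b D) {q : ℝ≥0 → N.Q} (hq : LipschitzWith 1 q)
    (h0 : q 0 = N.node a) {T : ℝ≥0} (hT : q T = N.node a) {U : ℕ → ℝ≥0∞}
    (hU : Tendsto U atTop (𝓝 0)) (hle : ∀ m, D.h m (unc q T ∩ D.R) ≤ U m) : 2 * D.v ≤ T := by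
  refine D.tight hq (h0.trans h.hA.symm) (hT.trans h.hA.symm) ?_
  refine tendsto_of_tendsto_of_tendsto_of_le_of_le tendsto_const_nhds hU (fun _ => zero_le) ?_
  intro m
  calc D.h m (unc q T) ≤ D.h m ((unc q T ∩ D.R) ∪ D.Rᶜ) := by
        apply measure_mono
        intro H hH
        by_cases hR : H ∈ D.R
        · exact Or.inl ⟨hH, hR⟩
        · exact Or.inr hR
    _ ≤ D.h m (unc q T ∩ D.R) + D.h m D.Rᶜ := measure_union_le _ _
    _ ≤ U m := by rw [D.hsupp m, add_zero]; exact hle m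

theorem total_nonneg (n : N.E → ℕ) : 0 ≤ N.total n :=
  Finset.sum_nonneg fun e _ => mul_nonneg (Nat.cast_nonneg _) (N.len_pos e).le

/-- nodes in the support are covered -/
theorem node_covered {n : N.E → ℕ} {u : N.V} {q : ℝ≥0 → N.Q} (h0 : q 0 = N.node a) {T : ℝ≥0∞}
    (hcov : ∀ e, n e ≠ 0 → ∀ x ∈ Icc 0 (N.len e), hit q (N.pt e x) ≤ T)
    (hu : N.SuppConn n a u) : hit q (N.node u) ≤ T := by
  rcases Relation.ReflTransGen.cases_tail hu with h | ⟨w, _, e, he, h | h⟩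
  · rw [← h] at h0
    rw [hit_zero h0]; exact zero_le
  · rw [← h.2, ← pt_len]
    exact hcov e he _ ⟨(N.len_pos e).le, le_rfl⟩
  · rw [← h.1, ← pt_zero]
    exact hcov e he _ ⟨le_rfl, (N.len_pos e).le⟩

/-- the multiplicity vector of a fine curve -/
theorem exists_vec (h : OnNet N e₀ a b D) {ω : D.Ω} (hω : Fine D e₀ ω) :
    ∃ n : N.E → ℕ, (∀ e, n e ≤ 2) ∧ n e₀ = 0 ∧ N.EvenVec n ∧ N.total n = 2 * D.v ∧
      (∀ e, n e ≠ 0 → N.SuppConn n a (N.src e)) ∧
      ∀ e, e ≠ e₀ → ∀ x ∈ Ioo 0 (N.len e), hit (D.P₁ ω) (N.pt e x) ≤ 2 * D.v → n e ≠ 0 := by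
  obtain ⟨⟨hs, hgood⟩, hfe⟩ := hω
  set p := D.P₁ ω with hp
  have hlip : LipschitzWith 1 p := D.lip₁ ω
  have hp0 : p 0 = N.node a := (D.start₁ ω).trans h.hA
  have hps : p (2 * D.v) = N.node a := by rw [← hs]; exact (D.back ω).trans h.hA
  have he0 : ∀ x ∈ Ioo 0 (N.len e₀), ((2 * D.v : ℝ≥0) : ℝ≥0∞) < hit p (N.pt e₀ x) := by
    intro x hx
    rw [lt_hit_iff hlip.continuous]
    intro u _ hu
    exact h.pt_not_mem_R hx (hu ▸ D.inR ω u)
  obtain ⟨n, hn2, hn0, hn1, hev, hconn, htot⟩ := lemmaK hlip hp0 hps (by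
    intro e
    by_cases he : e = e₀
    · subst he; exact Or.inr he0
    · simpa using hfe e he)
  have hmid : N.len e₀ / 2 ∈ Ioo 0 (N.len e₀) := by
    have := N.len_pos e₀; constructor <;> linarith
  have hne0 : n e₀ = 0 := by
    by_contra hcon
    exact absurd (hn1 e₀ hcon _ ⟨hmid.1.le, hmid.2.le⟩) (not_le.2 (he0 _ hmid))
  have hsupp : ∀ e, n e ≠ 0 → N.SuppConn n a (N.src e) := by
    intro e he
    apply hconn
    rw [← pt_zero]
    exact hn1 e he 0 ⟨le_rfl, (N.len_pos e).le⟩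
  obtain ⟨q, hq, hq0, hqT, hqc⟩ := exists_tour hev hsupp
  have hle : 2 * D.v ≤ (N.total n).toNNReal := by
    refine h.tight_of hq hq0 hqT hgood ?_
    intro m
    apply measure_mono
    rintro H ⟨hH, hHR⟩
    simp only [unc, mem_setOf_eq] at hH ⊢
    by_contra hcon
    push Not at hcon
    refine absurd hH (not_lt.2 ?_)
    rw [ENNReal.ofNNReal_toNNReal]
    rcases h.mem_R_cases hHR with rfl | ⟨e, he, x, hx, rfl⟩
    · rw [hit_zero hq0]; exact zero_le
    · by_cases hne : n e = 0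
      · -- only the ends can be covered
        have hx' : x = 0 ∨ x = N.len e := by
          by_contra hx'
          push Not at hx'
          exact absurd hcon (not_le.2 (hn0 e hne x
            ⟨lt_of_le_of_ne hx.1 (Ne.symm hx'.1), lt_of_le_of_ne hx.2 hx'.2⟩))
        rcases hx' with rfl | rfl
        · rw [pt_zero] at hcon ⊢
          exact node_covered hq0 hqc (hconn _ hcon)
        · rw [pt_len] at hcon ⊢
          exact node_covered hq0 hqc (hconn _ hcon)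
      · exact hqc e hne x hx
  have htot' : N.total n = 2 * D.v := by
    have h1 : N.total n ≤ ((2 * D.v : ℝ≥0) : ℝ) := htot
    have h2 : ((2 * D.v : ℝ≥0) : ℝ) ≤ ((N.total n).toNNReal : ℝ) := by exact_mod_cast hle
    rw [Real.coe_toNNReal _ (total_nonneg n)] at h2
    push_cast at h1 h2
    linarith
  refine ⟨n, hn2, hne0, hev, htot', hsupp, ?_⟩
  intro e _ x hx hhit hn
  exact absurd hhit (not_le.2 (by simpa using hn0 e hn x hx))

end OnNet

end Pool.Agent.Gal
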