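import Pool.Agent.Helper77.Gal.Fin

/-!
# Final assembly: doubled arcs are bridges
-/

open Set MeasureTheory Filter Topology
open scoped ENNReal NNReal

namespace Pool.Agent.Gal

open Pool.Agent.Gal.Core

/-- no nontrivial integer relation with coefficients in `{-2, …, 2}` between the lengths of the
arcs different from `e₀` -/
def Network.NoRel (N : Network) (e₀ : N.E) : Prop :=
  ∀ c : N.E → ℤ, (∀ e, |c e| ≤ 2) → c e₀ = 0 → ∑ e, (c e : ℝ) * N.len e = 0 → ∀ e, c e = 0

namespace OnNet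

open Network

variable {N : Network} {e₀ : N.E} {a b : N.V} {D : Core N.Q}

/-- under the genericity assumption there is one vector which covers everything -/
theorem exists_common (h : OnNet N e₀ a b D) (hgen : N.NoRel e₀) :
    ∃ n : N.E → ℕ, (∀ e, n e ≤ 2) ∧ n e₀ = 0 ∧ N.EvenVec n ∧ N.total n = 2 * D.v ∧
      ∀ e, e ≠ e₀ → n e ≠ 0 := by
  have hae := h.ae_fine
  have hne : D.μ₁ ≠ 0 := IsProbabilityMeasure.ne_zero D.μ₁
  have : NeBot (ae D.μ₁) := ae_neBot.2 hne
  obtain ⟨ω₀, hω₀⟩ := hae.exists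
  obtain ⟨n, hn2, hn0, hev, htot, -, -⟩ := h.exists_vec hω₀
  refine ⟨n, hn2, hn0, hev, htot, ?_⟩
  intro e he
  have hmid : N.len e / 2 ∈ Ioo 0 (N.len e) := by
    have := N.len_pos e; constructor <;> linarith
  have hpos := D.covered_pos (h.pt_mem_R he (Ioo_subset_Icc_self hmid))
  have : ∃ ω, Fine D e₀ ω ∧ hit (D.P₁ ω) (N.pt e (N.len e / 2)) ≤ 2 * D.v := by
    by_contra hcon
    push Not at hcon
    apply hpos
    refine measure_mono_null ?_ (ae_iff.1 hae)
    intro ω hω hf
    exact absurd hω (not_le.2 (hcon ω hf))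
  obtain ⟨ω, hω, hhit⟩ := this
  obtain ⟨n', hn2', hn0', -, htot', -, hcov'⟩ := h.exists_vec hω
  have hc := hgen (fun e => (n' e : ℤ) - n e) (fun f => by
    have h1 := hn2 f
    have h2 := hn2' f
    rw [abs_le]
    constructor <;> omega) (by simp [hn0, hn0']) (by
    have : ∑ f, (((n' f : ℤ) - n f : ℤ) : ℝ) * N.len f = N.total n' - N.total n := by
      unfold total
      rw [← Finset.sum_sub_distrib]
      refine Finset.sum_congr rfl fun f _ => ?_
      push_cast
      ring
    rw [this, htot, htot', sub_self])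
  have h1 := hc e
  have h2 := hcov' e he _ hmid hhit
  omega

/-- every arc is traversed by a closed walk of length `2 v` -/
theorem exists_vec_arc (h : OnNet N e₀ a b D) {e : N.E} (he : e ≠ e₀) :
    ∃ n : N.E → ℕ, (∀ e, n e ≤ 2) ∧ n e₀ = 0 ∧ n e ≠ 0 ∧ N.EvenVec n ∧ N.total n = 2 * D.v ∧
      ∀ e, n e ≠ 0 → N.SuppConn n a (N.src e) := by
  have hae := h.ae_fine
  have hmid : N.len e / 2 ∈ Ioo 0 (N.len e) := by
    have := N.len_pos e; constructor <;> linarith
  have hpos := D.covered_pos (h.pt_mem_R he (Ioo_subset_Icc_self hmid))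
  have : ∃ ω, Fine D e₀ ω ∧ hit (D.P₁ ω) (N.pt e (N.len e / 2)) ≤ 2 * D.v := by
    by_contra hcon
    push Not at hcon
    apply hpos
    refine measure_mono_null ?_ (ae_iff.1 hae)
    intro ω hω hf
    exact absurd hω (not_le.2 (hcon ω hf))
  obtain ⟨ω, hω, hhit⟩ := this
  obtain ⟨n, hn2, hn0, hev, htot, hconn, hcov⟩ := h.exists_vec hω
  exact ⟨n, hn2, hn0, hcov e he _ hmid hhit, hev, htot, hconn⟩

/-- some vector -/
theorem exists_vec_some (h : OnNet N e₀ a b D) :
    ∃ n : N.E → ℕ, (∀ e, n e ≤ 2) ∧ n e₀ = 0 ∧ N.EvenVec n ∧ N.total n = 2 * D.v ∧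
      ∀ e, n e ≠ 0 → N.SuppConn n a (N.src e) := by
  have hae := h.ae_fine
  have hne : D.μ₁ ≠ 0 := IsProbabilityMeasure.ne_zero D.μ₁
  have : NeBot (ae D.μ₁) := ae_neBot.2 hne
  obtain ⟨ω₀, hω₀⟩ := hae.exists
  obtain ⟨n, hn2, hn0, hev, htot, hconn, -⟩ := h.exists_vec hω₀
  exact ⟨n, hn2, hn0, hev, htot, hconn⟩

/-- adding the pendant arc twice gives a closed walk from the leaf -/
theorem walk_leaf (h : OnNet N e₀ a b D) {n : N.E → ℕ} (hn2 : ∀ e, n e ≤ 2) (hn0 : n e₀ = 0)
    (hev : N.EvenVec n) (hconn : ∀ e, n e ≠ 0 → N.SuppConn n a (N.src e)) :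
    ∃ n' : N.E → ℕ, N.Walk b b n' ∧ (∀ e, n' e ≤ 2) ∧ n' e₀ = 2 ∧ (∀ e, n e ≠ 0 → n' e ≠ 0) ∧
      N.total n' = N.total n + 2 * N.len e₀ := by
  classical
  set n' : N.E → ℕ := n + Pi.single e₀ 2 with hn'
  have h0 : n' e₀ = 2 := by simp [hn', hn0]
  have hne : ∀ e, e ≠ e₀ → n' e = n e := fun e he => by simp [hn', he]
  have hle : ∀ e, n e ≠ 0 → n' e ≠ 0 := fun e he => by
    have : e ≠ e₀ := fun h' => he (h' ▸ hn0)
    rwa [hne e this]
  have hev' : N.EvenVec n' := by
    intro v
    have : ∑ e, n' e * N.inc v e = ∑ e, n e * N.inc v e + 2 * N.inc v e₀ := by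
      have h1 : ∀ e, n' e * N.inc v e = n e * N.inc v e + (Pi.single e₀ 2 : N.E → ℕ) e * N.inc v e :=
        fun e => by rw [hn', Pi.add_apply, add_mul]
      rw [Finset.sum_congr rfl fun e _ => h1 e, Finset.sum_add_distrib]
      congr 1
      rw [Finset.sum_eq_single e₀]
      · simp
      · intro e _ he
        simp [he]
      · simp
    rw [this]
    exact (hev v).add (even_two_mul _)
  -- the arc `e₀` joins `a` and `b`
  have hjoin : (N.src e₀ = a ∧ N.tgt e₀ = b) ∨ (N.src e₀ = b ∧ N.tgt e₀ = a) := by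
    have ha := h.ha
    have hb := h.he₀
    have hab := h.hab
    unfold inc at ha hb
    by_cases h1 : N.src e₀ = a
    · left
      refine ⟨h1, ?_⟩
      by_contra h2
      apply hb
      simp [h1, hab, h2]
    · right
      by_cases h2 : N.tgt e₀ = a
      · refine ⟨?_, h2⟩
        by_contra h3
        apply hb
        simp [h2, hab, h3]
      · exfalso
        apply ha
        simp [h1, h2]
  have hmono : ∀ u v, N.SuppConn n u v → N.SuppConn n' u v := by
    intro u v huv
    induction huv with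
    | refl => exact .refl
    | tail _ h ih =>
      obtain ⟨e, he, he'⟩ := h
      exact ih.tail ⟨e, hle e he, he'⟩
  have hba : N.SuppConn n' b a := by
    refine .single ⟨e₀, by rw [h0]; norm_num, ?_⟩
    rcases hjoin with h1 | h1
    · exact Or.inr h1
    · exact Or.inl h1
  have hconn' : ∀ e, n' e ≠ 0 → N.SuppConn n' b (N.src e) := by
    intro e he
    by_cases hee : e = e₀
    · subst hee
      rcases hjoin with h1 | h1
      · rw [h1.1]; exact hba
      · rw [h1.1]; exact .refl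
    · rw [hne e hee] at he
      exact hba.trans (hmono _ _ (hconn e he))
  refine ⟨n', exists_euler hev' hconn', ?_, h0, hle, ?_⟩
  · intro e
    by_cases hee : e = e₀
    · subst hee; rw [h0]
    · rw [hne e hee]; exact hn2 e
  · unfold total
    have h1 : ∀ e, (n' e : ℝ) * N.len e = n e * N.len e +
        (Pi.single e₀ (2 : ℝ) : N.E → ℝ) e * N.len e := by
      intro e
      by_cases hee : e = e₀
      · subst hee
        simp [h0, hn0]
      · rw [hne e hee]
        simp [hee]
    rw [Finset.sum_congr rfl fun e _ => h1 e, Finset.sum_add_distrib]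
    congr 1
    rw [Finset.sum_eq_single e₀]
    · simp
    · intro e _ he
      simp [he]
    · simp

/-- a doubled arc is a bridge -/
theorem bridge_of_two (h : OnNet N e₀ a b D) {n : N.E → ℕ} (hn0 : n e₀ = 0) (hev : N.EvenVec n)
    (htot : N.total n = 2 * D.v) (hpos : ∀ e, e ≠ e₀ → n e ≠ 0) {f : N.E} (hf : f ≠ e₀)
    (hf2 : n f = 2) : N.IsBridge f := by
  classical
  by_contra hbr
  set n' : N.E → ℕ := Function.update n f 0 with hn'
  have hn'f : n' f = 0 := by simp [hn']
  have hn'e : ∀ e, e ≠ f → n' e = n e := fun e he => by simp [hn', he]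
  have hev' : N.EvenVec n' := by
    intro v
    have h1 := hev v
    rw [← Finset.add_sum_erase _ _ (Finset.mem_univ f)] at h1 ⊢
    rw [hn'f, zero_mul, zero_add]
    have h2 : ∑ e ∈ Finset.univ.erase f, n' e * N.inc v e =
        ∑ e ∈ Finset.univ.erase f, n e * N.inc v e :=
      Finset.sum_congr rfl fun e he => by rw [hn'e e (Finset.ne_of_mem_erase he)]
    rw [h2]
    refine (Nat.even_add.1 h1).1 ?_
    rw [hf2]
    exact even_two_mul _
  have htot' : N.total n' = 2 * D.v - 2 * N.len f := by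
    have h1 : N.total n = N.total n' + 2 * N.len f := by
      unfold total
      rw [← Finset.add_sum_erase _ _ (Finset.mem_univ f),
        ← Finset.add_sum_erase _ (fun e => (n' e : ℝ) * N.len e) (Finset.mem_univ f), hn'f, hf2]
      have h2 : ∑ e ∈ Finset.univ.erase f, (n' e : ℝ) * N.len e =
          ∑ e ∈ Finset.univ.erase f, (n e : ℝ) * N.len e :=
        Finset.sum_congr rfl fun e he => by rw [hn'e e (Finset.ne_of_mem_erase he)]
      rw [h2]
      push_cast
      ring
    linarith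
  have hn'pos : ∀ e, e ≠ e₀ → e ≠ f → n' e ≠ 0 := fun e he hef => by
    rw [hn'e e hef]; exact hpos e he
  have hn'e₀ : n' e₀ = 0 := by rw [hn'e e₀ (Ne.symm hf), hn0]
  have hnode : ∀ u, u ≠ b → N.SuppConn n' a u := fun u hu =>
    suppConn_of_not_bridge h.hb h.he₀ h.hab h.ha hn'pos hbr hu
  have hends : ∀ e, e ≠ e₀ → N.src e ≠ b ∧ N.tgt e ≠ b := fun e he =>
    inc_zero (leaf_inc h.hb h.he₀ he)
  obtain ⟨q, hq, hq0, hqT, hqc⟩ := exists_tour hev' (a := a) (fun e he =>
    hnode _ (hends e (fun h' => he (h' ▸ hn'e₀))).1)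
  set T : ℝ≥0 := (N.total n').toNNReal with hT
  have hTr : (T : ℝ) = 2 * D.v - 2 * N.len f := by
    rw [hT, Real.coe_toNNReal _ (total_nonneg n'), htot']
  have hTe : ENNReal.ofReal (N.total n') = (T : ℝ≥0∞) := rfl
  rw [hTe] at hqc
  have hlen := N.len_pos f
  -- the tour `q` covers all of `R` except the interior of `f`
  have hqR : ∀ H ∈ D.R, (∀ x ∈ Ioo 0 (N.len f), N.pt f x ≠ H) → hit q H ≤ T := by
    intro H hH hHf
    rcases h.mem_R_cases hH with rfl | ⟨e, he, x, hx, rfl⟩
    · rw [hit_zero hq0]; exact zero_le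
    · by_cases hef : e = f
      · subst hef
        have hx' : x = 0 ∨ x = N.len e := by
          by_contra hx'
          push Not at hx'
          exact hHf x ⟨lt_of_le_of_ne hx.1 (Ne.symm hx'.1), lt_of_le_of_ne hx.2 hx'.2⟩ rfl
        rcases hx' with rfl | rfl
        · rw [pt_zero]; exact node_covered hq0 hqc (hnode _ (hends e he).1)
        · rw [pt_len]; exact node_covered hq0 hqc (hnode _ (hends e he).2)
      · exact hqc e (hn'pos e he hef) x hx
  -- full round trip from the source of `f`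
  have hsrc : hit q (N.pt f 0) ≤ T := by
    rw [pt_zero]; exact node_covered hq0 hqc (hnode _ (hends f hf).1)
  have htgt : hit q (N.pt f (N.len f)) ≤ T := by
    rw [pt_len]; exact node_covered hq0 hqc (hnode _ (hends f hf).2)
  obtain ⟨t₁, ht₁, hqt₁⟩ := exists_hit hq.continuous (ne_top_of_le_ne_top ENNReal.coe_ne_top hsrc)
  obtain ⟨t₂, ht₂, hqt₂⟩ := exists_hit hq.continuous (ne_top_of_le_ne_top ENNReal.coe_ne_top htgt)
  have ht₁T : t₁ ≤ T := by rw [ht₁] at hsrc; exact ENNReal.coe_le_coe.1 hsrc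
  have ht₂T : t₂ ≤ T := by rw [ht₂] at htgt; exact ENNReal.coe_le_coe.1 htgt
  set l : ℝ≥0 := ⟨N.len f, hlen.le⟩ with hl
  have hlr : (l : ℝ) = N.len f := rfl
  set r := N.trip f 0 1 l with hr
  have hr0 : q t₁ = r 0 := by rw [hr, trip_zero, hqt₁]
  have hr1 : q t₁ = r (2 * l) := by rw [hr, trip_end, hqt₁]
  set p := insert' q t₁ r (2 * l) with hp
  have hplip : LipschitzWith 1 p := insert_lip hq (trip_lip f 0 (by simp) l) hr0 hr1
  have hp0 : p 0 = N.node a := by rw [hp, insert_zero, hq0]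
  have hs : T + 2 * l = 2 * D.v := by
    apply NNReal.coe_injective
    push_cast
    rw [hTr, hlr]
    ring
  have hps : p (2 * D.v) = N.node a := by
    rw [← hs, hp, insert_end hr0 hr1 ht₁T, hqT]
  set s : ℝ≥0 := 2 * D.v with hsdef
  -- positions on `f`
  have hpf : ∀ x : ℝ≥0, x ≤ l → hit p (N.pt f x) ≤ (t₁ + x : ℝ≥0) ∧
      hit (rev p s) (N.pt f x) ≤ (s - (t₁ + (2 * l - x)) : ℝ≥0) := by
    intro x hx
    have h1 : p (t₁ + x) = N.pt f x := by
      rw [hp, insert_mid hr0 (hx.trans (by rw [two_mul]; exact le_add_of_nonneg_left zero_le)),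
        hr, trip_out f 0 1 hx]
      simp
    have h2 : p (t₁ + (2 * l - x)) = N.pt f x := by
      rw [hp, insert_mid hr0 tsub_le_self, hr, trip_back f 0 1 hx]
      simp
    refine ⟨hit_le h1, ?_⟩
    have h3 : t₁ + (2 * l - x) ≤ s := by
      rw [← hs]
      exact add_le_add ht₁T tsub_le_self
    have := hit_rev_le (p := p) h3
    rwa [h2] at this
  have hpR : ∀ H ∈ D.R, hit p H ≤ s := by
    intro H hH
    by_cases hHf : ∃ x ∈ Ioo 0 (N.len f), N.pt f x = H
    · obtain ⟨x, hx, rfl⟩ := hHf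
      have := (hpf ⟨x, hx.1.le⟩ (by exact_mod_cast hx.2.le)).1
      refine this.trans (ENNReal.coe_le_coe.2 ?_)
      rw [← hs]
      refine add_le_add ht₁T ?_
      have hx' : (⟨x, hx.1.le⟩ : ℝ≥0) ≤ l := by exact_mod_cast hx.2.le
      exact hx'.trans (by rw [two_mul]; exact le_add_of_nonneg_left zero_le)
    · push Not at hHf
      have := hit_insert_le (q := q) (t := t₁) (r := r) (d := 2 * l) hq.continuous hr0 hr1
        (hqR H hH hHf)
      rwa [hs] at this
  -- sum of the hitting times in both directions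
  have hsum : ∀ H ∈ D.R, hit p H + hit (rev p s) H ≤ s := by
    intro H hH
    obtain ⟨t, ht, hpt⟩ := exists_hit hplip.continuous
      (ne_top_of_le_ne_top ENNReal.coe_ne_top (hpR H hH))
    have hts : t ≤ s := by
      have := hpR H hH
      rw [ht] at this
      exact ENNReal.coe_le_coe.1 this
    have h2 := hit_rev_le (p := p) hts
    rw [hpt] at h2
    rw [ht]
    calc (t : ℝ≥0∞) + hit (rev p s) H ≤ t + (s - t : ℝ≥0) := by gcongr
      _ = s := by rw [← ENNReal.coe_add, add_tsub_cancel_of_le hts]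
  -- choose the margin `η`
  set η : ℝ≥0 := l / 2 with hη
  have hlpos : 0 < l := by exact_mod_cast hlen
  have hηpos : 0 < η := by rw [hη]; positivity
  have hηl : η ≤ l := by rw [hη]; exact half_le_self hlpos.le
  set Z : Set N.Q := N.pt f '' Icc 0 (N.len f - η) with hZ
  have hZc : IsClosed Z := (N.isChart f).isClosed_image le_rfl (by
    have : (0 : ℝ) ≤ η := η.2
    linarith)
  have hsumZ : ∀ H ∈ Z, hit p H + hit (rev p s) H + 2 * η ≤ s := by
    rintro H ⟨x, hx, rfl⟩
    have hηr : (η : ℝ) ≤ N.len f := by rw [← hlr]; exact_mod_cast hηl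
    have hxl : x ≤ N.len f := hx.2.trans (by have : (0 : ℝ) ≤ η := η.2; linarith)
    obtain ⟨x', hxx⟩ : ∃ x' : ℝ≥0, (x' : ℝ) = x := ⟨⟨x, hx.1⟩, rfl⟩
    subst hxx
    have hx' : x' ≤ l := by
      apply NNReal.coe_le_coe.1
      rw [hlr]
      exact hxl
    have h1 := hpf x' hx'
    have h2 : x' + η ≤ l := by
      have := hx.2
      apply NNReal.coe_le_coe.1
      push_cast
      rw [hlr]
      linarith
    calc hit p (N.pt f x') + hit (rev p s) (N.pt f x') + 2 * η
        ≤ (t₁ + x' : ℝ≥0) + (s - (t₁ + (2 * l - x')) : ℝ≥0) + 2 * η := by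
          gcongr
          · exact h1.1
          · exact h1.2
      _ = (t₁ + x' + (s - (t₁ + (2 * l - x'))) + 2 * η : ℝ≥0) := by push_cast; ring
      _ ≤ s := by
          apply ENNReal.coe_le_coe.2
          have h3 : t₁ + (2 * l - x') ≤ s := by
            rw [← hs]; exact add_le_add ht₁T tsub_le_self
          have h4 : x' ≤ 2 * l := hx'.trans (by rw [two_mul]; exact le_add_of_nonneg_left zero_le)
          apply NNReal.coe_le_coe.1
          push_cast [NNReal.coe_sub h3, NNReal.coe_sub h4]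
          have h5 : ((x' + η : ℝ≥0) : ℝ) ≤ l := by exact_mod_cast h2
          push_cast at h5
          linarith
  -- mass of `Z`
  have hmassZ : ∀ m, (η : ℝ≥0∞) * D.h m Z ≤ D.ε m := by
    intro m
    have hrev0 : rev p s 0 = D.A := by rw [rev_zero', hps, h.hA]
    have F1 := D.F3 m p hplip (hp0.trans h.hA.symm)
    have F2 := D.F3 m (rev p s) (rev_lip hplip s) hrev0
    have hae : ∀ᵐ H ∂(D.h m), H ∈ D.R := by
      rw [ae_iff]; exact D.hsupp m
    have hm1 : Measurable (hit p) := measurable_hit hplip.continuous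
    have hint : ∫⁻ H, (hit p H + hit (rev p s) H) ∂(D.h m) + 2 * η * D.h m Z ≤ s := by
      calc ∫⁻ H, (hit p H + hit (rev p s) H) ∂(D.h m) + 2 * η * D.h m Z
          = ∫⁻ H, (hit p H + hit (rev p s) H) ∂(D.h m) +
            ∫⁻ H, Z.indicator (fun _ => 2 * (η : ℝ≥0∞)) H ∂(D.h m) := by
            rw [lintegral_indicator_const hZc.measurableSet]
        _ = ∫⁻ H, ((hit p H + hit (rev p s) H) +
            Z.indicator (fun _ => 2 * (η : ℝ≥0∞)) H) ∂(D.h m) := by
            rw [← lintegral_add_right]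
            exact measurable_const.indicator hZc.measurableSet
        _ ≤ ∫⁻ _, (s : ℝ≥0∞) ∂(D.h m) := by
            refine lintegral_mono_ae ?_
            filter_upwards [hae] with H hH
            by_cases hHZ : H ∈ Z
            · rw [indicator_of_mem hHZ]
              exact hsumZ H hHZ
            · rw [indicator_of_notMem hHZ, add_zero]
              exact hsum H hH
        _ = s := by simp
    rw [lintegral_add_left hm1] at hint
    have hfin : (s : ℝ≥0∞) ≠ ∞ := ENNReal.coe_ne_top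
    have key : (s : ℝ≥0∞) + 2 * η * D.h m Z ≤ s + 2 * D.ε m := by
      calc (s : ℝ≥0∞) + 2 * η * D.h m Z = (D.v + D.v) + 2 * η * D.h m Z := by
            rw [hsdef]; push_cast; ring
        _ ≤ ((∫⁻ H, hit p H ∂(D.h m) + D.ε m) + (∫⁻ H, hit (rev p s) H ∂(D.h m) + D.ε m)) +
            2 * η * D.h m Z := by gcongr
        _ = (∫⁻ H, hit p H ∂(D.h m) + ∫⁻ H, hit (rev p s) H ∂(D.h m) + 2 * η * D.h m Z) +
            2 * D.ε m := by ring
        _ ≤ s + 2 * D.ε m := by gcongr
    have key2 : 2 * ((η : ℝ≥0∞) * D.h m Z) ≤ 2 * D.ε m := by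
      rw [← mul_assoc]
      exact (ENNReal.add_le_add_iff_left hfin).1 key
    exact (ENNReal.mul_le_mul_iff_right (by norm_num) (by norm_num)).1 key2
  have hZ0 : Tendsto (fun m => D.h m Z) atTop (𝓝 0) := by
    have hε : Tendsto D.ε atTop (𝓝 0) := ENNReal.tendsto_atTop_zero_of_tsum_ne_top D.ε_sum
    have hηe : (η : ℝ≥0∞) ≠ 0 := by exact_mod_cast hηpos.ne'
    have h1 : Tendsto (fun m => D.ε m / η) atTop (𝓝 0) := by
      have := ENNReal.Tendsto.div_const hε (Or.inr hηe)
      simpa using this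
    refine tendsto_of_tendsto_of_tendsto_of_le_of_le tendsto_const_nhds h1 (fun _ => zero_le) ?_
    intro m
    rw [ENNReal.le_div_iff_mul_le (Or.inl hηe) (Or.inl ENNReal.coe_ne_top), mul_comm]
    exact hmassZ m
  -- short round trip from the target of `f`
  set r₂ := N.trip f (N.len f) (-1) η with hr₂
  have hr0' : q t₂ = r₂ 0 := by rw [hr₂, trip_zero, hqt₂]
  have hr1' : q t₂ = r₂ (2 * η) := by rw [hr₂, trip_end, hqt₂]
  set p₂ := insert' q t₂ r₂ (2 * η) with hp₂
  have hp₂lip : LipschitzWith 1 p₂ := insert_lip hq (trip_lip f _ (by simp) η) hr0' hr1'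
  have hp₂0 : p₂ 0 = N.node a := by rw [hp₂, insert_zero, hq0]
  have hp₂T : p₂ (T + 2 * η) = N.node a := by rw [hp₂, insert_end hr0' hr1' ht₂T, hqT]
  have hfinal : 2 * D.v ≤ T + 2 * η := by
    refine h.tight_of hp₂lip hp₂0 hp₂T hZ0 ?_
    intro m
    apply measure_mono
    rintro H ⟨hH, hHR⟩
    by_contra hHZ
    change ((T + 2 * η : ℝ≥0) : ℝ≥0∞) < hit p₂ H at hH
    refine absurd hH (not_lt.2 ?_)
    by_cases hHf : ∃ x ∈ Ioo 0 (N.len f), N.pt f x = H
    · obtain ⟨x, hx, rfl⟩ := hHf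
      have hx1 : N.len f - η < x := by
        by_contra hcon
        push Not at hcon
        exact hHZ ⟨x, ⟨hx.1.le, hcon⟩, rfl⟩
      have hnn : 0 ≤ N.len f - x := by linarith [hx.2]
      have hle : (⟨N.len f - x, hnn⟩ : ℝ≥0) ≤ η := by
        apply NNReal.coe_le_coe.1
        change N.len f - x ≤ η
        linarith
      have h1 : p₂ (t₂ + ⟨N.len f - x, hnn⟩) = N.pt f x := by
        rw [hp₂, insert_mid hr0' (hle.trans (by rw [two_mul]; exact le_add_of_nonneg_left zero_le)),
          hr₂, trip_out f _ _ hle]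
        congr 1
        change N.len f + -1 * (N.len f - x) = x
        ring
      refine (hit_le h1).trans (ENNReal.coe_le_coe.2 ?_)
      refine add_le_add ht₂T (hle.trans (by rw [two_mul]; exact le_add_of_nonneg_left zero_le))
    · push Not at hHf
      exact hit_insert_le hq.continuous hr0' hr1' (hqR H hHR hHf)
  have : (2 * D.v : ℝ) ≤ T + 2 * η := by exact_mod_cast hfinal
  rw [hTr] at this
  have hη' : (η : ℝ) = N.len f / 2 := by rw [hη]; push_cast; rw [hlr]
  rw [hη'] at this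
  linarith

end OnNet

/-- Main theorem of the assembly. -/
theorem gal_leaf (N : Network) (b : N.V) (e₀ : N.E) (hb : ∑ e, N.inc b e = 1)
    (he₀ : N.inc b e₀ ≠ 0) {x V : ℝ} (hx : x ∈ Ioo 0 (N.len e₀))
    (h0 : HasValue (N.pt e₀ 0) V) (hX : HasValue (N.pt e₀ x) V)
    (h1 : HasValue (N.pt e₀ (N.len e₀)) V) :
    (∀ e, ∃ n : N.E → ℕ, N.Walk b b n ∧ (∀ f, n f ≤ 2) ∧ n e ≠ 0 ∧ N.total n = 2 * V) ∧
      (N.NoRel e₀ → N.WeaklyEulerian) := by
  obtain ⟨K, a, hab, ha, hKl, hK0, hKR, hKc⟩ := Network.exists_pend N b e₀ hb he₀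
  obtain ⟨C, hC, hcov⟩ := Network.exists_cover N
  have hD : ∃ D : Core N.Q, D.A = K.c 0 ∧ D.R = K.R ∧ (D.l : ℝ) = K.l ∧ (D.v : ℝ) = V - K.l := by
    rcases hKc with hKc | hKc
    · refine K.reduction (x := x) (by rw [hKl]; exact hx) ?_ ?_ ?_ hC hcov
      · rw [hKc]; exact h0
      · rw [hKc]; exact hX
      · rw [hKc, hKl]; exact h1
    · refine K.reduction (x := N.len e₀ - x) (by
        rw [hKl]; exact ⟨by linarith [hx.2], by linarith [hx.1]⟩) ?_ ?_ ?_ hC hcov
      · rw [hKc, sub_zero]; exact h1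
      · rw [hKc, sub_sub_cancel]; exact hX
      · rw [hKc, hKl, sub_self]; exact h0
  obtain ⟨D, hDA, hDR, -, hDv⟩ := hD
  have hon : OnNet N e₀ a b D :=
    ⟨hb, he₀, hab, by rw [ha]; exact one_ne_zero, hDA.trans hK0, hDR.trans hKR⟩
  refine ⟨?_, ?_⟩
  · intro e
    by_cases he : e = e₀
    · obtain ⟨n, hn2, hn0, hev, htot, hconn⟩ := hon.exists_vec_some
      obtain ⟨n', hw, hn2', hn0', -, htot'⟩ := hon.walk_leaf hn2 hn0 hev hconn
      refine ⟨n', hw, hn2', by rw [he, hn0']; norm_num, ?_⟩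
      rw [htot', htot, hDv, hKl]
      ring
    · obtain ⟨n, hn2, hn0, hne, hev, htot, hconn⟩ := hon.exists_vec_arc he
      obtain ⟨n', hw, hn2', -, hle, htot'⟩ := hon.walk_leaf hn2 hn0 hev hconn
      refine ⟨n', hw, hn2', hle e hne, ?_⟩
      rw [htot', htot, hDv, hKl]
      ring
  · intro hgen
    obtain ⟨n, hn2, hn0, hev, htot, hpos⟩ := hon.exists_common hgen
    exact Network.weaklyEulerian_of hb he₀ hab hev hn2 hpos
      (fun e he he2 => hon.bridge_of_two hn0 hev htot hpos he he2)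

end Pool.Agent.Gal
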