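import Pool.Agent.Helper77.Gal.CoreDefs

/-!
# Exit lemmas (module GAL-G0)
-/

open Set MeasureTheory Filter Topology
open scoped ENNReal NNReal

namespace Pool.Agent.Gal

section Geo

variable {Q : Type} [MetricSpace Q] {c : ℝ → Q} {L : ℝ}

theorem ends_of_closure (hc : IsChart c L) {p : ℝ≥0 → Q} (hp : LipschitzWith 1 p) {a b : ℝ}
    (ha : 0 ≤ a) (hb : b ≤ L) {S : Set ℝ≥0} {t : ℝ≥0} (ht : t ∈ closure S)
    (hS : ∀ u ∈ S, p u ∈ c '' Ioo a b) (hout : p t ∉ c '' Ioo a b) : p t = c a ∨ p t = c b := by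
  have hcl : IsClosed (p ⁻¹' (c '' Icc a b)) := (hc.isClosed_image ha hb).preimage hp.continuous
  have hsub : S ⊆ p ⁻¹' (c '' Icc a b) := fun u hu =>
    image_mono Ioo_subset_Icc_self (hS u hu)
  obtain ⟨z, hz, hz'⟩ := (closure_minimal hsub hcl) ht
  rcases eq_or_lt_of_le hz.1 with h1 | h1
  · left; rw [h1, hz']
  rcases eq_or_lt_of_le hz.2 with h2 | h2
  · right; rw [← h2, hz']
  exact absurd ⟨z, ⟨h1, h2⟩, hz'⟩ hout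

/-- G0: exit lemma (forward) -/
theorem exit_right (hc : IsChart c L) {p : ℝ≥0 → Q} (hp : LipschitzWith 1 p) {a b : ℝ}
    (ha : 0 ≤ a) (hb : b ≤ L) {t₁ t₂ : ℝ≥0} (h12 : t₁ ≤ t₂) (h1 : p t₁ ∈ c '' Ioo a b)
    (h2 : p t₂ ∉ c '' Ioo a b) :
    ∃ t ∈ Ioc t₁ t₂, (p t = c a ∨ p t = c b) ∧ ∀ u ∈ Ico t₁ t, p u ∈ c '' Ioo a b := by
  have hopen : IsOpen (c '' Ioo a b) := hc.isOpen_image ha hb
  have hSc : IsClosed {t | t₁ ≤ t ∧ p t ∉ c '' Ioo a b} :=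
    (isClosed_Ici).inter ((hopen.isClosed_compl).preimage hp.continuous)
  have hmem : sInf {t | t₁ ≤ t ∧ p t ∉ c '' Ioo a b} ∈ {t | t₁ ≤ t ∧ p t ∉ c '' Ioo a b} :=
    hSc.csInf_mem ⟨t₂, h12, h2⟩ (OrderBot.bddBelow _)
  set t := sInf {t | t₁ ≤ t ∧ p t ∉ c '' Ioo a b} with ht
  have hlt : t₁ < t := lt_of_le_of_ne hmem.1 fun h => hmem.2 (h ▸ h1)
  have hin : ∀ u ∈ Ico t₁ t, p u ∈ c '' Ioo a b := by
    intro u hu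
    by_contra hcon
    exact absurd (csInf_le (OrderBot.bddBelow _)
      (show u ∈ {t | t₁ ≤ t ∧ p t ∉ c '' Ioo a b} from ⟨hu.1, hcon⟩)) (not_le.2 hu.2)
  refine ⟨t, ⟨hlt, csInf_le (OrderBot.bddBelow _) ⟨h12, h2⟩⟩, ?_, hin⟩
  refine ends_of_closure hc hp ha hb (S := Ico t₁ t) ?_ hin hmem.2
  rw [closure_Ico hlt.ne]
  exact right_mem_Icc.2 hlt.le

/-- G0: exit lemma (backward) -/
theorem exit_left (hc : IsChart c L) {p : ℝ≥0 → Q} (hp : LipschitzWith 1 p) {a b : ℝ}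
    (ha : 0 ≤ a) (hb : b ≤ L) {t₁ t₂ : ℝ≥0} (h12 : t₁ ≤ t₂) (h2 : p t₂ ∈ c '' Ioo a b)
    (h1 : p t₁ ∉ c '' Ioo a b) :
    ∃ t ∈ Ico t₁ t₂, (p t = c a ∨ p t = c b) ∧ ∀ u ∈ Ioc t t₂, p u ∈ c '' Ioo a b := by
  have hopen : IsOpen (c '' Ioo a b) := hc.isOpen_image ha hb
  have hSc : IsClosed {t | t ≤ t₂ ∧ p t ∉ c '' Ioo a b} :=
    (isClosed_Iic).inter ((hopen.isClosed_compl).preimage hp.continuous)
  have hbd : BddAbove {t | t ≤ t₂ ∧ p t ∉ c '' Ioo a b} := ⟨t₂, fun _ h => h.1⟩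
  have hmem : sSup {t | t ≤ t₂ ∧ p t ∉ c '' Ioo a b} ∈ {t | t ≤ t₂ ∧ p t ∉ c '' Ioo a b} :=
    hSc.csSup_mem ⟨t₁, h12, h1⟩ hbd
  set t := sSup {t | t ≤ t₂ ∧ p t ∉ c '' Ioo a b} with ht
  have hlt : t < t₂ := lt_of_le_of_ne hmem.1 fun h => hmem.2 (h ▸ h2)
  have hin : ∀ u ∈ Ioc t t₂, p u ∈ c '' Ioo a b := by
    intro u hu
    by_contra hcon
    exact absurd (le_csSup hbd
      (show u ∈ {t | t ≤ t₂ ∧ p t ∉ c '' Ioo a b} from ⟨hu.2, hcon⟩)) (not_le.2 hu.1)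
  refine ⟨t, ⟨le_csSup hbd ⟨h12, h1⟩, hlt⟩, ?_, hin⟩
  refine ends_of_closure hc hp ha hb (S := Ioc t t₂) ?_ hin hmem.2
  rw [closure_Ioc hlt.ne]
  exact left_mem_Icc.2 hlt.le

end Geo

end Pool.Agent.Gal
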