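import Pool.Agent.Helper77.Gal.CoreDefs

/-!
# Coordinates of a path which stays in an arc (module GAL-G1)
-/

open Set MeasureTheory Filter Topology
open scoped ENNReal NNReal

namespace Pool.Agent.Gal

section Geo

variable {Q : Type} [MetricSpace Q] {c : ℝ → Q} {L : ℝ}

/-- a function which is `1`-Lipschitz for short steps is `1`-Lipschitz -/
theorem lip_of_short {x : ℝ≥0 → ℝ} {t₁ t₂ ρ : ℝ≥0} (hρ : 0 < ρ)
    (h : ∀ u ∈ Icc t₁ t₂, ∀ u' ∈ Icc t₁ t₂, dist u u' < ρ → |x u - x u'| ≤ dist u u') :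
    ∀ u ∈ Icc t₁ t₂, ∀ u' ∈ Icc t₁ t₂, |x u - x u'| ≤ dist u u' := by
  have key : ∀ n : ℕ, ∀ u ∈ Icc t₁ t₂, ∀ u' ∈ Icc t₁ t₂, u ≤ u' → u' ≤ u + n * (ρ / 2) →
      |x u - x u'| ≤ (u' : ℝ) - u := by
    intro n
    induction n with
    | zero =>
      intro u _ u' _ h1 h2
      have : u' = u := le_antisymm (by simpa using h2) h1
      simp [this]
    | succ n ih =>
      intro u hu u' hu' h1 h2
      rcases le_total u' (u + ρ / 2) with h3 | h3
      · have hd : dist u u' = (u' : ℝ) - u := by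
          rw [NNReal.dist_eq, abs_sub_comm, abs_of_nonneg (sub_nonneg.2 (by exact_mod_cast h1))]
        have h3' : (u' : ℝ) ≤ u + ρ / 2 := by exact_mod_cast h3
        have hρ' : (0 : ℝ) < ρ := by exact_mod_cast hρ
        have := h u hu u' hu' (by rw [hd]; linarith)
        rwa [hd] at this
      · have hw : u + ρ / 2 ∈ Icc t₁ t₂ := ⟨hu.1.trans (by simp), h3.trans hu'.2⟩
        have hd : dist u (u + ρ / 2) = (ρ : ℝ) / 2 := by
          rw [NNReal.dist_eq]
          push_cast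
          rw [show (u : ℝ) - (u + ρ / 2) = -(ρ / 2) by ring, abs_neg, abs_of_nonneg (by positivity)]
        have hρ' : (0 : ℝ) < ρ := by exact_mod_cast hρ
        have h4 := h u hu _ hw (by rw [hd]; linarith)
        rw [hd] at h4
        have h5 := ih _ hw u' hu' h3 (by
          refine h2.trans (le_of_eq ?_)
          push_cast
          ring)
        calc |x u - x u'| ≤ |x u - x (u + ρ / 2)| + |x (u + ρ / 2) - x u'| := abs_sub_le _ _ _
          _ ≤ (u' : ℝ) - u := by push_cast at h5; linarith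
  have key' : ∀ u ∈ Icc t₁ t₂, ∀ u' ∈ Icc t₁ t₂, u ≤ u' → |x u - x u'| ≤ (u' : ℝ) - u := by
    intro u hu u' hu' h1
    obtain ⟨n, hn⟩ := exists_nat_ge (u' / (ρ / 2))
    have h2 : u' ≤ n * (ρ / 2) := by
      rwa [div_le_iff₀ (by positivity)] at hn
    exact key n u hu u' hu' h1 (h2.trans (by simp))
  intro u hu u' hu'
  rcases le_total u u' with h1 | h1
  · have h2 : dist u u' = (u' : ℝ) - u := by
      rw [NNReal.dist_eq, abs_sub_comm, abs_of_nonneg (sub_nonneg.2 (by exact_mod_cast h1))]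
    rw [h2]
    exact key' u hu u' hu' h1
  · have h2 : dist u u' = (u : ℝ) - u' := by
      rw [NNReal.dist_eq, abs_of_nonneg (sub_nonneg.2 (by exact_mod_cast h1))]
    rw [h2, abs_sub_comm]
    exact key' u' hu' u hu h1

/-- G1: coordinates of a path which stays in an arc; they are `1`-Lipschitz in time -/
theorem exists_coord (hc : IsChart c L) {p : ℝ≥0 → Q} (hp : LipschitzWith 1 p) {a b : ℝ}
    (ha : 0 < a) (hb : b < L) {t₁ t₂ : ℝ≥0} (h : ∀ u ∈ Icc t₁ t₂, p u ∈ c '' Icc a b) :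
    ∃ x : ℝ≥0 → ℝ, (∀ u ∈ Icc t₁ t₂, x u ∈ Icc a b ∧ c (x u) = p u) ∧
      ∀ u ∈ Icc t₁ t₂, ∀ u' ∈ Icc t₁ t₂, |x u - x u'| ≤ dist u u' := by
  classical
  choose! x hx using h
  refine ⟨x, hx, ?_⟩
  have hρ : 0 < min a (L - b) := lt_min ha (by linarith)
  refine lip_of_short (ρ := ⟨min a (L - b), hρ.le⟩) hρ ?_
  intro u hu u' hu' hd
  have hd1 : dist (p u) (p u') ≤ dist u u' := dist_le_of_lip hp u u'
  have hxu := hx u hu
  have hxu' := hx u' hu'
  have hlt : dist (c (x u)) (p u') < min (x u) (L - x u) := by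
    rw [hxu.2]
    refine (hd1.trans_lt hd).trans_le ?_
    change min a (L - b) ≤ _
    exact min_le_min hxu.1.1 (by linarith [hxu.1.2])
  obtain ⟨y, hy, hy1, hy2⟩ := hc.opn (x u) ⟨by linarith [hxu.1.1], by linarith [hxu.1.2]⟩ _ hlt
  have : y = x u' := hc.inj y hy (x u') ⟨by linarith [hxu'.1.1], by linarith [hxu'.1.2]⟩
    (by rw [hy1, hxu'.2])
  rw [← this, hy2, hxu.2]
  exact hd1

/-- coordinates are continuous -/
theorem coord_continuousOn {x : ℝ≥0 → ℝ} {s : Set ℝ≥0}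
    (h : ∀ u ∈ s, ∀ u' ∈ s, |x u - x u'| ≤ dist u u') : ContinuousOn x s := by
  have : LipschitzOnWith 1 x s := LipschitzOnWith.of_dist_le_mul fun u hu u' hu' => by
    simpa [Real.dist_eq] using h u hu u' hu'
  exact this.continuousOn

end Geo

end Pool.Agent.Gal
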