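import Pool.Agent.Helper77.Gal.Geo0
import Pool.Agent.Helper77.Gal.Geo1

/-!
# Approach from the right, excursion around a left tip (module GAL-G2)
-/

open Set MeasureTheory Filter Topology
open scoped ENNReal NNReal

namespace Pool.Agent.Gal

section Geo

variable {Q : Type} [MetricSpace Q] {c : ℝ → Q} {L : ℝ}

theorem chart_eq (hc : IsChart c L) {x y : ℝ} (hx : x ∈ Ioo 0 L) (hy : y ∈ Icc 0 L)
    (h : c y = c x) : y = x := (hc.inj x hx y hy h.symm).symm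

/-- G2: approach from the right -/
theorem approach_right (hc : IsChart c L) {p : ℝ≥0 → Q} (hp : LipschitzWith 1 p)
    (h0 : p 0 ∉ c '' Ioo 0 L) {y δ : ℝ} (hy : y ∈ Ioo 0 L) (hδ : 0 < δ) (hyδ : y + δ < L)
    {τ : ℝ≥0} (hτ : hit p (c y) = τ) {x : ℝ} (hx : x ∈ Ioo 0 y) (hx' : (τ : ℝ≥0∞) ≤ hit p (c x)) :
    ∃ t₀ ≤ τ, p t₀ = c (y + δ) ∧ ∀ u ∈ Icc t₀ τ, p u ∈ c '' Icc y (y + δ) := by
  obtain ⟨τ', h1, hpτ⟩ := exists_hit hp.continuous (H := c y) (by rw [hτ]; exact ENNReal.coe_ne_top)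
  obtain rfl : τ = τ' := by rw [hτ] at h1; exact_mod_cast h1
  have hin : p τ ∈ c '' Ioo x (y + δ) := ⟨y, ⟨hx.2, by linarith⟩, hpτ.symm⟩
  have hout : p 0 ∉ c '' Ioo x (y + δ) := fun h =>
    h0 (image_mono (Ioo_subset_Ioo hx.1.le hyδ.le) h)
  obtain ⟨t₀, ht₀, hend, hall⟩ := exit_left hc hp hx.1.le hyδ.le zero_le hin hout
  have hpt : p t₀ = c (y + δ) := by
    refine hend.resolve_left fun h => ?_
    have : hit p (c x) ≤ t₀ := hit_le h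
    exact absurd (ENNReal.coe_le_coe.1 (hx'.trans this)) (not_le.2 ht₀.2)
  have hall' : ∀ u ∈ Icc t₀ τ, p u ∈ c '' Icc x (y + δ) := by
    intro u hu
    rcases hu.1.eq_or_lt with h | h
    · exact ⟨y + δ, ⟨by linarith [hx.2], le_rfl⟩, by rw [← h, hpt]⟩
    · exact image_mono Ioo_subset_Icc_self (hall u ⟨h, hu.2⟩)
  obtain ⟨z, hz, hzl⟩ := exists_coord hc hp hx.1 hyδ hall'
  have hIcc : Icc x (y + δ) ⊆ Icc 0 L := Icc_subset_Icc hx.1.le hyδ.le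
  have hz0 : z t₀ = y + δ := by
    have := hz t₀ ⟨le_rfl, ht₀.2.le⟩
    exact chart_eq hc ⟨by linarith [hy.1], hyδ⟩ (hIcc this.1) (by rw [this.2, hpt])
  refine ⟨t₀, ht₀.2.le, hpt, fun u hu => ?_⟩
  refine ⟨z u, ⟨?_, (hz u hu).1.2⟩, (hz u hu).2⟩
  by_contra hcon
  push Not at hcon
  have hcont : ContinuousOn z (Icc t₀ u) :=
    coord_continuousOn fun a ha b hb => hzl a ⟨ha.1, ha.2.trans hu.2⟩ b ⟨hb.1, hb.2.trans hu.2⟩
  obtain ⟨w, hw, hw'⟩ := intermediate_value_Icc' hu.1 hcont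
    (show y ∈ Icc (z u) (z t₀) from ⟨hcon.le, by rw [hz0]; linarith⟩)
  have hwu : w ≠ u := by
    rintro rfl
    exact hcon.ne hw'
  have hwτ : w < τ := (lt_of_le_of_ne hw.2 hwu).trans_le hu.2
  have h3 : p w = c y := by
    rw [← (hz w ⟨hw.1, hw.2.trans hu.2⟩).2, hw']
  have := hit_le h3
  rw [hτ] at this
  exact absurd (ENNReal.coe_le_coe.1 this) (not_le.2 hwτ)

/-- the time between two points of the arc is at least their coordinate distance -/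
theorem coord_time (hc : IsChart c L) {p : ℝ≥0 → Q} (hp : LipschitzWith 1 p) {a b : ℝ}
    (ha : 0 < a) (hb : b < L) {t₁ t₂ : ℝ≥0} (h12 : t₁ ≤ t₂) (h : ∀ u ∈ Icc t₁ t₂, p u ∈ c '' Icc a b)
    {x₁ x₂ : ℝ} (hx₁ : x₁ ∈ Icc a b) (hx₂ : x₂ ∈ Icc a b) (h1 : p t₁ = c x₁) (h2 : p t₂ = c x₂) :
    |x₁ - x₂| ≤ (t₂ : ℝ) - t₁ := by
  obtain ⟨z, hz, hzl⟩ := exists_coord hc hp ha hb h
  have hI : Icc a b ⊆ Ioo 0 L := fun w hw => ⟨ha.trans_le hw.1, hw.2.trans_lt hb⟩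
  have hz1 : z t₁ = x₁ := chart_eq hc (hI hx₁) (Ioo_subset_Icc_self (hI (hz t₁ ⟨le_rfl, h12⟩).1))
    (by rw [(hz t₁ ⟨le_rfl, h12⟩).2, h1])
  have hz2 : z t₂ = x₂ := chart_eq hc (hI hx₂) (Ioo_subset_Icc_self (hI (hz t₂ ⟨h12, le_rfl⟩).1))
    (by rw [(hz t₂ ⟨h12, le_rfl⟩).2, h2])
  have := hzl t₁ ⟨le_rfl, h12⟩ t₂ ⟨h12, le_rfl⟩
  have hd : dist t₁ t₂ = (t₂ : ℝ) - t₁ := by
    rw [NNReal.dist_eq, abs_sub_comm, abs_of_nonneg (sub_nonneg.2 (by exact_mod_cast h12))]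
  rwa [hd, hz1, hz2] at this

/-- G3: excursion around a left tip -/
theorem left_tip (hc : IsChart c L) {p : ℝ≥0 → Q} (hp : LipschitzWith 1 p)
    (h0 : p 0 ∉ c '' Ioo 0 L) {s : ℝ≥0} (hs : p s ∉ c '' Ioo 0 L) {y κ : ℝ} (hy : y ∈ Ioo 0 L)
    (hκ : 0 < κ) (hyκ : y + κ ≤ L) (hit_y : hit p (c y) ≤ s)
    (gap : ∀ z ∈ Ioo y (y + κ), (s : ℝ≥0∞) < hit p (c z)) {δ : ℝ≥0} (hδ : 0 < δ)
    (hδy : (δ : ℝ) < y) :
    ∃ a b : ℝ≥0, a + 2 * δ ≤ b ∧ b ≤ s ∧ p a = c (y - δ) ∧ p b = c (y - δ) ∧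
      ∀ u ∈ Icc a b, p u ∈ c '' Icc (y - δ) y := by
  have hδ' : (0 : ℝ) < δ := by exact_mod_cast hδ
  obtain ⟨t₁, ht₁, hpt⟩ := (hit_le_iff hp.continuous).1 hit_y
  have hin : p t₁ ∈ c '' Ioo (y - δ) (y + κ / 2) := ⟨y, ⟨by linarith, by linarith⟩, hpt.symm⟩
  have hsub : c '' Ioo (y - δ) (y + κ / 2) ⊆ c '' Ioo 0 L :=
    image_mono (Ioo_subset_Ioo (by linarith) (by linarith))
  have hgap : ∀ u ≤ s, ∀ z ∈ Ioo y (y + κ), p u ≠ c z := fun u hu z hz h =>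
    (lt_hit_iff hp.continuous).1 (gap z hz) u hu h
  obtain ⟨a, ha, haend, haall⟩ := exit_left hc hp (by linarith) (by linarith) zero_le hin
    (fun h => h0 (hsub h))
  obtain ⟨b, hb, hbend, hball⟩ := exit_right hc hp (by linarith) (by linarith) ht₁ hin
    (fun h => hs (hsub h))
  have hpa : p a = c (y - δ) := haend.resolve_right
    (hgap a (ha.2.le.trans ht₁) _ ⟨by linarith, by linarith⟩)
  have hpb : p b = c (y - δ) := hbend.resolve_right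
    (hgap b hb.2 _ ⟨by linarith, by linarith⟩)
  have hall : ∀ u ∈ Icc a b, p u ∈ c '' Icc (y - δ) y := by
    intro u hu
    rcases hu.1.eq_or_lt with h | h
    · exact ⟨y - δ, ⟨le_rfl, by linarith⟩, by rw [← h, hpa]⟩
    rcases hu.2.eq_or_lt with h' | h'
    · exact ⟨y - δ, ⟨le_rfl, by linarith⟩, by rw [h', hpb]⟩
    have hmem : p u ∈ c '' Ioo (y - δ) (y + κ / 2) := by
      rcases le_total u t₁ with hu' | hu'
      · exact haall u ⟨h, hu'⟩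
      · exact hball u ⟨hu', h'⟩
    obtain ⟨z, hz, hz'⟩ := hmem
    refine ⟨z, ⟨hz.1.le, ?_⟩, hz'⟩
    by_contra hcon
    push Not at hcon
    exact hgap u (hu.2.trans hb.2) z ⟨hcon, by linarith [hz.2]⟩ hz'.symm
  refine ⟨a, b, ?_, hb.2, hpa, hpb, hall⟩
  have hm : y - δ ∈ Icc (y - δ : ℝ) y := ⟨le_rfl, by linarith⟩
  have hm' : y ∈ Icc (y - δ : ℝ) y := ⟨by linarith, le_rfl⟩
  have e1 := coord_time hc hp (by linarith) hy.2 ha.2.le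
    (fun u hu => hall u ⟨hu.1, hu.2.trans hb.1.le⟩) hm hm' hpa hpt
  have e2 := coord_time hc hp (by linarith) hy.2 hb.1.le
    (fun u hu => hall u ⟨ha.2.le.trans hu.1, hu.2⟩) hm' hm hpt hpb
  rw [show y - δ - y = -(δ : ℝ) by ring, abs_neg, abs_of_nonneg hδ'.le] at e1
  rw [show y - (y - δ) = (δ : ℝ) by ring, abs_of_nonneg hδ'.le] at e2
  rw [← NNReal.coe_le_coe]
  push_cast
  linarith

end Geo

end Pool.Agent.Gal
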