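import Pool.Agent.Helper77.Gal.Geo2

/-!
# Left neighbours of a visited point (module GAL-G4)
-/

open Set MeasureTheory Filter Topology
open scoped ENNReal NNReal

namespace Pool.Agent.Gal

section Geo

variable {Q : Type} [MetricSpace Q] {c : ℝ → Q} {L : ℝ}

/-- G4: if arbitrarily close left neighbours of `c y` are visited soon, then all of them are -/
theorem nearby (hc : IsChart c L) {p : ℝ≥0 → Q} (hp : LipschitzWith 1 p) {y : ℝ}
    (hy : y ∈ Ioo 0 L) {τ : ℝ≥0} (hτ : hit p (c y) = τ)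
    (h : ∀ δ ∈ Ioo 0 y, ∀ η : ℝ≥0, 0 < η → ∃ x ∈ Ioo (y - δ) y, hit p (c x) < τ + η) :
    ∀ η : ℝ≥0, 0 < η → ∃ δ ∈ Ioo 0 y, ∀ x ∈ Ioo (y - δ) y, hit p (c x) ≤ τ + η := by
  intro η hη
  have hη' : (0 : ℝ) < η := by exact_mod_cast hη
  obtain ⟨τ', h1, hpτ⟩ := exists_hit hp.continuous (H := c y) (by rw [hτ]; exact ENNReal.coe_ne_top)
  obtain rfl : τ = τ' := by rw [hτ] at h1; exact_mod_cast h1
  have hρ : 0 < min y (L - y) := lt_min hy.1 (by linarith [hy.2])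
  obtain ⟨ρ, hρ1, hρ2, hρ3⟩ : ∃ ρ : ℝ≥0, 0 < ρ ∧ (ρ : ℝ) < min y (L - y) ∧ ρ ≤ η := by
    obtain ⟨r, hr1, hr2⟩ := exists_between (lt_min hρ hη')
    have hr0 : (0 : ℝ) ≤ r := hr1.le
    refine ⟨r.toNNReal, Real.toNNReal_pos.2 hr1, ?_, ?_⟩
    · rw [Real.coe_toNNReal r hr0]
      exact (lt_min_iff.1 hr2).1
    · rw [Real.toNNReal_le_iff_le_coe]
      exact (lt_min_iff.1 hr2).2.le
  have hρ' : (0 : ℝ) < ρ := by exact_mod_cast hρ1
  -- the path is far from `c y` before time `τ - ρ`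
  obtain ⟨d, hd, hfar⟩ : ∃ d : ℝ, 0 < d ∧ ∀ u : ℝ≥0, u + ρ ≤ τ → d ≤ dist (p u) (c y) := by
    rcases lt_or_ge τ ρ with hlt | hge
    · refine ⟨1, one_pos, fun u hu => ?_⟩
      exact absurd ((le_add_self).trans hu) (not_le.2 hlt)
    have hK : IsCompact (Icc (0 : ℝ≥0) (τ - ρ)) := isCompact_Icc
    have hcont : ContinuousOn (fun u => dist (p u) (c y)) (Icc (0 : ℝ≥0) (τ - ρ)) :=
      (hp.continuous.dist continuous_const).continuousOn
    obtain ⟨u₀, hu₀, hmin⟩ := hK.exists_isMinOn ⟨0, le_rfl, zero_le⟩ hcont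
    refine ⟨dist (p u₀) (c y), dist_pos.2 fun hh => ?_, fun u hu => ?_⟩
    · have h2 := hit_le hh
      rw [hτ] at h2
      have h3 : τ ≤ τ - ρ := (ENNReal.coe_le_coe.1 h2).trans hu₀.2
      have h4 : τ - ρ < τ := tsub_lt_self (hρ1.trans_le hge) hρ1
      exact absurd h3 (not_le.2 h4)
    · exact hmin ⟨zero_le, le_tsub_of_add_le_right hu⟩
  obtain ⟨δ₁, hδ₁, hδ₁', hδ₁d⟩ : ∃ δ₁ : ℝ, 0 < δ₁ ∧ δ₁ < y ∧ δ₁ ≤ d := by
    refine ⟨min (y / 2) d, lt_min (by linarith [hy.1]) hd, ?_, min_le_right _ _⟩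
    exact (min_le_left _ _).trans_lt (by linarith [hy.1])
  obtain ⟨x, hx, hxhit⟩ := h δ₁ ⟨hδ₁, hδ₁'⟩ ρ hρ1
  obtain ⟨t, ht, hpt⟩ := exists_hit hp.continuous (H := c x) (ne_top_of_lt hxhit)
  have hx0 : 0 < x := by linarith [hx.1]
  have hxL : x < L := hx.2.trans hy.2
  have ht1 : t < τ + ρ := by
    rw [ht] at hxhit
    exact_mod_cast hxhit
  have ht2 : τ < t + ρ := by
    by_contra hcon
    push Not at hcon
    have h3 := hfar t hcon
    rw [hpt] at h3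
    have h4 := hc.lip x ⟨hx0.le, hxL.le⟩ y ⟨hy.1.le, hy.2.le⟩
    have h5 : |x - y| < δ₁ := by rw [abs_lt]; constructor <;> linarith [hx.1, hx.2]
    linarith
  have ht1' : (t : ℝ) < τ + ρ := by exact_mod_cast ht1
  have ht2' : (τ : ℝ) < t + ρ := by exact_mod_cast ht2
  -- all times between
  have hloc : ∀ u ∈ Icc (min t τ) (max t τ), p u ∈ c '' Icc (y - ρ) (y + ρ) := by
    intro u hu
    have hu1 : ((min t τ : ℝ≥0) : ℝ) ≤ u := by exact_mod_cast hu.1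
    have hu2 : (u : ℝ) ≤ ((max t τ : ℝ≥0) : ℝ) := by exact_mod_cast hu.2
    have hmin : (τ : ℝ) - ρ < ((min t τ : ℝ≥0) : ℝ) := by
      rw [NNReal.coe_min]; exact lt_min (by linarith) (by linarith)
    have hmax : ((max t τ : ℝ≥0) : ℝ) < τ + ρ := by
      rw [NNReal.coe_max]; exact max_lt (by linarith) (by linarith)
    have hdist : dist τ u < ρ := by
      rw [NNReal.dist_eq, abs_lt]; constructor <;> linarith
    have h5 : dist (c y) (p u) < ρ := by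
      rw [← hpτ]; exact (dist_le_of_lip hp τ u).trans_lt hdist
    obtain ⟨z, hz, hz1, hz2⟩ := hc.opn y hy (p u) (h5.trans hρ2)
    rw [← hz2, abs_lt] at h5
    exact ⟨z, ⟨by linarith, by linarith⟩, hz1⟩
  have hyρ : 0 < y - ρ := by linarith [(lt_min_iff.1 hρ2).1]
  have hyρ' : y + ρ < L := by linarith [(lt_min_iff.1 hρ2).2]
  obtain ⟨z, hz, hzl⟩ := exists_coord hc hp hyρ hyρ' hloc
  have hcont : ContinuousOn z (uIcc t τ) := by
    have := coord_continuousOn hzl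
    simpa [uIcc] using this
  have htm : t ∈ Icc (min t τ) (max t τ) := ⟨min_le_left _ _, le_max_left _ _⟩
  have hτm : τ ∈ Icc (min t τ) (max t τ) := ⟨min_le_right _ _, le_max_right _ _⟩
  have hsub : Icc (y - ρ : ℝ) (y + ρ) ⊆ Icc 0 L := Icc_subset_Icc hyρ.le hyρ'.le
  have hzt : z t = x := chart_eq hc ⟨hx0, hxL⟩ (hsub (hz t htm).1) (by rw [(hz t htm).2, hpt])
  have hzτ : z τ = y := chart_eq hc hy (hsub (hz τ hτm).1) (by rw [(hz τ hτm).2, hpτ])
  refine ⟨y - x, ⟨by linarith [hx.2], by linarith⟩, fun x' hx' => ?_⟩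
  have hx'' : x' ∈ uIcc (z t) (z τ) := by
    rw [hzt, hzτ, uIcc_of_le hx.2.le]
    exact ⟨by linarith [hx'.1], hx'.2.le⟩
  obtain ⟨u, hu, hu'⟩ := intermediate_value_uIcc hcont hx''
  have hum : u ∈ Icc (min t τ) (max t τ) := hu
  have hpu : p u = c x' := by rw [← (hz u hum).2, hu']
  refine (hit_le hpu).trans ?_
  have : u ≤ τ + η := by
    refine hum.2.trans (max_le ?_ (by simp))
    exact ht1.le.trans (by gcongr)
  exact_mod_cast this

end Geo

end Pool.Agent.Gal
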