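import Pool.Agent.Helper77.Gal.Defs

/-!
# Hitting times, gluing, shifting and reversing paths
-/

open Set MeasureTheory Filter Topology
open scoped ENNReal NNReal

namespace Pool.Agent.Gal

set_option linter.unusedSectionVars false

variable {Q : Type*} [MetricSpace Q]

/-! ### Hitting times -/

theorem hit_le {p : ℝ≥0 → Q} {H : Q} {t : ℝ≥0} (h : p t = H) : hit p H ≤ t :=
  iInf₂_le t h

theorem lt_hit_of {p : ℝ≥0 → Q} {H : Q} {t : ℝ≥0} (h : (t : ℝ≥0∞) < hit p H) : p t ≠ H :=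
  fun h' => absurd (hit_le h') (not_le.2 h)

/-- a finite hitting time is attained -/
theorem exists_hit {p : ℝ≥0 → Q} (hp : Continuous p) {H : Q} (h : hit p H ≠ ∞) :
    ∃ t : ℝ≥0, hit p H = t ∧ p t = H := by
  classical
  have hne : ∃ t, p t = H := by
    by_contra hcon
    push Not at hcon
    exact h (by simp [hit, hcon])
  obtain ⟨t₀, ht₀⟩ := hne
  let S : Set ℝ≥0 := {t | p t = H}
  have hS : IsClosed S := isClosed_eq hp continuous_const
  have hbd : BddBelow S := OrderBot.bddBelow S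
  have hmem : sInf S ∈ S := hS.csInf_mem ⟨t₀, ht₀⟩ hbd
  refine ⟨sInf S, le_antisymm (hit_le hmem) ?_, hmem⟩
  refine le_iInf₂ fun t ht => ?_
  exact ENNReal.coe_le_coe.2 (csInf_le hbd ht)

theorem hit_le_iff {p : ℝ≥0 → Q} (hp : Continuous p) {H : Q} {t : ℝ≥0} :
    hit p H ≤ t ↔ ∃ u ≤ t, p u = H := by
  constructor
  · intro h
    obtain ⟨u, hu, hu'⟩ := exists_hit hp (ne_top_of_le_ne_top ENNReal.coe_ne_top h)
    exact ⟨u, ENNReal.coe_le_coe.1 (hu ▸ h), hu'⟩
  · rintro ⟨u, hu, hu'⟩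
    exact (hit_le hu').trans (ENNReal.coe_le_coe.2 hu)

theorem lt_hit_iff {p : ℝ≥0 → Q} (hp : Continuous p) {H : Q} {t : ℝ≥0} :
    (t : ℝ≥0∞) < hit p H ↔ ∀ u ≤ t, p u ≠ H := by
  rw [← not_le, hit_le_iff hp]
  push Not
  rfl

theorem le_hit_iff {p : ℝ≥0 → Q} {H : Q} {t : ℝ≥0∞} :
    t ≤ hit p H ↔ ∀ u : ℝ≥0, p u = H → t ≤ u := by
  simp [hit, le_iInf_iff]

theorem hit_zero {p : ℝ≥0 → Q} {H : Q} (h : p 0 = H) : hit p H = 0 :=
  le_antisymm (by simpa using hit_le h) zero_le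

theorem dist_le_of_lip {p : ℝ≥0 → Q} (hp : LipschitzWith 1 p) (s t : ℝ≥0) :
    dist (p s) (p t) ≤ dist s t := by
  simpa using hp.dist_le_mul s t

theorem lip_of_dist {p : ℝ≥0 → Q} (h : ∀ s t : ℝ≥0, s ≤ t → dist (p s) (p t) ≤ (t : ℝ) - s) :
    LipschitzWith 1 p := by
  refine LipschitzWith.of_dist_le_mul fun s t => ?_
  rcases le_total s t with hst | hst
  · have := h s t hst
    rw [NNReal.dist_eq, abs_sub_comm, abs_of_nonneg (by exact sub_nonneg.2 (by exact_mod_cast hst))]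
    simpa using this
  · have := h t s hst
    rw [dist_comm, NNReal.dist_eq, abs_of_nonneg (by exact sub_nonneg.2 (by exact_mod_cast hst))]
    simpa using this

theorem dist_le_sub {p : ℝ≥0 → Q} (hp : LipschitzWith 1 p) {s t : ℝ≥0} (h : s ≤ t) :
    dist (p s) (p t) ≤ (t : ℝ) - s := by
  have := dist_le_of_lip hp s t
  rwa [NNReal.dist_eq, abs_sub_comm,
    abs_of_nonneg (by exact sub_nonneg.2 (by exact_mod_cast h))] at this

/-- the hitting time is at least the distance -/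
theorem dist_le_hit {p : ℝ≥0 → Q} (hp : LipschitzWith 1 p) (H : Q) :
    ENNReal.ofReal (dist (p 0) H) ≤ hit p H := by
  rw [le_hit_iff]
  rintro u rfl
  have := dist_le_sub hp (zero_le (a := u))
  rw [ENNReal.ofReal_le_iff_le_toReal ENNReal.coe_ne_top]
  simpa using this

/-! ### Gluing -/

/-- follow `p` until time `τ`, then follow `q` -/
noncomputable def glue (p : ℝ≥0 → Q) (τ : ℝ≥0) (q : ℝ≥0 → Q) : ℝ≥0 → Q :=
  fun t => if t ≤ τ then p t else q (t - τ)

theorem glue_of_le {p q : ℝ≥0 → Q} {τ t : ℝ≥0} (h : t ≤ τ) : glue p τ q t = p t := by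
  simp [glue, h]

theorem glue_zero (p q : ℝ≥0 → Q) (τ : ℝ≥0) : glue p τ q 0 = p 0 := glue_of_le zero_le

theorem glue_add {p q : ℝ≥0 → Q} {τ : ℝ≥0} (h : p τ = q 0) (t : ℝ≥0) :
    glue p τ q (τ + t) = q t := by
  rcases eq_or_ne t 0 with rfl | ht
  · simp [glue, h]
  · have : ¬ τ + t ≤ τ := by
      intro h'
      exact ht (le_antisymm (by simpa using h') zero_le)
    simp only [glue, this, if_false, add_tsub_cancel_left]

theorem glue_lip {p q : ℝ≥0 → Q} (hp : LipschitzWith 1 p) (hq : LipschitzWith 1 q) {τ : ℝ≥0}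
    (h : p τ = q 0) : LipschitzWith 1 (glue p τ q) := by
  apply lip_of_dist
  intro s t hst
  rcases le_total t τ with ht | ht
  · rw [glue_of_le ht, glue_of_le (hst.trans ht)]
    exact dist_le_sub hp hst
  obtain ⟨b, rfl⟩ := exists_add_of_le ht
  rw [glue_add h]
  rcases le_total s τ with hs | hs
  · rw [glue_of_le hs]
    have h1 := dist_le_sub hp hs
    have h2 := dist_le_sub hq (zero_le (a := b))
    have h3 := dist_triangle (p s) (p τ) (q b)
    rw [h] at h3 h1
    push_cast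
    simp only [NNReal.coe_zero, sub_zero] at h2
    linarith
  · obtain ⟨a, rfl⟩ := exists_add_of_le hs
    rw [glue_add h]
    have hab : a ≤ b := by simpa using hst
    have h2 := dist_le_sub hq hab
    push_cast
    linarith

theorem hit_glue_le {p q : ℝ≥0 → Q} {τ : ℝ≥0} (h : p τ = q 0) (H : Q) :
    hit (glue p τ q) H ≤ τ + hit q H := by
  rw [hit, hit, ENNReal.add_iInf₂]
  · refine le_iInf₂ fun t ht => ?_
    have := iInf₂_le (f := fun (t : ℝ≥0) (_ : glue p τ q t = H) => (t : ℝ≥0∞)) (τ + t)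
      (by rw [glue_add h, ht])
    simpa using this

theorem hit_glue_le_left {p q : ℝ≥0 → Q} (hp : Continuous p) {τ : ℝ≥0} {H : Q}
    (h : hit p H ≤ τ) : hit (glue p τ q) H ≤ hit p H := by
  obtain ⟨t, ht, ht'⟩ := exists_hit hp (ne_top_of_le_ne_top ENNReal.coe_ne_top h)
  rw [ht] at h ⊢
  exact hit_le (by rw [glue_of_le (ENNReal.coe_le_coe.1 h), ht'])

/-! ### Shifting -/

/-- the path `p` from time `τ` on -/
def shift (p : ℝ≥0 → Q) (τ : ℝ≥0) : ℝ≥0 → Q := fun t => p (τ + t)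

@[simp] theorem shift_zero' (p : ℝ≥0 → Q) (τ : ℝ≥0) : shift p τ 0 = p τ := by simp [shift]

theorem shift_lip {p : ℝ≥0 → Q} (hp : LipschitzWith 1 p) (τ : ℝ≥0) :
    LipschitzWith 1 (shift p τ) := by
  apply lip_of_dist
  intro s t hst
  have := dist_le_sub hp (add_le_add_right hst τ)
  simp only [shift]
  push_cast at this
  linarith

theorem hit_le_shift (p : ℝ≥0 → Q) (τ : ℝ≥0) (H : Q) : hit p H ≤ τ + hit (shift p τ) H := by
  rw [hit, hit, ENNReal.add_iInf₂]
  refine le_iInf₂ fun t ht => ?_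
  have := iInf₂_le (f := fun (t : ℝ≥0) (_ : p t = H) => (t : ℝ≥0∞)) (τ + t) ht
  simpa using this

theorem hit_shift {p : ℝ≥0 → Q} {τ : ℝ≥0} {H : Q} (h : (τ : ℝ≥0∞) ≤ hit p H) :
    hit p H = τ + hit (shift p τ) H := by
  refine le_antisymm (hit_le_shift p τ H) ?_
  rw [le_hit_iff] at h ⊢
  intro u hu
  obtain ⟨b, rfl⟩ := exists_add_of_le (ENNReal.coe_le_coe.1 (h u hu))
  have : hit (shift p τ) H ≤ b := hit_le hu
  rw [ENNReal.coe_add]
  gcongr

/-! ### Reversing -/

/-- the path `p` on `[0, s]` in reversed direction, constant afterwards -/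
def rev (p : ℝ≥0 → Q) (s : ℝ≥0) : ℝ≥0 → Q := fun t => p (s - t)

@[simp] theorem rev_zero' (p : ℝ≥0 → Q) (s : ℝ≥0) : rev p s 0 = p s := by simp [rev]

@[simp] theorem rev_self (p : ℝ≥0 → Q) (s : ℝ≥0) : rev p s s = p 0 := by simp [rev]

theorem rev_lip {p : ℝ≥0 → Q} (hp : LipschitzWith 1 p) (s : ℝ≥0) :
    LipschitzWith 1 (rev p s) := by
  refine LipschitzWith.of_dist_le_mul fun a b => ?_
  have h1 := dist_le_of_lip hp (s - a) (s - b)
  have h2 : dist (s - a) (s - b) ≤ dist a b := by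
    rw [NNReal.dist_eq, NNReal.dist_eq]
    rcases le_total s a with ha | ha <;> rcases le_total s b with hb | hb
    · simp [tsub_eq_zero_of_le ha, tsub_eq_zero_of_le hb]
    · rw [tsub_eq_zero_of_le ha, NNReal.coe_sub hb]
      have : (s : ℝ) ≤ a := by exact_mod_cast ha
      have : (b : ℝ) ≤ s := by exact_mod_cast hb
      rw [abs_of_nonpos (by push_cast; linarith), abs_of_nonneg (by linarith)]
      push_cast; linarith
    · rw [tsub_eq_zero_of_le hb, NNReal.coe_sub ha]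
      have : (s : ℝ) ≤ b := by exact_mod_cast hb
      have : (a : ℝ) ≤ s := by exact_mod_cast ha
      rw [abs_of_nonneg (by push_cast; linarith), abs_of_nonpos (by linarith)]
      push_cast; linarith
    · rw [NNReal.coe_sub ha, NNReal.coe_sub hb]
      apply le_of_eq
      rw [show (s : ℝ) - a - (s - b) = -(a - b) by ring, abs_neg]
  simpa [rev] using h1.trans h2

theorem hit_rev_le {p : ℝ≥0 → Q} {s t : ℝ≥0} (h : t ≤ s) : hit (rev p s) (p t) ≤ (s - t : ℝ≥0) :=
  hit_le (by simp [rev, tsub_tsub_cancel_of_le h])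

/-! ### Cutting -/

/-- cut the time interval `[a, b]` out of the path -/
noncomputable def cut (p : ℝ≥0 → Q) (a b : ℝ≥0) : ℝ≥0 → Q := glue p a (shift p b)

theorem cut_lip {p : ℝ≥0 → Q} (hp : LipschitzWith 1 p) {a b : ℝ≥0} (h : p a = p b) :
    LipschitzWith 1 (cut p a b) := glue_lip hp (shift_lip hp b) (by simp [h])

theorem hit_cut_le {p : ℝ≥0 → Q} (hp : Continuous p) {a b : ℝ≥0} {H : Q}
    (h : hit p H ≤ a) : hit (cut p a b) H ≤ hit p H := hit_glue_le_left hp h

theorem hit_cut_of_le {p : ℝ≥0 → Q} {a b : ℝ≥0} (hab : p a = p b) {H : Q}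
    (h : (b : ℝ≥0∞) ≤ hit p H) : hit (cut p a b) H + b ≤ hit p H + a := by
  have h1 := hit_glue_le (p := p) (q := shift p b) (τ := a) (by simp [hab]) H
  have h2 := hit_shift h
  calc hit (cut p a b) H + b ≤ (a + hit (shift p b) H) + b := by gcongr; exact h1
    _ = (b + hit (shift p b) H) + a := by ring
    _ = hit p H + a := by rw [← h2]

/-! ### Lower semicontinuity -/

theorem lowerSemicontinuous_hit {p : ℝ≥0 → Q} (hp : Continuous p) :
    LowerSemicontinuous (hit p) := by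
  intro H y hy
  rcases eq_or_ne y ∞ with rfl | hytop
  · exact absurd hy (by simp)
  lift y to ℝ≥0 using hytop
  have h1 := (lt_hit_iff hp).1 hy
  have hK : IsCompact (p '' Icc 0 y) := isCompact_Icc.image hp
  have hH : H ∉ p '' Icc 0 y := by
    rintro ⟨u, hu, rfl⟩
    exact h1 u hu.2 rfl
  filter_upwards [hK.isClosed.isOpen_compl.mem_nhds hH] with H' hH'
  rw [gt_iff_lt, lt_hit_iff hp]
  intro u hu hu'
  exact hH' ⟨u, ⟨zero_le, hu⟩, hu'⟩

theorem measurable_hit [MeasurableSpace Q] [BorelSpace Q] {p : ℝ≥0 → Q} (hp : Continuous p) :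
    Measurable (hit p) := (lowerSemicontinuous_hit hp).measurable

end Pool.Agent.Gal
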