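import Mathlib

/-!
# A 1-Lipschitz lift of a 1-Lipschitz curve in the circle (module GAL-L1)
-/

open Set

namespace Pool.Agent.Gal

/-- A function which is `1`-Lipschitz at small distances is `1`-Lipschitz. -/
theorem lipschitz_of_local {g : ℝ → ℝ} {δ : ℝ} (hδ : 0 < δ)
    (h : ∀ t t', |t - t'| ≤ δ → |g t - g t'| ≤ |t - t'|) : LipschitzWith 1 g := by
  have key : ∀ n : ℕ, ∀ t t' : ℝ, |t - t'| ≤ n * δ → |g t - g t'| ≤ |t - t'| := by
    intro n
    induction n with
    | zero =>
      intro t t' ht
      have : t = t' := by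
        have h0 : |t - t'| ≤ 0 := by simpa using ht
        exact sub_eq_zero.1 (abs_nonpos_iff.1 h0)
      simp [this]
    | succ n ih =>
      intro t t' ht
      push_cast at ht
      have hn : (0 : ℝ) < n + 1 := by positivity
      set m : ℝ := t + (t' - t) * (n / (n + 1)) with hm
      have h1 : t - m = (t - t') * (n / (n + 1)) := by rw [hm]; ring
      have h2 : m - t' = (t - t') * (1 / (n + 1)) := by rw [hm]; field_simp; ring
      have e1 : |t - m| = |t - t'| * (n / (n + 1)) := by
        rw [h1, abs_mul, abs_of_nonneg (show (0 : ℝ) ≤ n / (n + 1) by positivity)]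
      have e2 : |m - t'| = |t - t'| * (1 / (n + 1)) := by
        rw [h2, abs_mul, abs_of_nonneg (show (0 : ℝ) ≤ 1 / (n + 1) by positivity)]
      have b1 : |t - m| ≤ n * δ := by
        rw [e1]
        calc |t - t'| * (n / (n + 1)) ≤ (n + 1) * δ * (n / (n + 1)) :=
              mul_le_mul_of_nonneg_right ht (by positivity)
          _ = n * δ := by field_simp
      have b2 : |m - t'| ≤ δ := by
        rw [e2]
        calc |t - t'| * (1 / (n + 1)) ≤ (n + 1) * δ * (1 / (n + 1)) :=
              mul_le_mul_of_nonneg_right ht (by positivity)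
          _ = δ := by field_simp
      have c1 := ih t m b1
      have c2 := h m t' b2
      have c3 : |g t - g t'| ≤ |g t - g m| + |g m - g t'| := abs_sub_le _ _ _
      have c4 : |t - m| + |m - t'| = |t - t'| := by
        rw [e1, e2, ← mul_add]
        field_simp
      linarith
  refine LipschitzWith.of_dist_le_mul fun t t' => ?_
  rw [Real.dist_eq, Real.dist_eq, NNReal.coe_one, one_mul]
  obtain ⟨n, hn⟩ := exists_nat_ge (|t - t'| / δ)
  exact key n t t' ((div_le_iff₀ hδ).1 hn)

/-- L1: a `1`-Lipschitz curve in the circle `ℝ / Lℤ` lifts to a `1`-Lipschitz real function. -/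
theorem exists_lift {L : ℝ} (hL : 0 < L) {f : ℝ → AddCircle L} (hf : LipschitzWith 1 f) :
    ∃ g : ℝ → ℝ, LipschitzWith 1 g ∧ ∀ t, (g t : AddCircle L) = f t := by
  obtain ⟨x0, hx0⟩ := QuotientAddGroup.mk_surjective (f 0)
  obtain ⟨F, ⟨-, hF⟩, -⟩ := (AddCircle.isCoveringMap_coe L).existsUnique_continuousMap_lifts
    (A := ℝ) ⟨f, hf.continuous⟩ 0 x0 hx0
  have hF' : ∀ t, ((F t : ℝ) : AddCircle L) = f t := fun t => congrFun hF t
  refine ⟨F, ?_, hF'⟩
  have hnorm : ∀ x : ℝ, |x| ≤ L / 2 → ‖(x : AddCircle L)‖ = |x| := fun x hx => by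
    rw [AddCircle.norm_coe_eq_abs_iff _ hL.ne', abs_of_pos hL]
    exact hx
  have hd : ∀ t t' : ℝ, ‖((F t - F t' : ℝ) : AddCircle L)‖ ≤ |t - t'| := fun t t' => by
    have := hf.dist_le_mul t t'
    rw [← hF' t, ← hF' t', dist_eq_norm, ← AddCircle.coe_sub, Real.dist_eq] at this
    simpa using this
  have small : ∀ t t' : ℝ, |t - t'| < L / 2 → |F t - F t'| ≤ L / 2 := by
    intro t t' htt
    by_contra hcon
    push Not at hcon
    -- intermediate value
    have hcont : ContinuousOn (fun s => |F t - F s|) (uIcc t t') :=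
      (continuous_const.sub F.continuous).abs.continuousOn
    have hmem : L / 2 ∈ uIcc (|F t - F t|) (|F t - F t'|) := by
      rw [sub_self, abs_zero, uIcc_of_le (abs_nonneg _)]
      exact ⟨by linarith, hcon.le⟩
    obtain ⟨s, hs, hs2⟩ := intermediate_value_uIcc hcont hmem
    have h1 := hd t s
    simp only at hs2
    rw [hnorm _ hs2.le, hs2] at h1
    have h2 : |t - s| ≤ |t - t'| := by
      rw [abs_sub_comm t s, abs_sub_comm t t']
      exact abs_sub_left_of_mem_uIcc hs
    linarith
  refine lipschitz_of_local (δ := L / 4) (by linarith) fun t t' htt => ?_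
  have h1 := small t t' (by linarith)
  have h2 := hd t t'
  rwa [hnorm _ h1] at h2

end Pool.Agent.Gal
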