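import Pool.Agent.Helper77.Gal.CoreDefs

/-!
# Existence of an optimal mixed strategy of the searcher
-/

open Set MeasureTheory Filter Topology TopologicalSpace
open scoped ENNReal NNReal

namespace Pool.Agent.Gal

set_option linter.unusedSectionVars false

namespace Opt

/-! ### Portmanteau inequality for lower semicontinuous functions -/

section Lsc

variable {X : Type*} [TopologicalSpace X] [MeasurableSpace X] [BorelSpace X]

theorem lintegral_toReal_min_le [HasOuterApproxClosed X] {g : X → ℝ≥0∞}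
    (hg : ∀ t : ℝ≥0, IsOpen {x | (t : ℝ≥0∞) < g x}) {μ : ProbabilityMeasure X}
    {μs : ℕ → ProbabilityMeasure X} (h : Tendsto μs atTop (𝓝 μ)) (n : ℕ) :
    ∫⁻ x, min (g x) n ∂(μ : Measure X) ≤
      liminf (fun k => ∫⁻ x, g x ∂(μs k : Measure X)) atTop := by
  let G : X → ℝ := fun x => (min (g x) n).toReal
  have hfin : ∀ x, min (g x) (n : ℝ≥0∞) ≠ ∞ := fun x =>
    ne_top_of_le_ne_top (ENNReal.natCast_ne_top n) (min_le_right _ _)
  have hG : ∀ x, ENNReal.ofReal (G x) = min (g x) n := fun x => ENNReal.ofReal_toReal (hfin x)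
  have hGnn : 0 ≤ G := fun x => ENNReal.toReal_nonneg
  have hopen : ∀ t : ℝ, 0 ≤ t → IsOpen {x | t < G x} := by
    intro t ht
    rcases lt_or_ge t n with htn | htn
    · have : {x | t < G x} = {x | ((t.toNNReal : ℝ≥0) : ℝ≥0∞) < g x} := by
        ext x
        change t < G x ↔ ENNReal.ofReal t < g x
        rw [← ENNReal.ofReal_lt_iff_lt_toReal ht (hfin x), lt_min_iff]
        constructor
        · exact fun h' => h'.1
        · refine fun h' => ⟨h', ?_⟩
          rw [ENNReal.ofReal_lt_iff_lt_toReal ht (ENNReal.natCast_ne_top n)]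
          simpa using htn
      rw [this]
      exact hg _
    · have : {x | t < G x} = ∅ := by
        rw [Set.eq_empty_iff_forall_notMem]
        intro x
        change ¬ t < G x
        rw [not_lt]
        refine le_trans ?_ htn
        have := ENNReal.toReal_mono (ENNReal.natCast_ne_top n) (min_le_right (g x) (n : ℝ≥0∞))
        simpa using this
      rw [this]
      exact isOpen_empty
  have hmeas : Measurable G := by
    apply measurable_of_Ioi
    intro t
    rcases lt_or_ge t 0 with ht | ht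
    · have : G ⁻¹' Ioi t = univ := by
        ext x
        simp only [mem_preimage, mem_Ioi, mem_univ, iff_true]
        exact lt_of_lt_of_le ht (hGnn x)
      rw [this]
      exact MeasurableSet.univ
    · exact (hopen t ht).measurableSet
  have key : ∀ ν : Measure X, ∫⁻ x, min (g x) n ∂ν = ∫⁻ t in Ioi (0 : ℝ), ν {x | t < G x} := by
    intro ν
    rw [← lintegral_eq_lintegral_meas_lt ν (Eventually.of_forall hGnn) hmeas.aemeasurable]
    simp only [hG]
  rw [key]
  calc ∫⁻ t in Ioi (0 : ℝ), (μ : Measure X) {x | t < G x}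
      ≤ ∫⁻ t in Ioi (0 : ℝ), liminf (fun k => (μs k : Measure X) {x | t < G x}) atTop := by
        apply setLIntegral_mono' measurableSet_Ioi
        intro t ht
        exact ProbabilityMeasure.le_liminf_measure_open_of_tendsto h (hopen t (le_of_lt ht))
    _ ≤ liminf (fun k => ∫⁻ t in Ioi (0 : ℝ), (μs k : Measure X) {x | t < G x}) atTop := by
        apply lintegral_liminf_le
        intro k
        exact Antitone.measurable (fun s t hst => measure_mono fun x hx => lt_of_le_of_lt hst hx)
    _ ≤ liminf (fun k => ∫⁻ x, g x ∂(μs k : Measure X)) atTop := by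
        refine liminf_le_liminf (Eventually.of_forall fun k => ?_)
        simp only [← key]
        exact lintegral_mono fun x => min_le_left _ _

theorem lintegral_le_liminf [HasOuterApproxClosed X] {g : X → ℝ≥0∞}
    (hg : ∀ t : ℝ≥0, IsOpen {x | (t : ℝ≥0∞) < g x}) {μ : ProbabilityMeasure X}
    {μs : ℕ → ProbabilityMeasure X} (h : Tendsto μs atTop (𝓝 μ)) :
    ∫⁻ x, g x ∂(μ : Measure X) ≤ liminf (fun k => ∫⁻ x, g x ∂(μs k : Measure X)) atTop := by
  have hmeas : Measurable g := by
    apply measurable_of_Ioi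
    intro t
    rcases eq_or_ne t ∞ with rfl | ht
    · simp
    · lift t to ℝ≥0 using ht
      exact (hg t).measurableSet
  have h1 : ∀ x, g x = ⨆ n : ℕ, min (g x) n := by
    intro x
    apply le_antisymm
    · rcases eq_or_ne (g x) ∞ with hx | hx
      · rw [hx]
        simp only [top_le_iff, min_top_left]
        exact ENNReal.iSup_natCast
      · obtain ⟨n, hn⟩ := ENNReal.exists_nat_gt hx
        refine le_trans ?_ (le_iSup _ n)
        exact le_min le_rfl hn.le
    · exact iSup_le fun n => min_le_left _ _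
  calc ∫⁻ x, g x ∂(μ : Measure X) = ∫⁻ x, ⨆ n : ℕ, min (g x) n ∂(μ : Measure X) := by
        congr 1
        ext x
        exact h1 x
    _ = ⨆ n : ℕ, ∫⁻ x, min (g x) n ∂(μ : Measure X) := by
        apply lintegral_iSup
        · exact fun n => hmeas.min measurable_const
        · intro m n hmn x
          exact min_le_min le_rfl (by exact_mod_cast hmn)
    _ ≤ _ := iSup_le fun n => lintegral_toReal_min_le hg h n

end Lsc

/-! ### The compact space of paths -/

section Paths

variable {Q : Type} [MetricSpace Q]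

/-- a dense sequence of times -/
noncomputable def d : ℕ → ℝ≥0 := denseSeq ℝ≥0

/-- restrictions of paths to the dense sequence of times -/
def Xs (O : Q) : Set (ℕ → Q) :=
  {f | (∀ i j, dist (f i) (f j) ≤ dist (d i) (d j)) ∧ ∀ i, dist (f i) O ≤ d i}

theorem isClosed_Xs (O : Q) : IsClosed (Xs O) := by
  have : Xs O = (⋂ i, ⋂ j, {f : ℕ → Q | dist (f i) (f j) ≤ dist (d i) (d j)}) ∩
      ⋂ i, {f : ℕ → Q | dist (f i) O ≤ d i} := by
    ext f
    simp only [mem_inter_iff, mem_iInter]
    exact Iff.rfl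
  rw [this]
  apply IsClosed.inter
  · refine isClosed_iInter fun i => isClosed_iInter fun j => ?_
    exact isClosed_le ((continuous_apply i).dist (continuous_apply j)) continuous_const
  · refine isClosed_iInter fun i => ?_
    exact isClosed_le ((continuous_apply i).dist continuous_const) continuous_const

/-- indices of times close to `t` -/
theorem exists_idx (t : ℝ≥0) (n : ℕ) : ∃ i, dist (d i) t < 1 / ((n : ℝ) + 1) := by
  have h := (denseRange_denseSeq ℝ≥0).exists_dist_lt t (ε := 1 / ((n : ℝ) + 1)) (by positivity)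
  obtain ⟨i, hi⟩ := h
  exact ⟨i, by rw [dist_comm]; exact hi⟩

/-- indices of times close to `t` -/
noncomputable def idx (t : ℝ≥0) (n : ℕ) : ℕ := (exists_idx t n).choose

theorem idx_spec (t : ℝ≥0) (n : ℕ) : dist (d (idx t n)) t < 1 / ((n : ℝ) + 1) :=
  (exists_idx t n).choose_spec

theorem tendsto_idx (t : ℝ≥0) : Tendsto (fun n => d (idx t n)) atTop (𝓝 t) := by
  rw [tendsto_iff_dist_tendsto_zero]
  exact squeeze_zero (fun n => dist_nonneg) (fun n => (idx_spec t n).le)
    tendsto_one_div_add_atTop_nhds_zero_nat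

variable [CompactSpace Q]

theorem exists_lim {O : Q} (f : Xs O) (t : ℝ≥0) :
    ∃ q, Tendsto (fun n => f.1 (idx t n)) atTop (𝓝 q) := by
  apply cauchySeq_tendsto_of_complete
  have h := (tendsto_idx t).cauchySeq
  rw [Metric.cauchySeq_iff] at h ⊢
  intro ε hε
  obtain ⟨N, hN⟩ := h ε hε
  exact ⟨N, fun m hm n hn => lt_of_le_of_lt (f.2.1 _ _) (hN m hm n hn)⟩

/-- extension to a path -/
noncomputable def ext {O : Q} (f : Xs O) (t : ℝ≥0) : Q := (exists_lim f t).choose

theorem tendsto_ext {O : Q} (f : Xs O) (t : ℝ≥0) :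
    Tendsto (fun n => f.1 (idx t n)) atTop (𝓝 (ext f t)) := (exists_lim f t).choose_spec

theorem ext_lip {O : Q} (f : Xs O) : LipschitzWith 1 (ext f) := by
  refine LipschitzWith.of_dist_le_mul fun s t => ?_
  have h1 := (tendsto_ext f s).dist (tendsto_ext f t)
  have h2 := (tendsto_idx s).dist (tendsto_idx t)
  have h3 := le_of_tendsto_of_tendsto' h1 h2 fun n => f.2.1 _ _
  simpa using h3

theorem ext_zero {O : Q} (f : Xs O) : ext f 0 = O := by
  have h1 := (tendsto_ext f 0).dist (tendsto_const_nhds (x := O))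
  have h2 : Tendsto (fun n => ((d (idx 0 n) : ℝ≥0) : ℝ)) atTop (𝓝 0) := by
    have := (NNReal.continuous_coe.tendsto 0).comp (tendsto_idx 0)
    rw [NNReal.coe_zero] at this
    exact this
  have h3 := le_of_tendsto_of_tendsto' h1 h2 fun n => f.2.2 _
  exact dist_le_zero.1 h3

theorem dist_ext_le {O : Q} (f : Xs O) (t : ℝ≥0) (i : ℕ) :
    dist (ext f t) (f.1 i) ≤ dist t (d i) := by
  have h1 := (tendsto_ext f t).dist (tendsto_const_nhds (x := f.1 i))
  have h2 := (tendsto_idx t).dist (tendsto_const_nhds (x := d i))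
  exact le_of_tendsto_of_tendsto' h1 h2 fun n => f.2.1 _ _

/-- a path as a point of the compact space -/
noncomputable def res {O : Q} (S : PathFrom O) : Xs O :=
  ⟨fun i => S.1 (d i), fun i j => by simpa using S.2.2.dist_le_mul (d i) (d j), fun i => by
    have := S.2.2.dist_le_mul (d i) 0
    rw [S.2.1] at this
    simpa [NNReal.dist_eq] using this⟩

theorem ext_res {O : Q} (S : PathFrom O) : ext (res S) = S.1 := by
  funext t
  refine tendsto_nhds_unique (tendsto_ext (res S) t) ?_
  exact (S.2.2.continuous.tendsto t).comp (tendsto_idx t)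

/-- the path of a point of the compact space -/
noncomputable def path {O : Q} (f : Xs O) : PathFrom O := ⟨ext f, ext_zero f, ext_lip f⟩

theorem isOpen_hit {O : Q} (H : Q) (t : ℝ≥0) :
    IsOpen {f : Xs O | (t : ℝ≥0∞) < hit (ext f) H} := by
  rw [isOpen_iff_mem_nhds]
  intro f₀ hf₀
  have h0 := (lt_hit_iff (ext_lip f₀).continuous).1 hf₀
  have hK : IsCompact (ext f₀ '' Icc 0 t) := isCompact_Icc.image (ext_lip f₀).continuous
  have hH : H ∉ ext f₀ '' Icc 0 t := by
    rintro ⟨u, hu, rfl⟩
    exact h0 u hu.2 rfl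
  obtain ⟨r, hr, hball⟩ := Metric.isOpen_iff.1 hK.isClosed.isOpen_compl H hH
  have hdist : ∀ u ≤ t, r ≤ dist (ext f₀ u) H := by
    intro u hu
    by_contra hlt
    push Not at hlt
    exact hball hlt ⟨u, ⟨zero_le, hu⟩, rfl⟩
  obtain ⟨I, hI⟩ := (isCompact_Icc (a := (0 : ℝ≥0)) (b := t)).elim_finite_subcover
    (fun i : ℕ => Metric.ball (d i) (r / 4)) (fun i => Metric.isOpen_ball) (by
      intro u _
      obtain ⟨i, hi⟩ := (denseRange_denseSeq ℝ≥0).exists_dist_lt u (show 0 < r / 4 by linarith)
      exact mem_iUnion.2 ⟨i, hi⟩)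
  have hnhds : {f : Xs O | ∀ i ∈ I, dist (f.1 i) (f₀.1 i) < r / 4} ∈ 𝓝 f₀ := by
    have : {f : Xs O | ∀ i ∈ I, dist (f.1 i) (f₀.1 i) < r / 4} =
        ⋂ i ∈ I, {f : Xs O | dist (f.1 i) (f₀.1 i) < r / 4} := by
      ext f; simp
    rw [this, biInter_finset_mem]
    intro i _
    apply IsOpen.mem_nhds
    · exact isOpen_lt (((continuous_apply i).comp continuous_subtype_val).dist continuous_const)
        continuous_const
    · change dist (f₀.1 i) (f₀.1 i) < r / 4
      rw [dist_self]
      linarith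
  filter_upwards [hnhds] with f hf
  refine (lt_hit_iff (ext_lip f).continuous).2 ?_
  intro u hu hcon
  obtain ⟨i, hi, hui⟩ : ∃ i ∈ I, u ∈ Metric.ball (d i) (r / 4) := by
    have := hI ⟨zero_le, hu⟩
    simpa using this
  have h1 := dist_ext_le f u i
  have h2 := dist_ext_le f₀ u i
  have h3 := hf i hi
  rw [Metric.mem_ball] at hui
  have h4 := hdist u hu
  have h5 : dist (ext f₀ u) H ≤ dist (ext f₀ u) (f₀.1 i) + dist (f₀.1 i) (f.1 i) +
      dist (f.1 i) (ext f u) := by
    rw [← hcon]
    exact dist_triangle4 _ _ _ _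
  rw [dist_comm (f₀.1 i), dist_comm (f.1 i) (ext f u)] at h5
  linarith

variable [MeasurableSpace Q] [BorelSpace Q]

theorem measurable_res {O : Q} : Measurable (res : PathFrom O → Xs O) := by
  apply Measurable.subtype_mk
  rw [measurable_pi_iff]
  intro i
  exact (measurable_pi_apply (d i)).comp measurable_subtype_coe

theorem measurable_path {O : Q} : Measurable (path : Xs O → PathFrom O) := by
  apply Measurable.subtype_mk
  rw [measurable_pi_iff]
  intro t
  refine measurable_of_tendsto_metrizable (f := fun n (f : Xs O) => f.1 (idx t n)) ?_ ?_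
  · intro n
    exact (measurable_pi_apply _).comp measurable_subtype_coe
  · rw [tendsto_pi_nhds]
    exact fun f => tendsto_ext f t

end Paths

end Opt

open Opt in
/-- OPT -/
theorem exists_optimal {Q : Type} [MetricSpace Q] [CompactSpace Q] [MeasurableSpace Q]
    [BorelSpace Q] (O : Q) (V : ℝ)
    (h : ∀ ε : ℝ, 0 < ε → ∃ σ : Measure (PathFrom O), IsProbabilityMeasure σ ∧
      ∀ H : Q, ∫⁻ S, hit S.1 H ∂σ ≤ ENNReal.ofReal (V + ε)) :
    ∃ σ : Measure (PathFrom O), IsProbabilityMeasure σ ∧
      ∀ H : Q, ∫⁻ S, hit S.1 H ∂σ ≤ ENNReal.ofReal V := by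
  have : CompactSpace (Xs O) := isCompact_iff_compactSpace.1 (isClosed_Xs O).isCompact
  choose σ hσ hσ' using fun n : ℕ => h (1 / ((n : ℝ) + 1)) (by positivity)
  let μs : ℕ → ProbabilityMeasure (Xs O) := fun n =>
    ⟨(σ n).map res, Measure.isProbabilityMeasure_map measurable_res.aemeasurable⟩
  obtain ⟨μ, φ, hφ, hlim⟩ := SeqCompactSpace.tendsto_subseq μs
  refine ⟨(μ : Measure (Xs O)).map path,
    Measure.isProbabilityMeasure_map measurable_path.aemeasurable, fun H => ?_⟩
  have h1 : ∫⁻ S, hit S.1 H ∂((μ : Measure (Xs O)).map path) ≤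
      ∫⁻ f, hit (ext f) H ∂(μ : Measure (Xs O)) := lintegral_map_le _ _
  refine h1.trans ?_
  refine (lintegral_le_liminf (isOpen_hit H) hlim).trans ?_
  have h2 : ∀ k, ∫⁻ f, hit (ext f) H ∂((μs ∘ φ) k : Measure (Xs O)) ≤
      ENNReal.ofReal (V + 1 / ((φ k : ℝ) + 1)) := by
    intro k
    refine le_trans (lintegral_map_le _ _) ?_
    refine le_trans (le_of_eq ?_) (hσ' (φ k) H)
    congr 1
    ext S
    rw [ext_res]
  have h3 : Tendsto (fun k => ENNReal.ofReal (V + 1 / ((φ k : ℝ) + 1))) atTop
      (𝓝 (ENNReal.ofReal V)) := by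
    apply (ENNReal.continuous_ofReal.tendsto V).comp
    have h4 : Tendsto (fun k : ℕ => 1 / ((φ k : ℝ) + 1)) atTop (𝓝 0) :=
      tendsto_one_div_add_atTop_nhds_zero_nat.comp hφ.tendsto_atTop
    simpa using (tendsto_const_nhds (x := V)).add h4
  rw [← h3.liminf_eq]
  exact liminf_le_liminf (Eventually.of_forall h2)

end Pool.Agent.Gal
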