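import Pool.Agent.Helper77.Gal.CoreDefs

/-!
# R1-R3: retraction onto the rest of the network and the two types of paths
-/

open Set MeasureTheory Filter Topology
open scoped ENNReal NNReal

namespace Pool.Agent.Gal

namespace Pend

variable {Q : Type} [MetricSpace Q] (K : Pend Q)

theorem zero_mem_Icc : (0 : ℝ) ∈ Icc 0 K.l := ⟨le_rfl, K.l_pos.le⟩

theorem l_mem_Icc : K.l ∈ Icc 0 K.l := ⟨K.l_pos.le, le_rfl⟩

/-- a point of the pendant arc which lies in `R` is the attachment point -/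
theorem eq_zero_of_mem {t : ℝ} (ht : t ∈ Icc 0 K.l) (h : K.c t ∈ K.R) : K.c t = K.c 0 := by
  have h1 := K.dist_R t ht _ h
  rw [dist_self] at h1
  have h2 : dist (K.c 0) (K.c t) = 0 := by
    have := dist_nonneg (x := K.c 0) (y := K.c t)
    linarith [ht.1]
  exact (dist_eq_zero.1 h2).symm

/-- R1: the retraction onto `R` -/
theorem exists_retract : ∃ ρ : Q → Q, LipschitzWith 1 ρ ∧ (∀ q ∈ K.R, ρ q = q) ∧
    (∀ t ∈ Icc 0 K.l, ρ (K.c t) = K.c 0) ∧ ∀ q, ρ q ∈ K.R := by
  classical
  have key : ∀ q q', q ∈ K.R → q' ∉ K.R → dist q (K.c 0) ≤ dist q q' := by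
    intro q q' hq hq'
    obtain ⟨t, ht, rfl⟩ := (K.cover q').resolve_left hq'
    rw [dist_comm q (K.c t), K.dist_R t ht q hq, dist_comm q]
    linarith [ht.1]
  refine ⟨fun q => if q ∈ K.R then q else K.c 0, ?_, ?_, ?_, ?_⟩
  · refine LipschitzWith.of_dist_le_mul fun q q' => ?_
    rw [NNReal.coe_one, one_mul]
    by_cases hq : q ∈ K.R <;> by_cases hq' : q' ∈ K.R
    · simp [hq, hq']
    · simpa [hq, hq'] using key q q' hq hq'
    · have := key q' q hq' hq
      simp only [hq, hq', if_true, if_false]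
      rw [dist_comm, dist_comm q]
      exact this
    · simp [hq, hq']
  · intro q hq
    simp [hq]
  · intro t ht
    by_cases h : K.c t ∈ K.R
    · simp only [h, if_true]
      exact K.eq_zero_of_mem ht h
    · simp [h]
  · intro q
    by_cases h : q ∈ K.R
    · simpa [h] using h
    · simpa [h] using K.zero_mem

/-- points at distance at most `l` from the leaf lie on the pendant arc -/
theorem dist_leaf_ge {q : Q} (hq : q ∈ K.R) : K.l ≤ dist q (K.c K.l) := by
  rw [dist_comm, K.dist_R _ K.l_mem_Icc q hq]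
  linarith [dist_nonneg (x := K.c 0) (y := q)]

theorem eq_zero_of_dist_le {q : Q} (hq : q ∈ K.R) (h : dist q (K.c K.l) ≤ K.l) : q = K.c 0 := by
  rw [dist_comm, K.dist_R _ K.l_mem_Icc q hq] at h
  have : dist (K.c 0) q = 0 := le_antisymm (by linarith) dist_nonneg
  exact (dist_eq_zero.1 this).symm

theorem retract_eq_zero {ρ : Q → Q} (hρR : ∀ q ∈ K.R, ρ q = q)
    (hρc : ∀ t ∈ Icc 0 K.l, ρ (K.c t) = K.c 0) {q : Q} (h : dist q (K.c K.l) ≤ K.l) :
    ρ q = K.c 0 := by
  rcases K.cover q with hq | ⟨t, ht, rfl⟩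
  · rw [hρR q hq]
    exact K.eq_zero_of_dist_le hq h
  · exact hρc t ht

theorem eq_zero_of_dist_eq {q : Q} (h : dist q (K.c K.l) = K.l) : q = K.c 0 := by
  rcases K.cover q with hq | ⟨t, ht, rfl⟩
  · exact K.eq_zero_of_dist_le hq h.le
  · rw [K.dist_c t ht _ K.l_mem_Icc, abs_of_nonpos (by linarith [ht.2])] at h
    have : t = 0 := by linarith
    rw [this]

/-- a path from the interior of the pendant arc reaches `R` only after the attachment point -/
theorem att_first {x : ℝ} (hx : x ∈ Ioo 0 K.l) {S : ℝ≥0 → Q}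
    (hS : LipschitzWith 1 S) (h0 : S 0 = K.c x) {u : ℝ≥0} (hu : S u ∈ K.R) :
    hit S (K.c 0) ≤ u := by
  have hcont : Continuous fun v : ℝ≥0 => dist (S v) (K.c K.l) :=
    hS.continuous.dist continuous_const
  have h1 : dist (S 0) (K.c K.l) ≤ K.l := by
    rw [h0, K.dist_c x ⟨hx.1.le, hx.2.le⟩ _ K.l_mem_Icc, abs_of_nonpos (by linarith [hx.2])]
    linarith [hx.1]
  have h2 : K.l ≤ dist (S u) (K.c K.l) := K.dist_leaf_ge hu
  obtain ⟨v, hv, hv'⟩ := intermediate_value_Icc (zero_le (a := u)) hcont.continuousOn ⟨h1, h2⟩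
  exact (hit_le (K.eq_zero_of_dist_eq hv')).trans (ENNReal.coe_le_coe.2 hv.2)

theorem of_hit {S : ℝ≥0 → Q} (hS : LipschitzWith 1 S) {H : Q} {T : ℝ≥0} (h : hit S H = T) :
    S T = H := by
  obtain ⟨t, ht, ht'⟩ := exists_hit hS.continuous (H := H) (by rw [h]; exact ENNReal.coe_ne_top)
  rw [h] at ht
  rw [ENNReal.coe_inj.1 ht]
  exact ht'

/-- R3': the leaf is reached at least `l` after the attachment point -/
theorem type1_time {x : ℝ} (hx : x ∈ Ioo 0 K.l) {S : ℝ≥0 → Q}
    (hS : LipschitzWith 1 S) (h0 : S 0 = K.c x) {TA TB : ℝ≥0} (hA : hit S (K.c 0) = TA)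
    (hB : hit S (K.c K.l) = TB) (hlt : TA < TB) : (TA : ℝ) + K.l ≤ TB := by
  have h1 := of_hit hS hA
  have h2 := of_hit hS hB
  have h3 := dist_le_sub hS hlt.le
  rw [h1, h2, K.dist_c 0 K.zero_mem_Icc _ K.l_mem_Icc, zero_sub, abs_neg,
    abs_of_pos K.l_pos] at h3
  linarith

/-- R2: a path from the interior of the pendant arc which visits the leaf first -/
theorem type0 {ρ : Q → Q} (hρ : LipschitzWith 1 ρ) (hρR : ∀ q ∈ K.R, ρ q = q)
    (hρc : ∀ t ∈ Icc 0 K.l, ρ (K.c t) = K.c 0) {x : ℝ} (hx : x ∈ Ioo 0 K.l) {S : ℝ≥0 → Q}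
    (hS : LipschitzWith 1 S) (h0 : S 0 = K.c x) {TA TB : ℝ≥0} (hA : hit S (K.c 0) = TA)
    (hB : hit S (K.c K.l) = TB) (hlt : TB < TA) :
    K.l - x ≤ TB ∧ 2 * K.l - x ≤ TA ∧ LipschitzWith 1 (fun t => ρ (S (TA + t))) ∧
      ρ (S (TA + 0)) = K.c 0 ∧
      ∀ q ∈ K.R, (TA : ℝ≥0∞) + hit (fun t => ρ (S (TA + t))) q ≤ hit S q := by
  have hSA := of_hit hS hA
  have hSB := of_hit hS hB
  have h1 : K.l - x ≤ TB := by
    have h3 := dist_le_sub hS (zero_le (a := TB))
    rw [h0, hSB, K.dist_c x ⟨hx.1.le, hx.2.le⟩ _ K.l_mem_Icc,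
      abs_of_nonpos (by linarith [hx.2])] at h3
    simp only [NNReal.coe_zero, sub_zero] at h3
    linarith
  refine ⟨h1, ?_, ?_, ?_, ?_⟩
  · have h3 := dist_le_sub hS hlt.le
    rw [hSA, hSB, dist_comm, K.dist_c 0 K.zero_mem_Icc _ K.l_mem_Icc, zero_sub, abs_neg,
      abs_of_pos K.l_pos] at h3
    linarith
  · have := hρ.comp (shift_lip hS TA)
    rw [mul_one] at this
    exact this
  · rw [add_zero, hSA]
    exact hρR _ K.zero_mem
  · intro q hq
    rw [le_hit_iff]
    intro u hu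
    have h2 := K.att_first hx hS h0 (u := u) (by rw [hu]; exact hq)
    rw [hA] at h2
    obtain ⟨t, rfl⟩ := exists_add_of_le (ENNReal.coe_le_coe.1 h2)
    have h3 : hit (fun t => ρ (S (TA + t))) q ≤ t := hit_le (by
      change ρ (S (TA + t)) = q
      rw [hu, hρR q hq])
    push_cast
    gcongr

/-- R3: a path from the interior of the pendant arc which visits the attachment point first; `s` is
the time between the two visits minus the length of the pendant arc -/
theorem type1 {ρ : Q → Q} (hρ : LipschitzWith 1 ρ) (hρR : ∀ q ∈ K.R, ρ q = q)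
    (hρc : ∀ t ∈ Icc 0 K.l, ρ (K.c t) = K.c 0) (hρm : ∀ q, ρ q ∈ K.R) {x : ℝ}
    (hx : x ∈ Ioo 0 K.l) {S : ℝ≥0 → Q}
    (hS : LipschitzWith 1 S) (h0 : S 0 = K.c x) {TA TB : ℝ≥0} (hA : hit S (K.c 0) = TA)
    (hB : hit S (K.c K.l) = TB) (hlt : TA < TB) {l s : ℝ≥0} (hl : (l : ℝ) = K.l)
    (hs : TB = TA + s + l) :
    x ≤ TA ∧
    LipschitzWith 1 (fun t => if t ≤ s then ρ (S (TA + t)) else ρ (S (TA + t + 2 * l))) ∧
    ρ (S (TA + s)) = K.c 0 ∧
    ∀ q ∈ K.R, (TA : ℝ≥0∞) +
      (hit (fun t => if t ≤ s then ρ (S (TA + t)) else ρ (S (TA + t + 2 * l))) q +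
        (if (s : ℝ≥0∞) < hit (fun t => if t ≤ s then ρ (S (TA + t)) else ρ (S (TA + t + 2 * l))) q
          then 2 * (l : ℝ≥0∞) else 0)) ≤ hit S q := by
  have hSA := of_hit hS hA
  have hSB := of_hit hS hB
  have hTB : (TB : ℝ) = TA + s + K.l := by rw [hs]; push_cast; rw [hl]
  have hleft : dist (S (TA + s)) (K.c K.l) ≤ K.l := by
    have h3 := dist_le_sub hS (s := TA + s) (t := TB) (by rw [hs]; exact le_self_add)
    rw [hSB] at h3
    push_cast at h3
    linarith
  have hright : dist (S (TA + s + 2 * l)) (K.c K.l) ≤ K.l := by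
    have h3 := dist_le_sub hS (s := TB) (t := TA + s + 2 * l) (by
      rw [hs, two_mul, ← add_assoc]; exact le_self_add)
    rw [hSB, dist_comm] at h3
    push_cast at h3
    linarith
  have hρleft := K.retract_eq_zero hρR hρc hleft
  have hρright := K.retract_eq_zero hρR hρc hright
  refine ⟨?_, ?_, hρleft, ?_⟩
  · have h3 := dist_le_sub hS (zero_le (a := TA))
    rw [h0, hSA, K.dist_c x ⟨hx.1.le, hx.2.le⟩ _ K.zero_mem_Icc, sub_zero,
      abs_of_pos hx.1] at h3
    simpa using h3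
  · have e : (fun t => if t ≤ s then ρ (S (TA + t)) else ρ (S (TA + t + 2 * l))) =
        glue (fun t => ρ (S (TA + t))) s (fun t => ρ (S (TA + s + 2 * l + t))) := by
      funext t
      unfold glue
      by_cases ht : t ≤ s
      · simp [ht]
      · simp only [ht, if_false]
        obtain ⟨b, rfl⟩ := exists_add_of_le (not_le.1 ht).le
        rw [add_tsub_cancel_left]
        congr 2
        ring
    rw [e]
    have l1 := hρ.comp (shift_lip hS TA)
    have l2 := hρ.comp (shift_lip hS (TA + s + 2 * l))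
    rw [mul_one] at l1 l2
    refine glue_lip l1 l2 ?_
    change ρ (S (TA + s)) = ρ (S (TA + s + 2 * l + 0))
    rw [add_zero, hρleft, hρright]
  · intro q hq
    set q1 : ℝ≥0 → Q := fun t => if t ≤ s then ρ (S (TA + t)) else ρ (S (TA + t + 2 * l)) with hq1
    rw [le_hit_iff]
    intro u hu
    have h2 := K.att_first hx hS h0 (u := u) (by rw [hu]; exact hq)
    rw [hA] at h2
    obtain ⟨t, rfl⟩ := exists_add_of_le (ENNReal.coe_le_coe.1 h2)
    rcases le_or_gt t s with hts | hts
    · have h3 : hit q1 q ≤ t := hit_le (by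
        rw [hq1]
        simp only [hts, if_true]
        rw [hu, hρR q hq])
      have h4 : ¬ ((s : ℝ≥0∞) < hit q1 q) :=
        not_lt.2 (h3.trans (ENNReal.coe_le_coe.2 hts))
      rw [if_neg h4, add_zero]
      push_cast
      gcongr
    · have h5 : K.l ≤ dist q (K.c K.l) := K.dist_leaf_ge hq
      have h6 : s + 2 * l ≤ t := by
        by_contra hcon
        push Not at hcon
        have hcon' : (t : ℝ) < s + 2 * K.l := by
          have : (t : ℝ) < ((s + 2 * l : ℝ≥0) : ℝ) := by exact_mod_cast hcon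
          push_cast at this
          rwa [hl] at this
        have hts' : (s : ℝ) < t := by exact_mod_cast hts
        have h7 := dist_le_of_lip hS (TA + t) TB
        rw [hu, hSB, NNReal.dist_eq, hTB] at h7
        push_cast at h7
        have h8 := h5.trans h7
        rcases le_abs.1 h8 with h9 | h9 <;> linarith
      obtain ⟨w, rfl⟩ := exists_add_of_le h6
      have h3 : hit q1 q ≤ (s + w : ℝ≥0) := by
        refine hit_le ?_
        rw [hq1]
        rcases eq_or_ne w 0 with rfl | hw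
        · simp only [add_zero, le_refl, if_true]
          rw [hρleft]
          rw [add_zero, ← add_assoc] at hu
          rw [hu] at hright
          exact (K.eq_zero_of_dist_le hq hright).symm
        · have : ¬ (s + w ≤ s) := by
            intro h'
            exact hw (le_antisymm (by simpa using h') zero_le)
          simp only [this, if_false]
          rw [show TA + (s + w) + 2 * l = TA + (s + 2 * l + w) by ring, hu, hρR q hq]
      calc (TA : ℝ≥0∞) + (hit q1 q + if (s : ℝ≥0∞) < hit q1 q then 2 * (l : ℝ≥0∞) else 0)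
          ≤ TA + ((s + w : ℝ≥0) + 2 * l) := by
            gcongr
            split_ifs
            · exact le_rfl
            · exact zero_le
        _ = ((TA + (s + 2 * l + w) : ℝ≥0) : ℝ≥0∞) := by push_cast; ring

end Pend

end Pool.Agent.Gal
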