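import Pool.Agent.Helper77.Gal.D2
import Pool.Agent.Helper77.Gal.Geo2

/-!
# T1, T2, T3: mass near a tip
-/

open Set MeasureTheory Filter Topology
open scoped ENNReal NNReal

namespace Pool.Agent.Gal

namespace Core

variable {Q : Type} [MetricSpace Q] [CompactSpace Q] [MeasurableSpace Q] [BorelSpace Q]
  {D : Core Q} {c : ℝ → Q} {L : ℝ}

/-- T1: mass to the left of a left tip of a good curve -/
theorem tip_mass (hA : D.Arc c L) {ω : D.Ω} (hω : D.Good ω) {y κ : ℝ} (hy : y ∈ Ioo 0 L)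
    (hκ : 0 < κ) (hyκ : y + κ ≤ L) (ht : D.Tip c y κ ω) {δ : ℝ≥0} (hδ : 0 < δ)
    (hδy : (δ : ℝ) < y) :
    ∀ᶠ m in atTop, (δ : ℝ≥0∞) ≤ 2 * (2 * D.v + 2 * D.C) * D.h m (c '' Ioc (y - δ) y) := by
  have hp := D.lip₁ ω
  obtain ⟨hs, hlim⟩ := hω
  obtain ⟨ht1, ht2⟩ := ht
  have hback := D.back ω
  rw [hs] at hback
  have h0 := D.start₁ ω
  have e2 : ((2 * D.v : ℝ≥0) : ℝ≥0∞) = 2 * (D.v : ℝ≥0∞) := by push_cast; rfl
  rw [← e2] at ht1
  have ht2' : ∀ z ∈ Ioo y (y + κ), ((2 * D.v : ℝ≥0) : ℝ≥0∞) < hit (D.P₁ ω) (c z) := by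
    intro z hz
    rw [e2]
    exact ht2 z hz
  set p := D.P₁ ω with hpdef
  set s := 2 * D.v with hsdef
  obtain ⟨a, b, hab, hbs, hpa, hpb, hin⟩ := left_tip hA.chart hp
    (by rw [h0]; exact hA.A_out) (by rw [hback]; exact hA.A_out) hy hκ hyκ ht1 ht2' hδ hδy
  have hpab : p a = p b := by rw [hpa, hpb]
  have hq := cut_lip hp hpab
  have hglue : p a = shift p b 0 := by rw [shift_zero', hpab]
  have hq0 : cut p a b 0 = D.A := by
    unfold cut
    rw [glue_zero, h0]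
  have hqs : cut p a b (a + (s - b)) = D.A := by
    unfold cut
    rw [glue_add hglue]
    simp only [shift]
    rw [add_tsub_cancel_of_le hbs, hback]
  have hle : a + (s - b) + 2 * δ ≤ 2 * D.v := by
    calc a + (s - b) + 2 * δ = (a + 2 * δ) + (s - b) := by ring
      _ ≤ b + (s - b) := by gcongr
      _ = 2 * D.v := add_tsub_cancel_of_le hbs
  have hcut := D.cut_mass hq hq0 hqs hδ hle
  have hsub : unc (cut p a b) (a + (s - b)) ⊆ unc p s ∪ c '' Ioc (y - δ) y := by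
    intro H hH
    have hH' := (lt_hit_iff hq.continuous).1 hH
    by_contra hcon
    rw [mem_union, not_or] at hcon
    obtain ⟨hc1, hc2⟩ := hcon
    have hle' : hit p H ≤ s := not_lt.1 hc1
    obtain ⟨t, hts, htH⟩ := (hit_le_iff hp.continuous).1 hle'
    rcases le_or_gt t a with hta | hta
    · refine hH' t (hta.trans le_self_add) ?_
      unfold cut
      rw [glue_of_le hta, htH]
    rcases le_or_gt b t with hbt | hbt
    · refine hH' (a + (t - b)) (by gcongr) ?_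
      unfold cut
      rw [glue_add hglue]
      simp only [shift]
      rw [add_tsub_cancel_of_le hbt, htH]
    · obtain ⟨z, hz, hz'⟩ := hin t ⟨hta.le, hbt.le⟩
      rcases hz.1.eq_or_lt with h | h
      · refine hH' a le_self_add ?_
        unfold cut
        rw [glue_of_le le_rfl, hpa, h, hz', htH]
      · exact hc2 ⟨z, ⟨h, hz.2⟩, by rw [hz', htH]⟩
  have hδ' : (0 : ℝ≥0∞) < δ / 2 := ENNReal.div_pos (by exact_mod_cast hδ.ne') (by norm_num)
  have hlim2 : Tendsto (fun m => (2 * D.v + 2 * D.C) * D.h m (unc p s)) atTop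
      (𝓝 ((2 * D.v + 2 * D.C) * 0)) :=
    ENNReal.Tendsto.const_mul hlim (Or.inr (by finiteness))
  rw [mul_zero] at hlim2
  filter_upwards [hcut, hlim2.eventually_le_const hδ'] with m hm1 hm2
  have h1 : (δ : ℝ≥0∞) / 2 + δ / 2 ≤
      (2 * D.v + 2 * D.C) * D.h m (c '' Ioc (y - δ) y) + δ / 2 := by
    rw [ENNReal.add_halves]
    calc (δ : ℝ≥0∞) ≤ (2 * D.v + 2 * D.C) * D.h m (unc (cut p a b) (a + (s - b))) := hm1
      _ ≤ (2 * D.v + 2 * D.C) * (D.h m (unc p s) + D.h m (c '' Ioc (y - δ) y)) := by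
        gcongr
        exact (measure_mono hsub).trans (measure_union_le _ _)
      _ = (2 * D.v + 2 * D.C) * D.h m (c '' Ioc (y - δ) y) +
          (2 * D.v + 2 * D.C) * D.h m (unc p s) := by ring
      _ ≤ _ := by gcongr
  have h2 : (δ : ℝ≥0∞) / 2 ≤ (2 * D.v + 2 * D.C) * D.h m (c '' Ioc (y - δ) y) :=
    (ENNReal.add_le_add_iff_right (by finiteness)).1 h1
  calc (δ : ℝ≥0∞) = 2 * (δ / 2) := by rw [ENNReal.mul_div_cancel (by norm_num) (by norm_num)]
    _ ≤ 2 * ((2 * D.v + 2 * D.C) * D.h m (c '' Ioc (y - δ) y)) := by gcongr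
    _ = _ := by ring

/-- T2: the tip of a good curve belongs to every good curve -/
theorem tip_mem (hA : D.Arc c L) {ω : D.Ω} (hω : D.Good ω) {y κ : ℝ} (hy : y ∈ Ioo 0 L)
    (hκ : 0 < κ) (hyκ : y + κ ≤ L) (ht : D.Tip c y κ ω) {ω' : D.Ω} (hω' : D.Good ω') :
    hit (D.P₁ ω') (c y) ≤ 2 * D.v := by
  by_contra hcon
  rw [not_le] at hcon
  have hlsc := lowerSemicontinuous_hit (D.lip₁ ω').continuous (c y) _ hcon
  have hcont : ContinuousWithinAt c (Icc 0 L) y := hA.chart.continuousOn y ⟨hy.1.le, hy.2.le⟩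
  have hcont' : ContinuousAt c y := hcont.continuousAt (Icc_mem_nhds hy.1 hy.2)
  have hev : ∀ᶠ z in 𝓝 y, 2 * (D.v : ℝ≥0∞) < hit (D.P₁ ω') (c z) := hcont'.eventually hlsc
  obtain ⟨r, hr, hball⟩ := Metric.eventually_nhds_iff.1 hev
  obtain ⟨δ, hδ, hδr⟩ : ∃ δ : ℝ≥0, 0 < δ ∧ (δ : ℝ) < min r y := by
    obtain ⟨δ, hδ0, hδ1⟩ := exists_between (lt_min hr hy.1)
    exact ⟨⟨δ, hδ0.le⟩, hδ0, hδ1⟩
  obtain ⟨hδr, hδy⟩ := lt_min_iff.1 hδr
  have hmass := tip_mass hA hω hy hκ hyκ ht hδ hδy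
  have hsub : c '' Ioc (y - δ) y ⊆ unc (D.P₁ ω') (2 * D.v) := by
    rintro _ ⟨z, hz, rfl⟩
    have : dist z y < r := by
      rw [Real.dist_eq, abs_sub_comm, abs_of_nonneg (by linarith [hz.2])]
      linarith [hz.1]
    have h1 := hball this
    change ((2 * D.v : ℝ≥0) : ℝ≥0∞) < hit (D.P₁ ω') (c z)
    push_cast
    exact h1
  have hlim : Tendsto (fun m => 2 * (2 * D.v + 2 * D.C) * D.h m (unc (D.P₁ ω') (2 * D.v))) atTop
      (𝓝 (2 * (2 * D.v + 2 * D.C) * 0)) :=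
    ENNReal.Tendsto.const_mul hω'.2 (Or.inr (by finiteness))
  rw [mul_zero] at hlim
  have h3 : (δ : ℝ≥0∞) ≤ 0 := by
    refine ge_of_tendsto hlim ?_
    filter_upwards [hmass] with m hm
    refine hm.trans ?_
    gcongr
  have h4 : (0 : ℝ≥0∞) < δ := by exact_mod_cast hδ
  exact absurd h3 (not_le.2 h4)

/-- T3: the gap of a good curve has asymptotically no mass -/
theorem gap_mass (hA : D.Arc c L) {ω : D.Ω} (hω : D.Good ω) {y κ : ℝ} (ht : D.Tip c y κ ω) :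
    Tendsto (fun m => D.h m (c '' Ioo y (y + κ))) atTop (𝓝 0) := by
  have _ := hA
  refine tendsto_of_tendsto_of_tendsto_of_le_of_le tendsto_const_nhds hω.2 (fun m => zero_le)
    fun m => measure_mono ?_
  rintro _ ⟨z, hz, rfl⟩
  have h1 := ht.2 z hz
  change ((2 * D.v : ℝ≥0) : ℝ≥0∞) < hit (D.P₁ ω) (c z)
  push_cast
  exact h1

end Core

end Pool.Agent.Gal
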